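import Pool.Agent.V8H95.EF.Par

/-!
Choice of the constants.
-/

set_option autoImplicit false
set_option linter.unusedVariables false

namespace Pool.Agent.V8H95.NM

open Pool.Agent.V8H95.EF
open Pool.Agent.V8H99.AD (scl scl_ge)

theorem consts3 (ε : ℝ) (hε : 0 < ε) (hε1 : ε ≤ 1) :
    ∃ (J : ℕ) (K s e5 ϑ β θ q0 CM s1 K1 : ℝ),
      6 ≤ J * ε ∧ 1 ≤ K ∧ J * (12 / K ^ 2 + 2 * θ ^ 2) ≤ 1 / 2 ∧ 0 < s ∧ s ≤ 1 ∧ 0 < e5 ∧
      2 * J * (s ^ 3 + 6 ^ 3 * K ^ 3 * e5 * (2 / ε)) ≤ ε / (28 * ((3 : ℕ) : ℝ)) ^ 3 ∧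
      0 < ϑ ∧ ϑ ≤ 1 / 3000 ∧ ϑ * K ≤ 1 ∧ 0 < β ∧ 0 < θ ∧ θ ≤ ϑ ∧
      0 < q0 ∧ q0 ≤ 1 ∧ 7 * ((3 : ℕ) : ℝ) * K * q0 ≤ s ∧
      CM = ((3 : ℕ) : ℝ) * 2 ^ (3 + 1) / ϑ + 1 ∧
      2 * ϑ ^ 2 + 8 * ((3 : ℕ) : ℝ) ^ 2 * K ^ 2 / s ^ 2 *
        ((83 + 160 * ((3 : ℕ) : ℝ)) * ϑ + 40 * ((3 : ℕ) : ℝ) * β) ≤ e5 / 2 ∧
      0 < s1 ∧ s1 ≤ 1 ∧ 1 ≤ K1 ∧
      2 * (8 * K ^ 2 + 12) / K1 ^ 2 ≤ q0 ^ J * β ^ 2 / 128 ∧
      2 * θ ^ 2 ≤ q0 ^ J * β ^ 2 / 128 ∧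
      ((s1 + ϑ * K / 3) / (s / 2) + θ) ^ 2 ≤ q0 ^ J * β ^ 2 / 128 := by
  obtain ⟨J, K, s, e5, ϑ0, β, θ0, q0, cT, CM0, k1, a1, a2, a3, a4, a5, a6, a7, a8, a9, a10, a11,
    a12, a13, a14, a15, a16, a17, a18, a19, a20, a21, a22, a23, a24, a25, a26, a27, a28⟩ :=
    consts 3 le_rfl ε 1 hε hε1 le_rfl
  obtain ⟨B, hB⟩ : ∃ B : ℝ, B = q0 ^ J * β ^ 2 / 128 := ⟨_, rfl⟩
  have hB0 : 0 < B := by rw [hB]; positivity
  obtain ⟨γ, hγ⟩ : ∃ γ : ℝ, γ = min 1 (B / 9) := ⟨_, rfl⟩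
  have hγ0 : 0 < γ := by rw [hγ]; positivity
  have hγ1 : γ ≤ 1 := by rw [hγ]; exact min_le_left _ _
  have hγB : γ ≤ B / 9 := by rw [hγ]; exact min_le_right _ _
  have hK0 : 0 < K := by linarith
  obtain ⟨ϑ, hϑ⟩ : ∃ ϑ : ℝ, ϑ = min ϑ0 (min (1 / 3000) (3 * s * γ / (2 * K))) := ⟨_, rfl⟩
  have hϑp : 0 < ϑ := by rw [hϑ]; positivity
  have hϑ1 : ϑ ≤ ϑ0 := by rw [hϑ]; exact min_le_left _ _
  have hϑ2 : ϑ ≤ 1 / 3000 := by rw [hϑ]; exact (min_le_right _ _).trans (min_le_left _ _)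
  have hϑ3 : ϑ ≤ 3 * s * γ / (2 * K) := by
    rw [hϑ]; exact (min_le_right _ _).trans (min_le_right _ _)
  obtain ⟨θ, hθ⟩ : ∃ θ : ℝ, θ = min θ0 (min ϑ γ) := ⟨_, rfl⟩
  have hθp : 0 < θ := by rw [hθ]; positivity
  have hθ1 : θ ≤ θ0 := by rw [hθ]; exact min_le_left _ _
  have hθ2 : θ ≤ ϑ := by rw [hθ]; exact (min_le_right _ _).trans (min_le_left _ _)
  have hθ3 : θ ≤ γ := by rw [hθ]; exact (min_le_right _ _).trans (min_le_right _ _)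
  refine ⟨J, K, s, e5, ϑ, β, θ, q0, ((3 : ℕ) : ℝ) * 2 ^ (3 + 1) / ϑ + 1, s * γ / 4,
    1 + 40 * K ^ 2 / B, a1, a2, ?_, a4, a5, a6, a7, hϑp, hϑ2, ?_, a11, hθp, hθ2, a15, a16, a17,
    rfl, ?_, by positivity, ?_, ?_, ?_, ?_, ?_⟩
  · refine le_trans ?_ a3
    gcongr
  · refine le_trans ?_ a10
    gcongr
  · refine le_trans ?_ a26
    gcongr
  · calc s * γ / 4 ≤ 1 * 1 / 4 := by gcongr
      _ ≤ 1 := by norm_num
  · have : 0 ≤ 40 * K ^ 2 / B := by positivity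
    linarith
  · rw [← hB, div_le_iff₀ (by positivity)]
    have h1 : 0 ≤ 40 * K ^ 2 / B := by positivity
    have h2 : 40 * K ^ 2 / B ≤ (1 + 40 * K ^ 2 / B) ^ 2 := by nlinarith
    have h3 : 1 ≤ K ^ 2 := one_le_pow₀ a2
    calc 2 * (8 * K ^ 2 + 12) ≤ 40 * K ^ 2 := by linarith
      _ = B * (40 * K ^ 2 / B) := by field_simp
      _ ≤ _ := by gcongr
  · rw [← hB]
    calc 2 * θ ^ 2 ≤ 2 * γ ^ 2 := by gcongr
      _ ≤ 2 * γ := by nlinarith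
      _ ≤ B := by linarith
  · rw [← hB]
    have h1 : (s * γ / 4 + ϑ * K / 3) / (s / 2) ≤ 3 / 2 * γ := by
      rw [div_le_iff₀ (by positivity)]
      rw [le_div_iff₀ (by positivity)] at hϑ3
      nlinarith
    calc ((s * γ / 4 + ϑ * K / 3) / (s / 2) + θ) ^ 2 ≤ (3 / 2 * γ + γ) ^ 2 := by gcongr
      _ = 25 / 4 * (γ * γ) := by ring
      _ ≤ 25 / 4 * (1 * γ) := by gcongr
      _ ≤ B := by linarith

/-- lower bound for the scale -/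
theorem scl3_ge (c lam a1 : ℝ) (hc : 0 < c) (hlam : 0 < lam) (hl : lam ≤ 1 / 3) (ha : 0 < a1) :
    c * a1 * lam ^ a1 / lam ^ 2 ≤ scl 3 c (1 / lam) := by
  have hx : 0 < lam ^ a1 := Real.rpow_pos_of_pos hlam _
  have h3 : 3 ≤ 1 / lam := by rw [le_div_iff₀ hlam]; linarith
  have hlog : 0 < Real.log (1 / lam) := Real.log_pos (by linarith)
  have h1 : Real.log (1 / lam) ≤ 1 / (a1 * lam ^ a1) := by
    have h2 : Real.log (1 / lam ^ a1) = a1 * Real.log (1 / lam) := by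
      rw [one_div, one_div, Real.log_inv, Real.log_inv, Real.log_rpow hlam]
      ring
    have h4 : Real.log (1 / lam ^ a1) ≤ 1 / lam ^ a1 := by
      have := Real.log_le_sub_one_of_pos (show 0 < 1 / lam ^ a1 by positivity)
      linarith
    rw [h2] at h4
    rw [le_div_iff₀ (by positivity)]
    rw [le_div_iff₀ hx] at h4
    linarith
  unfold scl
  rw [if_pos rfl]
  rw [div_pow, one_pow, mul_one_div, div_div]
  calc c * a1 * lam ^ a1 / lam ^ 2 = c / (lam ^ 2 * (1 / (a1 * lam ^ a1))) := by field_simp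
    _ ≤ c / (lam ^ 2 * Real.log (1 / lam)) := by gcongr

/-- lower bound for the scale of the event -/
theorem scl3_ge' (k' r lam a1 : ℝ) (hk : 0 < k') (hr : 0 < r) (hr1 : r ≤ 1) (hlam : 0 < lam)
    (hl : lam ≤ 1 / 3) (hlr : 3 * lam ≤ r) (ha : 0 < a1) :
    k' * r ^ 2 * a1 * lam ^ a1 / lam ^ 2 ≤ scl 3 k' (r / lam) := by
  have h1 := scl3_ge (k' * r ^ 2) lam a1 (by positivity) hlam hl ha
  refine h1.trans ?_
  unfold scl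
  rw [if_pos rfl, if_pos rfl]
  have h3 : 3 ≤ r / lam := by rw [le_div_iff₀ hlam]; linarith
  have hlog : 0 < Real.log (r / lam) := Real.log_pos (by linarith)
  have h4 : Real.log (r / lam) ≤ Real.log (1 / lam) := by
    apply Real.log_le_log (by positivity)
    gcongr
  calc k' * r ^ 2 * (1 / lam) ^ 2 / Real.log (1 / lam) ≤
      k' * r ^ 2 * (1 / lam) ^ 2 / Real.log (r / lam) := by gcongr
    _ = _ := by
        field_simp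

/-- upper bound for the scale -/
theorem scl3_le (k r lam : ℝ) (hk : 0 < k) (hr : 0 < r) (hr1 : r ≤ 1) (hlam : 0 < lam)
    (hlr : 3 * lam ≤ r) (hkl : k * lam ≤ 1) :
    scl 3 k (r / lam) ≤ 1 / lam ^ 3 := by
  unfold scl
  rw [if_pos rfl]
  have h3 : 3 ≤ r / lam := by rw [le_div_iff₀ hlam]; linarith
  have hlog : 1 ≤ Real.log (r / lam) := by
    rw [Real.le_log_iff_exp_le (by linarith)]
    have := Real.exp_one_lt_d9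
    linarith
  calc k * (r / lam) ^ 2 / Real.log (r / lam) ≤ k * (1 / lam) ^ 2 / 1 := by gcongr
    _ = (k * lam) * (1 / lam ^ 3) := by field_simp
    _ ≤ 1 * (1 / lam ^ 3) := by gcongr
    _ = _ := one_mul _

end Pool.Agent.V8H95.NM
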