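import Pool.Agent.V8H95.NM.Par5
import Pool.Agent.V8H95.NM.Par6
import Pool.Agent.V8H95.EF.Fin

/-!
The theorem in dimension three up to the mean free path.
-/

set_option autoImplicit false
set_option linter.unusedSectionVars false
set_option linter.unusedVariables false

open Complex MeasureTheory
open scoped BigOperators ComplexConjugate

namespace Pool.Agent.V8H95.NM

open Pool.Agent.H4R2.AE Pool.Agent.V8H99.AD Pool.Agent.V8H95.MF Pool.Agent.V8H95.BW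
open Pool.Agent.V8H95.EF

theorem smallx (l : List ℝ) : ∃ x0 : ℝ, 0 < x0 ∧ ∀ x, 0 < x → x ≤ x0 → ∀ C ∈ l, C * x ≤ 1 := by
  induction l with
  | nil => exact ⟨1, one_pos, fun x _ _ C hC => absurd hC (by simp)⟩
  | cons c l ih =>
    obtain ⟨x0, hx0, h⟩ := ih
    refine ⟨min x0 (1 / (|c| + 1)), by positivity, ?_⟩
    intro x hx hx1 C hC
    rcases List.mem_cons.1 hC with rfl | hC
    · have h1 : x ≤ 1 / (|C| + 1) := hx1.trans (min_le_right _ _)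
      rw [le_div_iff₀ (by positivity)] at h1
      have h2 := le_abs_self C
      nlinarith
    · exact h x hx (hx1.trans (min_le_left _ _)) C hC

/-- the exponents -/
theorem expo (a : ℝ) (ha : 0 < a) (ha1 : a ≤ 1) (Q : ℕ) : ∃ Jb bq : ℕ, 1 ≤ Jb ∧ 1 ≤ bq ∧
    ∀ lam : ℝ, 0 < lam → lam ≤ 1 → ((lam ^ (a / 16)) ^ Jb ≤ lam ^ 2 ∧
      (lam ^ (a / 16)) ^ (2 ^ (bq - 1)) ≤ lam ^ Q) := by
  refine ⟨⌈2 / (a / 16)⌉₊, ⌈(Q : ℝ) / (a / 16)⌉₊ + 1, ?_, by omega, ?_⟩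
  · have : 0 < 2 / (a / 16) := by positivity
    exact Nat.ceil_pos.2 this
  · intro lam hlam hl1
    constructor
    · rw [← Real.rpow_natCast, ← Real.rpow_mul hlam.le, ← Real.rpow_natCast lam 2]
      apply Real.rpow_le_rpow_of_exponent_ge hlam hl1
      have h1 := Nat.le_ceil (2 / (a / 16))
      rw [div_le_iff₀ (by positivity)] at h1
      push_cast
      linarith
    · rw [← Real.rpow_natCast, ← Real.rpow_mul hlam.le, ← Real.rpow_natCast lam Q]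
      apply Real.rpow_le_rpow_of_exponent_ge hlam hl1
      have h1 := Nat.le_ceil ((Q : ℝ) / (a / 16))
      rw [div_le_iff₀ (by positivity)] at h1
      have h2 : ⌈(Q : ℝ) / (a / 16)⌉₊ ≤ 2 ^ (⌈(Q : ℝ) / (a / 16)⌉₊ + 1 - 1) := by
        rw [Nat.add_sub_cancel]
        exact Nat.lt_two_pow_self.le
      have h3 : ((⌈(Q : ℝ) / (a / 16)⌉₊ : ℕ) : ℝ) ≤
          ((2 ^ (⌈(Q : ℝ) / (a / 16)⌉₊ + 1 - 1) : ℕ) : ℝ) := by exact_mod_cast h2
      have h4 : 0 < a / 16 := by positivity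
      nlinarith

theorem final3 (N : ℕ) (a ε c : ℝ) (ha : 0 < a) (ha1 : a ≤ 1) (hε : 0 < ε) (hε1 : ε ≤ 1)
    (hc : 0 < c) :
    ∃ k lam0 : ℝ, 0 < k ∧ 0 < lam0 ∧
    ∀ (μ : Measure ℝ) [IsProbabilityMeasure μ], μ (Set.Icc (-1) 1)ᶜ = 0 →
    ∀ lam : ℝ, 0 < lam → lam ≤ lam0 → ∀ (L : ℕ) [NeZero L],
    scl 3 c (1 / lam) ^ (3 + 1) ≤ L → (L : ℝ) ≤ scl 3 c (1 / lam) ^ N →
    ∀ κ : ℝ, lam ^ (2 - a) ≤ κ → κ ≤ k →
    ∃ G : Set (T 3 L → ℝ), MeasurableSet G ∧ 1 - ε ≤ (Measure.pi fun _ : T 3 L => μ).real G ∧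
      ∀ V ∈ G, ∀ (b : OrthonormalBasis (T 3 L) ℂ (XT 3 L)) (E : T 3 L → ℝ),
        (∀ α, HC lam V (b α) = ((E α : ℝ) : ℂ) • b α) →
        k * (κ * L) ^ 3 ≤ ((win E κ).card : ℝ) ∧
        ∀ S : Finset (T 3 L), S ⊆ win E κ → (∀ α ∈ S, ∃ x0 : T 3 L,
          ε < ‖rs (fun x => (nn (x - x0) : ℝ) ≤ lam ^ (a - 2)) (b α)‖ ^ 2) →
          (S.card : ℝ) ≤ ε * ((win E κ).card : ℝ) := by
  obtain ⟨N2, hN2⟩ : ∃ N2 : ℕ, N2 = 3 * N := ⟨_, rfl⟩
  obtain ⟨Q, hQ⟩ : ∃ Q : ℕ, Q = 6 * N2 + 20 := ⟨_, rfl⟩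
  obtain ⟨Jb, bq, hJb, hbq, hexp⟩ := expo a ha ha1 Q
  obtain ⟨g0, hg0⟩ : ∃ g0 : ℕ, g0 = bq * Jb := ⟨_, rfl⟩
  obtain ⟨p, hp⟩ : ∃ p : ℕ, p = (3 * N2 + 40) * 2 ^ g0 := ⟨_, rfl⟩
  have hpN : 3 * N2 + 40 ≤ p := by
    have hg1 : 1 ≤ 2 ^ g0 := Nat.one_le_two_pow
    have : (3 * N2 + 40) * 1 ≤ (3 * N2 + 40) * 2 ^ g0 := Nat.mul_le_mul_left _ hg1
    omega
  obtain ⟨Cg, Cs, A, hCg, hCs, hA, hGG, hIN, hRC⟩ := consts_exist g0
  obtain ⟨J, K, s, e5, ϑ, β, θ, q0, CM, s1, K1, a1, a2, a3, a4, a5, a6, a7, a8, a9, a10, a11, a12,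
    a13, a14, a15, a16, a17, a18, a19, a20, a21, a22, a23, a24⟩ := consts3 ε hε hε1
  obtain ⟨k', K', hk', hK', HE⟩ := torus_event 3 le_rfl p
  have hK0 := K0_ge g0
  have hCM0 : 0 < CM := by rw [a17]; positivity
  have hKp : 0 < K := by linarith
  have hK1p : 0 < K1 := by linarith
  have hAp : 0 < A := by linarith
  have hqJ : 0 < q0 ^ J := by positivity
  obtain ⟨B1, hB1⟩ : ∃ B1 : ℝ, B1 = q0 ^ J * β ^ 2 / 128 := ⟨_, rfl⟩
  have hB10 : 0 < B1 := by rw [hB1]; positivity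
  obtain ⟨C7, hC7⟩ : ∃ C7 : ℝ, C7 = 8 * ((3 : ℕ) : ℝ) ^ 2 / s ^ 2 * ((1 + 2 / ϑ) *
    (2 * ((3 : ℕ) : ℝ) * CM ^ 2 + ((3 : ℕ) : ℝ) / (2 * ϑ))) := ⟨_, rfl⟩
  have hC70 : 0 < C7 := by rw [hC7]; positivity
  obtain ⟨x0, hx0, hsm⟩ := smallx [2 / s1, 2 * K1, 4 * Cg, 8 * (Jb + 2), 400 / θ,
    4 * K0 g0 + 4 + 4 * (Jb + 1) * K0 g0, (4 * A * (2 * K1) + 800) / ϑ ^ 2,
    4 * Cs * K0 g0 * A * (2 * K1), 4 * Cs * (Jb + 1) * K0 g0, 2 / s,
    12 * (1 + CM) / (q0 ^ J * s), 5000, 18874368 * ((3 : ℕ) : ℝ) / ϑ,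
    C7 / (q0 ^ J) ^ 2 * (4 / e5), 4 * A * (2 * K1) / B1, 1 / B1, 4 / s1 ^ 2 / B1, 4 / e5,
    8 * CM, 4 * K' / θ, 12 / θ, k', c, 1 / (k' * (θ / 4) ^ 2 * (a / 16)), 1 / (c * (a / 16)), 2 / ε]
  obtain ⟨k, hk⟩ : ∃ k : ℝ, k = min (min (1 / (A * (2 * K1))) (ϑ / K)) ((1 / (28 * 3)) ^ 3) :=
    ⟨_, rfl⟩
  have hk0 : 0 < k := by rw [hk]; positivity
  have hka : k ≤ 1 / (A * (2 * K1)) := by rw [hk]; exact (min_le_left _ _).trans (min_le_left _ _)
  have hkb : k ≤ ϑ / K := by rw [hk]; exact (min_le_left _ _).trans (min_le_right _ _)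
  have hkc : k ≤ (1 / (28 * 3)) ^ 3 := by rw [hk]; exact min_le_right _ _
  have ha16 : 0 < a / 16 := by positivity
  refine ⟨k, min 1 (x0 ^ (1 / (a / 16))), hk0, by positivity, ?_⟩
  intro μ _ hμ lam hlam hlam0 L _ hL1 hL2 κ hκ1 hκ2
  have hl1 : lam ≤ 1 := hlam0.trans (min_le_left _ _)
  obtain ⟨x, hx⟩ : ∃ x : ℝ, x = lam ^ (a / 16) := ⟨_, rfl⟩
  have hxp : 0 < x := by rw [hx]; positivity
  have hxx0 : x ≤ x0 := by
    rw [hx]
    have h1 : lam ^ (a / 16) ≤ (x0 ^ (1 / (a / 16))) ^ (a / 16) :=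
      Real.rpow_le_rpow hlam.le (hlam0.trans (min_le_right _ _)) ha16.le
    rwa [← Real.rpow_mul hx0.le, one_div_mul_cancel ha16.ne', Real.rpow_one] at h1
  have hS := hsm x hxp hxx0
  have s01 : 2 / s1 * x ≤ 1 := hS _ (by simp)
  have s02 : 2 * K1 * x ≤ 1 := hS _ (by simp)
  have s03 : 4 * Cg * x ≤ 1 := hS _ (by simp)
  have s04 : 8 * (Jb + 2) * x ≤ 1 := hS _ (by simp)
  have s05 : 400 / θ * x ≤ 1 := hS _ (by simp)
  have s06 : (4 * K0 g0 + 4 + 4 * (Jb + 1) * K0 g0) * x ≤ 1 := hS _ (by simp)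
  have s07 : (4 * A * (2 * K1) + 800) / ϑ ^ 2 * x ≤ 1 := hS _ (by simp)
  have s08 : 4 * Cs * K0 g0 * A * (2 * K1) * x ≤ 1 := hS _ (by simp)
  have s09 : 4 * Cs * (Jb + 1) * K0 g0 * x ≤ 1 := hS _ (by simp)
  have s10 : 2 / s * x ≤ 1 := hS _ (by simp)
  have s11 : 12 * (1 + CM) / (q0 ^ J * s) * x ≤ 1 := hS _ (by simp)
  have s12 : 5000 * x ≤ 1 := hS _ (by simp)
  have s13 : 18874368 * ((3 : ℕ) : ℝ) / ϑ * x ≤ 1 := hS _ (by simp)
  have s14 : C7 / (q0 ^ J) ^ 2 * (4 / e5) * x ≤ 1 := hS _ (by simp)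
  have s15 : 4 * A * (2 * K1) / B1 * x ≤ 1 := hS _ (by simp)
  have s16 : 1 / B1 * x ≤ 1 := hS _ (by simp)
  have s17 : 4 / s1 ^ 2 / B1 * x ≤ 1 := hS _ (by simp)
  have s18 : 4 / e5 * x ≤ 1 := hS _ (by simp)
  have s19 : 8 * CM * x ≤ 1 := hS _ (by simp)
  have s20 : 4 * K' / θ * x ≤ 1 := hS _ (by simp)
  have s21 : 12 / θ * x ≤ 1 := hS _ (by simp)
  have s22 : k' * x ≤ 1 := hS _ (by simp)
  have s23 : c * x ≤ 1 := hS _ (by simp)
  have s24 : 1 / (k' * (θ / 4) ^ 2 * (a / 16)) * x ≤ 1 := hS _ (by simp)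
  have s25 : 1 / (c * (a / 16)) * x ≤ 1 := hS _ (by simp)
  have s26 : 2 / ε * x ≤ 1 := hS _ (by simp)
  clear hS hsm
  have hx1 : x ≤ 1 := by rw [hx]; exact Real.rpow_le_one hlam.le hl1 ha16.le
  have hx16 : x ^ 16 = lam ^ a := by
    rw [hx, ← Real.rpow_natCast, ← Real.rpow_mul hlam.le]
    congr 1
    push_cast
    ring
  have hlx16 : lam ≤ x ^ 16 := by
    rw [hx16]
    calc lam = lam ^ (1 : ℝ) := (Real.rpow_one lam).symm
      _ ≤ lam ^ a := Real.rpow_le_rpow_of_exponent_ge hlam hl1 ha1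
  obtain ⟨hxJ, hxb⟩ := hexp lam hlam hl1
  rw [← hx] at hxJ hxb
  have hpw : ∀ n m : ℕ, m ≤ n → x ^ n ≤ x ^ m := fun n m hnm =>
    pow_le_pow_of_le_one hxp.le hx1 hnm
  have hlx8 : lam ≤ x ^ 8 := hlx16.trans (hpw 16 8 (by norm_num))
  have hlx2 : lam ≤ x ^ 2 := hlx16.trans (hpw 16 2 (by norm_num))
  have hlx : lam ≤ x := by
    have := hlx16.trans (hpw 16 1 (by norm_num))
    rwa [pow_one] at this
  have hl5 : lam ≤ 1 / 5000 := by linarith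
  have hκ0 : 0 < κ := lt_of_lt_of_le (Real.rpow_pos_of_pos hlam _) hκ1
  have hrp : lam ^ (2 - a) = lam ^ 2 / x ^ 16 := by
    rw [hx16, Real.rpow_sub hlam, Real.rpow_ofNat]
  have hrp2 : lam ^ (a - 2) = x ^ 16 / lam ^ 2 := by
    rw [hx16, Real.rpow_sub hlam, Real.rpow_ofNat]
  have hklo : lam ^ 2 ≤ κ * x ^ 16 := by
    rw [hrp, div_le_iff₀ (by positivity)] at hκ1
    exact hκ1
  -- the scales
  obtain ⟨ℓ, hℓ⟩ : ∃ ℓ, ℓ = scl 3 c (1 / lam) := ⟨_, rfl⟩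
  obtain ⟨ℓ', hℓ'⟩ : ∃ ℓ', ℓ' = scl 3 k' (θ / 4 / lam) := ⟨_, rfl⟩
  have hθ4 : θ / 4 ≤ 1 / 8 := by linarith
  have t20 : 4 * K' * x ≤ θ := by
    rw [div_mul_eq_mul_div, div_le_one a12] at s20
    exact s20
  have t21 : 12 * x ≤ θ := by
    rw [div_mul_eq_mul_div, div_le_one a12] at s21
    exact s21
  have h3l : 3 * lam ≤ θ / 4 := by linarith
  have hKl : K' * lam ≤ θ / 4 := by
    have : K' * lam ≤ K' * x := by gcongr
    linarith
  have t25 : x ≤ c * (a / 16) := by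
    rw [div_mul_eq_mul_div, div_le_one (by positivity)] at s25
    linarith
  have t24 : x ≤ k' * (θ / 4) ^ 2 * (a / 16) := by
    rw [div_mul_eq_mul_div, div_le_one (by positivity)] at s24
    linarith
  have g1 : x ^ 2 / lam ^ 2 ≤ ℓ := by
    have h1 := scl3_ge c lam (a / 16) hc hlam (by linarith) ha16
    rw [← hx, ← hℓ] at h1
    refine le_trans ?_ h1
    rw [pow_two x]
    gcongr
  have g2 : x ^ 2 / lam ^ 2 ≤ ℓ' := by
    have h1 := scl3_ge' k' (θ / 4) lam (a / 16) hk' (by positivity) (by linarith) hlam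
      (by linarith) h3l ha16
    rw [← hx, ← hℓ'] at h1
    refine le_trans ?_ h1
    rw [pow_two x]
    gcongr
  have g3 : ℓ ≤ 1 / lam ^ 3 := by
    rw [hℓ]
    exact scl3_le c 1 lam hc one_pos le_rfl hlam (by linarith) (by
      have : c * lam ≤ c * x := by gcongr
      linarith)
  have g4 : ℓ' ≤ 1 / lam ^ 3 := by
    rw [hℓ']
    exact scl3_le k' (θ / 4) lam hk' (by positivity) (by linarith) hlam h3l (by
      have : k' * lam ≤ k' * x := by gcongr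
      linarith)
  have g5 : 1 / lam ≤ x ^ 2 / lam ^ 2 := by
    rw [div_le_div_iff₀ hlam (by positivity)]
    calc 1 * lam ^ 2 = lam * lam := by ring
      _ ≤ x ^ 2 * lam := by gcongr
  have hℓ'0 : 0 < ℓ' := lt_of_lt_of_le (by positivity) g2
  have hℓ0 : 0 < ℓ := lt_of_lt_of_le (by positivity) g1
  rw [← hℓ] at hL1 hL2
  have hL7 : 1 / lam ^ 7 ≤ (L : ℝ) := by
    refine le_trans ?_ hL1
    calc 1 / lam ^ 7 = lam / lam ^ 8 := by field_simp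
      _ ≤ x ^ 8 / lam ^ 8 := by gcongr
      _ = (x ^ 2 / lam ^ 2) ^ (3 + 1) := by
          rw [div_pow, ← pow_mul, ← pow_mul]
      _ ≤ ℓ ^ (3 + 1) := by gcongr
  have hmono : ∀ n m : ℕ, n ≤ m → 1 / lam ^ n ≤ 1 / lam ^ m := fun n m hnm => by
    apply one_div_le_one_div_of_le (by positivity)
    exact pow_le_pow_of_le_one hlam.le hl1 hnm
  have hL0 : (1 : ℝ) ≤ L := by
    refine le_trans ?_ hL7
    have := hmono 0 7 (by norm_num)
    rwa [pow_zero, div_one] at this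
  have hLhi' : (L : ℝ) ≤ 1 / lam ^ N2 := by
    refine hL2.trans ?_
    calc ℓ ^ N ≤ (1 / lam ^ 3) ^ N := by gcongr
      _ = 1 / lam ^ N2 := by rw [div_pow, one_pow, ← pow_mul, hN2]
  have hLhi : (L : ℝ) * lam ^ N2 ≤ 1 := by
    rw [le_div_iff₀ (by positivity)] at hLhi'
    exact hLhi'
  have hlamL : 1 / lam ^ 5 ≤ lam ^ 2 * L := by
    calc 1 / lam ^ 5 = lam ^ 2 * (1 / lam ^ 7) := by field_simp
      _ ≤ _ := by gcongr
  have hℓ'l : 1 / lam ≤ ℓ' := g5.trans g2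
  have hℓ1 : 1 ≤ ℓ' := by
    refine le_trans ?_ hℓ'l
    rw [le_div_iff₀ hlam]
    linarith
  have hLe : (L : ℝ) ≤ 2 * ℓ' ^ (p + 2) := by
    have h1 : 1 / lam ^ N2 ≤ ℓ' ^ (p + 2) := by
      calc 1 / lam ^ N2 ≤ 1 / lam ^ (p + 2) := hmono _ _ (by omega)
        _ = (1 / lam) ^ (p + 2) := by rw [div_pow, one_pow]
        _ ≤ _ := by gcongr
    have h2 : 0 < ℓ' ^ (p + 2) := by positivity
    linarith
  have hℓL : ℓ' ≤ L := g4.trans ((hmono 3 7 (by norm_num)).trans hL7)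
  rw [hℓ'] at hℓ1 hLe hℓL
  obtain ⟨E, hE, G0, hG0m, hG0P, hG0⟩ := HE μ lam (θ / 4) hlam hKl hθ4 L hℓ1 hLe hℓL
  rw [← hℓ'] at hℓ1 hLe hℓL hG0P hG0
  obtain ⟨G, hGm, hGP, hG⟩ := Arith.pi_real_inter μ hμ G0 hG0m _ hG0P
  have hGc : (Measure.pi fun _ : T 3 L => μ).real Gᶜ ≤ (ℓ' ^ p)⁻¹ := by
    have := probReal_add_probReal_compl (μ := Measure.pi fun _ : T 3 L => μ) hGm
    linarith
  have hpG : (Measure.pi fun _ : T 3 L => μ).real Gᶜ ≤ lam ^ p := by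
    refine hGc.trans ?_
    rw [inv_le_comm₀ (by positivity) (by positivity)]
    calc (lam ^ p)⁻¹ = (1 / lam) ^ p := by rw [div_pow, one_pow, one_div]
      _ ≤ ℓ' ^ p := by gcongr
  have hpG1 : (Measure.pi fun _ : T 3 L => μ).real Gᶜ ≤ ε / 2 := by
    have h1 : lam ^ p ≤ x := by
      refine le_trans ?_ hlx
      calc lam ^ p ≤ lam ^ 1 := pow_le_pow_of_le_one hlam.le hl1 (by omega)
        _ = lam := pow_one lam
    have h2 : 2 * x ≤ ε := by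
      rw [div_mul_eq_mul_div, div_le_one hε] at s26
      exact s26
    linarith
  have hm0 : 1 / (L : ℝ) ^ 2 ≤ (ℓ' ^ 2)⁻¹ := by
    rw [← one_div]
    gcongr
  have hm1 : (ℓ' ^ 2)⁻¹ ≤ 1 := inv_le_one_of_one_le₀ (one_le_pow₀ hℓ1)
  have hmp : 0 < (ℓ' ^ 2)⁻¹ := by positivity
  have e4 : 4 * (θ / 4) = θ := by ring
  have hGd : ∀ V ∈ G, ∃ ψ : T 3 L → ℝ, Gd lam (E - 2 * (ℓ' ^ 2)⁻¹) θ (ℓ' ^ 2)⁻¹ V ψ := by
    intro V hV
    obtain ⟨w, hw1, hw2⟩ := hG0 V (hG V hV).1 (hG V hV).2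
    have := gd_of_mass hlam.le hl1 (by positivity) hθ4 hE (hG V hV).2 hw1 hm0 hm1 hw2
    rwa [e4] at this
  have hmκ : (ℓ' ^ 2)⁻¹ ≤ x ^ 3 * κ ^ 2 := by
    rw [inv_le_iff_one_le_mul₀ (by positivity)]
    have h1 : (x ^ 2 / lam ^ 2) ^ 2 ≤ ℓ' ^ 2 := by gcongr
    have h2 : (lam ^ 2) ^ 2 ≤ (κ * x ^ 16) ^ 2 := by gcongr
    calc (1 : ℝ) = lam ^ 4 / lam ^ 4 := by field_simp
      _ ≤ (κ * x ^ 16) ^ 2 / lam ^ 4 := by
          rw [← pow_mul] at h2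
          gcongr
      _ = κ ^ 2 * x ^ 32 / lam ^ 4 := by ring
      _ ≤ κ ^ 2 * x ^ 7 / lam ^ 4 := by
          have := hpw 32 7 (by norm_num)
          gcongr
      _ = x ^ 3 * κ ^ 2 * (x ^ 2 / lam ^ 2) ^ 2 := by
          field_simp
      _ ≤ x ^ 3 * κ ^ 2 * ℓ' ^ 2 := by gcongr
  have hc0 : |E - 2 * (ℓ' ^ 2)⁻¹| ≤ 3 := by
    refine (abs_sub _ _).trans ?_
    rw [abs_of_pos (by positivity : (0 : ℝ) < 2 * (ℓ' ^ 2)⁻¹)]
    linarith
  have hkA : A * (2 * K1 * κ) ≤ 1 := by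
    have := hκ2.trans hka
    rw [le_div_iff₀ (by positivity)] at this
    linarith
  have hk2 : 2 * K1 * κ ≤ 1 := by
    refine le_trans ?_ hkA
    have h1 : 0 ≤ 2 * K1 * κ := by positivity
    calc 2 * K1 * κ = 1 * (2 * K1 * κ) := (one_mul _).symm
      _ ≤ A * (2 * K1 * κ) := by
          have : 1 ≤ A := by linarith
          gcongr
  have hκK : K * κ ≤ ϑ := by
    have := hκ2.trans hkb
    rw [le_div_iff₀ hKp] at this
    linarith
  have t01 : 2 * x ≤ s1 := by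
    rw [div_mul_eq_mul_div, div_le_one a19] at s01
    exact s01
  have hSm : Sm L Cg Cs A g0 bq Jb Q N2 p lam (E - 2 * (ℓ' ^ 2)⁻¹) θ (ℓ' ^ 2)⁻¹ κ x ϑ (s1 / 2)
      (2 * K1) ((Measure.pi fun _ : T 3 L => μ).real Gᶜ) :=
    { lam0 := hlam
      x0 := hxp
      x1 := hx1
      lx := hlx16
      xJ := hxJ
      xb := hxb
      hQ := hQ.ge
      J1 := hJb
      hg := hg0.ge
      hb := hbq
      k0 := hκ0
      klo := hklo
      k1 := hkA
      k2 := hk2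
      Lhi := hLhi
      L1 := hL0
      Llo := by
        refine le_trans ?_ hlamL
        rw [le_div_iff₀ (by positivity)]
        calc 2 * K1 * lam ^ 5 ≤ 2 * K1 * x := by
              have h1 : lam ^ 5 ≤ lam ^ 1 := pow_le_pow_of_le_one hlam.le hl1 (by norm_num)
              rw [pow_one] at h1
              have h2 := h1.trans hlx
              gcongr
          _ ≤ 1 := s02
      Llo2 := by
        have h1 : x * (1 / lam ^ 5) ≤ s1 / 2 * (lam ^ 2 * L) := by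
          have : x ≤ s1 / 2 := by linarith
          gcongr
        refine le_trans ?_ h1
        rw [mul_one_div, le_div_iff₀ (by positivity)]
        calc 2 * lam ^ 5 = (2 * lam ^ 4) * lam := by ring
          _ ≤ 1 * x := by
              have h2 : lam ^ 4 ≤ lam ^ 1 := pow_le_pow_of_le_one hlam.le hl1 (by norm_num)
              rw [pow_one] at h2
              have h3 : 2 * lam ^ 4 ≤ 1 := by linarith
              gcongr
          _ = x := one_mul x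
      hp := hp.ge
      pG0 := measureReal_nonneg
      pG1 := hpG
      m0 := hmp.le
      hm := hmκ
      c := hc0
      Cg1 := hCg
      Cs1 := hCs
      A1 := hA
      th0 := a12
      thv := a13
      hv := a9
      s20 := by positivity
      s21 := by linarith
      K21 := by linarith
      z1 := by linarith
      z2 := s02
      z3 := s03
      z4 := s04
      z5 := by
        rw [div_mul_eq_mul_div, div_le_one a12] at s05
        exact s05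
      z6 := s06
      z7 := by
        rw [div_mul_eq_mul_div, div_le_one (by positivity)] at s07
        exact s07
      z8 := s08
      z9 := s09 }
  have hmain := main_x μ G hSm hGm hGd hGG hIN hRC J K s e5 β ε q0 CM hε a1 a2 a3 a4 a5 a6 a7 a10
    a11 a14 a15 a16 a17 a18 a19 a20 a21 a22 a23 a24 hκK (by
      rw [div_le_iff₀ (by positivity)] at hL7
      calc (1 : ℝ) ≤ L * lam ^ 7 := hL7
        _ = lam ^ 5 * L * lam ^ 2 := by ring
        _ ≤ lam ^ 5 * L * 1 := by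
            gcongr
            exact pow_le_one₀ hlam.le hl1
        _ = _ := mul_one _)
    (by
      rw [div_mul_eq_mul_div, div_le_one a4] at s10
      exact s10)
    (by
      rw [div_mul_eq_mul_div, div_le_one (by positivity)] at s11
      exact s11)
    s12 s13
    (by
      rw [← hC7]
      have e : C7 * (x / (q0 ^ J) ^ 2) = (C7 / (q0 ^ J) ^ 2 * (4 / e5) * x) * (e5 / 4) := by
        field_simp
      rw [e]
      calc _ ≤ 1 * (e5 / 4) := by gcongr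
        _ = e5 / 4 := one_mul _)
    (by
      rw [← hB1]
      rw [div_mul_eq_mul_div, div_le_one hB10] at s15
      exact s15)
    (by
      rw [← hB1]
      rw [div_mul_eq_mul_div, one_mul, div_le_one hB10] at s16
      exact s16)
    (by
      rw [← hB1]
      rw [div_mul_eq_mul_div, div_le_one hB10, div_mul_eq_mul_div] at s17
      exact s17)
    (by
      rw [div_mul_eq_mul_div, div_le_one a6] at s18
      exact s18)
    s19
  obtain ⟨G', hG'm, hG'P, hG'⟩ := hmain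
  refine ⟨G', hG'm, by linarith, ?_⟩
  intro V hV b E' hb'
  obtain ⟨c1, c2⟩ := hG' V hV b E' hb'
  refine ⟨le_trans ?_ c1, ?_⟩
  · have h1 : 0 ≤ (κ * L) ^ 3 := by positivity
    calc k * (κ * L) ^ 3 ≤ (1 / (28 * 3)) ^ 3 * (κ * L) ^ 3 := by gcongr
      _ = (κ * L / (28 * ((3 : ℕ) : ℝ))) ^ 3 := by
          rw [← mul_pow]
          congr 1
          push_cast
          ring
  intro S hS hSε
  refine c2 S hS fun α hα => ?_
  obtain ⟨x0, hx0⟩ := hSε α hα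
  refine ⟨x0, lt_of_lt_of_le hx0 ?_⟩
  classical
  rw [rs_norm, rs_norm]
  refine Finset.sum_le_sum fun y _ => ?_
  by_cases h1 : (nn (y - x0) : ℝ) ≤ lam ^ (a - 2)
  · rw [if_pos h1, if_pos (Nat.le_floor (by rw [← hrp2]; exact h1))]
  · rw [if_neg h1]
    split_ifs <;> positivity

end Pool.Agent.V8H95.NM
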