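import Pool.Agent.V8H95.NM.Boot

/-!
The descent in the imaginary part of the energy: the induction.
-/

set_option autoImplicit false
set_option linter.unusedSectionVars false
set_option linter.unusedVariables false

open Complex MeasureTheory
open scoped BigOperators ComplexConjugate

namespace Pool.Agent.V8H95.NM

open Pool.Agent.H4R2.AE Pool.Agent.V8H99.AD Pool.Agent.V8H95.MF Pool.Agent.V8H95.BW
open Pool.Agent.V8H95.EF

/-- the constant of the off-diagonal bound -/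
def GGb (Cg : ℝ) : Prop := ∀ (L : ℕ) [NeZero L] (lam c0 η m : ℝ) (V ψ : T 3 L → ℝ),
    Gd lam c0 η m V ψ → ∀ (κ : ℝ), 0 < κ → ∀ ρ : ℝ, 0 < ρ → ρ ≤ 1 → ∀ (j : ℕ) (B : ℝ),
    (∀ (i : ℕ), i ≤ j → ∀ x, XX lam (zz c0 (κ ^ 2) (κ ^ 2 * ρ ^ i)) x V ≤ B) → ∀ x y,
    ‖GG lam (zz c0 (κ ^ 2) (κ ^ 2 * ρ ^ j)) x y V‖ ≤ Cg / √κ + 2 / ρ * ((j + 1) * B)

/-- the constant of the initial bound -/
def INb (A : ℝ) : Prop := ∀ (L : ℕ) [NeZero L] (lam c0 η m : ℝ) (V ψ : T 3 L → ℝ),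
    Gd lam c0 η m V ψ → ∀ (x : T 3 L) (κ : ℝ), 0 < κ →
    XX lam (zz c0 (κ ^ 2) (κ ^ 2)) x V ≤ A * κ

/-- the constant of the recursion -/
def RCb (Cs : ℝ) (g0 : ℕ) : Prop := ∀ g ≤ g0, ∀ (L : ℕ) [NeZero L] (μ : Measure ℝ)
    [IsProbabilityMeasure μ] (lam : ℝ), 0 ≤ lam → ∀ z : ℂ, 0 < z.im → ∀ O : Set (T 3 L → ℝ),
    MeasurableSet O → (∀ V ∈ O, Om lam z V) →
    ∫ V, (XX lam z 0 V - ∫ U, XX lam z 0 U ∂(Measure.pi fun _ : T 3 L => μ)) ^ (2 * 2 ^ g)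
      ∂(Measure.pi fun _ : T 3 L => μ) ≤
      Cs * ((lam ^ 2 / z.im) ^ (2 ^ g) *
        ∫ V, XX lam z 0 V ^ (3 * 2 ^ g) ∂(Measure.pi fun _ : T 3 L => μ) +
      ((L : ℝ) ^ 3 * (1 / z.im) ^ 2) ^ (2 ^ g) * (Measure.pi fun _ : T 3 L => μ).real Oᶜ)

theorem consts_exist (g0 : ℕ) : ∃ Cg Cs A : ℝ, 1 ≤ Cg ∧ 1 ≤ Cs ∧ 10000 ≤ A ∧ GGb Cg ∧ INb A ∧
    RCb Cs g0 := by
  obtain ⟨Cg, hCg, h1⟩ := GG_bound
  obtain ⟨Ci, hCi, h2⟩ := XX_ini
  choose Cr hCr using recursion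
  refine ⟨Cg, ∑ g ∈ Finset.range (g0 + 1), Cr g, max 10000 Ci, hCg, ?_, le_max_left _ _, h1, ?_, ?_⟩
  · have h3 : Cr 0 ≤ ∑ g ∈ Finset.range (g0 + 1), Cr g :=
      Finset.single_le_sum (f := Cr) (fun g _ => by have := (hCr g).1; linarith)
        (Finset.mem_range.2 (by omega))
    exact (hCr 0).1.trans h3
  · intro L _ lam c0 η m V ψ h x κ hκ
    refine (h2 L lam c0 η m V ψ h x κ hκ).trans ?_
    gcongr
    exact le_max_right _ _
  · intro g hg L _ μ _ lam hlam z hz O hO hOm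
    have h3 : Cr g ≤ ∑ g ∈ Finset.range (g0 + 1), Cr g :=
      Finset.single_le_sum (f := Cr) (fun g _ => by have := (hCr g).1; linarith)
        (Finset.mem_range.2 (by omega))
    refine ((hCr g).2 3 L μ lam hlam z hz O hO hOm).trans ?_
    have h4 : 0 ≤ ∫ V, XX lam z (0 : T 3 L) V ^ (3 * 2 ^ g) ∂(Measure.pi fun _ : T 3 L => μ) :=
      integral_nonneg fun V => pow_nonneg (XX_nonneg lam hz 0 V) _
    have h5 : 0 ≤ (Measure.pi fun _ : T 3 L => μ).real Oᶜ := measureReal_nonneg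
    gcongr

section
variable {L : ℕ} [NeZero L] {μ : Measure ℝ} [IsProbabilityMeasure μ] {Cg Cs A : ℝ} {g0 bq J : ℕ}
  {lam c0 θ mg κ ρ Λ ϑ δ T' : ℝ} {G : Set (T 3 L → ℝ)}

theorem kap_le (h : Bh μ Cg Cs A g0 bq J lam c0 θ mg κ ρ Λ ϑ δ T' G) (hA : 10000 ≤ A) :
    κ ≤ 1 / 10000 := by
  have h1 := h.k0
  have h2 := h.k1
  rw [le_div_iff₀ (by norm_num)]
  nlinarith

/-- the first scale -/
theorem base (h : Bh μ Cg Cs A g0 bq J lam c0 θ mg κ ρ Λ ϑ δ T' G) (hA : 10000 ≤ A) (hIN : INb A) :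
    ∫ V, XX lam (ze c0 κ ρ 0) 0 V ^ (3 * 2 ^ g0) ∂(Measure.pi fun _ : T 3 L => μ) ≤
      K0 g0 * (A * κ) ^ (3 * 2 ^ g0) := by
  set P : Measure (T 3 L → ℝ) := Measure.pi fun _ : T 3 L => μ with hP
  set n : ℕ := 3 * 2 ^ g0 with hn
  have hκ := h.k0
  have hz := ze_pos (c0 := c0) hκ h.r0 0
  have hzi : (ze c0 κ ρ 0).im = κ ^ 2 := by rw [ze_im, pow_zero, mul_one]
  have hAκ : 0 < A * κ := by positivity
  have i1 : Integrable (Gᶜ.indicator fun _ : T 3 L → ℝ => (1 / κ ^ 2) ^ n) P :=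
    (integrable_const _).indicator h.meas.compl
  have hpt : ∀ V : T 3 L → ℝ, XX lam (ze c0 κ ρ 0) 0 V ^ n ≤
      (A * κ) ^ n + Gᶜ.indicator (fun _ => (1 / κ ^ 2) ^ n) V := by
    intro V
    have hx := XX_nonneg lam hz 0 V
    by_cases hV : V ∈ G
    · rw [Set.indicator_of_notMem (by simpa using hV), add_zero]
      obtain ⟨ψ, hψ⟩ := h.good V hV
      apply pow_le_pow_left₀ hx
      have := hIN L lam c0 θ mg V ψ hψ 0 κ hκ
      unfold ze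
      rwa [pow_zero, mul_one]
    · rw [Set.indicator_of_mem (show V ∈ Gᶜ from hV)]
      have h1 := pow_le_pow_left₀ hx (XX_le lam hz 0 V) n
      rw [hzi] at h1
      have : 0 ≤ (A * κ) ^ n := by positivity
      linarith
  have h1 := integral_mono (XX_pow_int μ lam hz 0 n) ((integrable_const _).add i1) hpt
  have e1 := integral_add (integrable_const (μ := P) ((A * κ) ^ n)) i1
  refine h1.trans (le_trans (le_of_eq e1) ?_)
  rw [integral_indicator h.meas.compl, setIntegral_const, smul_eq_mul]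
  have e2 : ∫ _V, (A * κ) ^ n ∂P = (A * κ) ^ n := by simp
  rw [e2]
  have h2 : P.real Gᶜ * (1 / κ ^ 2) ^ n ≤ (A * κ) ^ n := by
    have h3 := h.H0
    rw [← hP] at h3
    have e3 : κ ^ (9 * 2 ^ g0) = κ ^ n * (κ ^ 2) ^ n := by
      rw [← pow_mul, ← pow_add]
      congr 1
      rw [hn]
      ring
    rw [e3] at h3
    calc P.real Gᶜ * (1 / κ ^ 2) ^ n ≤ (κ ^ n * (κ ^ 2) ^ n) * (1 / κ ^ 2) ^ n := by gcongr
      _ = κ ^ n := by rw [one_div, inv_pow]; field_simp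
      _ ≤ (A * κ) ^ n := by
          gcongr
          nlinarith
  have h3 := K0_ge g0
  have h4 : 0 ≤ (A * κ) ^ n := by positivity
  nlinarith

/-- the variance estimate at a scale -/
def VarAt (L : ℕ) [NeZero L] (μ : Measure ℝ) (lam : ℝ) (z : ℂ) (s T' : ℝ) : Prop :=
  ∀ u : XT 3 L, ∫ V, ‖GT lam V z u - ∫ U, GT lam U z u ∂(Measure.pi fun _ : T 3 L => μ)‖ ^ 2
      ∂(Measure.pi fun _ : T 3 L => μ) ≤
    s * ∫ V, ‖GT lam V z u‖ ^ 2 ∂(Measure.pi fun _ : T 3 L => μ) + T' * ‖u‖ ^ 2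

theorem eta_le (h : Bh μ Cg Cs A g0 bq J lam c0 θ mg κ ρ Λ ϑ δ T' G) (j : ℕ) (hj : j ≤ J) :
    κ ^ 2 * ρ ^ J ≤ (ze c0 κ ρ j).im := by
  rw [ze_im]
  have := h.k0
  have := h.r0
  have : ρ ^ J ≤ ρ ^ j := pow_le_pow_of_le_one h.r0.le h.r1 hj
  gcongr

/-- the good event works at the next scale -/
theorem om_next (h : Bh μ Cg Cs A g0 bq J lam c0 θ mg κ ρ Λ ϑ δ T' G) (hA : 10000 ≤ A)
    (hGG : GGb Cg) (j : ℕ) (hj : j + 1 ≤ J) (V : T 3 L → ℝ)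
    (hV : V ∈ Oj lam c0 κ ρ (Λ * (A * κ)) G j) : Om lam (ze c0 κ ρ (j + 1)) V := by
  obtain ⟨hVG, hVO⟩ := hV
  obtain ⟨ψ, hψ⟩ := h.good V hVG
  have hκ := h.k0
  have hρ := h.r0
  have hΛ := h.L1
  have hA0 : 0 < A := by linarith
  have hB : Λ * (A * κ) ≤ Λ * (A * κ) / ρ := by
    rw [le_div_iff₀ hρ]
    have : 0 ≤ Λ * (A * κ) := by positivity
    nlinarith [h.r1]
  refine ⟨hψ.hV, fun x y => ?_⟩
  have h1 := hGG L lam c0 θ mg V ψ hψ κ hκ ρ hρ h.r1 (j + 1) (Λ * (A * κ) / ρ) (by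
    intro i hi w
    rcases Nat.lt_or_ge i (j + 1) with hlt | hge
    · exact (hVO i (Finset.mem_range.2 hlt) w).trans hB
    · have hi' : i = j + 1 := le_antisymm hi hge
      subst hi'
      have h2 := XX_mono lam c0 (κ ^ 2) w V (κ ^ 2 * ρ ^ j) (κ ^ 2 * ρ ^ (j + 1)) (by positivity)
        (by
          have : ρ ^ (j + 1) ≤ ρ ^ j := pow_le_pow_of_le_one hρ.le h.r1 (by omega)
          gcongr)
      refine h2.trans ?_
      have e1 : κ ^ 2 * ρ ^ j / (κ ^ 2 * ρ ^ (j + 1)) = 1 / ρ := by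
        field_simp
        ring
      rw [e1]
      have h3 := hVO j (Finset.mem_range.2 (by omega)) w
      calc 1 / ρ * XX lam (zz c0 (κ ^ 2) (κ ^ 2 * ρ ^ j)) w V ≤ 1 / ρ * (Λ * (A * κ)) := by
            gcongr
            exact h3
        _ = _ := by ring) x y
  refine le_trans ?_ h.H1
  have hlam := h.lam0
  apply mul_le_mul_of_nonneg_left _ hlam
  refine h1.trans ?_
  have h4 : ((j + 1 : ℕ) : ℝ) + 1 ≤ (J : ℝ) + 2 := by
    have : ((j + 1 : ℕ) : ℝ) ≤ J := by exact_mod_cast hj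
    linarith
  gcongr

/-- moments at the next scale -/
theorem next_mom (h : Bh μ Cg Cs A g0 bq J lam c0 θ mg κ ρ Λ ϑ δ T' G) (hA : 10000 ≤ A) (j : ℕ)
    (n : ℕ) (K : ℝ)
    (hI : ∫ V, XX lam (ze c0 κ ρ j) 0 V ^ n ∂(Measure.pi fun _ : T 3 L => μ) ≤
      K * (A * κ) ^ n) :
    ∫ V, XX lam (ze c0 κ ρ (j + 1)) 0 V ^ n ∂(Measure.pi fun _ : T 3 L => μ) ≤
      (1 / ρ) ^ n * (K * (A * κ) ^ n) := by
  have hκ := h.k0
  have hρ := h.r0
  have hz := ze_pos (c0 := c0) hκ hρ j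
  have hz' := ze_pos (c0 := c0) hκ hρ (j + 1)
  calc ∫ V, XX lam (ze c0 κ ρ (j + 1)) 0 V ^ n ∂(Measure.pi fun _ : T 3 L => μ) ≤
      ∫ V, (1 / ρ) ^ n * XX lam (ze c0 κ ρ j) 0 V ^ n ∂(Measure.pi fun _ : T 3 L => μ) := by
        refine integral_mono (XX_pow_int μ lam hz' 0 n) ((XX_pow_int μ lam hz 0 n).const_mul _)
          fun V => ?_
        show XX lam (ze c0 κ ρ (j + 1)) 0 V ^ n ≤ (1 / ρ) ^ n * XX lam (ze c0 κ ρ j) 0 V ^ n
        rw [← mul_pow]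
        apply pow_le_pow_left₀ (XX_nonneg lam hz' 0 V)
        have h2 := XX_mono lam c0 (κ ^ 2) (0 : T 3 L) V (κ ^ 2 * ρ ^ j) (κ ^ 2 * ρ ^ (j + 1))
          (by positivity) (by
            have : ρ ^ (j + 1) ≤ ρ ^ j := pow_le_pow_of_le_one hρ.le h.r1 (by omega)
            gcongr)
        have e1 : κ ^ 2 * ρ ^ j / (κ ^ 2 * ρ ^ (j + 1)) = 1 / ρ := by
          field_simp
          ring
        rw [e1] at h2
        exact h2
    _ = (1 / ρ) ^ n * ∫ V, XX lam (ze c0 κ ρ j) 0 V ^ n ∂(Measure.pi fun _ : T 3 L => μ) :=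
        integral_const_mul _ _
    _ ≤ _ := by gcongr

/-- the variance at the next scale -/
theorem next_var (h : Bh μ Cg Cs A g0 bq J lam c0 θ mg κ ρ Λ ϑ δ T' G) (hA : 10000 ≤ A)
    (hGG : GGb Cg) (j : ℕ) (hj : j + 1 ≤ J)
    (hI : ∀ i ≤ j, ∫ V, XX lam (ze c0 κ ρ i) 0 V ^ (3 * 2 ^ (g0 - bq * i))
      ∂(Measure.pi fun _ : T 3 L => μ) ≤ K0 g0 * (A * κ) ^ (3 * 2 ^ (g0 - bq * i))) :
    VarAt L μ lam (ze c0 κ ρ (j + 1))
      (4 * lam ^ 2 * (Λ * (A * κ) / ρ ^ 2) / (κ ^ 2 * ρ ^ J)) T' := by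
  intro u
  set P : Measure (T 3 L → ℝ) := Measure.pi fun _ : T 3 L => μ with hP
  have hκ := h.k0
  have hρ := h.r0
  have hΛ := h.L1
  have hΛ0 : 0 < Λ := by linarith
  have hA0 : 0 < A := by linarith
  have hK := K0_ge g0
  have hz' := ze_pos (c0 := c0) hκ hρ (j + 1)
  have hL := L_pos (L := L)
  set z := ze c0 κ ρ (j + 1) with hz
  set η := κ ^ 2 * ρ ^ J with hη
  have hη0 : 0 < η := by positivity
  have hηz : η ≤ z.im := eta_le h (j + 1) hj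
  set O := Oj lam c0 κ ρ (Λ * (A * κ)) G j with hO
  have hOm : MeasurableSet O := Oj_meas hκ hρ _ h.meas j
  have hbj : bq * j + bq ≤ bq * J := by
    have := Nat.mul_le_mul_left bq hj
    rwa [Nat.mul_add, Nat.mul_one] at this
  have hJ0 := h.hJ
  have hbg : 2 ^ bq ≤ 2 ^ (g0 - bq * j) := Nat.pow_le_pow_right (by norm_num) (by omega)
  have hOp : P.real Oᶜ ≤ δ := by
    refine (Oj_prob (J := J) hκ hρ hA0 hΛ h.meas j (by omega) hI).trans (le_trans ?_ h.hδ)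
    have h3 : 0 < (J + 1) * (L : ℝ) ^ 3 * K0 g0 := by positivity
    have h4 : Λ ^ (3 * 2 ^ bq) ≤ Λ ^ (3 * 2 ^ (g0 - bq * j)) := pow_le_pow_right₀ hΛ (by omega)
    have h5 : (J + 1) * (L : ℝ) ^ 3 * K0 g0 / Λ ^ (3 * 2 ^ (g0 - bq * j)) ≤
        (J + 1) * (L : ℝ) ^ 3 * K0 g0 / Λ ^ (3 * 2 ^ bq) := by gcongr
    linarith
  set n : ℕ := 3 * 2 ^ (g0 - bq * j) with hn
  obtain ⟨p, hp⟩ : ∃ p : ℕ, n = p + 1 := ⟨n - 1, by
    have : 0 < n := by positivity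
    omega⟩
  have hmom := next_mom h hA j n (K0 g0) (hI j le_rfl)
  set B := Λ * (A * κ) / ρ ^ 2 with hB
  have hB0 : 0 < B := by positivity
  have key := var_u μ lam h.lam0 hz' O hOm (fun V hV => om_next h hA hGG j hj V hV) u B hB0 p
  rw [← hp, ← hP] at key
  refine key.trans ?_
  have hW : 1 / B ^ p * ∫ V, XX lam z 0 V ^ n ∂P ≤ B * K0 g0 / Λ ^ (3 * 2 ^ bq) := by
    have h1 : 1 / B ^ p * ∫ V, XX lam z 0 V ^ n ∂P ≤
        1 / B ^ p * ((1 / ρ) ^ n * (K0 g0 * (A * κ) ^ n)) := by gcongr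
    refine h1.trans ?_
    have h2 : 1 / B ^ p * ((1 / ρ) ^ n * (K0 g0 * (A * κ) ^ n)) = B * K0 g0 * (ρ / Λ) ^ n := by
      have e1 : 1 / B ^ p = B * (1 / B ^ n) := by
        rw [hp, pow_succ]
        field_simp
      rw [e1, hB, div_pow, div_pow, mul_pow, div_pow, one_pow]
      field_simp
      ring
    rw [h2]
    have h3 : (ρ / Λ) ^ n ≤ 1 / Λ ^ (3 * 2 ^ bq) := by
      rw [div_pow]
      have h5 : Λ ^ (3 * 2 ^ bq) ≤ Λ ^ n := pow_le_pow_right₀ hΛ (by omega)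
      have h6 : ρ ^ n ≤ 1 := pow_le_one₀ hρ.le h.r1
      calc ρ ^ n / Λ ^ n ≤ 1 / Λ ^ n := by gcongr
        _ ≤ _ := by gcongr
    calc B * K0 g0 * (ρ / Λ) ^ n ≤ B * K0 g0 * (1 / Λ ^ (3 * 2 ^ bq)) := by gcongr
      _ = _ := by ring
  set W := B * K0 g0 / Λ ^ (3 * 2 ^ bq) with hWd
  have hW0 : 0 ≤ W := by positivity
  set X := ∫ V, ‖GT lam V z u‖ ^ 2 ∂P with hX
  have hX0 : 0 ≤ X := integral_nonneg fun V => by positivity
  have hpO : 0 ≤ P.real Oᶜ := measureReal_nonneg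
  have hHT := h.HT
  rw [← hη, ← hB, ← hWd] at hHT
  have a1 : 4 * lam ^ 2 / z.im * (B * X + (L : ℝ) ^ 3 * (‖u‖ / z.im) ^ 2 *
      (1 / B ^ p * ∫ V, XX lam z 0 V ^ n ∂P)) ≤
      4 * lam ^ 2 / η * (B * X + (L : ℝ) ^ 3 * (‖u‖ / η) ^ 2 * W) := by
    have h0 : 0 ≤ 1 / B ^ p * ∫ V, XX lam z 0 V ^ n ∂P := by
      have : 0 ≤ ∫ V, XX lam z 0 V ^ n ∂P :=
        integral_nonneg fun V => pow_nonneg (XX_nonneg lam hz' 0 V) _
      positivity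
    gcongr
  have a2 : (L : ℝ) ^ 3 * (2 * (‖u‖ / z.im)) ^ 2 * P.real Oᶜ ≤
      (L : ℝ) ^ 3 * (2 * (‖u‖ / η)) ^ 2 * δ := by
    gcongr
  calc _ ≤ 4 * lam ^ 2 / η * (B * X + (L : ℝ) ^ 3 * (‖u‖ / η) ^ 2 * W) +
        (L : ℝ) ^ 3 * (2 * (‖u‖ / η)) ^ 2 * δ := add_le_add a1 a2
    _ = 4 * lam ^ 2 * B / η * X + (4 * lam ^ 2 / η * ((L : ℝ) ^ 3 / η ^ 2 * W) +
        4 * (L : ℝ) ^ 3 / η ^ 2 * δ) * ‖u‖ ^ 2 := by
        field_simp
        ring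
    _ ≤ _ := by gcongr

/-- the assumptions for the mean at the next scale -/
theorem next_cx (h : Bh μ Cg Cs A g0 bq J lam c0 θ mg κ ρ Λ ϑ δ T' G) (hA : 10000 ≤ A) (j : ℕ)
    (hj : j ≤ J) (hvar : VarAt L μ lam (ze c0 κ ρ j)
      (4 * lam ^ 2 * (Λ * (A * κ) / ρ ^ 2) / (κ ^ 2 * ρ ^ J)) T') :
    Cx μ lam c0 θ mg G (ze c0 κ ρ j) (κ ^ 2) (κ ^ 2 * ρ ^ j)
      (4 * lam ^ 2 * (Λ * (A * κ) / ρ ^ 2) / (κ ^ 2 * ρ ^ J) + 800 * T') := by
  set P : Measure (T 3 L → ℝ) := Measure.pi fun _ : T 3 L => μ with hP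
  have hκ := h.k0
  have hρ := h.r0
  have hA0 : 0 < A := by linarith
  have hΛ := h.L1
  have hK := K0_ge g0
  have hκ4 := kap_le h hA
  have hz' := ze_pos (c0 := c0) hκ hρ j
  have hL3 : 0 < (L : ℝ) ^ 3 := L_pos'
  set z := ze c0 κ ρ j with hz
  have hη0 : 0 < κ ^ 2 * ρ ^ J := by positivity
  have hηz : κ ^ 2 * ρ ^ J ≤ κ ^ 2 * ρ ^ j := by
    have := eta_le h j hj
    rwa [ze_im] at this
  have hη1 : κ ^ 2 * ρ ^ j ≤ κ ^ 2 := by
    have : ρ ^ j ≤ 1 := pow_le_one₀ hρ.le h.r1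
    nlinarith [sq_nonneg κ]
  have hκ1 : κ ^ 2 ≤ 1 := by nlinarith
  have hθ1 : θ ≤ 1 / 3000 := h.thv.trans h.hv
  have hpG := h.pG
  rw [← hP] at hpG
  have hpG0 : 0 ≤ P.real Gᶜ := measureReal_nonneg
  have hGP : 1 / 2 ≤ P.real G := by
    have h1 : P.real Gᶜ = 1 - P.real G := probReal_compl_eq_one_sub h.meas
    have h2 : P.real Gᶜ * 400 ≤ 1 := by
      refine hpG.trans ?_
      have h3 : (κ ^ 2 * ρ ^ J) ^ 2 ≤ 1 := pow_le_one₀ hη0.le (by linarith)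
      have := h.th0
      calc θ * (κ ^ 2 * ρ ^ J) ^ 2 * κ ^ 2 ≤ 1 * 1 * 1 := by
            gcongr
            linarith
        _ = 1 := by norm_num
    linarith
  set s := 4 * lam ^ 2 * (Λ * (A * κ) / ρ ^ 2) / (κ ^ 2 * ρ ^ J) with hs
  have hs0 : 0 ≤ s := by positivity
  have hδ0 : 0 ≤ δ := by
    refine le_trans ?_ h.hδ
    have : 0 ≤ (J + 1 : ℝ) * (L : ℝ) ^ 3 * K0 g0 / Λ ^ (3 * 2 ^ bq) := by positivity
    linarith
  have hT0 : 0 ≤ T' := by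
    refine le_trans ?_ h.HT
    positivity
  have hDl : ∀ k : T 3 L, 1 / 800 ≤ Dk μ lam z k := by
    intro k
    have hzn : ‖z‖ ≤ 5 := by
      have h1 := Complex.norm_le_abs_re_add_abs_im z
      have h2 : z.re = c0 + κ ^ 2 := zz_re _ _ _
      rw [h2, hz, ze_im, ← hz] at h1
      have h3 : |c0 + κ ^ 2| ≤ 4 := by
        refine (abs_add_le _ _).trans ?_
        rw [abs_of_nonneg (sq_nonneg κ)]
        linarith [h.c]
      rw [abs_of_pos (by positivity : (0 : ℝ) < κ ^ 2 * ρ ^ j)] at h1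
      linarith
    have h1 := Dk_lower μ lam h.lam0 h.lam1 hz'.ne' k G h.meas (fun V hV x => by
      obtain ⟨ψ, hψ⟩ := h.good V hV
      exact hψ.hV x) hGP 18 (by push_cast; linarith)
    refine le_trans ?_ h1
    norm_num
  refine
    { lam0 := h.lam0
      meas := h.meas
      good := h.good
      th0 := h.th0
      th1 := by linarith
      e0 := by positivity
      e1 := hκ1
      re := zz_re _ _ _
      y0 := by positivity
      y1 := hη1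
      im := by rw [ze_im, abs_of_pos (by positivity)]
      s0 := by positivity
      s1 := ?_
      hs := ?_
      m0 := h.m0
      hm := h.hm
      pos := fun k => lt_of_lt_of_le (by norm_num) (hDl k)
      pG := ?_ }
  · refine h.H2.trans ?_
    have := h.hv
    have h0 : 0 ≤ ϑ := h.th0.le.trans h.thv
    nlinarith
  · intro k
    have h1 := hvar (pw k)
    rw [mean_pw μ lam hz'.ne', sk_eq μ lam hz'.ne', D_eq μ lam hz'.ne', pw_norm] at h1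
    have h2 : (L : ℝ) ^ 3 * sk μ lam z k ≤ (L : ℝ) ^ 3 * (s * Dk μ lam z k + T') := by
      refine h1.trans (le_of_eq (by ring))
    have h3 := le_of_mul_le_mul_left h2 hL3
    have h4 := hDl k
    have h5 : T' ≤ 800 * T' * Dk μ lam z k := by
      calc T' = 800 * T' * (1 / 800) := by ring
        _ ≤ _ := by gcongr
    calc sk μ lam z k ≤ s * Dk μ lam z k + T' := h3
      _ ≤ s * Dk μ lam z k + 800 * T' * Dk μ lam z k := by gcongr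
      _ = _ := by ring
  · have h1 : ((3 : ℕ) : ℝ) + 1 = 4 := by norm_num
    rw [h1]
    calc P.real Gᶜ * (100 * 4) = P.real Gᶜ * 400 := by ring
      _ ≤ θ * (κ ^ 2 * ρ ^ J) ^ 2 * κ ^ 2 := hpG
      _ ≤ _ := by
          have := h.th0
          gcongr

/-- the induction step for the moments -/
theorem next_I (h : Bh μ Cg Cs A g0 bq J lam c0 θ mg κ ρ Λ ϑ δ T' G) (hA : 10000 ≤ A)
    (hCs : 1 ≤ Cs) (hGG : GGb Cg) (hRC : RCb Cs g0) (j : ℕ) (hj : j + 1 ≤ J)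
    (hI : ∀ i ≤ j, ∫ V, XX lam (ze c0 κ ρ i) 0 V ^ (3 * 2 ^ (g0 - bq * i))
      ∂(Measure.pi fun _ : T 3 L => μ) ≤ K0 g0 * (A * κ) ^ (3 * 2 ^ (g0 - bq * i))) :
    ∫ V, XX lam (ze c0 κ ρ (j + 1)) 0 V ^ (3 * 2 ^ (g0 - bq * (j + 1)))
      ∂(Measure.pi fun _ : T 3 L => μ) ≤ K0 g0 * (A * κ) ^ (3 * 2 ^ (g0 - bq * (j + 1))) := by
  set P : Measure (T 3 L → ℝ) := Measure.pi fun _ : T 3 L => μ with hP
  have hκ := h.k0
  have hρ := h.r0
  have hΛ := h.L1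
  have hA0 : 0 < A := by linarith
  have hAκ : 0 < A * κ := by positivity
  have hK := K0_ge g0
  have hκ4 := kap_le h hA
  have hz' := ze_pos (c0 := c0) hκ hρ (j + 1)
  have hL := L_pos (L := L)
  have hL1 : (1 : ℝ) ≤ L := L_one
  have hvar := next_var h hA hGG j hj hI
  have hcx := next_cx h hA (j + 1) hj hvar
  have hκ2 : κ ^ 2 ≤ 1 := by nlinarith
  -- the mean
  have hmean : ∫ V, XX lam (ze c0 κ ρ (j + 1)) 0 V ∂P ≤ A * κ := by
    have h1 := mean_XX hcx ϑ h.thv h.hv h.H2 (by nlinarith) κ hκ rfl (by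
      refine h.yL.trans ?_
      have := eta_le h (j + 1) hj
      rw [ze_im] at this
      gcongr) h.kL
    refine h1.trans ?_
    gcongr
  -- the centred moment
  set z := ze c0 κ ρ (j + 1) with hz
  set η := κ ^ 2 * ρ ^ J with hη
  have hη0 : 0 < η := by positivity
  have hηz : η ≤ z.im := eta_le h (j + 1) hj
  set O := Oj lam c0 κ ρ (Λ * (A * κ)) G j with hO
  have hOm : MeasurableSet O := Oj_meas hκ hρ _ h.meas j
  have hbj : bq * j + bq ≤ bq * J := by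
    have := Nat.mul_le_mul_left bq hj
    rwa [Nat.mul_add, Nat.mul_one] at this
  have hbj1 : bq * (j + 1) = bq * j + bq := by ring
  have hJ0 := h.hJ
  have hb1 := h.hb
  have hOp := Oj_prob (J := J) hκ hρ hA0 hΛ h.meas j (by omega) hI
  rw [← hP, ← hO] at hOp
  have hpO : 0 ≤ P.real Oᶜ := measureReal_nonneg
  have hpG0 : 0 ≤ P.real Gᶜ := measureReal_nonneg
  obtain ⟨g', hg'⟩ : ∃ g', g' = g0 - bq * (j + 1) := ⟨_, rfl⟩
  obtain ⟨g, hg⟩ : ∃ g, g = g' + 1 := ⟨_, rfl⟩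
  have hg0 : g ≤ g0 := by omega
  have hgj : g ≤ g0 - bq * j := by omega
  have hgb : 2 ^ (g0 - bq * j) = 2 ^ g * 2 ^ (bq - 1) := by
    rw [← pow_add]
    congr 1
    omega
  have hrec := hRC g hg0 L μ lam h.lam0 z hz' O hOm (fun V hV => om_next h hA hGG j hj V hV)
  rw [← hP] at hrec
  have hXm0 : Measurable (XX lam (ze c0 κ ρ j) (0 : T 3 L)) :=
    (XX_cont lam (ze_pos hκ hρ j).ne' 0).measurable
  have hlow := interp P (XX lam (ze c0 κ ρ j) 0)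
    (fun V => XX_nonneg lam (ze_pos hκ hρ j) 0 V) hXm0 (1 / (ze c0 κ ρ j).im)
    (fun V => XX_le lam (ze_pos hκ hρ j) 0 V) (A * κ) (K0 g0) hAκ (3 * 2 ^ g) _
    (Nat.mul_le_mul_left 3 (Nat.pow_le_pow_right (by norm_num) hgj)) (hI j le_rfl)
  have hmom := next_mom h hA j (3 * 2 ^ g) (2 * K0 g0) (hlow.trans (by
    have : 0 ≤ (A * κ) ^ (3 * 2 ^ g) := by positivity
    nlinarith))
  rw [← hP, ← hz] at hmom
  have hcent : ∫ V, (XX lam z 0 V - ∫ U, XX lam z 0 U ∂P) ^ (2 * 2 ^ g) ∂P ≤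
      (A * κ) ^ (2 * 2 ^ g) := by
    refine hrec.trans ?_
    set m : ℕ := 2 ^ g with hm
    have hm1 : 1 ≤ m := Nat.one_le_two_pow
    have b1 : (lam ^ 2 / z.im) ^ m * ∫ V, XX lam z 0 V ^ (3 * m) ∂P ≤
        (2 * K0 g0) * (A * κ) ^ (2 * m) * (lam ^ 2 * (A * κ) / (ρ ^ 3 * η)) := by
      have hlam := h.lam0
      have c1 : lam ^ 2 * (A * κ) / (ρ ^ 3 * η) ≤ 1 := by
        have h3 := h.H3
        rw [← hη] at h3
        have h4 : 0 ≤ lam ^ 2 * (A * κ) / (ρ ^ 3 * η) := by positivity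
        have h5 : 1 ≤ Cs * (2 * K0 g0) := by nlinarith
        nlinarith
      have c0' : 0 ≤ lam ^ 2 * (A * κ) / (ρ ^ 3 * η) := by positivity
      calc (lam ^ 2 / z.im) ^ m * ∫ V, XX lam z 0 V ^ (3 * m) ∂P ≤
          (lam ^ 2 / η) ^ m * ((1 / ρ) ^ (3 * m) * ((2 * K0 g0) * (A * κ) ^ (3 * m))) := by
            have : 0 ≤ ∫ V, XX lam z 0 V ^ (3 * m) ∂P :=
              integral_nonneg fun V => pow_nonneg (XX_nonneg lam hz' 0 V) _
            gcongr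
        _ = (2 * K0 g0) * (A * κ) ^ (2 * m) * (lam ^ 2 * (A * κ) / (ρ ^ 3 * η)) ^ m := by
            rw [show 3 * m = 2 * m + m by ring, pow_add (A * κ), div_pow, div_pow, one_pow,
              div_pow, mul_pow, mul_pow (ρ ^ 3), ← pow_mul ρ 3, show 2 * m + m = 3 * m by ring]
            field_simp
            ring
        _ ≤ (2 * K0 g0) * (A * κ) ^ (2 * m) * (lam ^ 2 * (A * κ) / (ρ ^ 3 * η)) := by
            gcongr
            calc (lam ^ 2 * (A * κ) / (ρ ^ 3 * η)) ^ m ≤ (lam ^ 2 * (A * κ) / (ρ ^ 3 * η)) ^ 1 :=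
                  pow_le_pow_of_le_one c0' c1 hm1
              _ = _ := pow_one _
    have hx0 : 0 ≤ (L : ℝ) ^ 3 / η ^ 2 := by positivity
    have b2 : ((L : ℝ) ^ 3 * (1 / z.im) ^ 2) ^ m * P.real Oᶜ ≤
        ((L : ℝ) ^ 3 / η ^ 2) ^ (2 ^ g0) * P.real Gᶜ +
        (A * κ) ^ (2 * m) * ((J + 1) * (L : ℝ) ^ 3 * K0 g0 / Λ ^ (2 ^ (bq - 1))) := by
      have c1 : (L : ℝ) ^ 3 * (1 / z.im) ^ 2 ≤ (L : ℝ) ^ 3 / η ^ 2 := by
        rw [one_div, inv_pow, ← div_eq_mul_inv]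
        gcongr
      have c2 : 1 ≤ (L : ℝ) ^ 3 / η ^ 2 := by
        rw [one_le_div (by positivity)]
        have h1 : η ≤ 1 := by
          have := ze_im c0 κ ρ (j + 1)
          have h2 : z.im ≤ κ ^ 2 := by
            rw [hz, ze_im]
            have : ρ ^ (j + 1) ≤ 1 := pow_le_one₀ hρ.le h.r1
            nlinarith [sq_nonneg κ]
          linarith
        have h2 : η ^ 2 ≤ 1 := pow_le_one₀ hη0.le h1
        have h3 : (1 : ℝ) ≤ (L : ℝ) ^ 3 := one_le_pow₀ hL1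
        linarith
      have c3 : ((L : ℝ) ^ 3 * (1 / z.im) ^ 2) ^ m ≤ ((L : ℝ) ^ 3 / η ^ 2) ^ m :=
        pow_le_pow_left₀ (by positivity) c1 m
      have c4 : ((L : ℝ) ^ 3 / η ^ 2) ^ m ≤ ((L : ℝ) ^ 3 / η ^ 2) ^ (2 ^ g0) :=
        pow_le_pow_right₀ c2 (Nat.pow_le_pow_right (by norm_num) hg0)
      have c5 : ((L : ℝ) ^ 3 / η ^ 2) ^ m ≤ (A * κ) ^ (2 * m) * Λ ^ (2 ^ bq * m) := by
        have h4 := h.H4b
        rw [← hη] at h4
        have h5 := pow_le_pow_left₀ hx0 h4 m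
        have e6 : ((A * κ) ^ 2 * Λ ^ 2 ^ bq) ^ m = (A * κ) ^ (2 * m) * Λ ^ (2 ^ bq * m) := by
          rw [mul_pow, ← pow_mul, ← pow_mul]
        exact h5.trans (le_of_eq e6)
      have e5 : Λ ^ (3 * 2 ^ (g0 - bq * j)) = Λ ^ (2 ^ bq * m) * Λ ^ (2 ^ (bq - 1) * m) := by
        rw [← pow_add, hgb]
        congr 1
        have : 2 ^ bq = 2 * 2 ^ (bq - 1) := by
          rw [← pow_succ']
          congr 1
          omega
        rw [this]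
        ring
      have c6 : Λ ^ (2 ^ (bq - 1)) ≤ Λ ^ (2 ^ (bq - 1) * m) :=
        pow_le_pow_right₀ hΛ (Nat.le_mul_of_pos_right _ (by omega))
      have hJL : 0 ≤ (J + 1) * (L : ℝ) ^ 3 * K0 g0 := by positivity
      have c7 : ((L : ℝ) ^ 3 / η ^ 2) ^ m *
          ((J + 1) * (L : ℝ) ^ 3 * K0 g0 / Λ ^ (3 * 2 ^ (g0 - bq * j))) ≤
          (A * κ) ^ (2 * m) * ((J + 1) * (L : ℝ) ^ 3 * K0 g0 / Λ ^ (2 ^ (bq - 1))) := by
        rw [e5]
        calc ((L : ℝ) ^ 3 / η ^ 2) ^ m * ((J + 1) * (L : ℝ) ^ 3 * K0 g0 /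
              (Λ ^ (2 ^ bq * m) * Λ ^ (2 ^ (bq - 1) * m))) ≤
            ((A * κ) ^ (2 * m) * Λ ^ (2 ^ bq * m)) * ((J + 1) * (L : ℝ) ^ 3 * K0 g0 /
              (Λ ^ (2 ^ bq * m) * Λ ^ (2 ^ (bq - 1) * m))) := by gcongr
          _ = (A * κ) ^ (2 * m) * ((J + 1) * (L : ℝ) ^ 3 * K0 g0 / Λ ^ (2 ^ (bq - 1) * m)) := by
              field_simp
          _ ≤ _ := by gcongr
      calc ((L : ℝ) ^ 3 * (1 / z.im) ^ 2) ^ m * P.real Oᶜ ≤
          ((L : ℝ) ^ 3 / η ^ 2) ^ m * (P.real Gᶜ +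
            (J + 1) * (L : ℝ) ^ 3 * K0 g0 / Λ ^ (3 * 2 ^ (g0 - bq * j))) := by gcongr
        _ = ((L : ℝ) ^ 3 / η ^ 2) ^ m * P.real Gᶜ + ((L : ℝ) ^ 3 / η ^ 2) ^ m *
            ((J + 1) * (L : ℝ) ^ 3 * K0 g0 / Λ ^ (3 * 2 ^ (g0 - bq * j))) := by ring
        _ ≤ _ := by gcongr
    have h3 := h.H3
    have h4 := h.H4a
    have h4c := h.H4c
    rw [← hη] at h3 h4
    rw [← hP] at h4
    have hAp : 0 < (A * κ) ^ (2 * m) := by positivity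
    have h5 : (A * κ) ^ (2 * 2 ^ g0) ≤ (A * κ) ^ (2 * m) := by
      apply pow_le_pow_of_le_one hAκ.le h.k1
      have : 2 ^ g ≤ 2 ^ g0 := Nat.pow_le_pow_right (by norm_num) hg0
      omega
    have hΛp : 0 < Λ ^ (2 ^ (bq - 1)) := by positivity
    have h6 : Cs * ((J + 1) * (L : ℝ) ^ 3 * K0 g0 / Λ ^ (2 ^ (bq - 1))) ≤ 1 / 4 := by
      rw [← mul_div_assoc, div_le_iff₀ hΛp]
      exact h4c
    calc Cs * ((lam ^ 2 / z.im) ^ m * ∫ V, XX lam z 0 V ^ (3 * m) ∂P +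
          ((L : ℝ) ^ 3 * (1 / z.im) ^ 2) ^ m * P.real Oᶜ) ≤
        Cs * ((2 * K0 g0) * (A * κ) ^ (2 * m) * (lam ^ 2 * (A * κ) / (ρ ^ 3 * η)) +
          (((L : ℝ) ^ 3 / η ^ 2) ^ (2 ^ g0) * P.real Gᶜ +
          (A * κ) ^ (2 * m) * ((J + 1) * (L : ℝ) ^ 3 * K0 g0 / Λ ^ (2 ^ (bq - 1))))) := by gcongr
      _ = (A * κ) ^ (2 * m) * (Cs * (2 * K0 g0) * (lam ^ 2 * (A * κ) / (ρ ^ 3 * η))) +
          Cs * ((L : ℝ) ^ 3 / η ^ 2) ^ (2 ^ g0) * P.real Gᶜ +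
          (A * κ) ^ (2 * m) * (Cs * ((J + 1) * (L : ℝ) ^ 3 * K0 g0 / Λ ^ (2 ^ (bq - 1)))) := by ring
      _ ≤ (A * κ) ^ (2 * m) * (1 / 2) + 1 / 4 * (A * κ) ^ (2 * 2 ^ g0) +
          (A * κ) ^ (2 * m) * (1 / 4) := by gcongr
      _ ≤ (A * κ) ^ (2 * m) * (1 / 2) + 1 / 4 * (A * κ) ^ (2 * m) +
          (A * κ) ^ (2 * m) * (1 / 4) := by gcongr
      _ = _ := by ring
  have hX0 : ∀ V : T 3 L → ℝ, 0 ≤ XX lam z 0 V := fun V => XX_nonneg lam hz' 0 V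
  have hXm : Measurable (XX lam z (0 : T 3 L)) := (XX_cont lam hz'.ne' 0).measurable
  have hXM : ∀ V : T 3 L → ℝ, XX lam z 0 V ≤ 1 / z.im := fun V => XX_le lam hz' 0 V
  have h6 := center P (XX lam z 0) hX0 hXm (1 / z.im) hXM (A * κ) hAκ (2 ^ g) Nat.one_le_two_pow
    hmean hcent
  have h7 := interp P (XX lam z 0) hX0 hXm (1 / z.im) hXM (A * κ) (2 ^ (2 * 2 ^ g + 1)) hAκ
    (3 * 2 ^ g') (2 * 2 ^ g) (by rw [hg, pow_succ]; omega) h6
  rw [← hg']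
  refine h7.trans ?_
  have h8 : (2 : ℝ) ^ (2 * 2 ^ g + 1) + 1 ≤ K0 g0 := by
    unfold K0
    have h9 : 2 ^ g ≤ 2 ^ g0 := Nat.pow_le_pow_right (by norm_num) hg0
    have : (2 : ℝ) ^ (2 * 2 ^ g + 1) ≤ 2 ^ (2 * 2 ^ g0 + 1) := by
      apply pow_le_pow_right₀ (by norm_num)
      omega
    linarith
  gcongr

/-- **the descent** -/
theorem descent (h : Bh μ Cg Cs A g0 bq J lam c0 θ mg κ ρ Λ ϑ δ T' G) (hA : 10000 ≤ A)
    (hCs : 1 ≤ Cs) (hGG : GGb Cg) (hIN : INb A) (hRC : RCb Cs g0) (hJ1 : 1 ≤ J) :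
    VarAt L μ lam (zz c0 (κ ^ 2) (κ ^ 2 * ρ ^ J))
      (4 * lam ^ 2 * (Λ * (A * κ) / ρ ^ 2) / (κ ^ 2 * ρ ^ J)) T' := by
  have hall : ∀ j ≤ J, ∀ i ≤ j, ∫ V, XX lam (ze c0 κ ρ i) 0 V ^ (3 * 2 ^ (g0 - bq * i))
      ∂(Measure.pi fun _ : T 3 L => μ) ≤ K0 g0 * (A * κ) ^ (3 * 2 ^ (g0 - bq * i)) := by
    intro j
    induction j with
    | zero =>
      intro _ i hi
      have hi0 : i = 0 := by omega
      subst hi0
      rw [Nat.mul_zero, Nat.sub_zero]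
      exact base h hA hIN
    | succ j ih =>
      intro hj i hi
      rcases Nat.lt_or_ge i (j + 1) with hlt | hge
      · exact ih (by omega) i (by omega)
      · have hi' : i = j + 1 := le_antisymm hi hge
        subst hi'
        exact next_I h hA hCs hGG hRC j hj (ih (by omega))
  obtain ⟨j, hj⟩ : ∃ j, J = j + 1 := ⟨J - 1, by omega⟩
  have h1 := next_var h hA hGG j (by omega) (hall j (by omega))
  unfold ze at h1
  rw [← hj] at h1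
  exact h1

end

end Pool.Agent.V8H95.NM
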