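import Pool.Agent.V8H95.NM.Tor3
import Pool.Agent.V8H95.NM.Boot2

/-!
The mean deviation of the packets from the variance of the resolvents.
-/

set_option autoImplicit false
set_option linter.unusedSectionVars false
set_option linter.unusedVariables false

open Complex MeasureTheory
open scoped BigOperators ComplexConjugate

namespace Pool.Agent.V8H95.NM

open Pool.Agent.H4R2.AE Pool.Agent.V8H99.AD Pool.Agent.V8H95.MF Pool.Agent.V8H95.BW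
open Pool.Agent.V8H95.EF

theorem zx_zz (c0 η x : ℝ) : zx η x = zz c0 (x - c0) η := by
  unfold zx zz
  push_cast
  ring

theorem exp_two : Real.exp 2 ≤ 8 := by
  have h1 := Real.exp_one_lt_d9
  have h2 : Real.exp 2 = Real.exp 1 ^ 2 := by rw [← Real.exp_nat_mul]; norm_num
  rw [h2]
  have h3 : 0 < Real.exp 1 := Real.exp_pos 1
  nlinarith

theorem kq_max {L : ℕ} [NeZero L] (q : T 3 L) : ∃ i, kq q / 3 ≤ k1q q i := by
  by_contra hc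
  push Not at hc
  have h1 : kq q < ∑ _i : Fin 3, kq q / 3 := by
    conv_lhs => unfold kq
    exact Finset.sum_lt_sum_of_nonempty Finset.univ_nonempty fun i _ => hc i
  simp at h1
  linarith

/-- **the mean deviation of the packets** -/
theorem pk_avg (L : ℕ) [NeZero L] (μ : Measure ℝ) [IsProbabilityMeasure μ]
    (lam c0 m θ ϑ κ K s s1 K1 η β σ T' t : ℝ) (M : ℕ) (G : Set (T 3 L → ℝ))
    (hGm : MeasurableSet G) (hG : ∀ V ∈ G, ∃ ψ : T 3 L → ℝ, Gd lam c0 θ m V ψ)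
    (hm : 0 ≤ m) (hθ : 0 ≤ θ) (hκ : 0 < κ) (hK : 1 ≤ K) (hϑ : 0 < ϑ) (hϑ1 : ϑ ≤ 1 / 100) (hs : 0 < s) (hs1 : 0 < s1)
    (hs1K : s1 ≤ K1) (hη : 0 < η) (hβ : 0 < β) (hσ : 0 ≤ σ) (hT : 0 ≤ T') (ht : 0 < t)
    (hηt : η * t ≤ 1) (hM1 : 1 ≤ M) (hML : M ≤ L)
    (hMσ : (3 : ℕ) * (2 ^ (3 + 1) / (M : ℝ)) ≤ ϑ * (K * κ))
    (hvar : ∀ e ∈ Set.Icc ((s1 * κ) ^ 2 / 2) (2 * (K1 * κ) ^ 2), VarAt L μ lam (zz c0 e η) σ T')
    (hX : 16 * (σ + ((2 * (4 * (2 * (K * κ) ^ 2) + 12 * m) / (K1 * κ) ^ 2 + 2 * θ ^ 2) +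
        ((s1 * κ + 2 ^ (3 + 1) / (M : ℝ)) / (s * κ / 2) + θ) ^ 2) +
        (Measure.pi fun _ : T 3 L => μ).real Gᶜ + 2 * η / ((s1 * κ) ^ 2 / 2) +
        T' * η * (2 * (K1 * κ) ^ 2)) ≤ η * t * β ^ 2)
    (q : T 3 L) (hq1 : (s * κ) ^ 2 < kq q) (hq2 : kq q < (K * κ) ^ 2) :
    ∫ V, (∫ s in (0 : ℝ)..t, Dv μ lam (Ph M 0 q) V s)
        ∂(Measure.pi fun _ : T 3 L => μ) ≤ t * (β * ‖Ph M 0 q‖) := by
  classical
  set P : Measure (T 3 L → ℝ) := Measure.pi fun _ : T 3 L => μ with hP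
  set u : XT 3 L := Ph M 0 q with hu
  have hK10 : 0 < K1 := by linarith
  have hun : 0 < ‖u‖ := by
    have h1 := Ph_norm M 0 q
    have h2 := tsq_pos (d := 3) (L := L) M hM1 hML
    by_contra hc
    have h3 : ‖Ph M 0 q‖ = 0 := le_antisymm (not_lt.1 hc) (norm_nonneg _)
    rw [h3] at h1
    norm_num at h1
    linarith
  have hM0 : (0 : ℝ) < M := by exact_mod_cast hM1
  have hKκ0 : 0 < K * κ := by positivity
  -- the packet
  have hdir : Dir (fun y => u y) ≤ 2 * (K * κ) ^ 2 * ‖u‖ ^ 2 := by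
    have h1 := Ph_dir (le_refl _ |>.trans (by norm_num : 1 ≤ 3)) M hM1 hML q ϑ (K * κ) hϑ1 hKκ0 hϑ
      hMσ hq2.le
    refine h1.trans ?_
    apply mul_le_mul_of_nonneg_right _ (by positivity)
    have h5 : 0 < (K * κ) ^ 2 := by positivity
    nlinarith
  obtain ⟨i, hi⟩ := kq_max q
  have hw : s * κ / 2 ≤ ‖ch q (Pi.single i 1) - 1‖ := by
    rw [← pow_le_pow_iff_left₀ (by positivity) (norm_nonneg _) two_ne_zero]
    have h1 : k1q q i = ‖ch q (Pi.single i 1) - 1‖ ^ 2 := rfl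
    rw [← h1]
    have h2 : 0 < (s * κ) ^ 2 := by positivity
    calc (s * κ / 2) ^ 2 = (s * κ) ^ 2 / 4 := by ring
      _ ≤ (s * κ) ^ 2 / 3 := by linarith
      _ ≤ kq q / 3 := by linarith
      _ ≤ _ := hi
  have hmom : ‖Sh i u - ch q (Pi.single i 1) • u‖ ≤ 2 ^ (3 + 1) / (M : ℝ) * ‖u‖ := by
    have := Ph_mom M hM1 hML q i
    rwa [exp_th] at this
  set δ1 : ℝ := (2 * (4 * (2 * (K * κ) ^ 2) + 12 * m) / (K1 * κ) ^ 2 + 2 * θ ^ 2) +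
        ((s1 * κ + 2 ^ (3 + 1) / (M : ℝ)) / (s * κ / 2) + θ) ^ 2 with hδ1
  have hout : ∀ V ∈ G, ∫ x in (Set.Icc (c0 + (s1 * κ) ^ 2 / 2) (c0 + (K1 * κ) ^ 2 +
      (s1 * κ) ^ 2 / 2))ᶜ, ‖GT lam V (zx η x) u‖ ^ 2 ≤
      (2 * Real.pi / ((s1 * κ) ^ 2 / 2) + Real.pi / η * δ1) * ‖u‖ ^ 2 := by
    intro V hV
    obtain ⟨ψ, h⟩ := hG V hV
    obtain ⟨b, E, hb⟩ := exists_basis lam V
    have h1 := pk_out b E hb h u ((s1 * κ) ^ 2) ((K1 * κ) ^ 2) (2 * (K * κ) ^ 2)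
      (2 ^ (3 + 1) / (M : ℝ)) (s * κ / 2) (by positivity) (by positivity) hdir (by positivity)
      (by positivity) i _ hw hmom
    rw [Real.sqrt_sq (by positivity)] at h1
    exact out_le b E hb hη u _ _ (c0 + (s1 * κ) ^ 2) (c0 + (K1 * κ) ^ 2) ((s1 * κ) ^ 2 / 2) δ1
      (by positivity) (by linarith) (by linarith) h1
  have hsK : (s1 * κ) ^ 2 ≤ (K1 * κ) ^ 2 := by gcongr
  have hδ10 : 0 ≤ δ1 := by rw [hδ1]; positivity
  have hK1κ : 0 < (K1 * κ) ^ 2 := by positivity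
  have hta := time_avg μ lam hη u G hGm (c0 + (s1 * κ) ^ 2 / 2) (c0 + (K1 * κ) ^ 2 +
      (s1 * κ) ^ 2 / 2) ((s1 * κ) ^ 2 / 2) δ1 (by
        have : 0 < (K1 * κ) ^ 2 := by positivity
        linarith) (by positivity) hδ10 hout σ T' hσ hT (fun x hx => by
      have h1 := hvar (x - c0) ⟨by linarith [hx.1], by linarith [hx.2]⟩ u
      unfold VG SG
      rw [zx_zz c0 η x]
      exact h1) t ht.le
  apply dv_avg μ lam u t β ht.le hβ hun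
  refine hta.trans ?_
  rw [← hP]
  have hexp : Real.exp (2 * η * t) ≤ 8 := by
    refine le_trans ?_ exp_two
    apply Real.exp_le_exp.2
    nlinarith
  have hpG0 : 0 ≤ P.real Gᶜ := measureReal_nonneg
  have hA : c0 + (K1 * κ) ^ 2 + (s1 * κ) ^ 2 / 2 - (c0 + (s1 * κ) ^ 2 / 2) ≤ 2 * (K1 * κ) ^ 2 := by
    have : 0 < (K1 * κ) ^ 2 := by positivity
    linarith
  have hA0 : 0 ≤ c0 + (K1 * κ) ^ 2 + (s1 * κ) ^ 2 / 2 - (c0 + (s1 * κ) ^ 2 / 2) := by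
    have : 0 < (K1 * κ) ^ 2 := by positivity
    linarith
  calc Real.exp (2 * η * t) * (2 / η * (σ + δ1 + P.real Gᶜ + 2 * η / ((s1 * κ) ^ 2 / 2) +
        T' * η * (c0 + (K1 * κ) ^ 2 + (s1 * κ) ^ 2 / 2 - (c0 + (s1 * κ) ^ 2 / 2)))) * ‖u‖ ^ 2 ≤
      8 * (2 / η * (σ + δ1 + P.real Gᶜ + 2 * η / ((s1 * κ) ^ 2 / 2) +
        T' * η * (2 * (K1 * κ) ^ 2))) * ‖u‖ ^ 2 := by gcongr
    _ = (16 * (σ + δ1 + P.real Gᶜ + 2 * η / ((s1 * κ) ^ 2 / 2) +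
        T' * η * (2 * (K1 * κ) ^ 2))) / η * ‖u‖ ^ 2 := by ring
    _ ≤ (η * t * β ^ 2) / η * ‖u‖ ^ 2 := by gcongr
    _ = _ := by
        field_simp

end Pool.Agent.V8H95.NM
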