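import Pool.Agent.V8H95.NM.Dy

/-!
The mean local density of states.
-/

set_option autoImplicit false
set_option linter.unusedSectionVars false
set_option linter.unusedVariables false

open Complex MeasureTheory
open scoped BigOperators ComplexConjugate

namespace Pool.Agent.V8H95.NM

open Pool.Agent.H4R2.AE Pool.Agent.V8H99.AD Pool.Agent.V8H95.MF Pool.Agent.V8H95.BW
open Pool.Agent.V8H95.EF

variable {d L : ℕ} [NeZero L]

theorem na_bound (k : T d L) (i : Fin d) (a : ℝ) (ha : 0 ≤ a) (h : k1q k i ≤ (4 * a / L) ^ 2) :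
    (na (k i) : ℝ) ≤ a := by
  have h1 := (k1q_lo k i).trans h
  have hL := L_pos (L := L)
  have h2 : 4 * (na (k i) : ℝ) / L ≤ 4 * a / L :=
    (abs_le.1 (abs_le_of_sq_le_sq h1 (by positivity))).2
  rw [div_le_div_iff_of_pos_right hL] at h2
  linarith

section
variable {μ : Measure ℝ} [IsProbabilityMeasure μ] {lam c0 θ mg : ℝ} {G : Set (T d L → ℝ)} {z : ℂ}
  {e y σ : ℝ}

/-- one direction, one sign -/
theorem cnt_line (h : Cx μ lam c0 θ mg G z e y σ) (hd : 1 ≤ d) (ϑ : ℝ) (hϑ : θ ≤ ϑ)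
    (hθ : θ ≤ 1 / 1600)
    (hϑ1 : ϑ * (1000 * d) ≤ 1) (hσ : σ ≤ ϑ ^ 2) (he : e ≤ 1 / 2) (x : ℝ) (hx0 : 0 ≤ x)
    (hx : x ≤ e / 4) (κ : ℝ) (hκ : 0 < κ) (hκ2 : κ ^ 2 = e) (i : Fin d)
    (sg : ℝ) (hsg : sg ^ 2 = 1) (s : ℝ) (hs : 0 < s) (hs2 : s ^ 2 * (4 * d) = e) :
    (((Finset.univ : Finset (T d L)).filter fun k => ‖Fk μ lam z k‖ ≤ x ∧
      s ≤ sg * (ch k (Pi.single i 1)).im).card : ℝ) ≤
      (2 * (x * L / s) + 1) * (κ * L + 1) ^ (d - 1) := by
  classical
  have hL := L_pos (L := L)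
  set ρ1 : ℕ := ⌊x * L / s⌋₊ with hρ1
  set ρ2 : ℕ := ⌊κ * L / 2⌋₊ with hρ2
  set S := (Finset.univ : Finset (T d L)).filter fun k => ‖Fk μ lam z k‖ ≤ x ∧
      s ≤ sg * (ch k (Pi.single i 1)).im with hS
  set A := (Finset.univ : Finset (ZMod L)).filter fun a => na a ≤ ρ2 with hA
  have hAc : A.card ≤ 2 * ρ2 + 1 := cnt1_le ρ2
  set f : T d L → T d L := fun k => Function.update k i 0 with hf
  have hfib : ∀ a ∈ S.image f, (S.filter fun k => f k = a).card ≤ 2 * ρ1 + 1 := by
    intro a ha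
    obtain ⟨k0, hk0, rfl⟩ := Finset.mem_image.1 ha
    rw [hS, Finset.mem_filter] at hk0
    have h1 : ∀ k ∈ S.filter (fun k => f k = f k0), k i - k0 i ∈
        (Finset.univ : Finset (ZMod L)).filter fun a => na a ≤ ρ1 := by
      intro k hk
      rw [Finset.mem_filter, hS, Finset.mem_filter] at hk
      rw [Finset.mem_filter]
      refine ⟨Finset.mem_univ _, ?_⟩
      have h2 : k = k0 + Pi.single i (k i - k0 i) := by
        funext j
        by_cases hj : j = i
        · subst hj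
          simp
        · have := congrFun hk.2 j
          simp only [hf, Function.update_of_ne hj] at this
          rw [Pi.add_apply, Pi.single_eq_of_ne hj, add_zero]
          exact this
      have h3 := line h hd ϑ hϑ hϑ1 hσ he x hx k0 i (k i - k0 i) sg hsg s hs hs2 hk0.2.1
        (by rw [← h2]; exact hk.1.2.1) hk0.2.2 (by rw [← h2]; exact hk.1.2.2)
      have h4 : (na ((Pi.single i (k i - k0 i) : T d L) i) : ℝ) ≤ x * L / s := by
        apply na_bound _ _ _ (by positivity)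
        unfold k1q
        apply pow_le_pow_left₀ (norm_nonneg _)
        rw [← mul_div_assoc, div_div, le_div_iff₀ (by positivity)]
        nlinarith
      rw [Pi.single_eq_same] at h4
      exact Nat.le_floor h4
    have h5 := Finset.card_le_card_of_injOn (s := S.filter fun k => f k = f k0)
      (t := (Finset.univ : Finset (ZMod L)).filter fun a => na a ≤ ρ1) (fun k => k i - k0 i) h1
      (by
        intro k hk k' hk' hkk
        simp only [Finset.coe_filter, Set.mem_setOf_eq] at hk hk'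
        funext j
        by_cases hj : j = i
        · subst hj
          simpa using hkk
        · have := congrFun (hk.2.trans hk'.2.symm) j
          simpa only [hf, Function.update_of_ne hj] using this)
    exact h5.trans (cnt1_le ρ1)
  have himg : S.image f ⊆ Fintype.piFinset (Function.update (fun _ : Fin d => A) i {0}) := by
    intro a ha
    obtain ⟨k, hk, rfl⟩ := Finset.mem_image.1 ha
    rw [hS, Finset.mem_filter] at hk
    rw [Fintype.mem_piFinset]
    intro j
    by_cases hj : j = i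
    · subst hj
      simp [hf]
    · simp only [hf, Function.update_of_ne hj]
      rw [hA, Finset.mem_filter]
      refine ⟨Finset.mem_univ _, Nat.le_floor ?_⟩
      apply na_bound _ _ _ (by positivity)
      have h1 := (shell h hθ k (hk.2.1.trans hx)).2
      refine ((k1q_le k j).trans h1).trans ?_
      have e1 : 4 * (κ * L / 2) / L = 2 * κ := by field_simp; ring
      rw [e1, mul_pow, hκ2]
      have := h.e0
      linarith
  have hcard : (S.image f).card ≤ (2 * ρ2 + 1) ^ (d - 1) := by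
    refine (Finset.card_le_card himg).trans ?_
    rw [Fintype.card_piFinset]
    have e1 : ∀ j : Fin d, (Function.update (fun _ : Fin d => A) i {0} j).card =
        Function.update (fun _ : Fin d => A.card) i 1 j := by
      intro j
      by_cases hj : j = i
      · subst hj
        simp
      · rw [Function.update_of_ne hj, Function.update_of_ne hj]
    rw [Finset.prod_congr rfl fun j _ => e1 j, Finset.prod_update_of_mem (Finset.mem_univ i),
      one_mul, Finset.prod_const]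
    have e2 : (Finset.univ \ {i} : Finset (Fin d)).card = d - 1 := by
      rw [Finset.card_sdiff_of_subset (Finset.subset_univ _)]
      simp
    rw [e2]
    exact Nat.pow_le_pow_left hAc _
  have h1 := Finset.card_le_mul_card_image S (2 * ρ1 + 1) hfib
  have h2 : (S.card : ℝ) ≤ (2 * ρ1 + 1) * (2 * ρ2 + 1) ^ (d - 1) := by
    have h3 : S.card ≤ (2 * ρ1 + 1) * (2 * ρ2 + 1) ^ (d - 1) := h1.trans (by gcongr)
    exact_mod_cast h3
  refine h2.trans ?_
  have h3 : (ρ1 : ℝ) ≤ x * L / s := Nat.floor_le (by positivity)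
  have h4 : (ρ2 : ℝ) ≤ κ * L / 2 := Nat.floor_le (by positivity)
  have h5 : 2 * (ρ2 : ℝ) + 1 ≤ κ * L + 1 := by linarith
  have h6 : 2 * (ρ1 : ℝ) + 1 ≤ 2 * (x * L / s) + 1 := by linarith
  gcongr

/-- momenta near the energy shell -/
theorem cnt_shell (h : Cx μ lam c0 θ mg G z e y σ) (hd : 1 ≤ d) (ϑ : ℝ) (hϑ : θ ≤ ϑ)
    (hθ : θ ≤ 1 / 1600)
    (hϑ1 : ϑ * (1000 * d) ≤ 1) (hσ : σ ≤ ϑ ^ 2) (he : e ≤ 1 / 2) (x : ℝ)
    (hx : x ≤ e / 4) (hxy : y ≤ x) (κ : ℝ) (hκ : 0 < κ) (hκ2 : κ ^ 2 = e) (hyL : κ ≤ y * L) :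
    (((Finset.univ : Finset (T d L)).filter fun k => ‖Fk μ lam z k‖ ≤ x).card : ℝ) ≤
      12 * d ^ 2 * (x * L / κ) * (2 * (κ * L)) ^ (d - 1) := by
  classical
  have hL := L_pos (L := L)
  have hy := h.y0
  have hd' : (1 : ℝ) ≤ d := by exact_mod_cast hd
  have hx0 : 0 ≤ x := hy.le.trans hxy
  have he0 := h.e0
  set s : ℝ := κ / (2 * √d) with hs
  have hsd : 0 < √(d : ℝ) := Real.sqrt_pos.2 (by linarith)
  have hs0 : 0 < s := by positivity
  have hs2 : s ^ 2 * (4 * d) = e := by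
    rw [hs, div_pow, mul_pow, Real.sq_sqrt (by linarith), hκ2]
    field_simp
    ring
  have hsub : ((Finset.univ : Finset (T d L)).filter fun k => ‖Fk μ lam z k‖ ≤ x) ⊆
      (Finset.univ : Finset (Fin d)).biUnion fun i =>
        ((Finset.univ : Finset (T d L)).filter fun k => ‖Fk μ lam z k‖ ≤ x ∧
          s ≤ 1 * (ch k (Pi.single i 1)).im) ∪
        ((Finset.univ : Finset (T d L)).filter fun k => ‖Fk μ lam z k‖ ≤ x ∧
          s ≤ (-1) * (ch k (Pi.single i 1)).im) := by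
    intro k hk
    rw [Finset.mem_filter] at hk
    obtain ⟨h1, h2⟩ := shell h hθ k (hk.2.trans hx)
    have h3 : ∃ i, e / (2 * d) ≤ k1q k i := by
      by_contra hcon
      push Not at hcon
      have h4 : kq k < e / 2 := by
        unfold kq
        have hne : (Finset.univ : Finset (Fin d)).Nonempty := ⟨⟨0, by omega⟩, Finset.mem_univ _⟩
        calc ∑ i, k1q k i < ∑ _i : Fin d, e / (2 * d) :=
              Finset.sum_lt_sum_of_nonempty hne fun i _ => hcon i
          _ = e / 2 := by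
              rw [Finset.sum_const, Finset.card_univ, Fintype.card_fin, nsmul_eq_mul]
              field_simp
      linarith
    obtain ⟨i, hi⟩ := h3
    rw [Finset.mem_biUnion]
    refine ⟨i, Finset.mem_univ i, ?_⟩
    rw [Finset.mem_union, Finset.mem_filter, Finset.mem_filter]
    obtain ⟨u1, u2⟩ := ch_re_im k i
    set a := (ch k (Pi.single i 1)).re
    set b := (ch k (Pi.single i 1)).im
    have h5 : k1q k i ≤ 1 := (k1q_le k i).trans (h2.trans (by linarith))
    have h6 : s ^ 2 ≤ b ^ 2 := by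
      have e1 : a = 1 - k1q k i / 2 := by linarith
      have e2 : b ^ 2 = k1q k i - k1q k i ^ 2 / 4 := by
        rw [e1] at u1
        nlinarith
      have e3 : e / (2 * d) = 2 * s ^ 2 := by
        rw [← hs2]
        field_simp
        ring
      rw [e3] at hi
      have := k1q_nonneg k i
      nlinarith
    have h7 : s ≤ |b| := by
      have := sq_le_sq.1 h6
      rwa [abs_of_pos hs0] at this
    rcases le_abs.1 h7 with h8 | h8
    · exact Or.inl ⟨Finset.mem_univ _, hk.2, by linarith⟩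
    · exact Or.inr ⟨Finset.mem_univ _, hk.2, by linarith⟩
  have hB : ∀ (i : Fin d) (sg : ℝ), sg ^ 2 = 1 →
      (((Finset.univ : Finset (T d L)).filter fun k => ‖Fk μ lam z k‖ ≤ x ∧
        s ≤ sg * (ch k (Pi.single i 1)).im).card : ℝ) ≤
        6 * d * (x * L / κ) * (2 * (κ * L)) ^ (d - 1) := by
    intro i sg hsg
    refine (cnt_line h hd ϑ hϑ hθ hϑ1 hσ he x hx0 hx κ hκ hκ2 i sg hsg s hs0 hs2).trans ?_
    have h1 : x * L / s = 2 * √d * (x * L / κ) := by rw [hs]; field_simp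
    have h2 : (1 : ℝ) ≤ x * L / κ := by
      rw [le_div_iff₀ hκ, one_mul]
      refine hyL.trans ?_
      gcongr
    have h3 : √(d : ℝ) ≤ d := by
      rw [Real.sqrt_le_left (by linarith)]
      nlinarith
    have h4 : (1 : ℝ) ≤ κ * L := by
      have h5 : κ ≤ κ * (κ * L) := by
        calc κ ≤ y * L := hyL
          _ ≤ e * L := by
              have := h.y1
              gcongr
          _ = κ * (κ * L) := by rw [← hκ2]; ring
      by_contra hcon
      push Not at hcon
      nlinarith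
    have h5 : 2 * (x * L / s) + 1 ≤ 6 * d * (x * L / κ) := by
      rw [h1]
      have h6 : √(d : ℝ) * (x * L / κ) ≤ d * (x * L / κ) := by gcongr
      have h7 : (1 : ℝ) ≤ d * (x * L / κ) := by nlinarith
      linarith
    have h6 : κ * L + 1 ≤ 2 * (κ * L) := by linarith
    have h7 : 0 ≤ x * L / κ := by linarith
    gcongr
  have h1 : (((Finset.univ : Finset (T d L)).filter fun k => ‖Fk μ lam z k‖ ≤ x).card : ℝ) ≤
      ∑ i : Fin d, ((((Finset.univ : Finset (T d L)).filter fun k => ‖Fk μ lam z k‖ ≤ x ∧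
          s ≤ 1 * (ch k (Pi.single i 1)).im).card : ℝ) +
        (((Finset.univ : Finset (T d L)).filter fun k => ‖Fk μ lam z k‖ ≤ x ∧
          s ≤ (-1) * (ch k (Pi.single i 1)).im).card : ℝ)) := by
    have h2 := (Finset.card_le_card hsub).trans Finset.card_biUnion_le
    have h3 : (((Finset.univ : Finset (T d L)).filter fun k => ‖Fk μ lam z k‖ ≤ x).card : ℝ) ≤
      ∑ i : Fin d, ((((Finset.univ : Finset (T d L)).filter fun k => ‖Fk μ lam z k‖ ≤ x ∧
          s ≤ 1 * (ch k (Pi.single i 1)).im) ∪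
        ((Finset.univ : Finset (T d L)).filter fun k => ‖Fk μ lam z k‖ ≤ x ∧
          s ≤ (-1) * (ch k (Pi.single i 1)).im)).card : ℝ) := by exact_mod_cast h2
    refine h3.trans (Finset.sum_le_sum fun i _ => ?_)
    exact_mod_cast Finset.card_union_le _ _
  refine h1.trans ?_
  calc _ ≤ ∑ i : Fin d, (6 * d * (x * L / κ) * (2 * (κ * L)) ^ (d - 1) +
        6 * d * (x * L / κ) * (2 * (κ * L)) ^ (d - 1)) :=
        Finset.sum_le_sum fun i _ => add_le_add (hB i 1 (by norm_num)) (hB i (-1) (by norm_num))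
    _ = _ := by
        rw [Finset.sum_const, Finset.card_univ, Fintype.card_fin, nsmul_eq_mul]
        ring

end

theorem es_pw : (es 0 : XT d L) = ((1 : ℂ) / (L : ℂ) ^ d) • ∑ k : T d L, pw k := by
  have hL : (L : ℂ) ^ d ≠ 0 := by
    have : (L : ℂ) ≠ 0 := by
      have := NeZero.ne L
      exact_mod_cast this
    exact pow_ne_zero _ this
  ext x
  rw [PiLp.smul_apply, smul_eq_mul]
  have h1 : (∑ k : T d L, pw k) x = ∑ k : T d L, ch k x := by
    simp [pw_apply]
  rw [h1, ch_orth]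
  unfold es
  by_cases hx : x = 0
  · subst hx
    simp
  · rw [if_neg hx]
    simp [hx]

section
variable (μ : Measure ℝ) [IsProbabilityMeasure μ]

theorem XX_mean (lam : ℝ) {z : ℂ} (hz : z.im ≠ 0) :
    ∫ V, XX lam z (0 : T d L) V ∂(Measure.pi fun _ : T d L => μ) =
      1 / (L : ℝ) ^ d * ∑ k : T d L, (mk μ lam z k).im := by
  have hL : (L : ℝ) ^ d ≠ 0 := (L_pos' (d := d) (L := L)).ne'
  have h1 : ∀ V : T d L → ℝ, XX lam z (0 : T d L) V =
      1 / (L : ℝ) ^ d * ∑ k : T d L, ((GT lam V z (pw k)) 0).im := by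
    intro V
    unfold XX GG
    rw [es_pw, map_smul, map_sum, PiLp.smul_apply, smul_eq_mul]
    have h2 : (∑ k : T d L, GT lam V z (pw k)) (0 : T d L) =
        ∑ k : T d L, (GT lam V z (pw k)) 0 := by
      simp
    rw [h2]
    have h3 : (1 : ℂ) / (L : ℂ) ^ d = ((1 / (L : ℝ) ^ d : ℝ) : ℂ) := by push_cast; rfl
    rw [h3, Complex.im_ofReal_mul, Complex.im_sum]
  simp only [h1]
  have h2 : ∀ k : T d L, Integrable (fun V : T d L → ℝ => ((GT lam V z (pw k)) 0).im)
      (Measure.pi fun _ : T d L => μ) := fun k => (GTxi μ lam hz (pw k) 0).im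
  rw [integral_const_mul, integral_finsetSum _ fun k _ => h2 k]
  congr 1
  refine Finset.sum_congr rfl fun k _ => ?_
  unfold mk
  exact Complex.imCLM.integral_comp_comm (GTxi μ lam hz (pw k) 0)

end

/-- **the mean local density of states** -/
theorem mean_XX {L : ℕ} [NeZero L] {μ : Measure ℝ} [IsProbabilityMeasure μ]
    {lam c0 θ mg : ℝ} {G : Set (T 3 L → ℝ)} {z : ℂ} {e y σ : ℝ}
    (h : Cx μ lam c0 θ mg G z e y σ) (ϑ : ℝ) (hϑ : θ ≤ ϑ) (hϑ1 : ϑ ≤ 1 / 3000)
    (hσ : σ ≤ ϑ ^ 2) (he : e ≤ 1 / 2) (κ : ℝ) (hκ : 0 < κ) (hκ2 : κ ^ 2 = e)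
    (hyL : κ ≤ y * L) (hκL : 2 ≤ κ * L) :
    ∫ V, XX lam z (0 : T 3 L) V ∂(Measure.pi fun _ : T 3 L => μ) ≤ 10000 * κ := by
  classical
  have hne := h.ne
  have hy := h.y0
  have hL := L_pos (L := L)
  have he0 := h.e0
  have hθ : θ ≤ 1 / 1600 := by linarith
  have hd : 1 ≤ 3 := by norm_num
  have hϑ3 : ϑ * (1000 * ((3 : ℕ) : ℝ)) ≤ 1 := by push_cast; linarith
  have cnt : ∀ x : ℝ, x ≤ e / 4 → y ≤ x →
      (((Finset.univ : Finset (T 3 L)).filter fun k => ‖Fk μ lam z k‖ ≤ x).card : ℝ) ≤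
      (432 * κ * (L : ℝ) ^ 3) * x := by
    intro x hx hxy
    refine (cnt_shell h hd ϑ hϑ hθ hϑ3 hσ he x hx hxy κ hκ hκ2 hyL).trans (le_of_eq ?_)
    have : (3 - 1 : ℕ) = 2 := rfl
    rw [this]
    push_cast
    field_simp
    ring
  have hFl : ∀ k : T 3 L, y ≤ ‖Fk μ lam z k‖ := F_lower h
  -- near the shell
  set Ne := (Finset.univ : Finset (T 3 L)).filter fun k => ‖Fk μ lam z k‖ ≤ e / 4 with hNe
  set Fa := (Finset.univ : Finset (T 3 L)).filter fun k => ¬ ‖Fk μ lam z k‖ ≤ e / 4 with hFa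
  have h1 : ∑ k ∈ Ne, (1 : ℝ) / ‖Fk μ lam z k‖ ^ (1 + 1) ≤
      2 ^ (1 + 1) * (432 * κ * (L : ℝ) ^ 3) / y := by
    refine dyadic Ne (fun _ => (1 : ℝ)) (fun k => ‖Fk μ lam z k‖) (fun _ _ => zero_le_one) y
      (432 * κ * (L : ℝ) ^ 3) 1 hy (fun k _ => hFl k) fun x hx => ?_
    rw [pow_one]
    rcases le_or_gt x (e / 4) with hc | hc
    · refine le_trans ?_ (cnt x hc hx)
      rw [← Finset.sum_filter, Finset.sum_const, nsmul_eq_mul, mul_one]
      have h9 : (Ne.filter fun k => ‖Fk μ lam z k‖ ≤ x) ⊆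
          (Finset.univ : Finset (T 3 L)).filter fun k => ‖Fk μ lam z k‖ ≤ x := by
        intro k hk
        rw [Finset.mem_filter] at hk ⊢
        exact ⟨Finset.mem_univ _, hk.2⟩
      exact_mod_cast Finset.card_le_card h9
    · rcases le_or_gt y (e / 4) with hc2 | hc2
      · have h2 := cnt (e / 4) le_rfl hc2
        have h3 : (∑ i ∈ Ne, if ‖Fk μ lam z i‖ ≤ x then (1 : ℝ) else 0) ≤ (Ne.card : ℝ) := by
          calc _ ≤ ∑ i ∈ Ne, (1 : ℝ) := Finset.sum_le_sum fun i _ => by split_ifs <;> norm_num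
            _ = _ := by simp
        refine h3.trans (h2.trans ?_)
        gcongr
      · have h3 : Ne = ∅ := by
          rw [hNe, Finset.filter_eq_empty_iff]
          intro k _ hk
          have := hFl k
          linarith
        rw [h3, Finset.sum_empty]
        have : 0 < x := lt_of_lt_of_le hy hx
        positivity
  -- away from the shell
  have h2 : ∑ k : T 3 L, (1 : ℝ) / (√(kq k + e)) ^ (3 + 1) ≤ 2 ^ (3 + 1) * (L : ℝ) ^ 3 / κ := by
    refine dyadic Finset.univ (fun _ => (1 : ℝ)) (fun k => √(kq k + e))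
      (fun _ _ => zero_le_one) κ ((L : ℝ) ^ 3) 3 hκ (fun k _ => ?_) fun x hx => ?_
    · apply Real.le_sqrt_of_sq_le
      rw [hκ2]
      have := kq_nonneg k
      linarith
    · have hx0 : 0 < x := lt_of_lt_of_le hκ hx
      have h3 := cntq_le (d := 3) (L := L) x hx0 (hκL.trans (by gcongr))
      rw [mul_pow, mul_comm] at h3
      refine le_trans ?_ h3
      rw [← Finset.sum_filter, Finset.sum_const, nsmul_eq_mul, mul_one]
      have h9 : ((Finset.univ : Finset (T 3 L)).filter fun k => √(kq k + e) ≤ x) ⊆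
          (Finset.univ : Finset (T 3 L)).filter fun k => kq k ≤ x ^ 2 := by
        intro k hk
        rw [Finset.mem_filter] at hk ⊢
        refine ⟨Finset.mem_univ _, ?_⟩
        have h4 := (Real.sqrt_le_left hx0.le).1 hk.2
        linarith
      exact_mod_cast Finset.card_le_card h9
  have h3 : ∑ k ∈ Fa, (1 : ℝ) / ‖Fk μ lam z k‖ ^ 2 ≤ 144 * (2 ^ (3 + 1) * (L : ℝ) ^ 3 / κ) := by
    calc ∑ k ∈ Fa, (1 : ℝ) / ‖Fk μ lam z k‖ ^ 2 ≤
        ∑ k ∈ Fa, 144 * ((1 : ℝ) / (√(kq k + e)) ^ (3 + 1)) := by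
          refine Finset.sum_le_sum fun k hk => ?_
          rw [hFa, Finset.mem_filter, not_le] at hk
          have h4 := off_shell h hθ k hk.2
          have hk0 := kq_nonneg k
          have e1 : (√(kq k + e)) ^ (3 + 1) = (kq k + e) ^ 2 := by
            have : (√(kq k + e)) ^ (3 + 1) = ((√(kq k + e)) ^ 2) ^ 2 := by ring
            rw [this, Real.sq_sqrt (by linarith)]
          rw [e1]
          have h5 : 0 < kq k + e := by linarith
          have h6 : ((kq k + e) / 12) ^ 2 ≤ ‖Fk μ lam z k‖ ^ 2 :=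
            pow_le_pow_left₀ (by positivity) h4 2
          calc 1 / ‖Fk μ lam z k‖ ^ 2 ≤ 1 / ((kq k + e) / 12) ^ 2 :=
                one_div_le_one_div_of_le (by positivity) h6
            _ = _ := by field_simp; norm_num
      _ ≤ ∑ k : T 3 L, 144 * ((1 : ℝ) / (√(kq k + e)) ^ (3 + 1)) :=
          Finset.sum_le_univ_sum_of_nonneg fun k => by positivity
      _ = 144 * ∑ k : T 3 L, ((1 : ℝ) / (√(kq k + e)) ^ (3 + 1)) := by rw [Finset.mul_sum]
      _ ≤ _ := by gcongr
  have h4 : ∑ k : T 3 L, (mk μ lam z k).im ≤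
      2 * y * (∑ k ∈ Ne, (1 : ℝ) / ‖Fk μ lam z k‖ ^ (1 + 1) +
        ∑ k ∈ Fa, (1 : ℝ) / ‖Fk μ lam z k‖ ^ 2) := by
    have e1 : ∑ k ∈ Ne, (1 : ℝ) / ‖Fk μ lam z k‖ ^ (1 + 1) +
        ∑ k ∈ Fa, (1 : ℝ) / ‖Fk μ lam z k‖ ^ 2 = ∑ k : T 3 L, (1 : ℝ) / ‖Fk μ lam z k‖ ^ 2 :=
      Finset.sum_filter_add_sum_filter_not _ _ _
    rw [e1, Finset.mul_sum]
    refine Finset.sum_le_sum fun k _ => ?_
    refine (le_abs_self _).trans ((m_up h k).trans (le_of_eq (by ring)))
  rw [XX_mean μ lam hne]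
  have h5 : ∑ k : T 3 L, (mk μ lam z k).im ≤ 10000 * κ * (L : ℝ) ^ 3 := by
    refine h4.trans ?_
    have h6 : y / κ ≤ κ := by
      rw [div_le_iff₀ hκ]
      have := h.y1
      nlinarith
    calc 2 * y * (∑ k ∈ Ne, (1 : ℝ) / ‖Fk μ lam z k‖ ^ (1 + 1) +
        ∑ k ∈ Fa, (1 : ℝ) / ‖Fk μ lam z k‖ ^ 2) ≤
        2 * y * (2 ^ (1 + 1) * (432 * κ * (L : ℝ) ^ 3) / y +
          144 * (2 ^ (3 + 1) * (L : ℝ) ^ 3 / κ)) := by gcongr
      _ = (3456 * κ + 4608 * (y / κ)) * (L : ℝ) ^ 3 := by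
          field_simp
          ring
      _ ≤ (3456 * κ + 4608 * κ) * (L : ℝ) ^ 3 := by gcongr
      _ ≤ _ := by
          have : 0 ≤ κ * (L : ℝ) ^ 3 := by positivity
          nlinarith
  have hL3 : 0 < (L : ℝ) ^ 3 := by positivity
  rw [one_div, inv_mul_le_iff₀ hL3]
  linarith

end Pool.Agent.V8H95.NM
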