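import Pool.Agent.V8H95.NM.Tw

/-!
Comparison of the averaged resolvents at two momenta.
-/

set_option autoImplicit false
set_option linter.unusedSectionVars false
set_option linter.unusedVariables false

open Complex MeasureTheory
open scoped BigOperators ComplexConjugate

namespace Pool.Agent.V8H95.NM

open Pool.Agent.H4R2.AE Pool.Agent.V8H99.AD Pool.Agent.V8H95.MF Pool.Agent.V8H95.BW
open Pool.Agent.V8H95.EF

theorem alg0 (θ ϑ x1 x2 y1 y2 z1 z2 : ℝ) (h0 : 0 ≤ θ) (h1 : θ ≤ ϑ) (h2 : ϑ ≤ 1) (h3 : 0 < ϑ)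
    (hx1 : 0 ≤ x1) (hx2 : 0 ≤ x2) (hy1 : 0 ≤ y1) (hy2 : 0 ≤ y2) (hz1 : 0 ≤ z1) (hz2 : 0 ≤ z2) :
    3 * θ * (x1 * z2 + z1 * x2 + 4 * (x1 * x2)) + (y1 + θ * x1) * (z2 + 2 * x2 + 1) +
      (z1 + 1) * (y2 + θ * x2) + 2 * ((y1 + θ * x1) * (y2 + θ * x2)) ≤
    17 * ϑ * (x1 ^ 2 + x2 ^ 2) + 3 / ϑ * (y1 ^ 2 + y2 ^ 2) + 3 * ϑ * (z1 ^ 2 + z2 ^ 2) + 3 * ϑ := by
  have am : ∀ A B : ℝ, A * B ≤ 1 / ϑ * (A ^ 2 / 2) + ϑ * (B ^ 2 / 2) := by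
    intro A B
    have e : 1 / ϑ * (A ^ 2 / 2) + ϑ * (B ^ 2 / 2) - A * B = (A - ϑ * B) ^ 2 / (2 * ϑ) := by
      field_simp
      ring
    have : 0 ≤ (A - ϑ * B) ^ 2 / (2 * ϑ) := by positivity
    linarith
  have hv : (1 : ℝ) ≤ 1 / ϑ := by rw [le_div_iff₀ h3]; linarith
  have t1 : 3 * θ * (x1 * z2 + z1 * x2 + 4 * (x1 * x2)) ≤
      3 * ϑ * (5 / 2 * (x1 ^ 2 + x2 ^ 2) + 1 / 2 * (z1 ^ 2 + z2 ^ 2)) := by
    have : x1 * z2 + z1 * x2 + 4 * (x1 * x2) ≤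
        5 / 2 * (x1 ^ 2 + x2 ^ 2) + 1 / 2 * (z1 ^ 2 + z2 ^ 2) := by
      nlinarith [sq_nonneg (x1 - z2), sq_nonneg (z1 - x2), sq_nonneg (x1 - x2)]
    calc _ ≤ 3 * ϑ * (x1 * z2 + z1 * x2 + 4 * (x1 * x2)) := by gcongr
      _ ≤ _ := by gcongr
  have hA : ∀ y x : ℝ, 1 / ϑ * ((y + θ * x) ^ 2 / 2) ≤ 1 / ϑ * y ^ 2 + ϑ * x ^ 2 := by
    intro y x
    have e1 : (y + θ * x) ^ 2 / 2 ≤ y ^ 2 + θ ^ 2 * x ^ 2 := by nlinarith [sq_nonneg (y - θ * x)]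
    have e2 : 1 / ϑ * θ ^ 2 ≤ ϑ := by
      rw [one_div, inv_mul_le_iff₀ h3]
      nlinarith
    calc 1 / ϑ * ((y + θ * x) ^ 2 / 2) ≤ 1 / ϑ * (y ^ 2 + θ ^ 2 * x ^ 2) := by gcongr
      _ = 1 / ϑ * y ^ 2 + (1 / ϑ * θ ^ 2) * x ^ 2 := by ring
      _ ≤ _ := by gcongr
  have t2 : (y1 + θ * x1) * (z2 + 2 * x2 + 1) ≤ 1 / ϑ * y1 ^ 2 + ϑ * x1 ^ 2 +
      ϑ * (3 / 2 * (z2 ^ 2 + 4 * x2 ^ 2 + 1)) := by
    refine (am _ _).trans (add_le_add (hA _ _) ?_)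
    have : (z2 + 2 * x2 + 1) ^ 2 / 2 ≤ 3 / 2 * (z2 ^ 2 + 4 * x2 ^ 2 + 1) := by
      nlinarith [sq_nonneg (z2 - 2 * x2), sq_nonneg (z2 - 1), sq_nonneg (2 * x2 - 1)]
    gcongr
  have t3 : (z1 + 1) * (y2 + θ * x2) ≤ 1 / ϑ * y2 ^ 2 + ϑ * x2 ^ 2 + ϑ * (z1 ^ 2 + 1) := by
    rw [mul_comm]
    refine (am _ _).trans (add_le_add (hA _ _) ?_)
    have : (z1 + 1) ^ 2 / 2 ≤ z1 ^ 2 + 1 := by nlinarith [sq_nonneg (z1 - 1)]
    gcongr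
  have t4 : 2 * ((y1 + θ * x1) * (y2 + θ * x2)) ≤
      2 * (1 / ϑ * (y1 ^ 2 + y2 ^ 2)) + 2 * ϑ * (x1 ^ 2 + x2 ^ 2) := by
    have e1 : (y1 + θ * x1) * (y2 + θ * x2) ≤
        (y1 + θ * x1) ^ 2 / 2 + (y2 + θ * x2) ^ 2 / 2 := by
      nlinarith [sq_nonneg (y1 + θ * x1 - (y2 + θ * x2))]
    have e2 : ∀ y x : ℝ, (y + θ * x) ^ 2 / 2 ≤ 1 / ϑ * y ^ 2 + ϑ * x ^ 2 := by
      intro y x
      refine le_trans ?_ (hA y x)
      have : 0 ≤ (y + θ * x) ^ 2 / 2 := by positivity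
      nlinarith
    have := e2 y1 x1
    have := e2 y2 x2
    nlinarith
  have e5 : 3 / ϑ = 3 * (1 / ϑ) := by ring
  rw [e5]
  have h6 : 0 ≤ ϑ * x1 ^ 2 := by positivity
  have h7 : 0 ≤ ϑ * x2 ^ 2 := by positivity
  have h8 : 0 ≤ ϑ * z1 ^ 2 := by positivity
  have h9 : 0 ≤ ϑ * z2 ^ 2 := by positivity
  nlinarith

theorem alg1 (θ ϑ F1 F2 p1 p2 a1 a2 S1 S2 r c Qa : ℝ) (h0 : 0 ≤ θ) (h1 : θ ≤ ϑ) (h2 : ϑ ≤ 1)
    (h3 : 0 < ϑ) (hF1 : 0 ≤ F1) (hF2 : 0 ≤ F2) (hp1 : 0 ≤ p1) (hp2 : 0 ≤ p2) (ha1 : 0 ≤ a1)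
    (ha2 : 0 ≤ a2) (hS1 : 0 < S1) (hS2 : 0 < S2) (hr : 0 < r) (hc : 0 ≤ c) (hcr : c ≤ 2 * r)
    (hQ : 0 ≤ Qa) :
    3 * θ * (c * (F1 * (a2 + c * F2) + a1 * F2) + c ^ 2 * (F1 * F2)) +
      (c * ((p1 + θ * F1) * (a2 + c * F2 + r * S2) + (a1 + r * S1) * (p2 + θ * F2)) +
        c ^ 2 * ((p1 + θ * F1) * (p2 + θ * F2))) + Qa * (θ * (S1 * F2 + S2 * F1)) ≤
    S1 * S2 * (c * r * (17 * ϑ * (F1 ^ 2 / S1 ^ 2 + F2 ^ 2 / S2 ^ 2) +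
      3 / ϑ * (p1 ^ 2 / S1 ^ 2 + p2 ^ 2 / S2 ^ 2) +
      3 * ϑ * (a1 ^ 2 / (r * S1) ^ 2 + a2 ^ 2 / (r * S2) ^ 2) + 3 * ϑ) +
      Qa * (ϑ * (1 + 1 / 2 * (F1 ^ 2 / S1 ^ 2 + F2 ^ 2 / S2 ^ 2)))) := by
  obtain ⟨x1, hx1⟩ : ∃ x, F1 = x * S1 := ⟨F1 / S1, by field_simp⟩
  obtain ⟨x2, hx2⟩ : ∃ x, F2 = x * S2 := ⟨F2 / S2, by field_simp⟩
  obtain ⟨y1, hy1⟩ : ∃ x, p1 = x * S1 := ⟨p1 / S1, by field_simp⟩
  obtain ⟨y2, hy2⟩ : ∃ x, p2 = x * S2 := ⟨p2 / S2, by field_simp⟩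
  obtain ⟨z1, hz1⟩ : ∃ x, a1 = x * (r * S1) := ⟨a1 / (r * S1), by field_simp⟩
  obtain ⟨z2, hz2⟩ : ∃ x, a2 = x * (r * S2) := ⟨a2 / (r * S2), by field_simp⟩
  have hx1' : 0 ≤ x1 := by rw [hx1] at hF1; exact nonneg_of_mul_nonneg_left hF1 hS1
  have hx2' : 0 ≤ x2 := by rw [hx2] at hF2; exact nonneg_of_mul_nonneg_left hF2 hS2
  have hy1' : 0 ≤ y1 := by rw [hy1] at hp1; exact nonneg_of_mul_nonneg_left hp1 hS1
  have hy2' : 0 ≤ y2 := by rw [hy2] at hp2; exact nonneg_of_mul_nonneg_left hp2 hS2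
  have hz1' : 0 ≤ z1 := by
    rw [hz1] at ha1; exact nonneg_of_mul_nonneg_left ha1 (by positivity)
  have hz2' : 0 ≤ z2 := by
    rw [hz2] at ha2; exact nonneg_of_mul_nonneg_left ha2 (by positivity)
  have key := alg0 θ ϑ x1 x2 y1 y2 z1 z2 h0 h1 h2 h3 hx1' hx2' hy1' hy2' hz1' hz2'
  have e1 : F1 ^ 2 / S1 ^ 2 = x1 ^ 2 := by rw [hx1]; field_simp
  have e2 : F2 ^ 2 / S2 ^ 2 = x2 ^ 2 := by rw [hx2]; field_simp
  have e3 : p1 ^ 2 / S1 ^ 2 = y1 ^ 2 := by rw [hy1]; field_simp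
  have e4 : p2 ^ 2 / S2 ^ 2 = y2 ^ 2 := by rw [hy2]; field_simp
  have e5 : a1 ^ 2 / (r * S1) ^ 2 = z1 ^ 2 := by rw [hz1]; field_simp
  have e6 : a2 ^ 2 / (r * S2) ^ 2 = z2 ^ 2 := by rw [hz2]; field_simp
  rw [e1, e2, e3, e4, e5, e6, hx1, hx2, hy1, hy2, hz1, hz2]
  have hS : 0 < S1 * S2 := by positivity
  have q1 : x2 + x1 ≤ 1 + 1 / 2 * (x1 ^ 2 + x2 ^ 2) := by
    nlinarith [sq_nonneg (x1 - 1), sq_nonneg (x2 - 1)]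
  have b1 : c ^ 2 ≤ c * (2 * r) := by nlinarith
  have u1 : 0 ≤ x1 * x2 := by positivity
  have u2 : 0 ≤ (y1 + θ * x1) * x2 := by positivity
  have u3 : 0 ≤ (y1 + θ * x1) * (y2 + θ * x2) := by positivity
  have hQ1 : Qa * (θ * (x2 + x1)) ≤ Qa * (ϑ * (1 + 1 / 2 * (x1 ^ 2 + x2 ^ 2))) := by
    have : 0 ≤ x2 + x1 := by positivity
    gcongr
  calc _ = S1 * S2 * (3 * θ * (c * r * (x1 * z2 + z1 * x2) + c ^ 2 * (2 * (x1 * x2))) +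
        (c * r * ((y1 + θ * x1) * (z2 + 1) + (z1 + 1) * (y2 + θ * x2)) +
          c ^ 2 * ((y1 + θ * x1) * x2) + c ^ 2 * ((y1 + θ * x1) * (y2 + θ * x2))) +
        Qa * (θ * (x2 + x1))) := by ring
    _ ≤ S1 * S2 * (3 * θ * (c * r * (x1 * z2 + z1 * x2) + c * (2 * r) * (2 * (x1 * x2))) +
        (c * r * ((y1 + θ * x1) * (z2 + 1) + (z1 + 1) * (y2 + θ * x2)) +
          c * (2 * r) * ((y1 + θ * x1) * x2) + c * (2 * r) * ((y1 + θ * x1) * (y2 + θ * x2))) +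
        Qa * (ϑ * (1 + 1 / 2 * (x1 ^ 2 + x2 ^ 2)))) := by
        gcongr
    _ = S1 * S2 * (c * r * (3 * θ * (x1 * z2 + z1 * x2 + 4 * (x1 * x2)) +
        (y1 + θ * x1) * (z2 + 2 * x2 + 1) + (z1 + 1) * (y2 + θ * x2) +
          2 * ((y1 + θ * x1) * (y2 + θ * x2))) +
        Qa * (ϑ * (1 + 1 / 2 * (x1 ^ 2 + x2 ^ 2)))) := by ring
    _ ≤ _ := by
        have hcr0 : 0 ≤ c * r := by positivity
        gcongr

variable {d L : ℕ} [NeZero L]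

theorem c_le (k : T d L) (i : Fin d) (n : ZMod L) (r : ℝ) (hr : 0 < r) (hk : kq k ≤ r ^ 2)
    (hp : kq (k + Pi.single i n) ≤ r ^ 2) :
    ‖ch (Pi.single i n : T d L) (Pi.single i 1) - 1‖ ≤ 2 * r := by
  have e1 : ch k (Pi.single i 1) * (ch (Pi.single i n : T d L) (Pi.single i 1) - 1) =
      (ch (k + Pi.single i n) (Pi.single i 1) - 1) - (ch k (Pi.single i 1) - 1) := by
    rw [ch_addl]
    ring
  have e2 : ‖ch (Pi.single i n : T d L) (Pi.single i 1) - 1‖ =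
      ‖(ch (k + Pi.single i n) (Pi.single i 1) - 1) - (ch k (Pi.single i 1) - 1)‖ := by
    rw [← e1, norm_mul, ch_norm, one_mul]
  have h : ∀ q : T d L, kq q ≤ r ^ 2 → ‖ch q (Pi.single i 1) - 1‖ ≤ r := by
    intro q hq
    have h1 : k1q q i ≤ r ^ 2 := (k1q_le q i).trans hq
    exact le_of_sq_le_sq h1 hr.le
  rw [e2]
  refine (norm_sub_le _ _).trans ?_
  have := h k hk
  have := h _ hp
  linarith
where
  le_of_sq_le_sq {a b : ℝ} (h : a ^ 2 ≤ b ^ 2) (hb : 0 ≤ b) : a ≤ b := by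
    have := abs_le_of_sq_le_sq h hb
    exact (abs_le.1 (abs_le_of_sq_le_sq h hb)).2

section
variable {μ : Measure ℝ} [IsProbabilityMeasure μ] {lam c0 θ mg : ℝ} {G : Set (T d L → ℝ)} {z : ℂ}
  {e y σ : ℝ}

variable (μ lam) in
/-- the centred integrand -/
noncomputable def Phi (z : ℂ) (k : T d L) (i : Fin d) (n : ZMod L) (V : T d L → ℝ) : ℂ :=
  NN i (ch (Pi.single i n : T d L) (Pi.single i 1) - 1) (GT lam V (conj z) (pw k))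
      (Tw (Pi.single i n) (GT lam V z (pw (k + Pi.single i n)))) +
    ((kq (k + Pi.single i n) - kq k : ℝ) : ℂ) *
      (mk μ lam z k * mk μ lam z (k + Pi.single i n) * (L : ℂ) ^ d +
        mk μ lam z k * inner ℂ (pw k) (Tw (Pi.single i n) (GT lam V z (pw (k + Pi.single i n))) -
          mk μ lam z (k + Pi.single i n) • pw k) +
        mk μ lam z (k + Pi.single i n) *
          inner ℂ (GT lam V (conj z) (pw k) - conj (mk μ lam z k) • pw k) (pw k))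

theorem grad_le {f : XT d L} {i : Fin d} {D : ℝ} (h : Dir (fun y => f y) ≤ D) :
    ‖Sh i f - f‖ ≤ √D := (sh_le_dir f i).trans (Real.sqrt_le_sqrt h)

/-- the good potentials -/
theorem phi_good (h : Cx μ lam c0 θ mg G z e y σ) (k : T d L) (i : Fin d) (n : ZMod L)
    (r ϑ : ℝ) (hr : 0 < r) (hϑ : θ ≤ ϑ) (hϑ1 : ϑ ≤ 1) (hk : kq k ≤ r ^ 2)
    (hp : kq (k + Pi.single i n) ≤ r ^ 2) {V : T d L → ℝ} (hV : V ∈ G) (S1 S2 : ℝ)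
    (hS1 : S1 ^ 2 = (L : ℝ) ^ d * Dk μ lam z k) (hS1p : 0 < S1)
    (hS2 : S2 ^ 2 = (L : ℝ) ^ d * Dk μ lam z (k + Pi.single i n)) (hS2p : 0 < S2) :
    ‖Phi μ lam z k i n V‖ ≤
    S1 * S2 * (‖ch (Pi.single i n : T d L) (Pi.single i 1) - 1‖ * r *
      (17 * ϑ * (‖GT lam V (conj z) (pw k)‖ ^ 2 / S1 ^ 2 +
        ‖GT lam V z (pw (k + Pi.single i n))‖ ^ 2 / S2 ^ 2) +
      3 / ϑ * (‖GT lam V (conj z) (pw k) - conj (mk μ lam z k) • pw k‖ ^ 2 / S1 ^ 2 +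
        ‖GT lam V z (pw (k + Pi.single i n)) - mk μ lam z (k + Pi.single i n) •
          pw (k + Pi.single i n)‖ ^ 2 / S2 ^ 2) +
      3 * ϑ * (gD lam (conj z) e k V / (r * S1) ^ 2 +
        gD lam z e (k + Pi.single i n) V / (r * S2) ^ 2) + 3 * ϑ) +
      |kq (k + Pi.single i n) - kq k| * (ϑ * (1 + 1 / 2 *
        (‖GT lam V (conj z) (pw k)‖ ^ 2 / S1 ^ 2 +
        ‖GT lam V z (pw (k + Pi.single i n))‖ ^ 2 / S2 ^ 2)))) := by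
  obtain ⟨ψ, hψ⟩ := h.good V hV
  set q : T d L := Pi.single i n with hq
  set p : T d L := k + q with hpd
  set c : ℂ := ch q (Pi.single i 1) - 1 with hc
  set f1 := GT lam V (conj z) (pw k) with hf1
  set f2 := GT lam V z (pw p) with hf2
  set g2 := Tw q f2 with hg2
  set α : ℂ := conj (mk μ lam z k) with hα
  set β : ℂ := mk μ lam z p with hβ
  set Qh : ℝ := kq p - kq k with hQh
  have hθ := h.th0
  have hcc : c + conj c = -((‖c‖ ^ 2 : ℝ) : ℂ) := by rw [hc]; exact c_add q i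
  set v1 := und ψ f1 with hv1
  set v2 := und ψ f2 with hv2
  set u2 := und ψ g2 with hu2
  have hu2' : u2 = Tw q v2 := by rw [hu2, hg2, Tw_und]
  have eM1 : Mu ψ v1 = f1 := mu_und hψ f1
  have eM2 : Mu ψ u2 = g2 := mu_und hψ g2
  set w1 := v1 - α • pw k with hw1
  set w2 := u2 - β • pw k with hw2
  have hexp := NN_expand k i n α β w1 w2
  have ew1 : α • pw k + w1 = v1 := by rw [hw1]; abel
  have ew2 : β • pw k + w2 = u2 := by rw [hw2]; abel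
  rw [ew1, ew2, ← hq, ← hc, ← hpd, ← hQh] at hexp
  have hαc : conj α = mk μ lam z k := by rw [hα, Complex.conj_conj]
  have hPhi : Phi μ lam z k i n V = (NN i c (Mu ψ v1) (Mu ψ u2) - NN i c v1 u2) + NN i c w1 w2 +
      ((Qh : ℝ) : ℂ) * (conj α * inner ℂ (pw k) (g2 - u2) + β * inner ℂ (f1 - v1) (pw k)) := by
    unfold Phi
    rw [← hq, ← hpd, ← hc, ← hf1, ← hf2, ← hg2, ← hα, ← hβ, ← hQh, eM1, eM2, hexp, hαc]
    have e3 : (inner ℂ (pw k) (g2 - u2) : ℂ) = inner ℂ (pw k) (g2 - β • pw k) -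
        inner ℂ (pw k) w2 := by
      rw [← inner_sub_right, hw2]
      congr 1
      abel
    have e4 : (inner ℂ (f1 - v1) (pw k) : ℂ) = inner ℂ (f1 - α • pw k) (pw k) -
        inner ℂ w1 (pw k) := by
      rw [← inner_sub_left, hw1]
      congr 1
      abel
    rw [e3, e4]
    ring
  rw [hPhi]
  -- norms
  have n1 : ‖v1‖ ≤ ‖f1‖ := und_norm hψ f1
  have n2 : ‖u2‖ ≤ ‖f2‖ := by
    rw [hu2', Tw_norm]
    exact und_norm hψ f2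
  have n2' : ‖v2‖ ≤ ‖f2‖ := und_norm hψ f2
  have n3 : ‖f1 - v1‖ ≤ θ * ‖f1‖ := und_close hψ f1
  have n4 : ‖g2 - u2‖ ≤ θ * ‖f2‖ := by
    have := und_close hψ g2
    rwa [hg2, Tw_norm, ← hg2] at this
  set φ1 := ‖f1 - α • pw k‖ with hφ1
  set φ2 := ‖f2 - β • pw p‖ with hφ2
  have n5 : ‖w1‖ ≤ φ1 + θ * ‖f1‖ := by
    have e5 : w1 = (f1 - α • pw k) - (f1 - v1) := by rw [hw1]; abel
    rw [e5]
    exact (norm_sub_le _ _).trans (by gcongr)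
  have n6 : ‖w2‖ ≤ φ2 + θ * ‖f2‖ := by
    have e5 : w2 = (g2 - β • pw k) - (g2 - u2) := by rw [hw2]; abel
    have e6 : ‖g2 - β • pw k‖ = φ2 := by
      have e7 : g2 - β • pw k = Tw q (f2 - β • pw p) := by
        rw [map_sub, map_smul, hpd, Tw_pw]
      rw [e7, Tw_norm]
    rw [e5]
    refine (norm_sub_le _ _).trans ?_
    rw [e6]
    gcongr
  have hne := h.ne
  have hg1 := gD_dir h.conj k hψ
  have hg2' := gD_dir h p hψ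
  rw [← hf1, ← hv1] at hg1
  rw [← hf2, ← hv2] at hg2'
  set a1 := √(gD lam (conj z) e k V) with ha1
  set a2 := √(gD lam z e p V) with ha2
  have g1 : ‖Sh i v1 - v1‖ ≤ a1 := grad_le hg1
  have g2a : ‖Sh i v2 - v2‖ ≤ a2 := grad_le hg2'
  have g3 : ‖Sh i u2 - u2‖ ≤ a2 + ‖c‖ * ‖f2‖ := by
    rw [hu2']
    refine (Tw_grad q i v2).trans ?_
    rw [← hc]
    gcongr
  have g4 : ‖Sh i (pw k) - pw k‖ ≤ r * ‖pw k‖ := by
    have e8 : Sh i (pw k) - pw k = (ch k (Pi.single i 1) - 1) • pw k := by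
      rw [sh_pw, sub_smul, one_smul]
    rw [e8, norm_smul]
    have e9 : ‖ch k (Pi.single i 1) - 1‖ ≤ r := by
      have h1 : ‖ch k (Pi.single i 1) - 1‖ ^ 2 ≤ r ^ 2 := (k1q_le k i).trans hk
      exact (abs_le.1 (abs_le_of_sq_le_sq h1 hr.le)).2
    gcongr
  have hN1 : ‖α‖ * ‖pw k‖ ≤ S1 := by
    have h1 : (‖α‖ * ‖pw k‖) ^ 2 ≤ S1 ^ 2 := by
      rw [hS1, mul_pow, pw_norm, hα, Complex.norm_conj, mul_comm]
      have := mk_norm_sq μ lam hne k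
      have := L_pos' (d := d) (L := L)
      gcongr
    exact (abs_le.1 (abs_le_of_sq_le_sq h1 hS1p.le)).2
  have hN2 : ‖β‖ * ‖pw k‖ ≤ S2 := by
    have h1 : (‖β‖ * ‖pw k‖) ^ 2 ≤ S2 ^ 2 := by
      rw [hS2, mul_pow, pw_norm, hβ, mul_comm]
      have := mk_norm_sq μ lam hne p
      have := L_pos' (d := d) (L := L)
      gcongr
    exact (abs_le.1 (abs_le_of_sq_le_sq h1 hS2p.le)).2
  have g5 : ‖Sh i w1 - w1‖ ≤ a1 + r * S1 := by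
    have e8 : Sh i w1 - w1 = (Sh i v1 - v1) - α • (Sh i (pw k) - pw k) := by
      rw [hw1, map_sub, map_smul, smul_sub]
      abel
    rw [e8]
    refine (norm_sub_le _ _).trans ?_
    rw [norm_smul]
    have : ‖α‖ * ‖Sh i (pw k) - pw k‖ ≤ r * S1 := by
      calc ‖α‖ * ‖Sh i (pw k) - pw k‖ ≤ ‖α‖ * (r * ‖pw k‖) := by gcongr
        _ = r * (‖α‖ * ‖pw k‖) := by ring
        _ ≤ _ := by gcongr
    linarith
  have g6 : ‖Sh i w2 - w2‖ ≤ a2 + ‖c‖ * ‖f2‖ + r * S2 := by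
    have e8 : Sh i w2 - w2 = (Sh i u2 - u2) - β • (Sh i (pw k) - pw k) := by
      rw [hw2, map_sub, map_smul, smul_sub]
      abel
    rw [e8]
    refine (norm_sub_le _ _).trans ?_
    rw [norm_smul]
    have : ‖β‖ * ‖Sh i (pw k) - pw k‖ ≤ r * S2 := by
      calc ‖β‖ * ‖Sh i (pw k) - pw k‖ ≤ ‖β‖ * (r * ‖pw k‖) := by gcongr
        _ = r * (‖β‖ * ‖pw k‖) := by ring
        _ ≤ _ := by gcongr
    linarith
  have hcr : ‖c‖ ≤ 2 * r := c_le k i n r hr hk hp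
  have hϑ0 : 0 < ϑ := lt_of_lt_of_le hθ hϑ
  have key := alg1 θ ϑ ‖f1‖ ‖f2‖ φ1 φ2 a1 a2 S1 S2 r ‖c‖ |Qh| hθ.le hϑ hϑ1 hϑ0 (norm_nonneg _)
    (norm_nonneg _) (norm_nonneg _) (norm_nonneg _) (Real.sqrt_nonneg _) (Real.sqrt_nonneg _)
    hS1p hS2p hr (norm_nonneg _) hcr (abs_nonneg _)
  have hd1 : 0 ≤ gD lam (conj z) e k V := (Finset.sum_nonneg fun _ _ =>
    Finset.sum_nonneg fun _ _ => by positivity).trans hg1
  have hd2 : 0 ≤ gD lam z e p V := (Finset.sum_nonneg fun _ _ =>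
    Finset.sum_nonneg fun _ _ => by positivity).trans hg2'
  rw [ha1, ha2, Real.sq_sqrt hd1, Real.sq_sqrt hd2, ← ha1, ← ha2] at key
  refine le_trans ?_ key
  have A1 := NN_dress hψ i c hcc v1 u2
  have A2 := NN_bound i c hcc w1 w2
  have ha1n : 0 ≤ a1 := Real.sqrt_nonneg _
  have ha2n : 0 ≤ a2 := Real.sqrt_nonneg _
  have B1 : ‖NN i c (Mu ψ v1) (Mu ψ u2) - NN i c v1 u2‖ ≤
      3 * θ * (‖c‖ * (‖f1‖ * (a2 + ‖c‖ * ‖f2‖) + a1 * ‖f2‖) + ‖c‖ ^ 2 * (‖f1‖ * ‖f2‖)) := by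
    refine A1.trans ?_
    gcongr
  have B2 : ‖NN i c w1 w2‖ ≤ ‖c‖ * ((φ1 + θ * ‖f1‖) * (a2 + ‖c‖ * ‖f2‖ + r * S2) +
      (a1 + r * S1) * (φ2 + θ * ‖f2‖)) + ‖c‖ ^ 2 * ((φ1 + θ * ‖f1‖) * (φ2 + θ * ‖f2‖)) := by
    refine A2.trans ?_
    gcongr
  have B3 : ‖((Qh : ℝ) : ℂ) * (conj α * inner ℂ (pw k) (g2 - u2) +
      β * inner ℂ (f1 - v1) (pw k))‖ ≤ |Qh| * (θ * (S1 * ‖f2‖ + S2 * ‖f1‖)) := by
    rw [norm_mul, Complex.norm_real, Real.norm_eq_abs]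
    apply mul_le_mul_of_nonneg_left _ (abs_nonneg _)
    refine (norm_add_le _ _).trans ?_
    rw [norm_mul, norm_mul, Complex.norm_conj]
    have C1 : ‖α‖ * ‖(inner ℂ (pw k) (g2 - u2) : ℂ)‖ ≤ S1 * (θ * ‖f2‖) := by
      calc ‖α‖ * ‖(inner ℂ (pw k) (g2 - u2) : ℂ)‖ ≤ ‖α‖ * (‖pw k‖ * (θ * ‖f2‖)) := by
            gcongr
            exact (norm_inner_le_norm _ _).trans (by gcongr)
        _ = (‖α‖ * ‖pw k‖) * (θ * ‖f2‖) := by ring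
        _ ≤ _ := by gcongr
    have C2 : ‖β‖ * ‖(inner ℂ (f1 - v1) (pw k) : ℂ)‖ ≤ S2 * (θ * ‖f1‖) := by
      calc ‖β‖ * ‖(inner ℂ (f1 - v1) (pw k) : ℂ)‖ ≤ ‖β‖ * ((θ * ‖f1‖) * ‖pw k‖) := by
            gcongr
            exact (norm_inner_le_norm _ _).trans (by gcongr)
        _ = (‖β‖ * ‖pw k‖) * (θ * ‖f1‖) := by ring
        _ ≤ _ := by gcongr
    linarith
  refine (norm_add_le _ _).trans (add_le_add ((norm_add_le _ _).trans (add_le_add B1 B2)) B3)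

end

end Pool.Agent.V8H95.NM
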