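import Pool.Agent.V8H95.NM.Dif

/-!
Comparison of the averaged resolvents at two momenta: expectation.
-/

set_option autoImplicit false
set_option linter.unusedSectionVars false
set_option linter.unusedVariables false

open Complex MeasureTheory
open scoped BigOperators ComplexConjugate

namespace Pool.Agent.V8H95.NM

open Pool.Agent.H4R2.AE Pool.Agent.V8H99.AD Pool.Agent.V8H95.MF Pool.Agent.V8H95.BW
open Pool.Agent.V8H95.EF

variable {d L : ℕ} [NeZero L]

section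
variable {μ : Measure ℝ} [IsProbabilityMeasure μ] {lam c0 θ mg : ℝ} {G : Set (T d L → ℝ)} {z : ℂ}
  {e y σ : ℝ}

theorem Q_le (k : T d L) (i : Fin d) (n : ZMod L) :
    |kq (k + Pi.single i n) - kq k| ≤ 2 * ‖ch (Pi.single i n : T d L) (Pi.single i 1) - 1‖ := by
  have h1 := Qhat k i n
  have h2 : |kq (k + Pi.single i n) - kq k| = ‖((kq (k + Pi.single i n) - kq k : ℝ) : ℂ)‖ := by
    rw [Complex.norm_real, Real.norm_eq_abs]
  rw [h2, h1, norm_neg]
  refine (norm_add_le _ _).trans ?_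
  rw [Complex.norm_conj, norm_mul, ch_norm, mul_one]
  linarith

theorem m_le (h : Cx μ lam c0 θ mg G z e y σ) (k : T d L) : ‖mk μ lam z k‖ ≤ 1 / y := by
  have h1 := inner_mean μ lam h.ne k
  have hy := h.y0
  have hL := L_pos' (d := d) (L := L)
  have h2 : ‖∫ V, inner ℂ (pw k) (GT lam V z (pw k)) ∂(Measure.pi fun _ : T d L => μ)‖ ≤
      (L : ℝ) ^ d / y := by
    have := norm_integral_le_of_norm_le_const (μ := Measure.pi fun _ : T d L => μ)
      (f := fun V : T d L → ℝ => (inner ℂ (pw k) (GT lam V z (pw k)) : ℂ)) (C := (L : ℝ) ^ d / y)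
      (Filter.Eventually.of_forall fun V => by
        refine (norm_inner_le_norm _ _).trans ?_
        have h2 := GT_norm' lam h.ne V (pw k)
        rw [h.im] at h2
        calc ‖pw k‖ * ‖GT lam V z (pw k)‖ ≤ ‖pw k‖ * (‖pw k‖ / y) := by gcongr
          _ = ‖pw k‖ ^ 2 / y := by ring
          _ = _ := by rw [pw_norm])
    simpa using this
  rw [h1, norm_mul, norm_pow, Complex.norm_natCast] at h2
  have h3 : (L : ℝ) ^ d * ‖mk μ lam z k‖ ≤ (L : ℝ) ^ d * (1 / y) := by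
    refine h2.trans (le_of_eq (by ring))
  exact le_of_mul_le_mul_left h3 hL

theorem phi_bad (h : Cx μ lam c0 θ mg G z e y σ) (k : T d L) (i : Fin d) (n : ZMod L)
    (V : T d L → ℝ) :
    ‖Phi μ lam z k i n V‖ ≤
      12 * ‖ch (Pi.single i n : T d L) (Pi.single i 1) - 1‖ * (L : ℝ) ^ d / y ^ 2 := by
  have hy := h.y0
  have hL := L_pos' (d := d) (L := L)
  set q : T d L := Pi.single i n with hq
  set p : T d L := k + q with hpd
  set c : ℂ := ch q (Pi.single i 1) - 1 with hc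
  set f1 := GT lam V (conj z) (pw k) with hf1
  set f2 := GT lam V z (pw p) with hf2
  set α := mk μ lam z k with hα
  set β := mk μ lam z p with hβ
  have hQ : |kq p - kq k| ≤ 2 * ‖c‖ := Q_le k i n
  set N := ‖pw k‖ with hN
  have hNN : N ^ 2 = (L : ℝ) ^ d := pw_norm k
  have hN0 : 0 ≤ N := norm_nonneg _
  have hNp : ‖pw p‖ = N := by
    have h1 : ‖pw p‖ ^ 2 = N ^ 2 := by rw [pw_norm, hNN]
    exact (sq_eq_sq₀ (norm_nonneg _) hN0).1 h1
  have n1 : ‖f1‖ ≤ N / y := by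
    have := GT_norm' lam h.conj.ne V (pw k)
    rwa [h.conj.im] at this
  have n2 : ‖f2‖ ≤ N / y := by
    have := GT_norm' lam h.ne V (pw p)
    rwa [h.im, hNp] at this
  have m1 : ‖α‖ ≤ 1 / y := m_le h k
  have m2 : ‖β‖ ≤ 1 / y := m_le h p
  have e1 : ‖NN i c f1 (Tw q f2)‖ ≤ ‖c‖ * (N / y * (N / y)) + ‖c‖ * (N / y * (N / y)) := by
    unfold NN
    refine (norm_add_le _ _).trans ?_
    rw [norm_mul, norm_mul, Complex.norm_conj]
    gcongr
    · refine (norm_inner_le_norm _ _).trans ?_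
      rw [Sh_norm, Tw_norm]
      gcongr
    · refine (norm_inner_le_norm _ _).trans ?_
      rw [Sh_norm, Tw_norm]
      gcongr
  have e2 : ‖α * β * (L : ℂ) ^ d‖ ≤ 1 / y * (1 / y) * N ^ 2 := by
    rw [norm_mul, norm_mul, norm_pow, Complex.norm_natCast, hNN]
    gcongr
  have e3 : ‖α * inner ℂ (pw k) (Tw q f2 - β • pw k)‖ ≤ 1 / y * (N * (N / y + 1 / y * N)) := by
    rw [norm_mul]
    gcongr
    refine (norm_inner_le_norm _ _).trans ?_
    rw [← hN]
    gcongr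
    refine (norm_sub_le _ _).trans ?_
    rw [Tw_norm, norm_smul]
    gcongr
  have e4 : ‖β * inner ℂ (f1 - conj α • pw k) (pw k)‖ ≤ 1 / y * ((N / y + 1 / y * N) * N) := by
    rw [norm_mul]
    gcongr
    refine (norm_inner_le_norm _ _).trans ?_
    rw [← hN]
    gcongr
    refine (norm_sub_le _ _).trans ?_
    rw [norm_smul, Complex.norm_conj]
    gcongr
  unfold Phi
  rw [← hq, ← hpd, ← hc, ← hf1, ← hf2, ← hα, ← hβ]
  refine (norm_add_le _ _).trans ?_
  rw [norm_mul, Complex.norm_real, Real.norm_eq_abs]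
  have e5 : ‖α * β * (L : ℂ) ^ d + α * inner ℂ (pw k) (Tw q f2 - β • pw k) +
      β * inner ℂ (f1 - conj α • pw k) (pw k)‖ ≤ 1 / y * (1 / y) * N ^ 2 +
      1 / y * (N * (N / y + 1 / y * N)) + 1 / y * ((N / y + 1 / y * N) * N) := by
    refine (norm_add_le _ _).trans (add_le_add ((norm_add_le _ _).trans (add_le_add e2 e3)) e4)
  calc _ ≤ (‖c‖ * (N / y * (N / y)) + ‖c‖ * (N / y * (N / y))) + (2 * ‖c‖) *
        (1 / y * (1 / y) * N ^ 2 +
        1 / y * (N * (N / y + 1 / y * N)) + 1 / y * ((N / y + 1 / y * N) * N)) := by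
        gcongr
    _ = 12 * ‖c‖ * N ^ 2 / y ^ 2 := by
        field_simp
        ring
    _ = _ := by rw [hNN]

theorem Tw_int (lam : ℝ) {z : ℂ} (hz : z.im ≠ 0) (q : T d L) (u : XT d L) :
    Integrable (fun V : T d L → ℝ => Tw q (GT lam V z u)) (Measure.pi fun _ : T d L => μ) :=
  (Tw q).integrable_comp (GTi μ lam hz u)

theorem phi_cont (h : Cx μ lam c0 θ mg G z e y σ) (k : T d L) (i : Fin d) (n : ZMod L) :
    Continuous (Phi μ lam z k i n) := by
  have h1 := GTf_cont (d := d) (L := L) lam h.conj.ne (pw k)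
  have h2 := (Tw (Pi.single i n : T d L)).continuous.comp
    (GTf_cont (d := d) (L := L) lam h.ne (pw (k + Pi.single i n)))
  unfold Phi NN
  refine Continuous.add (Continuous.add ?_ ?_) ?_
  · exact continuous_const.mul (h1.inner ((Sh i).continuous.comp h2))
  · exact continuous_const.mul (((Sh i).continuous.comp h1).inner h2)
  · refine continuous_const.mul (Continuous.add (Continuous.add continuous_const ?_) ?_)
    · exact continuous_const.mul (continuous_const.inner (h2.sub continuous_const))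
    · exact continuous_const.mul ((h1.sub continuous_const).inner continuous_const)

theorem phi_int (h : Cx μ lam c0 θ mg G z e y σ) (k : T d L) (i : Fin d) (n : ZMod L) :
    Integrable (Phi μ lam z k i n) (Measure.pi fun _ : T d L => μ) :=
  Integrable.of_bound (phi_cont h k i n).aestronglyMeasurable _
    (Filter.Eventually.of_forall fun V => phi_bad h k i n V)

theorem phi_mean (h : Cx μ lam c0 θ mg G z e y σ) (k : T d L) (i : Fin d) (n : ZMod L) :
    ∫ V, Phi μ lam z k i n V ∂(Measure.pi fun _ : T d L => μ) =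
      (L : ℂ) ^ d * (mk μ lam z (k + Pi.single i n) - mk μ lam z k +
        mk μ lam z k * mk μ lam z (k + Pi.single i n) *
          ((kq (k + Pi.single i n) - kq k : ℝ) : ℂ)) := by
  set P : Measure (T d L → ℝ) := Measure.pi fun _ : T d L => μ with hP
  have hne := h.ne
  have hne' := h.conj.ne
  set q : T d L := Pi.single i n with hq
  set p : T d L := k + q with hpd
  set α := mk μ lam z k with hα
  set β := mk μ lam z p with hβ
  have e0 : ∀ V : T d L → ℝ, Phi μ lam z k i n V =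
      ((inner ℂ (pw p) (GT lam V z (pw p)) : ℂ) - inner ℂ (pw k) (GT lam V z (pw k))) +
      ((kq p - kq k : ℝ) : ℂ) * (α * β * (L : ℂ) ^ d +
        α * (inner ℂ (pw p) (GT lam V z (pw p)) - β * (L : ℂ) ^ d) +
        β * (inner ℂ (pw k) (GT lam V z (pw k)) - α * (L : ℂ) ^ d)) := by
    intro V
    have h1 := res_id lam hne V k i n
    rw [← hq, ← hpd] at h1
    unfold Phi
    rw [← hq, ← hpd, ← hα, ← hβ, ← h1]
    have h2 : (inner ℂ (pw k) (Tw q (GT lam V z (pw p)) - β • pw k) : ℂ) =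
        inner ℂ (pw p) (GT lam V z (pw p)) - β * (L : ℂ) ^ d := by
      rw [inner_sub_right, inner_smul_right, pw_inner, inner_Tw]
    have h3 : (inner ℂ (GT lam V (conj z) (pw k) - conj α • pw k) (pw k) : ℂ) =
        inner ℂ (pw k) (GT lam V z (pw k)) - α * (L : ℂ) ^ d := by
      have h4 : (inner ℂ (GT lam V (conj z) (pw k)) (pw k) : ℂ) =
          inner ℂ (pw k) (GT lam V z (pw k)) := rg_adj (HC_sa lam V) hne (pw k) (pw k)
      rw [inner_sub_left, inner_smul_left, pw_inner, h4, Complex.conj_conj]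
    rw [h2, h3]
  simp only [e0]
  have i1 := inner_int μ lam hne (pw p) (pw p)
  have i2 := inner_int μ lam hne (pw k) (pw k)
  have E1 := inner_mean μ lam hne p
  have E2 := inner_mean μ lam hne k
  have e5 : ∀ V : T d L → ℝ,
      ((inner ℂ (pw p) (GT lam V z (pw p)) : ℂ) - inner ℂ (pw k) (GT lam V z (pw k))) +
      ((kq p - kq k : ℝ) : ℂ) * (α * β * (L : ℂ) ^ d +
        α * (inner ℂ (pw p) (GT lam V z (pw p)) - β * (L : ℂ) ^ d) +
        β * (inner ℂ (pw k) (GT lam V z (pw k)) - α * (L : ℂ) ^ d)) =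
      ((1 + ((kq p - kq k : ℝ) : ℂ) * α) * inner ℂ (pw p) (GT lam V z (pw p)) +
       (-1 + ((kq p - kq k : ℝ) : ℂ) * β) * inner ℂ (pw k) (GT lam V z (pw k))) -
       ((kq p - kq k : ℝ) : ℂ) * (α * β * (L : ℂ) ^ d) := fun V => by ring
  simp only [e5]
  have i3 : Integrable (fun V : T d L → ℝ => (1 + ((kq p - kq k : ℝ) : ℂ) * α) *
      inner ℂ (pw p) (GT lam V z (pw p))) P := i1.const_mul _
  have i4 : Integrable (fun V : T d L → ℝ => (-1 + ((kq p - kq k : ℝ) : ℂ) * β) *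
      inner ℂ (pw k) (GT lam V z (pw k))) P := i2.const_mul _
  have i5 : Integrable (fun V : T d L → ℝ => (1 + ((kq p - kq k : ℝ) : ℂ) * α) *
      inner ℂ (pw p) (GT lam V z (pw p)) + (-1 + ((kq p - kq k : ℝ) : ℂ) * β) *
      inner ℂ (pw k) (GT lam V z (pw k))) P := i3.add i4
  rw [integral_sub i5 (integrable_const _), integral_add i3 i4, integral_const_mul,
    integral_const_mul, E1, E2, ← hα, ← hβ]
  simp
  ring

/-- **comparison of two momenta** -/
theorem dif (h : Cx μ lam c0 θ mg G z e y σ) (k : T d L) (i : Fin d) (n : ZMod L)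
    (r ϑ : ℝ) (hr : 0 < r) (hr1 : r ≤ 1) (hϑ : θ ≤ ϑ) (hϑ1 : ϑ ≤ 1) (hσ : σ ≤ ϑ ^ 2)
    (hk : kq k ≤ r ^ 2) (hp : kq (k + Pi.single i n) ≤ r ^ 2)
    (hFk : 2 * ‖Fk μ lam z k‖ + e ≤ r ^ 2)
    (hFp : 2 * ‖Fk μ lam z (k + Pi.single i n)‖ + e ≤ r ^ 2) :
    ‖Fk μ lam z (k + Pi.single i n) - Fk μ lam z k +
        ((kq (k + Pi.single i n) - kq k : ℝ) : ℂ)‖ ≤
      100 * ϑ * (‖ch (Pi.single i n : T d L) (Pi.single i 1) - 1‖ * r) +
        4 * ϑ * |kq (k + Pi.single i n) - kq k| := by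
  set P : Measure (T d L → ℝ) := Measure.pi fun _ : T d L => μ with hP
  have hne := h.ne
  have hne' := h.conj.ne
  have hy := h.y0
  have hL := L_pos' (d := d) (L := L)
  have hθ := h.th0
  have hϑ0 : 0 < ϑ := lt_of_lt_of_le hθ hϑ
  set q : T d L := Pi.single i n with hq
  set p : T d L := k + q with hpd
  set c : ℝ := ‖ch q (Pi.single i 1) - 1‖ with hc
  have hc0 : 0 ≤ c := norm_nonneg _
  set α := mk μ lam z k with hα
  set β := mk μ lam z p with hβ
  set Qa := |kq p - kq k| with hQa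
  have hQ0 : 0 ≤ Qa := abs_nonneg _
  have hD1 := h.pos k
  have hD2 := h.pos p
  set S1 := √((L : ℝ) ^ d * Dk μ lam z k) with hS1d
  set S2 := √((L : ℝ) ^ d * Dk μ lam z p) with hS2d
  have hS1 : S1 ^ 2 = (L : ℝ) ^ d * Dk μ lam z k := Real.sq_sqrt (by positivity)
  have hS2 : S2 ^ 2 = (L : ℝ) ^ d * Dk μ lam z p := Real.sq_sqrt (by positivity)
  have hS1p : 0 < S1 := Real.sqrt_pos.2 (by positivity)
  have hS2p : 0 < S2 := Real.sqrt_pos.2 (by positivity)
  set Kb : ℝ := 12 * c * (L : ℝ) ^ d / y ^ 2 with hKb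
  have hKb0 : 0 ≤ Kb := by positivity
  set A0 : ℝ := S1 * S2 * (c * r * (3 * ϑ) + Qa * ϑ) with hA0
  set A1 : ℝ := S1 * S2 * (c * r * (17 * ϑ) + Qa * (ϑ / 2)) with hA1
  set A2 : ℝ := S1 * S2 * (c * r * (3 / ϑ)) with hA2
  set A3 : ℝ := S1 * S2 * (c * r * (3 * ϑ)) with hA3
  have hA0n : 0 ≤ A0 := by positivity
  have hA1n : 0 ≤ A1 := by positivity
  have hA2n : 0 ≤ A2 := by positivity
  have hA3n : 0 ≤ A3 := by positivity
  have hpt : ∀ V : T d L → ℝ, ‖Phi μ lam z k i n V‖ ≤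
      (((A0 + A1 / S1 ^ 2 * ‖GT lam V (conj z) (pw k)‖ ^ 2 +
        A1 / S2 ^ 2 * ‖GT lam V z (pw p)‖ ^ 2) +
      (A2 / S1 ^ 2 * ‖GT lam V (conj z) (pw k) - conj α • pw k‖ ^ 2 +
        A2 / S2 ^ 2 * ‖GT lam V z (pw p) - β • pw p‖ ^ 2)) +
      (A3 / (r * S1) ^ 2 * G.indicator (gD lam (conj z) e k) V +
        A3 / (r * S2) ^ 2 * G.indicator (gD lam z e p) V)) + Gᶜ.indicator (fun _ => Kb) V := by
    intro V
    by_cases hV : V ∈ G
    · rw [Set.indicator_of_mem hV, Set.indicator_of_mem hV,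
        Set.indicator_of_notMem (by simpa using hV), add_zero]
      refine (phi_good h k i n r ϑ hr hϑ hϑ1 hk hp hV S1 S2 hS1 hS1p hS2 hS2p).trans
        (le_of_eq ?_)
      rw [← hq, ← hpd, ← hc, ← hα, ← hβ, ← hQa, hA0, hA1, hA2, hA3]
      ring
    · rw [Set.indicator_of_notMem hV, Set.indicator_of_notMem hV,
        Set.indicator_of_mem (show V ∈ Gᶜ from hV)]
      have h1 := phi_bad h k i n V
      have h2 : 0 ≤ (((A0 + A1 / S1 ^ 2 * ‖GT lam V (conj z) (pw k)‖ ^ 2 +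
        A1 / S2 ^ 2 * ‖GT lam V z (pw p)‖ ^ 2) +
      (A2 / S1 ^ 2 * ‖GT lam V (conj z) (pw k) - conj α • pw k‖ ^ 2 +
        A2 / S2 ^ 2 * ‖GT lam V z (pw p) - β • pw p‖ ^ 2)) +
      (A3 / (r * S1) ^ 2 * 0 + A3 / (r * S2) ^ 2 * 0)) := by positivity
      refine h1.trans ?_
      linarith
  have i1 : Integrable (fun V : T d L → ℝ => A1 / S1 ^ 2 * ‖GT lam V (conj z) (pw k)‖ ^ 2) P :=
    (GT2i μ lam hne' (pw k)).const_mul _
  have i2 : Integrable (fun V : T d L → ℝ => A1 / S2 ^ 2 * ‖GT lam V z (pw p)‖ ^ 2) P :=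
    (GT2i μ lam hne (pw p)).const_mul _
  have sq_int : ∀ (z' : ℂ) (hz' : z'.im ≠ 0) (k' : T d L) (a : ℂ),
      Integrable (fun V : T d L → ℝ => ‖GT lam V z' (pw k') - a • pw k'‖ ^ 2) P := by
    intro z' hz' k' a
    refine int_of P _ (((GTf_cont lam hz' (pw k')).sub continuous_const).norm.pow 2).measurable
      ((‖pw k'‖ / |z'.im| + ‖a • pw k'‖) ^ 2) fun V => ?_
    rw [abs_pow, abs_norm]
    exact pow_le_pow_left₀ (norm_nonneg _) ((norm_sub_le _ _).trans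
      (add_le_add (GT_norm' lam hz' V _) le_rfl)) 2
  have i3 : Integrable (fun V : T d L → ℝ => A2 / S1 ^ 2 *
      ‖GT lam V (conj z) (pw k) - conj α • pw k‖ ^ 2) P := (sq_int _ hne' k _).const_mul _
  have i4 : Integrable (fun V : T d L → ℝ => A2 / S2 ^ 2 *
      ‖GT lam V z (pw p) - β • pw p‖ ^ 2) P := (sq_int _ hne p _).const_mul _
  have i5 : Integrable (fun V : T d L → ℝ => A3 / (r * S1) ^ 2 *
      G.indicator (gD lam (conj z) e k) V) P := ((gD_int h.conj k).indicator h.meas).const_mul _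
  have i6 : Integrable (fun V : T d L → ℝ => A3 / (r * S2) ^ 2 *
      G.indicator (gD lam z e p) V) P := ((gD_int h p).indicator h.meas).const_mul _
  have i7 : Integrable (Gᶜ.indicator fun _ : T d L → ℝ => Kb) P :=
    (integrable_const _).indicator h.meas.compl
  have i01 : Integrable (fun V : T d L → ℝ => A0 + A1 / S1 ^ 2 *
      ‖GT lam V (conj z) (pw k)‖ ^ 2) P := (integrable_const _).add i1
  have i12 : Integrable (fun V : T d L → ℝ => A0 + A1 / S1 ^ 2 *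
      ‖GT lam V (conj z) (pw k)‖ ^ 2 + A1 / S2 ^ 2 * ‖GT lam V z (pw p)‖ ^ 2) P := i01.add i2
  have i34 : Integrable (fun V : T d L → ℝ => A2 / S1 ^ 2 *
      ‖GT lam V (conj z) (pw k) - conj α • pw k‖ ^ 2 + A2 / S2 ^ 2 *
      ‖GT lam V z (pw p) - β • pw p‖ ^ 2) P := i3.add i4
  have i56 : Integrable (fun V : T d L → ℝ => A3 / (r * S1) ^ 2 *
      G.indicator (gD lam (conj z) e k) V + A3 / (r * S2) ^ 2 *
      G.indicator (gD lam z e p) V) P := i5.add i6
  have i1234 : Integrable (fun V : T d L → ℝ => (A0 + A1 / S1 ^ 2 *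
      ‖GT lam V (conj z) (pw k)‖ ^ 2 + A1 / S2 ^ 2 * ‖GT lam V z (pw p)‖ ^ 2) +
      (A2 / S1 ^ 2 * ‖GT lam V (conj z) (pw k) - conj α • pw k‖ ^ 2 + A2 / S2 ^ 2 *
      ‖GT lam V z (pw p) - β • pw p‖ ^ 2)) P := i12.add i34
  have iall : Integrable (fun V : T d L → ℝ => ((A0 + A1 / S1 ^ 2 *
      ‖GT lam V (conj z) (pw k)‖ ^ 2 + A1 / S2 ^ 2 * ‖GT lam V z (pw p)‖ ^ 2) +
      (A2 / S1 ^ 2 * ‖GT lam V (conj z) (pw k) - conj α • pw k‖ ^ 2 + A2 / S2 ^ 2 *
      ‖GT lam V z (pw p) - β • pw p‖ ^ 2)) + (A3 / (r * S1) ^ 2 *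
      G.indicator (gD lam (conj z) e k) V + A3 / (r * S2) ^ 2 *
      G.indicator (gD lam z e p) V)) P := i1234.add i56
  have h1 := norm_integral_le_of_norm_le (iall.add i7) (Filter.Eventually.of_forall hpt)
  have h2 : ∫ V, ((((A0 + A1 / S1 ^ 2 * ‖GT lam V (conj z) (pw k)‖ ^ 2 +
        A1 / S2 ^ 2 * ‖GT lam V z (pw p)‖ ^ 2) +
      (A2 / S1 ^ 2 * ‖GT lam V (conj z) (pw k) - conj α • pw k‖ ^ 2 +
        A2 / S2 ^ 2 * ‖GT lam V z (pw p) - β • pw p‖ ^ 2)) +
      (A3 / (r * S1) ^ 2 * G.indicator (gD lam (conj z) e k) V +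
        A3 / (r * S2) ^ 2 * G.indicator (gD lam z e p) V)) + Gᶜ.indicator (fun _ => Kb) V) ∂P =
      (((A0 + A1 / S1 ^ 2 * ((L : ℝ) ^ d * Dk μ lam (conj z) k) +
        A1 / S2 ^ 2 * ((L : ℝ) ^ d * Dk μ lam z p)) +
      (A2 / S1 ^ 2 * ((L : ℝ) ^ d * sk μ lam (conj z) k) +
        A2 / S2 ^ 2 * ((L : ℝ) ^ d * sk μ lam z p))) +
      (A3 / (r * S1) ^ 2 * ∫ V, G.indicator (gD lam (conj z) e k) V ∂P +
        A3 / (r * S2) ^ 2 * ∫ V, G.indicator (gD lam z e p) V ∂P)) + Kb * P.real Gᶜ := by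
    have u0 := integral_add iall i7
    have u1 := integral_add i1234 i56
    have u2 := integral_add i12 i34
    have u3 := integral_add i01 i2
    have u4 := integral_add (integrable_const (μ := P) A0) i1
    have u5 := integral_add i3 i4
    have u6 := integral_add i5 i6
    have v1 : ∫ V, A1 / S1 ^ 2 * ‖GT lam V (conj z) (pw k)‖ ^ 2 ∂P =
        A1 / S1 ^ 2 * ((L : ℝ) ^ d * Dk μ lam (conj z) k) := by
      rw [integral_const_mul, D_eq μ lam hne']
    have v2 : ∫ V, A1 / S2 ^ 2 * ‖GT lam V z (pw p)‖ ^ 2 ∂P =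
        A1 / S2 ^ 2 * ((L : ℝ) ^ d * Dk μ lam z p) := by
      rw [integral_const_mul, D_eq μ lam hne]
    have v3 : ∫ V, A2 / S1 ^ 2 * ‖GT lam V (conj z) (pw k) - conj α • pw k‖ ^ 2 ∂P =
        A2 / S1 ^ 2 * ((L : ℝ) ^ d * sk μ lam (conj z) k) := by
      rw [integral_const_mul, hα, ← mk_conj μ lam hne, sk_eq μ lam hne']
    have v4 : ∫ V, A2 / S2 ^ 2 * ‖GT lam V z (pw p) - β • pw p‖ ^ 2 ∂P =
        A2 / S2 ^ 2 * ((L : ℝ) ^ d * sk μ lam z p) := by
      rw [integral_const_mul, hβ, sk_eq μ lam hne]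
    have v5 : ∫ V, A3 / (r * S1) ^ 2 * G.indicator (gD lam (conj z) e k) V ∂P =
        A3 / (r * S1) ^ 2 * ∫ V, G.indicator (gD lam (conj z) e k) V ∂P := integral_const_mul _ _
    have v6 : ∫ V, A3 / (r * S2) ^ 2 * G.indicator (gD lam z e p) V ∂P =
        A3 / (r * S2) ^ 2 * ∫ V, G.indicator (gD lam z e p) V ∂P := integral_const_mul _ _
    have v7 : ∫ V, Gᶜ.indicator (fun _ : T d L → ℝ => Kb) V ∂P = Kb * P.real Gᶜ := by
      rw [integral_indicator h.meas.compl, setIntegral_const, smul_eq_mul, mul_comm]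
    have v8 : ∫ _V : T d L → ℝ, A0 ∂P = A0 := by simp
    rw [u0, u1, u2, u3, u4, u5, u6, v1, v2, v3, v4, v5, v6, v7, v8]
  have h3 : ‖(L : ℂ) ^ d * (β - α + α * β * ((kq p - kq k : ℝ) : ℂ))‖ ≤
      (((A0 + A1 + A1) + (A2 * ϑ ^ 2 + A2 * ϑ ^ 2)) + (A3 + A3)) + Kb * P.real Gᶜ := by
    rw [← phi_mean h k i n]
    refine h1.trans (le_trans (le_of_eq h2) ?_)
    have w1 : A1 / S1 ^ 2 * ((L : ℝ) ^ d * Dk μ lam (conj z) k) = A1 := by
      rw [Dk_conj μ lam hne, ← hS1, div_mul_cancel₀ _ (by positivity)]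
    have w2 : A1 / S2 ^ 2 * ((L : ℝ) ^ d * Dk μ lam z p) = A1 := by
      rw [← hS2, div_mul_cancel₀ _ (by positivity)]
    have w3 : A2 / S1 ^ 2 * ((L : ℝ) ^ d * sk μ lam (conj z) k) ≤ A2 * ϑ ^ 2 := by
      rw [sk_conj μ lam hne, div_mul_eq_mul_div, div_le_iff₀ (by positivity), mul_assoc A2, hS1]
      have := h.hs k
      have h9 : sk μ lam z k ≤ ϑ ^ 2 * Dk μ lam z k := this.trans (by gcongr)
      calc A2 * ((L : ℝ) ^ d * sk μ lam z k) ≤ A2 * ((L : ℝ) ^ d * (ϑ ^ 2 * Dk μ lam z k)) := by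
            gcongr
        _ = _ := by ring
    have w4 : A2 / S2 ^ 2 * ((L : ℝ) ^ d * sk μ lam z p) ≤ A2 * ϑ ^ 2 := by
      rw [div_mul_eq_mul_div, div_le_iff₀ (by positivity), mul_assoc A2, hS2]
      have := h.hs p
      have h9 : sk μ lam z p ≤ ϑ ^ 2 * Dk μ lam z p := this.trans (by gcongr)
      calc A2 * ((L : ℝ) ^ d * sk μ lam z p) ≤ A2 * ((L : ℝ) ^ d * (ϑ ^ 2 * Dk μ lam z p)) := by
            gcongr
        _ = _ := by ring
    have w5 : A3 / (r * S1) ^ 2 * ∫ V, G.indicator (gD lam (conj z) e k) V ∂P ≤ A3 := by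
      have h5 := gD_mean h.conj k
      have hF : ‖Fk μ lam (conj z) k‖ = ‖Fk μ lam z k‖ := by
        rw [F_norm, F_norm, mk_conj μ lam hne, Complex.norm_conj]
      rw [Dk_conj μ lam hne, hF, ← hP] at h5
      rw [div_mul_eq_mul_div, div_le_iff₀ (by positivity)]
      calc A3 * ∫ V, G.indicator (gD lam (conj z) e k) V ∂P ≤
          A3 * ((L : ℝ) ^ d * Dk μ lam z k * r ^ 2) := by
            gcongr
            refine h5.trans ?_
            gcongr
        _ = A3 * (r * S1) ^ 2 := by rw [mul_pow, hS1]; ring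
    have w6 : A3 / (r * S2) ^ 2 * ∫ V, G.indicator (gD lam z e p) V ∂P ≤ A3 := by
      have h5 := gD_mean h p
      rw [← hP] at h5
      rw [div_mul_eq_mul_div, div_le_iff₀ (by positivity)]
      calc A3 * ∫ V, G.indicator (gD lam z e p) V ∂P ≤
          A3 * ((L : ℝ) ^ d * Dk μ lam z p * r ^ 2) := by
            gcongr
            refine h5.trans ?_
            gcongr
        _ = A3 * (r * S2) ^ 2 := by rw [mul_pow, hS2]; ring
    rw [w1, w2]
    gcongr
  rw [norm_mul, norm_pow, Complex.norm_natCast] at h3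
  -- division
  have hMk := m_pos h k
  have hMp := m_pos h p
  rw [← hα] at hMk
  rw [← hβ] at hMp
  have hα0 : α ≠ 0 := norm_pos_iff.1 hMk
  have hβ0 : β ≠ 0 := norm_pos_iff.1 hMp
  have e1 : Fk μ lam z p - Fk μ lam z k + ((kq p - kq k : ℝ) : ℂ) =
      (β - α + α * β * ((kq p - kq k : ℝ) : ℂ)) / (α * β) := by
    unfold Fk
    rw [← hα, ← hβ]
    field_simp
    ring
  have hSS : S1 * S2 ≤ (L : ℝ) ^ d * (2 * (‖α‖ * ‖β‖)) := by
    have h5 := D_two h k
    have h6 := D_two h p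
    rw [← hα] at h5
    rw [← hβ] at h6
    have h7 : (S1 * S2) ^ 2 ≤ ((L : ℝ) ^ d * (2 * (‖α‖ * ‖β‖))) ^ 2 := by
      rw [mul_pow, hS1, hS2]
      calc (L : ℝ) ^ d * Dk μ lam z k * ((L : ℝ) ^ d * Dk μ lam z p) ≤
          (L : ℝ) ^ d * (2 * ‖α‖ ^ 2) * ((L : ℝ) ^ d * (2 * ‖β‖ ^ 2)) := by gcongr
        _ = _ := by ring
    exact (abs_le.1 (abs_le_of_sq_le_sq h7 (by positivity))).2
  have hsum : (((A0 + A1 + A1) + (A2 * ϑ ^ 2 + A2 * ϑ ^ 2)) + (A3 + A3)) =
      S1 * S2 * (49 * ϑ * (c * r) + 2 * ϑ * Qa) := by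
    rw [hA0, hA1, hA2, hA3]
    field_simp
    ring
  rw [hsum] at h3
  have hpG : 12 * c * P.real Gᶜ / y ^ 2 ≤ c * (ϑ * e) := by
    have h5 := h.pG
    rw [← hP] at h5
    rw [div_le_iff₀ (by positivity)]
    have hp0 : 0 ≤ P.real Gᶜ := measureReal_nonneg
    have hd0 : (0 : ℝ) ≤ d := Nat.cast_nonneg d
    have h6 : 12 * P.real Gᶜ ≤ ϑ * e * y ^ 2 := by
      have h7 : 12 * P.real Gᶜ ≤ P.real Gᶜ * (100 * (d + 1)) := by nlinarith
      refine h7.trans (h5.trans ?_)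
      have h8 := h.e0
      calc θ * y ^ 2 * e ≤ ϑ * y ^ 2 * e := by gcongr
        _ = _ := by ring
    calc 12 * c * P.real Gᶜ = c * (12 * P.real Gᶜ) := by ring
      _ ≤ c * (ϑ * e * y ^ 2) := by gcongr
      _ = _ := by ring
  have hFF : 1 ≤ ‖α‖ * ‖β‖ * (r ^ 2 * r ^ 2) := by
    have h5 : ‖Fk μ lam z k‖ ≤ r ^ 2 := by
      have := h.e0
      have := norm_nonneg (Fk μ lam z k)
      linarith
    have h6 : ‖Fk μ lam z p‖ ≤ r ^ 2 := by
      have := h.e0
      have := norm_nonneg (Fk μ lam z p)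
      linarith
    rw [F_norm, ← hα, div_le_iff₀ hMk] at h5
    rw [F_norm, ← hβ, div_le_iff₀ hMp] at h6
    calc (1 : ℝ) = 1 * 1 := by ring
      _ ≤ (r ^ 2 * ‖α‖) * (r ^ 2 * ‖β‖) := by gcongr
      _ = _ := by ring
  have her : e ≤ r ^ 2 := by
    have := norm_nonneg (Fk μ lam z k)
    linarith
  rw [e1, norm_div, norm_mul, div_le_iff₀ (by positivity)]
  have h4 : (L : ℝ) ^ d * ‖β - α + α * β * ((kq p - kq k : ℝ) : ℂ)‖ ≤
      (L : ℝ) ^ d * ((100 * ϑ * (c * r) + 4 * ϑ * Qa) * (‖α‖ * ‖β‖)) := by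
    refine h3.trans ?_
    have h5 : S1 * S2 * (49 * ϑ * (c * r) + 2 * ϑ * Qa) ≤
        (L : ℝ) ^ d * (2 * (‖α‖ * ‖β‖)) * (49 * ϑ * (c * r) + 2 * ϑ * Qa) := by gcongr
    have h6 : Kb * P.real Gᶜ ≤ (L : ℝ) ^ d * (ϑ * (c * r) * (‖α‖ * ‖β‖)) := by
      calc Kb * P.real Gᶜ = (L : ℝ) ^ d * (12 * c * P.real Gᶜ / y ^ 2) := by rw [hKb]; ring
        _ ≤ (L : ℝ) ^ d * (c * (ϑ * e) * (‖α‖ * ‖β‖ * (r ^ 2 * r ^ 2))) := by
            have h7 : 0 ≤ c * (ϑ * e) := by
              have := h.e0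
              positivity
            have h8 : c * (ϑ * e) ≤ c * (ϑ * e) * (‖α‖ * ‖β‖ * (r ^ 2 * r ^ 2)) := by
              calc c * (ϑ * e) = c * (ϑ * e) * 1 := by ring
                _ ≤ _ := by gcongr
            have := hpG.trans h8
            gcongr
        _ = (L : ℝ) ^ d * ((ϑ * c * (e * (r ^ 2 * r ^ 2))) * (‖α‖ * ‖β‖)) := by ring
        _ ≤ (L : ℝ) ^ d * ((ϑ * c * r) * (‖α‖ * ‖β‖)) := by
            have h9 : e * (r ^ 2 * r ^ 2) ≤ r := by
              have h10 : r ^ 2 * r ^ 2 ≤ r := by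
                have : r ^ 2 * r ^ 2 = r * r ^ 3 := by ring
                rw [this]
                have : r ^ 3 ≤ 1 := pow_le_one₀ hr.le hr1
                nlinarith
              have := h.e1
              have := h.e0
              nlinarith [show 0 ≤ r ^ 2 * r ^ 2 by positivity]
            gcongr
        _ = _ := by ring
    have h7 : 0 ≤ (L : ℝ) ^ d * (ϑ * (c * r) * (‖α‖ * ‖β‖)) := by positivity
    calc _ ≤ (L : ℝ) ^ d * (2 * (‖α‖ * ‖β‖)) * (49 * ϑ * (c * r) + 2 * ϑ * Qa) +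
          (L : ℝ) ^ d * (ϑ * (c * r) * (‖α‖ * ‖β‖)) := add_le_add h5 h6
      _ ≤ _ := by linarith
  exact le_of_mul_le_mul_left h4 hL

end

end Pool.Agent.V8H95.NM
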