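import Pool.Agent.V8H95.NM.Dif2

/-!
A dyadic summation lemma and the counting of momenta near the energy shell.
-/

set_option autoImplicit false
set_option linter.unusedSectionVars false
set_option linter.unusedVariables false

open Complex MeasureTheory
open scoped BigOperators ComplexConjugate

namespace Pool.Agent.V8H95.NM

open Pool.Agent.H4R2.AE Pool.Agent.V8H99.AD Pool.Agent.V8H95.MF Pool.Agent.V8H95.BW
open Pool.Agent.V8H95.EF

theorem dyadic {ι : Type*} (s : Finset ι) (w h : ι → ℝ) (hw : ∀ i ∈ s, 0 ≤ w i) (y A : ℝ)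
    (m : ℕ) (hy : 0 < y) (hh : ∀ i ∈ s, y ≤ h i)
    (hN : ∀ x, y ≤ x → (∑ i ∈ s, if h i ≤ x then w i else 0) ≤ A * x ^ m) :
    ∑ i ∈ s, w i / h i ^ (m + 1) ≤ 2 ^ (m + 1) * A / y := by
  classical
  -- a common upper bound
  obtain ⟨J, hJ⟩ : ∃ J : ℕ, ∀ i ∈ s, h i ≤ 2 ^ J * y := by
    have h1 : ∀ i, ∃ J : ℕ, h i ≤ 2 ^ J * y := by
      intro i
      obtain ⟨J, hJ⟩ := pow_unbounded_of_one_lt (h i / y) (one_lt_two : (1 : ℝ) < 2)
      exact ⟨J, by rw [div_lt_iff₀ hy] at hJ; exact hJ.le⟩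
    choose f hf using h1
    refine ⟨s.sup f, fun i hi => (hf i).trans ?_⟩
    gcongr
    · norm_num
    · exact Finset.le_sup hi
  have hA : 0 ≤ A := by
    have h1 := hN y le_rfl
    have h2 : 0 ≤ ∑ i ∈ s, (if h i ≤ y then w i else 0) :=
      Finset.sum_nonneg fun i hi => by split_ifs; exacts [hw i hi, le_rfl]
    have h3 : 0 ≤ A * y ^ m := h2.trans h1
    exact nonneg_of_mul_nonneg_left h3 (by positivity)
  have hpt : ∀ i ∈ s, w i / h i ^ (m + 1) ≤ ∑ j ∈ Finset.range (J + 1),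
      (if h i ≤ 2 ^ (j + 1) * y then w i else 0) * (1 / (2 ^ j * y) ^ (m + 1)) := by
    intro i hi
    have hex : ∃ j : ℕ, h i ≤ 2 ^ (j + 1) * y := ⟨J, (hJ i hi).trans (by
      gcongr
      · norm_num
      · omega)⟩
    set j := Nat.find hex with hj
    have h1 : h i ≤ 2 ^ (j + 1) * y := Nat.find_spec hex
    have h2 : 2 ^ j * y ≤ h i := by
      rcases Nat.eq_zero_or_pos j with h0 | h0
      · rw [h0, pow_zero, one_mul]
        exact hh i hi
      · have h3 := Nat.find_min hex (show j - 1 < Nat.find hex by omega)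
        have h4 : j - 1 + 1 = j := by omega
        rw [h4] at h3
        exact (not_le.1 h3).le
    have h3 : j ≤ J := Nat.find_min' hex ((hJ i hi).trans (by
      gcongr
      · norm_num
      · omega))
    have h4 : w i / h i ^ (m + 1) ≤
        (if h i ≤ 2 ^ (j + 1) * y then w i else 0) * (1 / (2 ^ j * y) ^ (m + 1)) := by
      rw [if_pos h1, div_eq_mul_one_div]
      have := hw i hi
      gcongr
    refine h4.trans (Finset.single_le_sum (f := fun j =>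
      (if h i ≤ 2 ^ (j + 1) * y then w i else 0) * (1 / (2 ^ j * y) ^ (m + 1))) (fun j _ => ?_)
      (Finset.mem_range.2 (by omega)))
    have := hw i hi
    have : 0 ≤ (if h i ≤ 2 ^ (j + 1) * y then w i else 0) := by split_ifs <;> linarith
    positivity
  refine (Finset.sum_le_sum hpt).trans ?_
  rw [Finset.sum_comm]
  have h1 : ∀ j ∈ Finset.range (J + 1), (∑ i ∈ s,
      (if h i ≤ 2 ^ (j + 1) * y then w i else 0) * (1 / (2 ^ j * y) ^ (m + 1))) ≤
      (2 ^ m * A / y) * (1 / 2) ^ j := by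
    intro j _
    rw [← Finset.sum_mul]
    have h2 : y ≤ 2 ^ (j + 1) * y := by
      have : (1 : ℝ) ≤ 2 ^ (j + 1) := one_le_pow₀ (by norm_num)
      nlinarith
    have h3 := hN _ h2
    calc _ ≤ (A * (2 ^ (j + 1) * y) ^ m) * (1 / (2 ^ j * y) ^ (m + 1)) := by
          gcongr
      _ = _ := by
          rw [one_div_pow, pow_succ (2 : ℝ) j, mul_pow, mul_pow, mul_pow, pow_succ, pow_succ]
          field_simp
  refine (Finset.sum_le_sum h1).trans ?_
  rw [← Finset.mul_sum]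
  have h2 := sum_geometric_two_le (J + 1)
  calc 2 ^ m * A / y * ∑ i ∈ Finset.range (J + 1), (1 / 2 : ℝ) ^ i ≤ 2 ^ m * A / y * 2 := by
        gcongr
    _ = _ := by rw [pow_succ]; ring

variable {d L : ℕ} [NeZero L]

theorem ch_re_im (k : T d L) (i : Fin d) :
    (ch k (Pi.single i 1)).re ^ 2 + (ch k (Pi.single i 1)).im ^ 2 = 1 ∧
      k1q k i = 2 - 2 * (ch k (Pi.single i 1)).re := by
  have h1 := ch_norm k (Pi.single i 1)
  have h2 : (ch k (Pi.single i 1)).re ^ 2 + (ch k (Pi.single i 1)).im ^ 2 = 1 := by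
    have := Complex.sq_norm (ch k (Pi.single i 1))
    rw [h1, Complex.normSq_apply] at this
    linarith
  refine ⟨h2, ?_⟩
  unfold k1q
  rw [Complex.sq_norm, Complex.normSq_apply]
  simp only [Complex.sub_re, Complex.sub_im, Complex.one_re, Complex.one_im]
  linarith

/-- points on the circle in a half plane -/
theorem circ (a1 b1 a2 b2 s : ℝ) (h1 : a1 ^ 2 + b1 ^ 2 = 1) (h2 : a2 ^ 2 + b2 ^ 2 = 1)
    (hs : 0 < s) (hs1 : s ≤ 1) (hb1 : s ≤ b1) (hb2 : s ≤ b2) :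
    s ^ 2 * ((a1 - a2) ^ 2 + (b1 - b2) ^ 2) ≤ (2 * a1 - 2 * a2) ^ 2 := by
  have e1 : (a1 - a2) * (a1 + a2) = (b2 - b1) * (b2 + b1) := by nlinarith
  have h3 : (a1 + a2) ^ 2 ≤ 4 := by nlinarith [sq_nonneg (a1 - a2), sq_nonneg b1, sq_nonneg b2]
  have h4 : (2 * s) ^ 2 ≤ (b2 + b1) ^ 2 := by
    apply pow_le_pow_left₀ (by positivity)
    linarith
  have h5 : (b2 - b1) ^ 2 * (b2 + b1) ^ 2 = (a1 - a2) ^ 2 * (a1 + a2) ^ 2 := by
    have := congrArg (fun t => t ^ 2) e1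
    simp only [mul_pow] at this
    linarith
  have h6 : (b2 - b1) ^ 2 * (2 * s) ^ 2 ≤ (a1 - a2) ^ 2 * 4 := by
    calc (b2 - b1) ^ 2 * (2 * s) ^ 2 ≤ (b2 - b1) ^ 2 * (b2 + b1) ^ 2 := by gcongr
      _ = (a1 - a2) ^ 2 * (a1 + a2) ^ 2 := h5
      _ ≤ _ := by gcongr
  have h7 : s ^ 2 ≤ 1 := pow_le_one₀ hs.le hs1
  nlinarith [sq_nonneg (a1 - a2)]

section
variable {μ : Measure ℝ} [IsProbabilityMeasure μ] {lam c0 θ mg : ℝ} {G : Set (T d L → ℝ)} {z : ℂ}
  {e y σ : ℝ}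

/-- momenta near the shell -/
theorem shell (h : Cx μ lam c0 θ mg G z e y σ) (hθ : θ ≤ 1 / 1600) (k : T d L)
    (hF : ‖Fk μ lam z k‖ ≤ e / 4) : e / 2 ≤ kq k ∧ kq k ≤ 2 * e := by
  have h1 := F_close h k
  have hk := kq_nonneg k
  have he := h.e0
  have h2 : |e - kq k| ≤ ‖(z - ((c0 : ℝ) : ℂ)) - ((kq k : ℝ) : ℂ)‖ := by
    have h3 : ((z - ((c0 : ℝ) : ℂ)) - ((kq k : ℝ) : ℂ)).re = e - kq k := by
      rw [Complex.sub_re, Complex.sub_re, Complex.ofReal_re, Complex.ofReal_re, h.re]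
      ring
    rw [← h3]
    exact Complex.abs_re_le_norm _
  have h3 : ‖(z - ((c0 : ℝ) : ℂ)) - ((kq k : ℝ) : ℂ)‖ ≤ e / 4 + 40 * θ * (kq k + e) := by
    have e1 : (z - ((c0 : ℝ) : ℂ)) - ((kq k : ℝ) : ℂ) = Fk μ lam z k -
      (Fk μ lam z k - ((z - ((c0 : ℝ) : ℂ)) - ((kq k : ℝ) : ℂ))) := by ring
    rw [e1]
    exact (norm_sub_le _ _).trans (add_le_add hF h1)
  have h4 : 40 * θ * (kq k + e) ≤ 1 / 40 * (kq k + e) := by
    gcongr
    linarith
  have h5 := (h2.trans h3).trans (add_le_add_right h4 _)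
  have h6 := abs_le.1 h5
  constructor <;> linarith

/-- momenta far from the shell -/
theorem off_shell (h : Cx μ lam c0 θ mg G z e y σ) (hθ : θ ≤ 1 / 1600) (k : T d L)
    (hF : e / 4 < ‖Fk μ lam z k‖) : (kq k + e) / 12 ≤ ‖Fk μ lam z k‖ := by
  have h1 := F_close h k
  have hk := kq_nonneg k
  have he := h.e0
  rcases le_total (kq k) (2 * e) with hc | hc
  · linarith
  · have h2 : |e - kq k| ≤ ‖(z - ((c0 : ℝ) : ℂ)) - ((kq k : ℝ) : ℂ)‖ := by
      have h3 : ((z - ((c0 : ℝ) : ℂ)) - ((kq k : ℝ) : ℂ)).re = e - kq k := by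
        rw [Complex.sub_re, Complex.sub_re, Complex.ofReal_re, Complex.ofReal_re, h.re]
        ring
      rw [← h3]
      exact Complex.abs_re_le_norm _
    have h3 : ‖(z - ((c0 : ℝ) : ℂ)) - ((kq k : ℝ) : ℂ)‖ ≤
        ‖Fk μ lam z k‖ + 40 * θ * (kq k + e) := by
      have e1 : (z - ((c0 : ℝ) : ℂ)) - ((kq k : ℝ) : ℂ) = Fk μ lam z k -
        (Fk μ lam z k - ((z - ((c0 : ℝ) : ℂ)) - ((kq k : ℝ) : ℂ))) := by ring
      rw [e1]
      exact (norm_sub_le _ _).trans (add_le_add le_rfl h1)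
    have h4 : 40 * θ * (kq k + e) ≤ 1 / 40 * (kq k + e) := by
      gcongr
      linarith
    have h5 := (abs_le.1 (h2.trans h3)).1
    linarith

/-- two momenta on a line -/
theorem line (h : Cx μ lam c0 θ mg G z e y σ) (hd : 1 ≤ d) (ϑ : ℝ) (hϑ : θ ≤ ϑ)
    (hϑ1 : ϑ * (1000 * d) ≤ 1) (hσ : σ ≤ ϑ ^ 2) (he : e ≤ 1 / 2) (x : ℝ) (hx : x ≤ e / 4)
    (k : T d L) (i : Fin d) (n : ZMod L) (sg : ℝ) (hsg : sg ^ 2 = 1) (s : ℝ) (hs : 0 < s)
    (hs2 : s ^ 2 * (4 * d) = e)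
    (hk : ‖Fk μ lam z k‖ ≤ x) (hp : ‖Fk μ lam z (k + Pi.single i n)‖ ≤ x)
    (hks : s ≤ sg * (ch k (Pi.single i 1)).im)
    (hps : s ≤ sg * (ch (k + Pi.single i n) (Pi.single i 1)).im) :
    s * ‖ch (Pi.single i n : T d L) (Pi.single i 1) - 1‖ ≤ 4 * x := by
  have hd' : (1 : ℝ) ≤ d := by exact_mod_cast hd
  have he0 := h.e0
  have hθ0 := h.th0
  have hϑ0 : 0 < ϑ := lt_of_lt_of_le hθ0 hϑ
  have hϑs : ϑ ≤ 1 / 1000 := by
    have : ϑ * 1000 ≤ ϑ * (1000 * d) := by gcongr; linarith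
    linarith
  have hθ' : θ ≤ 1 / 1600 ∨ True := Or.inr trivial
  set r : ℝ := √(2 * e) with hr
  have hr2 : r ^ 2 = 2 * e := Real.sq_sqrt (by positivity)
  have hr0 : 0 < r := Real.sqrt_pos.2 (by positivity)
  have hr1 : r ≤ 1 := by
    rw [hr]
    apply Real.sqrt_le_one.2
    linarith
  set p : T d L := k + Pi.single i n with hpd
  -- shell bounds with the constant 1/25
  have sh : ∀ q : T d L, ‖Fk μ lam z q‖ ≤ e / 4 → kq q ≤ 2 * e := by
    intro q hq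
    have h1 := F_close h q
    have hk := kq_nonneg q
    have h2 : |e - kq q| ≤ ‖(z - ((c0 : ℝ) : ℂ)) - ((kq q : ℝ) : ℂ)‖ := by
      have h3 : ((z - ((c0 : ℝ) : ℂ)) - ((kq q : ℝ) : ℂ)).re = e - kq q := by
        rw [Complex.sub_re, Complex.sub_re, Complex.ofReal_re, Complex.ofReal_re, h.re]
        ring
      rw [← h3]
      exact Complex.abs_re_le_norm _
    have h3 : ‖(z - ((c0 : ℝ) : ℂ)) - ((kq q : ℝ) : ℂ)‖ ≤ e / 4 + 40 * θ * (kq q + e) := by
      have e1 : (z - ((c0 : ℝ) : ℂ)) - ((kq q : ℝ) : ℂ) = Fk μ lam z q -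
        (Fk μ lam z q - ((z - ((c0 : ℝ) : ℂ)) - ((kq q : ℝ) : ℂ))) := by ring
      rw [e1]
      exact (norm_sub_le _ _).trans (add_le_add hq h1)
    have h4 : 40 * θ * (kq q + e) ≤ 1 / 25 * (kq q + e) := by
      gcongr
      linarith
    have h6 := (abs_le.1 ((h2.trans h3).trans (add_le_add_right h4 _))).1
    linarith
  have hkq : kq k ≤ r ^ 2 := by rw [hr2]; exact sh k (hk.trans hx)
  have hpq : kq p ≤ r ^ 2 := by rw [hr2]; exact sh p (hp.trans hx)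
  have hFk : 2 * ‖Fk μ lam z k‖ + e ≤ r ^ 2 := by rw [hr2]; linarith
  have hFp : 2 * ‖Fk μ lam z p‖ + e ≤ r ^ 2 := by rw [hr2]; linarith
  have key := dif h k i n r ϑ hr0 hr1 hϑ (by linarith) hσ hkq hpq hFk hFp
  rw [← hpd] at key
  set c := ‖ch (Pi.single i n : T d L) (Pi.single i 1) - 1‖ with hc
  have hc0 : 0 ≤ c := norm_nonneg _
  set Q := kq p - kq k with hQ
  -- lower bound of Q
  have hQc : s * c ≤ |Q| := by
    obtain ⟨u1, u2⟩ := ch_re_im k i
    obtain ⟨v1, v2⟩ := ch_re_im p i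
    set a1 := (ch k (Pi.single i 1)).re with ha1
    set b1 := (ch k (Pi.single i 1)).im with hb1
    set a2 := (ch p (Pi.single i 1)).re with ha2
    set b2 := (ch p (Pi.single i 1)).im with hb2
    have hs1 : s ≤ 1 := by
      have : s ^ 2 ≤ 1 := by nlinarith
      nlinarith
    have h1 := circ a1 (sg * b1) a2 (sg * b2) s (by rw [mul_pow, hsg, one_mul]; exact u1)
      (by rw [mul_pow, hsg, one_mul]; exact v1) hs hs1 hks hps
    have h2 : (sg * b1 - sg * b2) ^ 2 = (b1 - b2) ^ 2 := by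
      rw [← mul_sub, mul_pow, hsg, one_mul]
    rw [h2] at h1
    have h3 : c ^ 2 = (a1 - a2) ^ 2 + (b1 - b2) ^ 2 := by
      have e1 : ch k (Pi.single i 1) * (ch (Pi.single i n : T d L) (Pi.single i 1) - 1) =
          ch p (Pi.single i 1) - ch k (Pi.single i 1) := by
        rw [hpd, ch_addl]
        ring
      have e2 : c = ‖ch p (Pi.single i 1) - ch k (Pi.single i 1)‖ := by
        rw [← e1, norm_mul, ch_norm, one_mul]
      rw [e2, Complex.sq_norm, Complex.normSq_apply, Complex.sub_re, Complex.sub_im, ← ha1,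
        ← ha2, ← hb1, ← hb2]
      ring
    have h4 : Q = 2 * a1 - 2 * a2 := by
      have h5 : Q = k1q p i - k1q k i := by
        rw [hQ]
        unfold kq
        rw [← Finset.sum_sub_distrib]
        refine Finset.sum_eq_single_of_mem i (Finset.mem_univ i) fun j _ hj => ?_
        unfold k1q
        rw [hpd, ch_addl, ch_ne i j hj n, mul_one, sub_self]
      rw [h5, u2, v2]
      ring
    rw [← h3, ← h4, ← mul_pow] at h1
    exact abs_le_abs_of_nonneg_sq h1 (by positivity)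
  -- r ≤ 3 d s
  have hrs : r ≤ 3 * d * s := by
    have h1 : r ^ 2 ≤ (3 * d * s) ^ 2 := by
      rw [hr2, ← hs2]
      have h5 : 0 ≤ s ^ 2 := sq_nonneg s
      nlinarith [mul_nonneg h5 (show (0 : ℝ) ≤ d by linarith),
        mul_nonneg (mul_nonneg h5 (show (0 : ℝ) ≤ d by linarith)) (show (0 : ℝ) ≤ d - 1 by linarith)]
    exact (abs_le.1 (abs_le_of_sq_le_sq h1 (by positivity))).2
  have h2 : 100 * ϑ * (c * r) + 4 * ϑ * |Q| ≤ 1 / 2 * |Q| := by
    have h3 : c * r ≤ 3 * d * |Q| := by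
      calc c * r ≤ c * (3 * d * s) := by gcongr
        _ = 3 * d * (s * c) := by ring
        _ ≤ 3 * d * |Q| := by gcongr
    have hQ0 : 0 ≤ |Q| := abs_nonneg _
    calc 100 * ϑ * (c * r) + 4 * ϑ * |Q| ≤ 100 * ϑ * (3 * d * |Q|) + 4 * ϑ * |Q| := by gcongr
      _ = (ϑ * (300 * d + 4)) * |Q| := by ring
      _ ≤ 1 / 2 * |Q| := by
          gcongr
          have : ϑ * (300 * d + 4) ≤ ϑ * (304 * d) := by gcongr; linarith
          nlinarith
  have h3 : |Q| ≤ ‖Fk μ lam z p - Fk μ lam z k + ((Q : ℝ) : ℂ)‖ +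
      ‖Fk μ lam z p - Fk μ lam z k‖ := by
    have e1 : ((Q : ℝ) : ℂ) = (Fk μ lam z p - Fk μ lam z k + ((Q : ℝ) : ℂ)) -
        (Fk μ lam z p - Fk μ lam z k) := by ring
    have e2 : |Q| = ‖((Q : ℝ) : ℂ)‖ := by rw [Complex.norm_real, Real.norm_eq_abs]
    rw [e2]
    nth_rewrite 1 [e1]
    exact norm_sub_le _ _
  have h4 : ‖Fk μ lam z p - Fk μ lam z k‖ ≤ 2 * x := by
    refine (norm_sub_le _ _).trans ?_
    linarith
  linarith [key.trans h2]
where
  abs_le_abs_of_nonneg_sq {a b : ℝ} (h : a ^ 2 ≤ b ^ 2) (ha : 0 ≤ a) : a ≤ |b| := by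
    have := sq_le_sq.1 h
    rwa [abs_of_nonneg ha] at this

end

end Pool.Agent.V8H95.NM
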