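import Pool.Agent.V8H95.MF.ESm

/-!
Efron-Stein inequality for even moments `2 * 2 ^ j`, with a reference value.
-/

set_option autoImplicit false
set_option linter.unusedSectionVars false

namespace Pool.Agent.V8H95.NM

open MeasureTheory Pool.Agent.V8H95.MF

/-- Young -/
theorem young_pow (x y δ : ℝ) (hx : 0 ≤ x) (hy : 0 ≤ y) (hδ : 0 < δ) (n : ℕ) :
    x ^ n * y ≤ δ * x ^ (n + 1) + (1 / δ) ^ n * y ^ (n + 1) := by
  rcases le_total y (δ * x) with h | h
  · have h1 : x ^ n * y ≤ x ^ n * (δ * x) := by gcongr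
    have h2 : 0 ≤ (1 / δ) ^ n * y ^ (n + 1) := by positivity
    calc _ ≤ x ^ n * (δ * x) := h1
      _ = δ * x ^ (n + 1) := by ring
      _ ≤ _ := by linarith
  · have h1 : x ≤ 1 / δ * y := by
      rw [one_div, inv_mul_eq_div, le_div_iff₀ hδ]
      linarith
    have h2 : x ^ n ≤ (1 / δ * y) ^ n := pow_le_pow_left₀ hx h1 n
    have h3 : 0 ≤ δ * x ^ (n + 1) := by positivity
    calc _ ≤ (1 / δ * y) ^ n * y := by gcongr
      _ = (1 / δ) ^ n * y ^ (n + 1) := by rw [mul_pow]; ring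
      _ ≤ _ := by linarith

theorem pow_sub_le (a b : ℝ) (ha : 0 ≤ a) (hb : 0 ≤ b) (q : ℕ) (D : ℝ) (hD : |a - b| ≤ D) :
    |a ^ (q + 1) - b ^ (q + 1)| ≤ (q + 1) * (a + D) ^ q * D := by
  have hD0 : 0 ≤ D := (abs_nonneg _).trans hD
  have hbD : b ≤ a + D := by
    have := (abs_le.1 hD).1
    linarith
  have h1 : a ^ (q + 1) - b ^ (q + 1) =
      (∑ i ∈ Finset.range (q + 1), a ^ i * b ^ (q - i)) * (a - b) := by
    have := Commute.geom_sum₂_mul (Commute.all a b) (q + 1)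
    rw [← this]
    simp
  rw [h1, abs_mul]
  have h2 : |∑ i ∈ Finset.range (q + 1), a ^ i * b ^ (q - i)| ≤ (q + 1) * (a + D) ^ q := by
    rw [abs_of_nonneg (Finset.sum_nonneg fun i _ => by positivity)]
    have h3 : ∀ i ∈ Finset.range (q + 1), a ^ i * b ^ (q - i) ≤ (a + D) ^ q := by
      intro i hi
      have hiq : i ≤ q := Nat.lt_succ_iff.1 (Finset.mem_range.1 hi)
      calc a ^ i * b ^ (q - i) ≤ (a + D) ^ i * (a + D) ^ (q - i) := by
            gcongr
            linarith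
        _ = (a + D) ^ q := by rw [← pow_add, Nat.add_sub_cancel' hiq]
    refine (Finset.sum_le_sum h3).trans (le_of_eq ?_)
    simp
  gcongr

theorem pow_diff_sq (a b : ℝ) (ha : 0 ≤ a) (hb : 0 ≤ b) (q : ℕ) (D : ℝ) (hD : |a - b| ≤ D) :
    (a ^ (q + 1) - b ^ (q + 1)) ^ 2 ≤
      ((q + 1) ^ 2 * 2 ^ (2 * q)) * ((a ^ 2) ^ q * D ^ 2 + (D ^ 2) ^ q * D ^ 2) := by
  have hD0 : 0 ≤ D := (abs_nonneg _).trans hD
  have h1 := pow_le_pow_left₀ (abs_nonneg _) (pow_sub_le a b ha hb q D hD) 2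
  rw [sq_abs] at h1
  refine h1.trans ?_
  have h2 : (a + D) ^ (2 * q) ≤ 2 ^ (2 * q) * (a ^ (2 * q) + D ^ (2 * q)) := by
    refine (add_pow_le ha hD0 (2 * q)).trans ?_
    gcongr
    · norm_num
    · omega
  calc ((q + 1) * (a + D) ^ q * D) ^ 2 = (q + 1) ^ 2 * (a + D) ^ (2 * q) * D ^ 2 := by ring
    _ ≤ (q + 1) ^ 2 * (2 ^ (2 * q) * (a ^ (2 * q) + D ^ (2 * q))) * D ^ 2 := by gcongr
    _ = _ := by rw [pow_mul a 2 q, pow_mul D 2 q]; ring

section

variable {Ω : Type*} [MeasurableSpace Ω] (P : Measure Ω) [IsProbabilityMeasure P]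

theorem int_of (f : Ω → ℝ) (hf : Measurable f) (C : ℝ) (hC : ∀ w, |f w| ≤ C) : Integrable f P :=
  Integrable.of_bound hf.aestronglyMeasurable C (Filter.Eventually.of_forall fun w => by
    rw [Real.norm_eq_abs]; exact hC w)

/-- Jensen -/
theorem sq_int_le (f : Ω → ℝ) (hf : Measurable f) (C : ℝ) (hC : ∀ w, |f w| ≤ C) :
    (∫ w, f w ∂P) ^ 2 ≤ ∫ w, f w ^ 2 ∂P := by
  have i1 := int_of P f hf C hC
  have i2 : Integrable (fun w => f w ^ 2) P := int_of P _ (hf.pow_const 2) (C ^ 2) fun w => by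
    rw [abs_pow]
    exact pow_le_pow_left₀ (abs_nonneg _) (hC w) 2
  set a := ∫ w, f w ∂P with ha
  have h1 : 0 ≤ ∫ w, (f w - a) ^ 2 ∂P := integral_nonneg fun w => sq_nonneg _
  have h2 : ∫ w, (f w - a) ^ 2 ∂P = ∫ w, f w ^ 2 ∂P - a ^ 2 := by
    have e : ∀ w, (f w - a) ^ 2 = f w ^ 2 - (2 * a * f w - a ^ 2) := fun w => by ring
    simp only [e]
    have e1 : ∫ w, 2 * a * f w ∂P = 2 * a * a := by rw [integral_const_mul]
    have i4 : Integrable (fun w => 2 * a * f w) P := i1.const_mul (2 * a)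
    have i3 : Integrable (fun w => 2 * a * f w - a ^ 2) P := i4.sub (integrable_const _)
    rw [integral_sub i2 i3, integral_sub i4 (integrable_const _), e1]
    simp
    ring
  linarith

end

variable {m : Type} [Fintype m] [DecidableEq m]

/-- the square function -/
noncomputable def SF (s0 : ℝ) (F : (m → ℝ) → ℝ) (V : m → ℝ) : ℝ :=
  ∑ y, (F V - F (Function.update V y s0)) ^ 2

theorem SF_nonneg (s0 : ℝ) (F : (m → ℝ) → ℝ) (V : m → ℝ) : 0 ≤ SF s0 F V :=
  Finset.sum_nonneg fun _ _ => sq_nonneg _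

theorem SF_meas (s0 : ℝ) (F : (m → ℝ) → ℝ) (hF : Measurable F) : Measurable (SF s0 F) :=
  Finset.measurable_sum _ fun y _ => (hF.sub (hF.comp (ES.update_meas y s0))).pow_const 2

theorem SF_le (s0 : ℝ) (F : (m → ℝ) → ℝ) (B : ℝ) (hB : ∀ V, |F V| ≤ B) (V : m → ℝ) :
    |SF s0 F V| ≤ Fintype.card m * (2 * B) ^ 2 := by
  rw [abs_of_nonneg (SF_nonneg s0 F V)]
  have h : ∀ y ∈ (Finset.univ : Finset m), (F V - F (Function.update V y s0)) ^ 2 ≤ (2 * B) ^ 2 := by
    intro y _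
    rw [← sq_abs (F V - _)]
    refine pow_le_pow_left₀ (abs_nonneg _) ?_ 2
    have h1 := abs_sub (F V) (F (Function.update V y s0))
    linarith [hB V, hB (Function.update V y s0)]
  refine (Finset.sum_le_sum h).trans (le_of_eq ?_)
  simp

theorem es_real (μ : Measure ℝ) [IsProbabilityMeasure μ] (s0 : ℝ) (F : (m → ℝ) → ℝ)
    (hF : Measurable F) (C : ℝ) (hC : ∀ V, |F V| ≤ C) :
    ∫ V, (F V - ∫ U, F U ∂(Measure.pi fun _ : m => μ)) ^ 2 ∂(Measure.pi fun _ : m => μ) ≤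
      ∫ V, SF s0 F V ∂(Measure.pi fun _ : m => μ) := by
  have h := ES.es m μ s0 (fun V => (F V : ℂ)) (Complex.measurable_ofReal.comp hF) C
    (fun V => by rw [Complex.norm_real]; exact hC V)
  have e1 : ∫ U, (F U : ℂ) ∂(Measure.pi fun _ : m => μ) =
      ((∫ U, F U ∂(Measure.pi fun _ : m => μ) : ℝ) : ℂ) := integral_ofReal
  have e2 : ∀ a b : ℝ, ‖(a : ℂ) - (b : ℂ)‖ ^ 2 = (a - b) ^ 2 := by
    intro a b
    rw [← Complex.ofReal_sub, Complex.norm_real, Real.norm_eq_abs, sq_abs]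
  rw [e1] at h
  simp only [e2] at h
  refine h.trans (le_of_eq ?_)
  unfold SF
  rw [integral_finsetSum]
  intro y _
  refine int_of _ _ ((hF.sub (hF.comp (ES.update_meas y s0))).pow_const 2) ((2 * C) ^ 2) fun V => ?_
  rw [abs_pow]
  refine pow_le_pow_left₀ (abs_nonneg _) ?_ 2
  have h1 := abs_sub (F V) (F (Function.update V y s0))
  linarith [hC V, hC (Function.update V y s0)]

theorem sum_pow_le {ι : Type*} (s : Finset ι) (x : ι → ℝ) (hx : ∀ i ∈ s, 0 ≤ x i) (q : ℕ) :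
    ∑ i ∈ s, x i ^ q * x i ≤ (∑ i ∈ s, x i) ^ (q + 1) := by
  have h : ∀ i ∈ s, x i ^ q * x i ≤ (∑ j ∈ s, x j) ^ q * x i := by
    intro i hi
    have := Finset.single_le_sum hx hi
    have h0 := hx i hi
    gcongr
  refine (Finset.sum_le_sum h).trans (le_of_eq ?_)
  rw [← Finset.mul_sum, pow_succ]

/-- **Efron-Stein inequality for the moment `2 * 2 ^ j`** -/
theorem esp (j : ℕ) : ∃ C : ℝ, 1 ≤ C ∧ ∀ (m : Type) [Fintype m] [DecidableEq m] (μ : Measure ℝ)
    [IsProbabilityMeasure μ] (s0 : ℝ) (F : (m → ℝ) → ℝ), Measurable F →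
    ∀ B : ℝ, (∀ V, |F V| ≤ B) →
    ∫ V, (F V - ∫ U, F U ∂(Measure.pi fun _ : m => μ)) ^ (2 * 2 ^ j)
      ∂(Measure.pi fun _ : m => μ) ≤
      C * ∫ V, SF s0 F V ^ (2 ^ j) ∂(Measure.pi fun _ : m => μ) := by
  induction j with
  | zero =>
    refine ⟨1, le_refl _, ?_⟩
    intro m _ _ μ _ s0 F hF B hB
    have h := es_real μ s0 F hF B hB
    simpa using h
  | succ j ih =>
    obtain ⟨C0, hC0, ih⟩ := ih
    obtain ⟨q, hq⟩ : ∃ q : ℕ, 2 ^ (j + 1) = q + 1 := ⟨2 ^ (j + 1) - 1, by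
      have : 0 < 2 ^ (j + 1) := by positivity
      omega⟩
    set K : ℝ := (q + 1) ^ 2 * 2 ^ (2 * q) with hK
    have hK0 : 0 < K := by positivity
    set δ : ℝ := 1 / (2 * K) with hδ
    have hδ0 : 0 < δ := by positivity
    refine ⟨2 * (C0 ^ 2 + K * ((1 / δ) ^ q + 1)), ?_, ?_⟩
    · have h1 : 1 ≤ C0 ^ 2 := one_le_pow₀ hC0
      have h2 : 0 ≤ K * ((1 / δ) ^ q + 1) := by positivity
      linarith
    intro m _ _ μ _ s0 F hF B hB
    set P : Measure (m → ℝ) := Measure.pi fun _ : m => μ with hP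
    set E := ∫ U, F U ∂P with hE
    have hB0 : 0 ≤ B := (abs_nonneg _).trans (hB fun _ => 0)
    have hEB : |E| ≤ B := by
      rw [hE]
      have := norm_integral_le_of_norm_le_const (μ := P) (f := F) (C := B)
        (Filter.Eventually.of_forall fun V => by rw [Real.norm_eq_abs]; exact hB V)
      simpa using this
    set a : (m → ℝ) → ℝ := fun V => |F V - E| with ha
    have ham : Measurable a := (hF.sub_const E).abs
    have ha0 : ∀ V, 0 ≤ a V := fun V => abs_nonneg _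
    have haB : ∀ V, a V ≤ 2 * B := by
      intro V
      have := abs_sub (F V) E
      show |F V - E| ≤ 2 * B
      linarith [hB V]
    have hapow : ∀ n : ℕ, ∀ V, |a V ^ n| ≤ (2 * B) ^ n := by
      intro n V
      rw [abs_pow, abs_of_nonneg (ha0 V)]
      exact pow_le_pow_left₀ (ha0 V) (haB V) n
    set S := SF s0 F with hS
    have hS0 : ∀ V, 0 ≤ S V := SF_nonneg s0 F
    have hSm : Measurable S := SF_meas s0 F hF
    set BS : ℝ := Fintype.card m * (2 * B) ^ 2 with hBS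
    have hSB : ∀ V, |S V| ≤ BS := SF_le s0 F B hB
    have hSpow : ∀ n : ℕ, ∀ V, |S V ^ n| ≤ BS ^ n := by
      intro n V
      rw [abs_pow]
      exact pow_le_pow_left₀ (abs_nonneg _) (hSB V) n
    -- the function g = a ^ (q + 1)
    set g : (m → ℝ) → ℝ := fun V => a V ^ (q + 1) with hg
    have hgm : Measurable g := ham.pow_const _
    have h1 := es_real μ s0 g hgm ((2 * B) ^ (q + 1)) (hapow (q + 1))
    have hpt : ∀ V, SF s0 g V ≤ K * ((a V ^ 2) ^ q * S V + S V ^ (q + 1)) := by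
      intro V
      have h2 : ∀ y ∈ (Finset.univ : Finset m), (g V - g (Function.update V y s0)) ^ 2 ≤
          K * ((a V ^ 2) ^ q * (F V - F (Function.update V y s0)) ^ 2 +
            ((F V - F (Function.update V y s0)) ^ 2) ^ q *
              (F V - F (Function.update V y s0)) ^ 2) := by
        intro y _
        have h3 := pow_diff_sq (a V) (a (Function.update V y s0)) (ha0 _) (ha0 _) q
          |F V - F (Function.update V y s0)| (by
            show abs (abs (F V - E) - abs (F (Function.update V y s0) - E)) ≤ _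
            refine (abs_abs_sub_abs_le _ _).trans (le_of_eq ?_)
            congr 1
            ring)
        simpa [sq_abs] using h3
      refine (Finset.sum_le_sum h2).trans ?_
      rw [← Finset.mul_sum, Finset.sum_add_distrib, ← Finset.mul_sum]
      have h4 := sum_pow_le (Finset.univ : Finset m)
        (fun y => (F V - F (Function.update V y s0)) ^ 2) (fun _ _ => sq_nonneg _) q
      have h5 : (∑ y : m, (F V - F (Function.update V y s0)) ^ 2) = S V := rfl
      rw [h5] at h4 ⊢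
      exact mul_le_mul_of_nonneg_left (by linarith) hK0.le
    have hpt2 : ∀ V, SF s0 g V ≤ 1 / 2 * a V ^ (2 * 2 ^ (j + 1)) +
        (K * ((1 / δ) ^ q + 1)) * S V ^ (2 ^ (j + 1)) := by
      intro V
      refine (hpt V).trans ?_
      have h2 := young_pow (a V ^ 2) (S V) δ (by positivity) (hS0 V) hδ0 q
      have e : (a V ^ 2) ^ (q + 1) = a V ^ (2 * 2 ^ (j + 1)) := by rw [hq, pow_mul]
      rw [e] at h2
      rw [hq]
      have e2 : K * δ = 1 / 2 := by rw [hδ]; field_simp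
      calc K * ((a V ^ 2) ^ q * S V + S V ^ (q + 1)) ≤
          K * ((δ * a V ^ (2 * 2 ^ (j + 1)) + (1 / δ) ^ q * S V ^ (q + 1)) + S V ^ (q + 1)) := by
            gcongr
        _ = K * δ * a V ^ (2 * 2 ^ (j + 1)) + (K * ((1 / δ) ^ q + 1)) * S V ^ (q + 1) := by ring
        _ = _ := by rw [e2, hq]
    have iA : Integrable (fun V => a V ^ (2 * 2 ^ (j + 1))) P :=
      int_of P _ (ham.pow_const _) _ (hapow _)
    have iS : Integrable (fun V => S V ^ (2 ^ (j + 1))) P := int_of P _ (hSm.pow_const _) _ (hSpow _)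
    have iSg : Integrable (fun V => SF s0 g V) P :=
      int_of P _ (SF_meas s0 g hgm) _ (SF_le s0 g _ (hapow (q + 1)))
    have h3 : ∫ V, SF s0 g V ∂P ≤ 1 / 2 * ∫ V, a V ^ (2 * 2 ^ (j + 1)) ∂P +
        (K * ((1 / δ) ^ q + 1)) * ∫ V, S V ^ (2 ^ (j + 1)) ∂P := by
      have := integral_mono iSg ((iA.const_mul (1 / 2)).add (iS.const_mul _)) hpt2
      refine this.trans (le_of_eq ?_)
      have e := integral_add (iA.const_mul (1 / 2)) (iS.const_mul (K * ((1 / δ) ^ q + 1)))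
      rw [integral_const_mul, integral_const_mul] at e
      exact e
    -- the mean of g
    have ig : Integrable g P := int_of P _ hgm _ (hapow (q + 1))
    have ig2 : Integrable (fun V => g V ^ 2) P := int_of P _ (hgm.pow_const 2) (((2 * B) ^ (q + 1)) ^ 2)
      fun V => by
        rw [abs_pow]
        exact pow_le_pow_left₀ (abs_nonneg _) (hapow (q + 1) V) 2
    have h4 : ∫ V, g V ^ 2 ∂P = ∫ V, (g V - ∫ U, g U ∂P) ^ 2 ∂P + (∫ U, g U ∂P) ^ 2 := by
      set c := ∫ U, g U ∂P with hc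
      have e : ∀ V, (g V - c) ^ 2 = g V ^ 2 - (2 * c * g V - c ^ 2) := fun V => by ring
      simp only [e]
      have e1 : ∫ V, 2 * c * g V ∂P = 2 * c * c := by rw [integral_const_mul]
      have i4 : Integrable (fun w => 2 * c * g w) P := ig.const_mul (2 * c)
      have i3 : Integrable (fun w => 2 * c * g w - c ^ 2) P := i4.sub (integrable_const _)
      rw [integral_sub ig2 i3, integral_sub i4 (integrable_const _), e1]
      simp
      ring
    have h5 : ∫ V, g V ∂P ≤ C0 * ∫ V, S V ^ (2 ^ j) ∂P := by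
      have h6 := ih m μ s0 F hF B hB
      have e : (fun V => g V) = fun V => (F V - E) ^ (2 * 2 ^ j) := by
        funext V
        show |F V - E| ^ (q + 1) = _
        rw [← hq, pow_succ, mul_comm (2 ^ j) 2, pow_mul, pow_mul, sq_abs]
      rw [e]
      exact h6
    have h6 : 0 ≤ ∫ V, g V ∂P := integral_nonneg fun V => by positivity
    have h7 : (∫ V, S V ^ (2 ^ j) ∂P) ^ 2 ≤ ∫ V, S V ^ (2 ^ (j + 1)) ∂P := by
      refine (sq_int_le P _ (hSm.pow_const _) _ (hSpow (2 ^ j))).trans (le_of_eq ?_)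
      congr 1
      funext V
      rw [← pow_mul, pow_succ]
    have h8 : (∫ V, g V ∂P) ^ 2 ≤ C0 ^ 2 * ∫ V, S V ^ (2 ^ (j + 1)) ∂P := by
      calc (∫ V, g V ∂P) ^ 2 ≤ (C0 * ∫ V, S V ^ (2 ^ j) ∂P) ^ 2 := pow_le_pow_left₀ h6 h5 2
        _ = C0 ^ 2 * (∫ V, S V ^ (2 ^ j) ∂P) ^ 2 := by ring
        _ ≤ _ := by gcongr
    have h9 : ∫ V, g V ^ 2 ∂P = ∫ V, a V ^ (2 * 2 ^ (j + 1)) ∂P := by
      congr 1
      funext V
      show (a V ^ (q + 1)) ^ 2 = _
      rw [← pow_mul, hq]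
      ring_nf
    have h10 : ∫ V, (F V - E) ^ (2 * 2 ^ (j + 1)) ∂P = ∫ V, a V ^ (2 * 2 ^ (j + 1)) ∂P := by
      congr 1
      funext V
      show _ = |F V - E| ^ (2 * 2 ^ (j + 1))
      rw [pow_mul, pow_mul, sq_abs]
    rw [h10]
    have h11 : 0 ≤ ∫ V, S V ^ (2 ^ (j + 1)) ∂P := integral_nonneg fun V => pow_nonneg (hS0 V) _
    rw [h9] at h4
    nlinarith [h1, h3, h4, h8]

end Pool.Agent.V8H95.NM
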