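import Pool.Agent.V8H95.NM.Pko

/-!
The mass far from the classical position, on the torus, from the time average.
-/

set_option autoImplicit false
set_option linter.unusedSectionVars false
set_option linter.unusedVariables false

open Complex MeasureTheory
open scoped BigOperators ComplexConjugate

namespace Pool.Agent.V8H95.NM

open Pool.Agent.H4R2.AE Pool.Agent.V8H99.AD Pool.Agent.V8H95.MF Pool.Agent.V8H95.BW
open Pool.Agent.V8H95.EF

variable {d L : ℕ} [NeZero L]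

section
variable (μ : Measure ℝ) [IsProbabilityMeasure μ]

/-- **the mass far from the classical position, on the torus** -/
theorem far_torus2 (hd : 1 ≤ d) (lam c0 η m : ℝ) (G : Set (T d L → ℝ)) (hGm : MeasurableSet G)
    (hG : ∀ V ∈ G, ∃ ψ : T d L → ℝ, Gd lam c0 η m V ψ) (u : XT d L) (hu : u ≠ 0)
    (q : Fin d → ℝ) (ϑ κ ρ r t β : ℝ) (hϑ : 0 < ϑ) (hϑ1 : ϑ ≤ 1 / 100) (hη0 : 0 ≤ η) (hη : η ≤ ϑ)
    (hκ : 0 < κ) (hr : 0 < r) (ht : 0 ≤ t) (hβ : 0 < β)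
    (hS : ∑ j, Real.sin (q j) ^ 2 ≤ κ ^ 2)
    (hDir : Dir (fun y => u y) + 3 * m * ‖u‖ ^ 2 ≤
      (∑ j, Real.sin (q j) ^ 2 + 7 * ϑ * κ ^ 2) * ‖u‖ ^ 2)
    (hmom : ∀ j, ‖Sh j u - Complex.exp (q j * Complex.I) • u‖ ≤ ϑ * κ * ‖u‖)
    (hρ : wm Q u ≤ ρ ^ 2 * ‖u‖ ^ 2) (R N : ℕ) (hsupp : ∀ y, u y ≠ 0 → ∀ i, |rep y i| ≤ R)
    (hRN : 2 * (R + N) + 2 < L) (hN : 24 * ((4 * d + 1) * t) ≤ N)
    (htail : 12 * d * (L : ℝ) ^ 2 * Real.exp (-(N : ℝ)) ≤ ϑ * κ)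
    (hav : ∫ V, (∫ s in (0 : ℝ)..t, Dv μ lam u V s) ∂(Measure.pi fun _ : T d L => μ) ≤
      t * (β * ‖u‖)) :
    ∫ V, farm (fun j => t * (2 * Real.sin (q j))) r (ev (HC lam V) t u)
        ∂(Measure.pi fun _ : T d L => μ) ≤
      ((Measure.pi fun _ : T d L => μ).real Gᶜ + 2 * ϑ ^ 2 +
        2 / r ^ 2 * ((1 + 2 / ϑ) * (2 * ρ ^ 2 + d / (2 * ϑ)) + (83 + 160 * d) * ϑ * κ ^ 2 * t ^ 2 +
          40 * d * κ ^ 2 * t ^ 2 * β)) * ‖u‖ ^ 2 := by
  set P : Measure (T d L → ℝ) := Measure.pi fun _ : T d L => μ with hP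
  set a : Fin d → ℝ := fun j => t * (2 * Real.sin (q j)) with ha
  set c1 := (1 + 2 / ϑ) * (2 * ρ ^ 2 + d / (2 * ϑ)) + (83 + 160 * d) * ϑ * κ ^ 2 * t ^ 2 with hc1
  have hc10 : 0 ≤ c1 := by positivity
  have hun : 0 < ‖u‖ := norm_pos_iff.2 hu
  -- pointwise
  have hpt : ∀ V : T d L → ℝ, farm a r (ev (HC lam V) t u) ≤
      (Gᶜ.indicator (fun _ => ‖u‖ ^ 2) V + (2 * ϑ ^ 2 + 2 / r ^ 2 * c1) * ‖u‖ ^ 2) +
        2 / r ^ 2 * (40 * d * κ ^ 2 * t * ‖u‖) * ∫ s in (0 : ℝ)..t, Dv μ lam u V s := by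
    intro V
    have hI0 : 0 ≤ ∫ s in (0 : ℝ)..t, Dv μ lam u V s :=
      intervalIntegral.integral_nonneg ht fun s _ => Dv_nonneg μ lam u V s
    by_cases hV : V ∈ G
    · rw [Set.indicator_of_notMem (by simpa using hV), zero_add]
      obtain ⟨ψ, h⟩ := hG V hV
      have hsplit : ev (HC lam V) t u = ev (HC lam V) t (Mu ψ u) + ev (HC lam V) t (u - Mu ψ u) := by
        rw [← map_add]
        congr 1
        abel
      have h1 := farm_add a r (ev (HC lam V) t (Mu ψ u)) (ev (HC lam V) t (u - Mu ψ u))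
      rw [← hsplit, evn] at h1
      have h2 : ‖u - Mu ψ u‖ ≤ ϑ * ‖u‖ := (mu_close h u).trans (by gcongr)
      have h3 : ‖u - Mu ψ u‖ ^ 2 ≤ ϑ ^ 2 * ‖u‖ ^ 2 := by
        have := pow_le_pow_left₀ (norm_nonneg _) h2 2
        linarith [mul_pow ϑ ‖u‖ 2]
      have hφ0n : ‖Mu ψ u‖ ≤ 2 * ‖u‖ := (mu_norm h u).trans (by gcongr; linarith)
      have hsupp' : ∀ y, (Mu ψ u) y ≠ 0 → ∀ i, |rep y i| ≤ R := by
        intro y hy
        apply hsupp y
        intro h0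
        apply hy
        rw [Mu_apply, h0, mul_zero]
      have hdet := det_bound h hd u hu (fun s => mav μ lam s u) q ϑ κ ρ hϑ hϑ1 hη hκ hS hDir t ht
        (Real.exp (-(N : ℝ)) * ‖Mu ψ u‖) (by positivity)
        (fun s hs => tail_ok lam h.lam0 h.lam1 V h.hV (Mu ψ u) R N hsupp' hRN s (by
          refine le_trans ?_ hN
          rw [abs_of_nonneg hs.1]
          have := hs.2
          gcongr))
        (by
          calc 6 * d * (L : ℝ) ^ 2 * (Real.exp (-(N : ℝ)) * ‖Mu ψ u‖)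
              ≤ 6 * d * (L : ℝ) ^ 2 * (Real.exp (-(N : ℝ)) * (2 * ‖u‖)) := by gcongr
            _ = 12 * d * (L : ℝ) ^ 2 * Real.exp (-(N : ℝ)) * ‖u‖ := by ring
            _ ≤ ϑ * κ * ‖u‖ := by gcongr)
        (mav_cont μ lam u) (fun s => mav_norm μ lam s u)
        (fun s j => by
          rw [mav_shift, ← mav_sub]
          refine (mav_norm μ lam s _).trans ((sh_le_dir u j).trans ?_)
          exact Real.sqrt_le_sqrt (dir_KK h u))
        (fun s j => by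
          rw [mav_shift, ← mav_smul, ← mav_sub]
          exact (mav_norm μ lam s _).trans (hmom j))
        hρ
      have h4 := farm_am a r hr (ev (HC lam V) t (Mu ψ u))
      have h5 : farm a r (ev (HC lam V) t (Mu ψ u)) ≤
          1 / r ^ 2 * (c1 * ‖u‖ ^ 2 + 40 * d * κ ^ 2 * t * ‖u‖ *
            ∫ s in (0 : ℝ)..t, Dv μ lam u V s) := by
        refine h4.trans ?_
        rw [div_eq_mul_one_div, mul_comm]
        apply mul_le_mul_of_nonneg_left _ (by positivity)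
        refine hdet.trans (le_of_eq ?_)
        rw [hc1]
        unfold Dv
        ring
      calc farm a r (ev (HC lam V) t u) ≤ 2 * (1 / r ^ 2 * (c1 * ‖u‖ ^ 2 +
            40 * d * κ ^ 2 * t * ‖u‖ * ∫ s in (0 : ℝ)..t, Dv μ lam u V s)) +
            2 * (ϑ ^ 2 * ‖u‖ ^ 2) := by linarith
        _ = _ := by ring
    · rw [Set.indicator_of_mem (show V ∈ Gᶜ from hV)]
      have h1 := farm_le_norm a r (ev (HC lam V) t u)
      rw [evn] at h1
      have h2 : 0 ≤ (2 * ϑ ^ 2 + 2 / r ^ 2 * c1) * ‖u‖ ^ 2 := by positivity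
      have h3 : 0 ≤ 2 / r ^ 2 * (40 * d * κ ^ 2 * t * ‖u‖) *
          ∫ s in (0 : ℝ)..t, Dv μ lam u V s := by positivity
      linarith
  -- integrability
  have i1 : Integrable (fun V => farm a r (ev (HC lam V) t u)) P := by
    refine Integrable.of_bound (C := ‖u‖ ^ 2) ?_ (Filter.Eventually.of_forall fun V => ?_)
    · have : Continuous fun V : T d L → ℝ => farm a r (ev (HC lam V) t u) := by
        unfold farm
        refine continuous_finsetSum _ fun x _ => ?_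
        split_ifs
        · exact ((EuclideanSpace.proj x : XT d L →L[ℂ] ℂ).continuous.comp
            (ev_V_cont lam t u)).norm.pow 2
        · exact continuous_const
      exact this.aestronglyMeasurable
    · rw [Real.norm_eq_abs, abs_of_nonneg (farm_nonneg _ _ _)]
      have h1 := farm_le_norm a r (ev (HC lam V) t u)
      rwa [evn] at h1
  have i2 : Integrable (Gᶜ.indicator fun _ : T d L → ℝ => ‖u‖ ^ 2) P :=
    (integrable_const _).indicator hGm.compl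
  have hII : ∀ V : T d L → ℝ, ∫ s in (0 : ℝ)..t, Dv μ lam u V s =
      ∫ s in Set.Ioc 0 t, Dv μ lam u V s := fun V => intervalIntegral.integral_of_le ht
  have i3 : Integrable (fun V => ∫ s in (0 : ℝ)..t, Dv μ lam u V s) P := by
    simp only [hII]
    exact (Dv_int μ lam u t).integral_prod_left
  have i4 : Integrable (fun V => 2 / r ^ 2 * (40 * d * κ ^ 2 * t * ‖u‖) *
      ∫ s in (0 : ℝ)..t, Dv μ lam u V s) P := i3.const_mul _
  have i5 : Integrable (fun V => Gᶜ.indicator (fun _ : T d L → ℝ => ‖u‖ ^ 2) V +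
      (2 * ϑ ^ 2 + 2 / r ^ 2 * c1) * ‖u‖ ^ 2) P := i2.add (integrable_const _)
  have h1 := integral_mono i1 (i5.add i4) hpt
  refine h1.trans ?_
  have hval : ∫ V, Gᶜ.indicator (fun _ : T d L → ℝ => ‖u‖ ^ 2) V ∂P = P.real Gᶜ * ‖u‖ ^ 2 := by
    rw [integral_indicator hGm.compl, setIntegral_const, smul_eq_mul]
  have h2 : ∫ V, ((Gᶜ.indicator (fun _ : T d L → ℝ => ‖u‖ ^ 2) V +
      (2 * ϑ ^ 2 + 2 / r ^ 2 * c1) * ‖u‖ ^ 2) + 2 / r ^ 2 * (40 * d * κ ^ 2 * t * ‖u‖) *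
        ∫ s in (0 : ℝ)..t, Dv μ lam u V s) ∂P =
      (P.real Gᶜ * ‖u‖ ^ 2 + (2 * ϑ ^ 2 + 2 / r ^ 2 * c1) * ‖u‖ ^ 2) +
        2 / r ^ 2 * (40 * d * κ ^ 2 * t * ‖u‖) *
          ∫ V, (∫ s in (0 : ℝ)..t, Dv μ lam u V s) ∂P := by
    have e1 : ∫ V, 2 / r ^ 2 * (40 * d * κ ^ 2 * t * ‖u‖) *
        (∫ s in (0 : ℝ)..t, Dv μ lam u V s) ∂P = 2 / r ^ 2 * (40 * d * κ ^ 2 * t * ‖u‖) *
          ∫ V, (∫ s in (0 : ℝ)..t, Dv μ lam u V s) ∂P := integral_const_mul _ _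
    have e2 : ∫ V : T d L → ℝ, (2 * ϑ ^ 2 + 2 / r ^ 2 * c1) * ‖u‖ ^ 2 ∂P =
        (2 * ϑ ^ 2 + 2 / r ^ 2 * c1) * ‖u‖ ^ 2 := by simp
    rw [integral_add i5 i4, integral_add i2 (integrable_const _), hval, e1, e2]
  refine (le_of_eq h2).trans ?_
  have h3 : ∫ V, (∫ s in (0 : ℝ)..t, Dv μ lam u V s) ∂P ≤ t * (β * ‖u‖) := hav
  calc _ ≤ (P.real Gᶜ * ‖u‖ ^ 2 + (2 * ϑ ^ 2 + 2 / r ^ 2 * c1) * ‖u‖ ^ 2) +
        2 / r ^ 2 * (40 * d * κ ^ 2 * t * ‖u‖) * (t * (β * ‖u‖)) := by gcongr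
    _ = _ := by
      rw [hc1]
      ring

end

end Pool.Agent.V8H95.NM
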