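import Pool.Agent.V8H95.NM.Fin3

/-!
The theorem for all energies near the band edge.
-/

set_option autoImplicit false
set_option linter.unusedSectionVars false
set_option linter.unusedVariables false

open Complex MeasureTheory
open scoped BigOperators ComplexConjugate

namespace Pool.Agent.V8H95.NM

open Pool.Agent.H4R2.AE Pool.Agent.V8H99.AD Pool.Agent.V8H95.MF Pool.Agent.V8H95.BW
open Pool.Agent.V8H95.EF

/-- the radius of the cubes -/
noncomputable def rad (d : ℕ) (a k lam κ : ℝ) : ℝ :=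
  if d = 3 then lam ^ (a - 2) else k * κ ^ (1 - (d : ℝ) / 2) / lam

theorem rs_mono {d L : ℕ} [NeZero L] (f : XT d L) (x0 : T d L) (r r' : ℝ) (h : r ≤ r') :
    ‖rs (fun x => (nn (x - x0) : ℝ) ≤ r) f‖ ^ 2 ≤ ‖rs (fun x => (nn (x - x0) : ℝ) ≤ r') f‖ ^ 2 := by
  classical
  rw [rs_norm, rs_norm]
  refine Finset.sum_le_sum fun y _ => ?_
  by_cases h1 : (nn (y - x0) : ℝ) ≤ r
  · rw [if_pos h1, if_pos (h1.trans h)]
  · rw [if_neg h1]
    split_ifs <;> positivity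

theorem final4 (d : ℕ) (hd : 3 ≤ d) (N : ℕ) (a ε : ℝ) (ha : 0 < a) (hε : 0 < ε) (hε1 : ε ≤ 1) :
    ∃ c k lam0 : ℝ, 0 < c ∧ 0 < k ∧ 0 < lam0 ∧
    ∀ (μ : Measure ℝ) [IsProbabilityMeasure μ], μ (Set.Icc (-1) 1)ᶜ = 0 →
    ∀ lam : ℝ, 0 < lam → lam ≤ lam0 → ∀ (L : ℕ) [NeZero L],
    scl d c (1 / lam) ^ (d + 1) ≤ L → (L : ℝ) ≤ scl d c (1 / lam) ^ N →
    ∀ κ : ℝ, 1 / scl d c (1 / lam) ≤ κ → κ ≤ k →
    ∃ G : Set (T d L → ℝ), MeasurableSet G ∧ 1 - ε ≤ (Measure.pi fun _ : T d L => μ).real G ∧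
      ∀ V ∈ G, ∀ (b : OrthonormalBasis (T d L) ℂ (XT d L)) (E : T d L → ℝ),
        (∀ α, HC lam V (b α) = ((E α : ℝ) : ℂ) • b α) →
        k * (κ * L) ^ d ≤ ((win E κ).card : ℝ) ∧
        ∀ S : Finset (T d L), S ⊆ win E κ → (∀ α ∈ S, ∃ x0 : T d L,
          ε < ‖rs (fun x => (nn (x - x0) : ℝ) ≤ rad d a k lam κ) (b α)‖ ^ 2) →
          (S.card : ℝ) ≤ ε * ((win E κ).card : ℝ) := by
  obtain ⟨c, k1, l1, hc, hk1, hl1, h1⟩ := Pool.Agent.V8H95.EF.final d hd N ε hε hε1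
  by_cases hd3 : d = 3
  · subst hd3
    obtain ⟨a', ha'⟩ : ∃ a' : ℝ, a' = min a 1 := ⟨_, rfl⟩
    have ha0 : 0 < a' := by rw [ha']; positivity
    have ha1 : a' ≤ 1 := by rw [ha']; exact min_le_right _ _
    have ha2 : a' ≤ a := by rw [ha']; exact min_le_left _ _
    obtain ⟨k2, l2, hk2, hl2, h2⟩ := final3 N a' ε c ha0 ha1 hε hε1 hc
    refine ⟨c, min k1 k2, min (min l1 l2) (min (1 / 3) (k1 ^ (2 / a'))), hc, by positivity,
      by positivity, ?_⟩
    intro μ _ hμ lam hlam hlam0 L _ hL1 hL2 κ hκ1 hκ2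
    have b1 : lam ≤ l1 := hlam0.trans ((min_le_left _ _).trans (min_le_left _ _))
    have b2 : lam ≤ l2 := hlam0.trans ((min_le_left _ _).trans (min_le_right _ _))
    have b3' : lam ≤ 1 / 3 := hlam0.trans ((min_le_right _ _).trans (min_le_left _ _))
    have b3 : lam ≤ 1 := by linarith
    have b4 : lam ≤ k1 ^ (2 / a') := hlam0.trans ((min_le_right _ _).trans (min_le_right _ _))
    have hk0 : 0 < min k1 k2 := by positivity
    have hrad : rad 3 a (min k1 k2) lam κ ≤ lam ^ (a' - 2) := by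
      unfold rad
      rw [if_pos rfl]
      exact Real.rpow_le_rpow_of_exponent_ge hlam b3 (by linarith)
    by_cases hκ : lam ^ (2 - a') ≤ κ
    · have hκ0 : 0 < κ := lt_of_lt_of_le (Real.rpow_pos_of_pos hlam _) hκ
      obtain ⟨G, hGm, hGP, hG⟩ := h2 μ hμ lam hlam b2 L hL1 hL2 κ hκ (hκ2.trans (min_le_right _ _))
      refine ⟨G, hGm, hGP, ?_⟩
      intro V hV b E hb
      obtain ⟨g1, g2⟩ := hG V hV b E hb
      refine ⟨le_trans ?_ g1, ?_⟩
      · have : min k1 k2 ≤ k2 := min_le_right _ _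
        gcongr
      · intro S hS hSε
        refine g2 S hS fun α hα => ?_
        obtain ⟨x0, hx0⟩ := hSε α hα
        exact ⟨x0, lt_of_lt_of_le hx0 (rs_mono _ _ _ _ hrad)⟩
    · push Not at hκ
      have hsc : 0 < scl 3 c (1 / lam) := by
        have h3 : 3 ≤ 1 / lam := by rw [le_div_iff₀ hlam]; linarith
        have := scl_ge 3 le_rfl c (1 / lam) hc h3
        have h4 : 0 < c * (1 / lam) := by positivity
        linarith
      have hκ0 : 0 < κ := lt_of_lt_of_le (by positivity) hκ1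
      obtain ⟨G, hGm, hGP, hG⟩ := h1 μ hμ lam hlam b1 L hL1 hL2 κ hκ1 (hκ2.trans (min_le_left _ _))
      refine ⟨G, hGm, hGP, ?_⟩
      intro V hV b E hb
      obtain ⟨g1, g2⟩ := hG V hV b E hb
      refine ⟨le_trans ?_ g1, ?_⟩
      · have : min k1 k2 ≤ k1 := min_le_left _ _
        gcongr
      · intro S hS hSε
        refine g2 S hS fun α hα => ?_
        obtain ⟨x0, hx0⟩ := hSε α hα
        refine ⟨x0, lt_of_lt_of_le hx0 (rs_mono _ _ _ _ (hrad.trans ?_))⟩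
        have e1 : lam ^ (a' - 2) = lam ^ (a' / 2) *
            ((lam ^ (2 - a')) ^ (1 - ((3 : ℕ) : ℝ) / 2) / lam) := by
          rw [← Real.rpow_mul hlam.le]
          nth_rewrite 4 [← Real.rpow_one lam]
          rw [← Real.rpow_sub hlam, ← Real.rpow_add hlam]
          congr 1
          push_cast
          ring
        have e2 : lam ^ (a' / 2) ≤ k1 := by
          have h3 : lam ^ (a' / 2) ≤ (k1 ^ (2 / a')) ^ (a' / 2) :=
            Real.rpow_le_rpow hlam.le b4 (by positivity)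
          rw [← Real.rpow_mul hk1.le] at h3
          have e3 : 2 / a' * (a' / 2) = 1 := by field_simp
          rwa [e3, Real.rpow_one] at h3
        have e4 : (lam ^ (2 - a')) ^ (1 - ((3 : ℕ) : ℝ) / 2) ≤ κ ^ (1 - ((3 : ℕ) : ℝ) / 2) := by
          apply Real.rpow_le_rpow_of_nonpos hκ0 hκ.le
          push_cast
          norm_num
        rw [e1, mul_div_assoc]
        have h0 : 0 < (lam ^ (2 - a')) ^ (1 - ((3 : ℕ) : ℝ) / 2) := by positivity
        gcongr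
  · refine ⟨c, k1, l1, hc, hk1, hl1, ?_⟩
    intro μ _ hμ lam hlam hlam0 L _ hL1 hL2 κ hκ1 hκ2
    have e : rad d a k1 lam κ = k1 * κ ^ (1 - (d : ℝ) / 2) / lam := by
      unfold rad
      rw [if_neg hd3]
    rw [e]
    exact h1 μ hμ lam hlam hlam0 L hL1 hL2 κ hκ1 hκ2

end Pool.Agent.V8H95.NM
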