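import Pool.Agent.V8H95.NM.PW

/-!
The quadratic form of the operator applied to the resolvent of a plane wave.
-/

set_option autoImplicit false
set_option linter.unusedSectionVars false

open Complex MeasureTheory
open scoped BigOperators ComplexConjugate

namespace Pool.Agent.V8H95.NM

open Pool.Agent.H4R2.AE Pool.Agent.V8H99.AD Pool.Agent.V8H95.MF Pool.Agent.V8H95.BW
open Pool.Agent.V8H95.EF

variable {d L : ℕ} [NeZero L] {lam c0 η m : ℝ} {V ψ : T d L → ℝ}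

/-- the sesquilinear form in terms of the ground state -/
theorem sesq (h : Gd lam c0 η m V ψ) (a b : XT d L) :
    (inner ℂ (Mu ψ a) (HC lam V (Mu ψ b) - ((c0 : ℝ) : ℂ) • Mu ψ b) : ℂ) =
      ∑ i : Fin d, ∑ x, ((ψ x * ψ (x + Pi.single i 1) : ℝ) : ℂ) *
        (conj (a x - a (x + Pi.single i 1)) * (b x - b (x + Pi.single i 1))) +
      ∑ x, ((gg lam c0 V ψ x : ℝ) : ℂ) * (conj ((Mu ψ a) x) * (Mu ψ b) x) := by
  have hp : ∀ y, 0 < ψ y := fun y => lt_of_lt_of_le one_pos (h.lo y)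
  have e : HC lam V (Mu ψ b) - ((c0 : ℝ) : ℂ) • Mu ψ b =
      Aop 1 0 (WW ψ) (Mu ψ b) + Mu (gg lam c0 V ψ) (Mu ψ b) := by
    ext x
    show (HC lam V (Mu ψ b)) x - ((c0 : ℝ) : ℂ) * (Mu ψ b) x =
      ((HC 1 (WW ψ) (Mu ψ b)) x - ((0 : ℝ) : ℂ) * (Mu ψ b) x) +
        ((gg lam c0 V ψ x : ℝ) : ℂ) * (Mu ψ b) x
    rw [HC_apply, HC_apply]
    unfold gg
    push_cast
    ring
  have hA : ∀ x, (Aop 1 0 (WW ψ) (Mu ψ b)) x = Wf ψ (fun y => b y) x := by
    intro x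
    have h1 := Aop_Mu (mass h) b x
    simp only [Real.exp_log (hp _)] at h1
    rw [h1]
    simp
  rw [e, inner_add_right, inner_eq, inner_eq]
  congr 1
  · have h2 : ∑ x, conj ((Mu ψ a) x) * (Aop 1 0 (WW ψ) (Mu ψ b)) x = ∑ x : T d L, ∑ i : Fin d,
        ((fun x y : T d L => ((ψ x * ψ y : ℝ) : ℂ) * (conj (a x) * (b x - b y))) x
          (x + Pi.single i 1) +
        (fun x y : T d L => ((ψ x * ψ y : ℝ) : ℂ) * (conj (a x) * (b x - b y))) x
          (x - Pi.single i 1)) := by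
      refine Finset.sum_congr rfl fun x _ => ?_
      rw [hA x]
      unfold Wf
      rw [Mu_apply, Finset.mul_sum]
      refine Finset.sum_congr rfl fun i _ => ?_
      simp only [map_mul, Complex.conj_ofReal]
      push_cast
      ring
    rw [h2, sum_nbr (fun x y : T d L => ((ψ x * ψ y : ℝ) : ℂ) * (conj (a x) * (b x - b y)))]
    refine Finset.sum_congr rfl fun i _ => Finset.sum_congr rfl fun x _ => ?_
    simp only [map_sub]
    push_cast
    ring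
  · refine Finset.sum_congr rfl fun x _ => ?_
    rw [Mu_apply (gg lam c0 V ψ)]
    ring

theorem sh_pw (k : T d L) (i : Fin d) : Sh i (pw k) = ch k (Pi.single i 1) • pw k := by
  ext x
  rw [Sh_apply, PiLp.smul_apply, pw_apply, pw_apply, ch_add, smul_eq_mul, mul_comm]

theorem pw_sh (k : T d L) (i : Fin d) (v : XT d L) :
    (inner ℂ (pw k) (Sh i v) : ℂ) = ch k (Pi.single i 1) * inner ℂ (pw k) v := by
  have h1 := Sh_inner i (pw k) v
  rw [sh_pw, inner_smul_left] at h1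
  have h2 := ch_conj k (Pi.single i 1)
  calc (inner ℂ (pw k) (Sh i v) : ℂ) = (conj (ch k (Pi.single i 1)) * ch k (Pi.single i 1)) *
        inner ℂ (pw k) (Sh i v) := by rw [h2, one_mul]
    _ = ch k (Pi.single i 1) * (conj (ch k (Pi.single i 1)) * inner ℂ (pw k) (Sh i v)) := by ring
    _ = _ := by rw [h1]

theorem pw_grad (k : T d L) (i : Fin d) (v : XT d L) :
    (inner ℂ (Sh i (pw k) - pw k) (Sh i v - v) : ℂ) = ((k1q k i : ℝ) : ℂ) * inner ℂ (pw k) v := by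
  have e : Sh i (pw k) - pw k = (ch k (Pi.single i 1) - 1) • pw k := by
    rw [sh_pw, sub_smul, one_smul]
  rw [e, inner_smul_left, inner_sub_right, pw_sh]
  unfold k1q
  rw [Complex.ofReal_pow, ← Complex.conj_mul']
  ring

theorem sum_grad (a b : XT d L) (i : Fin d) :
    ∑ x, conj (a x - a (x + Pi.single i 1)) * (b x - b (x + Pi.single i 1)) =
      inner ℂ (Sh i a - a) (Sh i b - b) := by
  rw [inner_eq]
  refine Finset.sum_congr rfl fun x _ => ?_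
  rw [PiLp.sub_apply, PiLp.sub_apply, Sh_apply, Sh_apply]
  simp only [map_sub]
  ring

theorem dir_pw (k : T d L) : Dir (fun y => (pw k) y) = kq k * (L : ℝ) ^ d := by
  rw [dir_Sh]
  unfold kq
  rw [Finset.sum_mul]
  refine Finset.sum_congr rfl fun i _ => ?_
  have e : Sh i (pw k) - pw k = (ch k (Pi.single i 1) - 1) • pw k := by
    rw [sh_pw, sub_smul, one_smul]
  rw [e, norm_smul, mul_pow, pw_norm]
  rfl

theorem psi_w (h : Gd lam c0 η m V ψ) (x y : T d L) : |ψ x * ψ y - 1| ≤ 3 * η := by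
  obtain ⟨h1, h2⟩ := psi_sq h x y
  rw [abs_of_nonneg (by linarith)]
  nlinarith [h.h0, h.h1]

/-- the form is close to the free one -/
theorem sesq_err (h : Gd lam c0 η m V ψ) (a b : XT d L) :
    ‖(inner ℂ (Mu ψ a) (HC lam V (Mu ψ b) - ((c0 : ℝ) : ℂ) • Mu ψ b) : ℂ) -
      ∑ i : Fin d, inner ℂ (Sh i a - a) (Sh i b - b)‖ ≤
      3 * η * (√(Dir (fun y => a y)) * √(Dir (fun y => b y))) +
        3 * m * (‖Mu ψ a‖ * ‖Mu ψ b‖) := by
  rw [sesq h]
  have e : (∑ i : Fin d, ∑ x, ((ψ x * ψ (x + Pi.single i 1) : ℝ) : ℂ) *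
        (conj (a x - a (x + Pi.single i 1)) * (b x - b (x + Pi.single i 1))) +
      ∑ x, ((gg lam c0 V ψ x : ℝ) : ℂ) * (conj ((Mu ψ a) x) * (Mu ψ b) x)) -
      ∑ i : Fin d, inner ℂ (Sh i a - a) (Sh i b - b) =
      ∑ i : Fin d, ∑ x, ((ψ x * ψ (x + Pi.single i 1) - 1 : ℝ) : ℂ) *
        (conj (a x - a (x + Pi.single i 1)) * (b x - b (x + Pi.single i 1))) +
      ∑ x, ((gg lam c0 V ψ x : ℝ) : ℂ) * (conj ((Mu ψ a) x) * (Mu ψ b) x) := by
    have h1 : ∑ i : Fin d, inner ℂ (Sh i a - a) (Sh i b - b) =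
        ∑ i : Fin d, ∑ x, conj (a x - a (x + Pi.single i 1)) * (b x - b (x + Pi.single i 1)) :=
      Finset.sum_congr rfl fun i _ => (sum_grad a b i).symm
    rw [h1, add_sub_right_comm, ← Finset.sum_sub_distrib]
    congr 1
    refine Finset.sum_congr rfl fun i _ => ?_
    rw [← Finset.sum_sub_distrib]
    refine Finset.sum_congr rfl fun x _ => ?_
    push_cast
    ring
  rw [e]
  refine (norm_add_le _ _).trans (add_le_add ?_ ?_)
  · have hη := h.h0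
    refine (norm_sum_le _ _).trans ?_
    calc ∑ i : Fin d, ‖∑ x, ((ψ x * ψ (x + Pi.single i 1) - 1 : ℝ) : ℂ) *
        (conj (a x - a (x + Pi.single i 1)) * (b x - b (x + Pi.single i 1)))‖
        ≤ ∑ i : Fin d, ∑ x, 3 * η * (‖a x - a (x + Pi.single i 1)‖ *
            ‖b x - b (x + Pi.single i 1)‖) := by
          refine Finset.sum_le_sum fun i _ => (norm_sum_le _ _).trans ?_
          refine Finset.sum_le_sum fun x _ => ?_
          rw [norm_mul, norm_mul, Complex.norm_real, RCLike.norm_conj, Real.norm_eq_abs]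
          exact mul_le_mul_of_nonneg_right (psi_w h _ _) (by positivity)
      _ = 3 * η * ∑ i : Fin d, ∑ x, ‖a x - a (x + Pi.single i 1)‖ *
            ‖b x - b (x + Pi.single i 1)‖ := by simp only [Finset.mul_sum]
      _ ≤ _ := by
          gcongr
          exact cs_dir (fun y => a y) (fun y => b y)
  · have hm := mpos h
    refine (norm_sum_le _ _).trans ?_
    calc ∑ x, ‖((gg lam c0 V ψ x : ℝ) : ℂ) * (conj ((Mu ψ a) x) * (Mu ψ b) x)‖
        ≤ ∑ x, 3 * m * (‖(Mu ψ a) x‖ * ‖(Mu ψ b) x‖) := by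
          refine Finset.sum_le_sum fun x _ => ?_
          rw [norm_mul, norm_mul, Complex.norm_real, RCLike.norm_conj, Real.norm_eq_abs]
          have h1 := gg_bd h x
          rw [abs_of_nonneg (by linarith)]
          exact mul_le_mul_of_nonneg_right h1.2 (by positivity)
      _ = 3 * m * ∑ x, ‖(Mu ψ a) x‖ * ‖(Mu ψ b) x‖ := by rw [Finset.mul_sum]
      _ ≤ _ := by
          gcongr
          have := cs_nsq (fun y => (Mu ψ a) y) (fun y => (Mu ψ b) y)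
          rwa [← norm_eq_nsq, ← norm_eq_nsq] at this

theorem und_close (h : Gd lam c0 η m V ψ) (f : XT d L) : ‖f - und ψ f‖ ≤ η * ‖f‖ := by
  have e : f - und ψ f = Mu (fun x => 1 - (ψ x)⁻¹) f := Mu_sub _ f
  rw [e]
  refine Mu_norm_le _ η h.h0 (fun x => ?_) f
  have hp : 0 < ψ x := lt_of_lt_of_le one_pos (h.lo x)
  have h1 : (ψ x)⁻¹ ≤ 1 := inv_le_one_of_one_le₀ (h.lo x)
  rw [abs_of_nonneg (by linarith)]
  have h2 := h.hi x
  have h3 : 1 - (ψ x)⁻¹ = (ψ x - 1) / ψ x := by field_simp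
  rw [h3, div_le_iff₀ hp]
  nlinarith [h.lo x, h.h0]

/-- the energy of the resolvent of a plane wave -/
theorem dir_res (h : Gd lam c0 η m V ψ) {z : ℂ} (hz : z.im ≠ 0) (k : T d L) :
    Dir (fun y => (und ψ (GT lam V z (pw k))) y) ≤
      (inner ℂ (GT lam V z (pw k)) (pw k) : ℂ).re + (z.re - c0) * ‖GT lam V z (pw k)‖ ^ 2 := by
  set f := GT lam V z (pw k) with hf
  have h1 := dir_le' h (und ψ f)
  rw [mu_und h] at h1
  refine h1.trans (le_of_eq ?_)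
  have h2 : HC lam V f = pw k + z • f := by
    have := rg_left (HC_sa lam V) hz (pw k)
    rw [sub_eq_iff_eq_add] at this
    exact this
  have h3 : HC lam V f - ((c0 : ℝ) : ℂ) • f = pw k + (z - ((c0 : ℝ) : ℂ)) • f := by
    rw [h2, sub_smul]
    abel
  rw [h3, inner_add_right, inner_smul_right, Complex.add_re, inner_self_eq_norm_sq_to_K]
  have e : ((z - ((c0 : ℝ) : ℂ)) * ((‖f‖ : ℝ) : ℂ) ^ 2).re = (z.re - c0) * ‖f‖ ^ 2 := by
    rw [← Complex.ofReal_pow, Complex.re_mul_ofReal]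
    simp
  erw [e]

theorem dir_sqrt (h : Gd lam c0 η m V ψ) {z : ℂ} (hz : z.im ≠ 0) (k : T d L) (e : ℝ)
    (he : 0 ≤ e) (hze : z.re = c0 + e) :
    √(Dir (fun y => (und ψ (GT lam V z (pw k))) y)) ≤
      √(‖pw k‖ * ‖GT lam V z (pw k)‖) + √e * ‖GT lam V z (pw k)‖ := by
  set f := GT lam V z (pw k) with hf
  have h1 := dir_res h hz k
  rw [← hf] at h1
  have h2 : (inner ℂ f (pw k) : ℂ).re ≤ ‖pw k‖ * ‖f‖ :=
    (Complex.re_le_norm _).trans ((norm_inner_le_norm _ _).trans (le_of_eq (mul_comm _ _)))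
  have h3 : z.re - c0 = e := by rw [hze]; ring
  rw [h3] at h1
  apply Real.sqrt_le_iff.2
  refine ⟨by positivity, h1.trans ?_⟩
  have h4 := Real.sq_sqrt (show 0 ≤ ‖pw k‖ * ‖f‖ by positivity)
  have h5 := Real.sq_sqrt he
  have h6 : 0 ≤ √(‖pw k‖ * ‖f‖) * (√e * ‖f‖) := by positivity
  nlinarith

/-- the equation tested with the plane wave -/
theorem test_pw (h : Gd lam c0 η m V ψ) {z : ℂ} (hz : z.im ≠ 0) (k : T d L) (e : ℝ)
    (he : 0 ≤ e) (hze : z.re = c0 + e) :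
    ‖(((kq k : ℝ) : ℂ) - (z - ((c0 : ℝ) : ℂ))) * inner ℂ (pw k) (GT lam V z (pw k)) -
      (L : ℂ) ^ d‖ ≤ 3 * η * (L : ℝ) ^ d +
      (5 * η * (kq k + ‖z - ((c0 : ℝ) : ℂ)‖) + 6 * m) * (‖pw k‖ * ‖GT lam V z (pw k)‖) := by
  set f := GT lam V z (pw k) with hf
  set v := und ψ f with hv
  set p := pw k with hp
  set w : ℂ := z - ((c0 : ℝ) : ℂ) with hw
  have hη := h.h0
  have hη1 := h.h1
  have hm := mpos h
  have hk := kq_nonneg k
  have hMv : Mu ψ v = f := mu_und h f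
  have hwe : e ≤ ‖w‖ := by
    have h1 : w.re = e := by rw [hw, Complex.sub_re, Complex.ofReal_re, hze]; ring
    rw [← h1]
    exact Complex.re_le_norm w
  have hNp : ‖p‖ ^ 2 = (L : ℝ) ^ d := pw_norm k
  have h1 := sesq_err h p v
  rw [hMv] at h1
  have h2 : ∑ i : Fin d, (inner ℂ (Sh i p - p) (Sh i v - v) : ℂ) =
      ((kq k : ℝ) : ℂ) * inner ℂ p v := by
    rw [Finset.sum_congr rfl fun i _ => pw_grad k i v, ← Finset.sum_mul]
    unfold kq
    push_cast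
    rfl
  rw [h2] at h1
  have hH : HC lam V f = p + z • f := by
    have := rg_left (HC_sa lam V) hz p
    rw [sub_eq_iff_eq_add] at this
    exact this
  have h3 : HC lam V f - ((c0 : ℝ) : ℂ) • f = p + w • f := by
    rw [hH, hw, sub_smul]
    abel
  rw [h3, inner_add_right, inner_smul_right] at h1
  -- the pieces
  have e1 : ‖(inner ℂ p (f - v) : ℂ)‖ ≤ η * (‖p‖ * ‖f‖) := by
    refine (norm_inner_le_norm _ _).trans ?_
    have := und_close h f
    calc ‖p‖ * ‖f - v‖ ≤ ‖p‖ * (η * ‖f‖) := by gcongr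
      _ = _ := by ring
  have e2 : ‖(inner ℂ (p - Mu ψ p) f : ℂ)‖ ≤ η * (‖p‖ * ‖f‖) := by
    refine (norm_inner_le_norm _ _).trans ?_
    have := mu_close h p
    calc ‖p - Mu ψ p‖ * ‖f‖ ≤ (η * ‖p‖) * ‖f‖ := by gcongr
      _ = _ := by ring
  have e3 : ‖(inner ℂ (p - Mu ψ p) p : ℂ)‖ ≤ η * (L : ℝ) ^ d := by
    refine (norm_inner_le_norm _ _).trans ?_
    have := mu_close h p
    calc ‖p - Mu ψ p‖ * ‖p‖ ≤ (η * ‖p‖) * ‖p‖ := by gcongr
      _ = η * ‖p‖ ^ 2 := by ring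
      _ = _ := by rw [hNp]
  have e4 : ‖Mu ψ p‖ ≤ 2 * ‖p‖ := (mu_norm h p).trans (by gcongr; linarith)
  have hpp : (inner ℂ p p : ℂ) = (L : ℂ) ^ d := pw_inner k
  -- the square roots
  have e5 : √(Dir (fun y => p y)) * √(Dir (fun y => v y)) ≤
      1 / 2 * (L : ℝ) ^ d + (kq k + ‖w‖ / 2) * (‖p‖ * ‖f‖) := by
    rw [hp, dir_pw, ← hp]
    have h5 := dir_sqrt h hz k e he hze
    rw [← hf, ← hp, ← hv] at h5
    have h6 : √(kq k * (L : ℝ) ^ d) = √(kq k) * ‖p‖ := by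
      rw [Real.sqrt_mul hk, ← hNp, Real.sqrt_sq (norm_nonneg _)]
    rw [h6]
    have h7 := Real.sq_sqrt hk
    have h8 := Real.sq_sqrt he
    have h9 := Real.sq_sqrt (show 0 ≤ ‖p‖ * ‖f‖ by positivity)
    have h10 : √(kq k) * ‖p‖ * √(‖p‖ * ‖f‖) ≤ 1 / 2 * (L : ℝ) ^ d + 1 / 2 * kq k * (‖p‖ * ‖f‖) := by
      have : 0 ≤ (‖p‖ - √(kq k) * √(‖p‖ * ‖f‖)) ^ 2 := sq_nonneg _
      rw [← hNp]
      have e9 : (√(kq k) * √(‖p‖ * ‖f‖)) ^ 2 = kq k * (‖p‖ * ‖f‖) := by rw [mul_pow, h7, h9]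
      nlinarith
    have h11 : √(kq k) * √e ≤ 1 / 2 * kq k + 1 / 2 * e := by
      nlinarith [sq_nonneg (√(kq k) - √e)]
    have h12 : 0 ≤ ‖p‖ * ‖f‖ := by positivity
    calc √(kq k) * ‖p‖ * √(Dir (fun y => v y))
        ≤ √(kq k) * ‖p‖ * (√(‖p‖ * ‖f‖) + √e * ‖f‖) := by gcongr
      _ = √(kq k) * ‖p‖ * √(‖p‖ * ‖f‖) + (√(kq k) * √e) * (‖p‖ * ‖f‖) := by ring
      _ ≤ (1 / 2 * (L : ℝ) ^ d + 1 / 2 * kq k * (‖p‖ * ‖f‖)) +
          (1 / 2 * kq k + 1 / 2 * e) * (‖p‖ * ‖f‖) := by gcongr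
      _ ≤ (1 / 2 * (L : ℝ) ^ d + 1 / 2 * kq k * (‖p‖ * ‖f‖)) +
          (1 / 2 * kq k + 1 / 2 * ‖w‖) * (‖p‖ * ‖f‖) := by gcongr
      _ = _ := by ring
  -- assembling
  have key : (((kq k : ℝ) : ℂ) - w) * inner ℂ p f - (L : ℂ) ^ d =
      -(inner ℂ (Mu ψ p) p + w * inner ℂ (Mu ψ p) f - ((kq k : ℝ) : ℂ) * inner ℂ p v) +
      ((kq k : ℝ) : ℂ) * inner ℂ p (f - v) - w * inner ℂ (p - Mu ψ p) f -
      inner ℂ (p - Mu ψ p) p := by
    rw [inner_sub_right, inner_sub_left, inner_sub_left, hpp]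
    ring
  rw [key]
  have hn1 : ‖((kq k : ℝ) : ℂ)‖ = kq k := by
    rw [Complex.norm_real, Real.norm_eq_abs, abs_of_nonneg hk]
  have hLd := L_pos' (d := d) (L := L)
  have hpf : 0 ≤ ‖p‖ * ‖f‖ := by positivity
  calc _ ≤ ‖(inner ℂ (Mu ψ p) p + w * inner ℂ (Mu ψ p) f - ((kq k : ℝ) : ℂ) * inner ℂ p v : ℂ)‖ +
        ‖((kq k : ℝ) : ℂ) * inner ℂ p (f - v)‖ + ‖w * inner ℂ (p - Mu ψ p) f‖ +
        ‖(inner ℂ (p - Mu ψ p) p : ℂ)‖ := by
        refine (norm_sub_le _ _).trans ?_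
        gcongr
        refine (norm_sub_le _ _).trans ?_
        gcongr
        refine (norm_add_le _ _).trans ?_
        rw [norm_neg]
    _ ≤ (3 * η * (1 / 2 * (L : ℝ) ^ d + (kq k + ‖w‖ / 2) * (‖p‖ * ‖f‖)) +
          3 * m * ((2 * ‖p‖) * ‖f‖)) + kq k * (η * (‖p‖ * ‖f‖)) + ‖w‖ * (η * (‖p‖ * ‖f‖)) +
        η * (L : ℝ) ^ d := by
        gcongr
        · refine h1.trans ?_
          gcongr
        · rw [norm_mul, hn1]
          gcongr
        · rw [norm_mul]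
          gcongr
    _ ≤ _ := by
        have a1 : 0 ≤ η * (L : ℝ) ^ d := by positivity
        have a2 : 0 ≤ η * kq k * (‖p‖ * ‖f‖) := by positivity
        have a3 : 0 ≤ η * ‖w‖ * (‖p‖ * ‖f‖) := by positivity
        nlinarith

end Pool.Agent.V8H95.NM
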