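import Pool.Agent.V8H95.NM.Loc

/-!
The averaged resolvent on plane waves.
-/

set_option autoImplicit false
set_option linter.unusedSectionVars false
set_option linter.unusedVariables false

open Complex MeasureTheory
open scoped BigOperators ComplexConjugate

namespace Pool.Agent.V8H95.NM

open Pool.Agent.H4R2.AE Pool.Agent.V8H99.AD Pool.Agent.V8H95.MF Pool.Agent.V8H95.BW
open Pool.Agent.V8H95.EF

variable {d L : ℕ} [NeZero L]

/-- the assumptions at one energy -/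
structure Cx (μ : Measure ℝ) (lam c0 θ mg : ℝ) (G : Set (T d L → ℝ)) (z : ℂ) (e y σ : ℝ) :
    Prop where
  lam0 : 0 ≤ lam
  meas : MeasurableSet G
  good : ∀ V ∈ G, ∃ ψ : T d L → ℝ, Gd lam c0 θ mg V ψ
  th0 : 0 < θ
  th1 : θ ≤ 1 / 100
  e0 : 0 < e
  e1 : e ≤ 1
  re : z.re = c0 + e
  y0 : 0 < y
  y1 : y ≤ e
  im : |z.im| = y
  s0 : 0 ≤ σ
  s1 : σ ≤ 1 / 2
  hs : ∀ k : T d L, sk μ lam z k ≤ σ * Dk μ lam z k
  m0 : 0 ≤ mg
  hm : mg ≤ θ * e
  pos : ∀ k : T d L, 0 < Dk μ lam z k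
  pG : (Measure.pi fun _ : T d L => μ).real Gᶜ * (100 * (d + 1)) ≤ θ * y ^ 2 * e

theorem k1q_four (k : T d L) (i : Fin d) : k1q k i ≤ 4 := by
  unfold k1q
  have h1 : ‖ch k (Pi.single i 1) - 1‖ ≤ 2 := by
    refine (norm_sub_le _ _).trans ?_
    rw [ch_norm, norm_one]
    norm_num
  nlinarith [norm_nonneg (ch k (Pi.single i 1) - 1)]

theorem kq_four (k : T d L) : kq k ≤ 4 * d := by
  unfold kq
  calc ∑ i, k1q k i ≤ ∑ _i : Fin d, (4 : ℝ) := Finset.sum_le_sum fun i _ => k1q_four k i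
    _ = 4 * d := by
      rw [Finset.sum_const, Finset.card_univ, Fintype.card_fin, nsmul_eq_mul]
      ring

section
variable {μ : Measure ℝ} [IsProbabilityMeasure μ] {lam c0 θ mg : ℝ} {G : Set (T d L → ℝ)} {z : ℂ}
  {e y σ : ℝ}

theorem Cx.ne (h : Cx μ lam c0 θ mg G z e y σ) : z.im ≠ 0 := by
  intro h0
  have h1 := h.im
  rw [h0, abs_zero] at h1
  have := h.y0
  linarith

theorem Cx.conj (h : Cx μ lam c0 θ mg G z e y σ) : Cx μ lam c0 θ mg G (conj z) e y σ :=
  { h with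
    re := by rw [Complex.conj_re]; exact h.re
    im := by rw [Complex.conj_im, abs_neg]; exact h.im
    hs := fun k => by rw [sk_conj μ lam h.ne, Dk_conj μ lam h.ne]; exact h.hs k
    pos := fun k => by rw [Dk_conj μ lam h.ne]; exact h.pos k }

theorem Cx.w (h : Cx μ lam c0 θ mg G z e y σ) : ‖z - ((c0 : ℝ) : ℂ)‖ ≤ 2 * e := by
  have h1 := Complex.norm_le_abs_re_add_abs_im (z - ((c0 : ℝ) : ℂ))
  have h2 : (z - ((c0 : ℝ) : ℂ)).re = e := by
    rw [Complex.sub_re, Complex.ofReal_re, h.re]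
    ring
  have h3 : (z - ((c0 : ℝ) : ℂ)).im = z.im := by
    rw [Complex.sub_im, Complex.ofReal_im, sub_zero]
  rw [h2, h3, h.im, abs_of_pos h.e0] at h1
  linarith [h.y1]

theorem Cx.pG0 (h : Cx μ lam c0 θ mg G z e y σ) :
    (Measure.pi fun _ : T d L => μ).real Gᶜ * (4 * d + 3) / y ≤ θ * y * e := by
  have h1 := h.pG
  have hy := h.y0
  have hp : 0 ≤ (Measure.pi fun _ : T d L => μ).real Gᶜ := measureReal_nonneg
  have hd : (0 : ℝ) ≤ d := Nat.cast_nonneg d
  rw [div_le_iff₀ hy]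
  calc (Measure.pi fun _ : T d L => μ).real Gᶜ * (4 * d + 3) ≤
      (Measure.pi fun _ : T d L => μ).real Gᶜ * (100 * (d + 1)) := by
        gcongr
        nlinarith
    _ ≤ θ * y ^ 2 * e := h1
    _ = θ * y * e * y := by ring

theorem norm_int (h : Cx μ lam c0 θ mg G z e y σ) (k : T d L) :
    ‖pw k‖ * ∫ V, ‖GT lam V z (pw k)‖ ∂(Measure.pi fun _ : T d L => μ) ≤
      (L : ℝ) ^ d * √(Dk μ lam z k) := by
  set P : Measure (T d L → ℝ) := Measure.pi fun _ : T d L => μ with hP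
  have h1 := sq_int_le P (fun V => ‖GT lam V z (pw k)‖) (GTf_cont lam h.ne (pw k)).measurable.norm
    (‖pw k‖ / |z.im|) (fun V => by rw [abs_norm]; exact GT_norm' lam h.ne V (pw k))
  rw [D_eq μ lam h.ne] at h1
  have h2 : ∫ V, ‖GT lam V z (pw k)‖ ∂P ≤ √((L : ℝ) ^ d * Dk μ lam z k) := Real.le_sqrt_of_sq_le h1
  have h3 : ‖pw k‖ = √((L : ℝ) ^ d) := by
    rw [← pw_norm k, Real.sqrt_sq (norm_nonneg _)]
  have h4 := L_pos' (d := d) (L := L)
  calc ‖pw k‖ * ∫ V, ‖GT lam V z (pw k)‖ ∂P ≤ √((L : ℝ) ^ d) * √((L : ℝ) ^ d * Dk μ lam z k) := by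
        rw [h3]
        gcongr
    _ = (L : ℝ) ^ d * √(Dk μ lam z k) := by
        rw [Real.sqrt_mul h4.le, ← mul_assoc, Real.mul_self_sqrt h4.le]

theorem mean_test (h : Cx μ lam c0 θ mg G z e y σ) (k : T d L) :
    ‖(((kq k : ℝ) : ℂ) - (z - ((c0 : ℝ) : ℂ))) * mk μ lam z k - 1‖ ≤
      4 * θ + (5 * θ * (kq k + 2 * e) + 6 * mg) * √(Dk μ lam z k) := by
  set P : Measure (T d L → ℝ) := Measure.pi fun _ : T d L => μ with hP
  set w : ℂ := z - ((c0 : ℝ) : ℂ) with hw
  have hwn : ‖w‖ ≤ 2 * e := h.w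
  have hk := kq_nonneg k
  have hk4 := kq_four k
  have hL := L_pos' (d := d) (L := L)
  have hy := h.y0
  have hθ := h.th0
  set p := P.real Gᶜ with hp
  have hp0 : 0 ≤ p := measureReal_nonneg
  set B : ℝ := 5 * θ * (kq k + 2 * e) + 6 * mg with hB
  have hB0 : 0 ≤ B := by
    have := h.e0
    have := h.m0
    positivity
  set Kc : ℝ := (L : ℝ) ^ d * ((4 * d + 3) / y) with hKc
  have hKc0 : 0 ≤ Kc := by positivity
  have hne := h.ne
  have hi1 : Integrable (fun V : T d L → ℝ =>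
      (((kq k : ℝ) : ℂ) - w) * inner ℂ (pw k) (GT lam V z (pw k))) P :=
    (inner_int μ lam hne (pw k) (pw k)).const_mul _
  have hI : ∫ V, ((((kq k : ℝ) : ℂ) - w) * inner ℂ (pw k) (GT lam V z (pw k)) - (L : ℂ) ^ d) ∂P =
      (L : ℂ) ^ d * ((((kq k : ℝ) : ℂ) - w) * mk μ lam z k - 1) := by
    rw [integral_sub hi1 (integrable_const _), integral_const_mul, inner_mean μ lam hne]
    simp
    ring
  have hpt : ∀ V : T d L → ℝ,
      ‖(((kq k : ℝ) : ℂ) - w) * inner ℂ (pw k) (GT lam V z (pw k)) - (L : ℂ) ^ d‖ ≤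
      (3 * θ * (L : ℝ) ^ d + B * (‖pw k‖ * ‖GT lam V z (pw k)‖)) + Gᶜ.indicator (fun _ => Kc) V := by
    intro V
    by_cases hV : V ∈ G
    · rw [Set.indicator_of_notMem (by simpa using hV), add_zero]
      obtain ⟨ψ, hψ⟩ := h.good V hV
      refine (test_pw hψ hne k e h.e0.le h.re).trans ?_
      rw [← hw]
      have hBw : 5 * θ * (kq k + ‖w‖) + 6 * mg ≤ B := by rw [hB]; gcongr
      gcongr
    · rw [Set.indicator_of_mem (show V ∈ Gᶜ from hV)]
      have h1 : ‖(inner ℂ (pw k) (GT lam V z (pw k)) : ℂ)‖ ≤ (L : ℝ) ^ d / y := by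
        refine (norm_inner_le_norm _ _).trans ?_
        have h2 := GT_norm' lam hne V (pw k)
        rw [h.im] at h2
        calc ‖pw k‖ * ‖GT lam V z (pw k)‖ ≤ ‖pw k‖ * (‖pw k‖ / y) := by gcongr
          _ = ‖pw k‖ ^ 2 / y := by ring
          _ = _ := by rw [pw_norm]
      have h2 : ‖(((kq k : ℝ) : ℂ) - w)‖ ≤ 4 * d + 2 := by
        refine (norm_sub_le _ _).trans ?_
        rw [Complex.norm_real, Real.norm_eq_abs, abs_of_nonneg hk]
        have := h.e1
        linarith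
      have h3 : ‖(L : ℂ) ^ d‖ = (L : ℝ) ^ d := by
        rw [norm_pow, Complex.norm_natCast]
      have h4 : (L : ℝ) ^ d ≤ (L : ℝ) ^ d / y := by
        rw [le_div_iff₀ hy]
        have : y ≤ 1 := h.y1.trans h.e1
        nlinarith
      have h5 : 0 ≤ 3 * θ * (L : ℝ) ^ d + B * (‖pw k‖ * ‖GT lam V z (pw k)‖) := by positivity
      calc _ ≤ ‖(((kq k : ℝ) : ℂ) - w)‖ * ‖(inner ℂ (pw k) (GT lam V z (pw k)) : ℂ)‖ +
            ‖(L : ℂ) ^ d‖ := by
            refine (norm_sub_le _ _).trans ?_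
            rw [norm_mul]
        _ ≤ (4 * d + 2) * ((L : ℝ) ^ d / y) + (L : ℝ) ^ d / y := by
            rw [h3]
            gcongr
        _ = Kc := by rw [hKc]; ring
        _ ≤ _ := by linarith
  have i1 : Integrable (fun V : T d L → ℝ => ‖GT lam V z (pw k)‖) P := (GTi μ lam hne (pw k)).norm
  have i2 : Integrable (fun V : T d L → ℝ => B * (‖pw k‖ * ‖GT lam V z (pw k)‖)) P :=
    (i1.const_mul _).const_mul _
  have i3 : Integrable (fun V : T d L → ℝ => 3 * θ * (L : ℝ) ^ d +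
      B * (‖pw k‖ * ‖GT lam V z (pw k)‖)) P := (integrable_const _).add i2
  have i4 : Integrable (Gᶜ.indicator fun _ : T d L → ℝ => Kc) P :=
    (integrable_const _).indicator h.meas.compl
  have h1 := norm_integral_le_of_norm_le (i3.add i4) (Filter.Eventually.of_forall hpt)
  rw [hI] at h1
  have h2 : ∫ V, ((3 * θ * (L : ℝ) ^ d + B * (‖pw k‖ * ‖GT lam V z (pw k)‖)) +
      Gᶜ.indicator (fun _ => Kc) V) ∂P = (3 * θ * (L : ℝ) ^ d +
      B * (‖pw k‖ * ∫ V, ‖GT lam V z (pw k)‖ ∂P)) + Kc * p := by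
    have e1 : ∫ V, (3 * θ * (L : ℝ) ^ d + B * (‖pw k‖ * ‖GT lam V z (pw k)‖)) ∂P =
        3 * θ * (L : ℝ) ^ d + B * (‖pw k‖ * ∫ V, ‖GT lam V z (pw k)‖ ∂P) := by
      rw [integral_add (integrable_const _) i2, integral_const_mul, integral_const_mul]
      simp
      left
      exact integral_const_mul _ _
    rw [integral_add i3 i4, e1, integral_indicator h.meas.compl, setIntegral_const, smul_eq_mul,
      ← hp]
    ring
  have h3 : ‖(L : ℂ) ^ d * ((((kq k : ℝ) : ℂ) - w) * mk μ lam z k - 1)‖ ≤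
      (3 * θ * (L : ℝ) ^ d + B * ((L : ℝ) ^ d * √(Dk μ lam z k))) + Kc * p := by
    refine h1.trans (le_trans (le_of_eq h2) ?_)
    have := norm_int h k
    gcongr
  rw [norm_mul, norm_pow, Complex.norm_natCast] at h3
  have h4 : Kc * p ≤ (L : ℝ) ^ d * θ := by
    have h5 := h.pG0
    rw [← hP, ← hp] at h5
    have h6 : θ * y * e ≤ θ := by
      have h7 : y * e ≤ 1 := by
        have := h.y1
        have := h.e1
        have := h.e0
        nlinarith
      calc θ * y * e = θ * (y * e) := by ring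
        _ ≤ θ * 1 := by gcongr
        _ = θ := mul_one _
    calc Kc * p = (L : ℝ) ^ d * (p * (4 * d + 3) / y) := by rw [hKc]; ring
      _ ≤ (L : ℝ) ^ d * θ := by gcongr; exact h5.trans h6
  have h5 : (L : ℝ) ^ d * ‖(((kq k : ℝ) : ℂ) - w) * mk μ lam z k - 1‖ ≤
      (L : ℝ) ^ d * (4 * θ + B * √(Dk μ lam z k)) := by
    refine h3.trans ?_
    calc _ ≤ (3 * θ * (L : ℝ) ^ d + B * ((L : ℝ) ^ d * √(Dk μ lam z k))) + (L : ℝ) ^ d * θ := by
          gcongr
      _ = _ := by ring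
  exact le_of_mul_le_mul_left h5 hL

variable (μ) in
/-- minus the inverse of the averaged resolvent -/
noncomputable def Fk (lam : ℝ) (z : ℂ) (k : T d L) : ℂ := -(mk μ lam z k)⁻¹

theorem D_two (h : Cx μ lam c0 θ mg G z e y σ) (k : T d L) :
    Dk μ lam z k ≤ 2 * ‖mk μ lam z k‖ ^ 2 := by
  have h1 := h.hs k
  have h2 : sk μ lam z k = Dk μ lam z k - ‖mk μ lam z k‖ ^ 2 := rfl
  have h3 : σ * Dk μ lam z k ≤ 1 / 2 * Dk μ lam z k := by
    have := h.s1
    have := (h.pos k).le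
    gcongr
  linarith

theorem m_pos (h : Cx μ lam c0 θ mg G z e y σ) (k : T d L) : 0 < ‖mk μ lam z k‖ := by
  have h1 := D_two h k
  have h2 := h.pos k
  by_contra h3
  have h4 : ‖mk μ lam z k‖ = 0 := le_antisymm (not_lt.1 h3) (norm_nonneg _)
  rw [h4] at h1
  norm_num at h1
  linarith

theorem m_ne (h : Cx μ lam c0 θ mg G z e y σ) (k : T d L) : mk μ lam z k ≠ 0 :=
  norm_pos_iff.1 (m_pos h k)

theorem F_norm (k : T d L) : ‖Fk μ lam z k‖ = 1 / ‖mk μ lam z k‖ := by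
  unfold Fk
  rw [norm_neg, norm_inv, one_div]

theorem F_close (h : Cx μ lam c0 θ mg G z e y σ) (k : T d L) :
    ‖Fk μ lam z k - ((z - ((c0 : ℝ) : ℂ)) - ((kq k : ℝ) : ℂ))‖ ≤ 40 * θ * (kq k + e) := by
  have h1 := mean_test h k
  set w : ℂ := z - ((c0 : ℝ) : ℂ) with hw
  set M := mk μ lam z k with hM
  have hM0 : M ≠ 0 := m_ne h k
  have hMp : 0 < ‖M‖ := m_pos h k
  have hk := kq_nonneg k
  have hθ := h.th0
  have hθ1 := h.th1
  have he := h.e0
  have hm := h.hm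
  have hm0 := h.m0
  have hwn : ‖w‖ ≤ 2 * e := h.w
  have e1 : Fk μ lam z k - (w - ((kq k : ℝ) : ℂ)) = ((((kq k : ℝ) : ℂ) - w) * M - 1) / M := by
    unfold Fk
    rw [← hM]
    field_simp
    ring
  have h2 : √(Dk μ lam z k) ≤ 3 / 2 * ‖M‖ := by
    apply Real.sqrt_le_iff.2
    refine ⟨by positivity, ?_⟩
    have := D_two h k
    rw [← hM] at this
    nlinarith [sq_nonneg ‖M‖]
  set Xn := ‖Fk μ lam z k - (w - ((kq k : ℝ) : ℂ))‖ with hX
  have h3 : Xn * ‖M‖ = ‖(((kq k : ℝ) : ℂ) - w) * M - 1‖ := by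
    rw [hX, e1, norm_div, div_mul_cancel₀ _ hMp.ne']
  have h4 : 1 ≤ (Xn + ‖w‖ + kq k) * ‖M‖ := by
    have h5 : ‖Fk μ lam z k‖ ≤ Xn + ‖w‖ + kq k := by
      have e2 : Fk μ lam z k = (Fk μ lam z k - (w - ((kq k : ℝ) : ℂ))) + w - ((kq k : ℝ) : ℂ) := by
        ring
      rw [e2]
      refine (norm_sub_le _ _).trans ?_
      rw [Complex.norm_real, Real.norm_eq_abs, abs_of_nonneg hk]
      gcongr
      exact norm_add_le _ _
    rw [F_norm, ← hM, div_le_iff₀ hMp] at h5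
    exact h5
  have h6 : Xn * ‖M‖ ≤ (4 * θ * (Xn + 2 * e + kq k) +
      (5 * θ * (kq k + 2 * e) + 6 * mg) * (3 / 2)) * ‖M‖ := by
    rw [h3]
    refine h1.trans ?_
    have h7 : (5 * θ * (kq k + 2 * e) + 6 * mg) * √(Dk μ lam z k) ≤
        (5 * θ * (kq k + 2 * e) + 6 * mg) * (3 / 2 * ‖M‖) := by gcongr
    have h8 : 4 * θ ≤ 4 * θ * ((Xn + 2 * e + kq k) * ‖M‖) := by
      have h9 : 1 ≤ (Xn + 2 * e + kq k) * ‖M‖ := by
        refine h4.trans ?_
        gcongr
      nlinarith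
    calc 4 * θ + (5 * θ * (kq k + 2 * e) + 6 * mg) * √(Dk μ lam z k) ≤
        4 * θ * ((Xn + 2 * e + kq k) * ‖M‖) +
          (5 * θ * (kq k + 2 * e) + 6 * mg) * (3 / 2 * ‖M‖) := add_le_add h8 h7
      _ = _ := by ring
  have h7 := le_of_mul_le_mul_right h6 hMp
  have h8 : 4 * θ * Xn ≤ 4 / 100 * Xn := by
    have : 0 ≤ Xn := norm_nonneg _
    nlinarith
  have h9 : 0 ≤ θ * kq k := by positivity
  have h10 : 0 ≤ θ * e := by positivity
  nlinarith

theorem F_lower (h : Cx μ lam c0 θ mg G z e y σ) (k : T d L) : y ≤ ‖Fk μ lam z k‖ := by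
  have hne := h.ne
  have hMp := m_pos h k
  have h1 : |(Fk μ lam z k).im| = y * Dk μ lam z k / ‖mk μ lam z k‖ ^ 2 := by
    unfold Fk
    rw [Complex.neg_im, Complex.inv_im, im_mk μ lam hne, Complex.normSq_eq_norm_sq, abs_neg,
      abs_div, abs_neg, abs_mul, h.im, abs_of_pos (h.pos k), abs_of_pos (by positivity :
        (0 : ℝ) < ‖mk μ lam z k‖ ^ 2)]
  refine le_trans ?_ (Complex.abs_im_le_norm _)
  rw [h1, le_div_iff₀ (by positivity)]
  have h2 := mk_norm_sq μ lam hne k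
  have := h.y0
  gcongr

theorem m_up (h : Cx μ lam c0 θ mg G z e y σ) (k : T d L) :
    |(mk μ lam z k).im| ≤ 2 * y / ‖Fk μ lam z k‖ ^ 2 := by
  have hMp := m_pos h k
  rw [im_mk μ lam h.ne, abs_mul, h.im, abs_of_pos (h.pos k), F_norm, one_div, inv_pow,
    div_inv_eq_mul]
  have h2 := D_two h k
  have := h.y0
  nlinarith

theorem F_up (h : Cx μ lam c0 θ mg G z e y σ) (k : T d L) : ‖Fk μ lam z k‖ ≤ 2 * kq k + 3 * e := by
  have h1 := F_close h k
  have hk := kq_nonneg k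
  have he := h.e0
  have hθ1 := h.th1
  have hθ := h.th0
  have e2 : Fk μ lam z k = (Fk μ lam z k - ((z - ((c0 : ℝ) : ℂ)) - ((kq k : ℝ) : ℂ))) +
      (z - ((c0 : ℝ) : ℂ)) - ((kq k : ℝ) : ℂ) := by
    ring
  rw [e2]
  refine (norm_sub_le _ _).trans ?_
  rw [Complex.norm_real, Real.norm_eq_abs, abs_of_nonneg hk]
  have h2 := norm_add_le (Fk μ lam z k - ((z - ((c0 : ℝ) : ℂ)) - ((kq k : ℝ) : ℂ)))
    (z - ((c0 : ℝ) : ℂ))
  have h3 := h.w
  have h4 : 40 * θ * (kq k + e) ≤ 40 / 100 * (kq k + e) := by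
    gcongr
    linarith
  linarith

variable (lam) in
/-- the energy density -/
noncomputable def gD (z : ℂ) (e : ℝ) (k : T d L) (V : T d L → ℝ) : ℝ :=
  (inner ℂ (GT lam V z (pw k)) (pw k) : ℂ).re + e * ‖GT lam V z (pw k)‖ ^ 2

theorem gD_dir (h : Cx μ lam c0 θ mg G z e y σ) (k : T d L) {V ψ : T d L → ℝ}
    (hψ : Gd lam c0 θ mg V ψ) :
    Dir (fun y => (und ψ (GT lam V z (pw k))) y) ≤ gD lam z e k V := by
  have h1 := dir_res hψ h.ne k
  have h2 : z.re - c0 = e := by rw [h.re]; ring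
  rw [h2] at h1
  exact h1

theorem gD_int (h : Cx μ lam c0 θ mg G z e y σ) (k : T d L) :
    Integrable (gD lam z e k) (Measure.pi fun _ : T d L => μ) := by
  have h1 : Integrable (fun V : T d L → ℝ => (inner ℂ (GT lam V z (pw k)) (pw k) : ℂ).re)
      (Measure.pi fun _ : T d L => μ) := by
    have h2 := ((inner_int μ lam h.ne (pw k) (pw k)).re)
    refine h2.congr (Filter.Eventually.of_forall fun V => ?_)
    show (inner ℂ (pw k) (GT lam V z (pw k)) : ℂ).re = (inner ℂ (GT lam V z (pw k)) (pw k) : ℂ).re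
    rw [← inner_conj_symm, Complex.conj_re]
  exact h1.add ((GT2i μ lam h.ne (pw k)).const_mul e)

theorem gD_mean (h : Cx μ lam c0 θ mg G z e y σ) (k : T d L) :
    ∫ V, G.indicator (gD lam z e k) V ∂(Measure.pi fun _ : T d L => μ) ≤
      (L : ℝ) ^ d * Dk μ lam z k * (2 * ‖Fk μ lam z k‖ + e) := by
  set P : Measure (T d L → ℝ) := Measure.pi fun _ : T d L => μ with hP
  have hne := h.ne
  have hL := L_pos' (d := d) (L := L)
  have hy := h.y0
  have he := h.e0
  set p := P.real Gᶜ with hp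
  have hp0 : 0 ≤ p := measureReal_nonneg
  have i1 : Integrable (fun V : T d L → ℝ => (inner ℂ (GT lam V z (pw k)) (pw k) : ℂ).re) P := by
    have h2 := ((inner_int μ lam h.ne (pw k) (pw k)).re)
    refine h2.congr (Filter.Eventually.of_forall fun V => ?_)
    show (inner ℂ (pw k) (GT lam V z (pw k)) : ℂ).re = (inner ℂ (GT lam V z (pw k)) (pw k) : ℂ).re
    rw [← inner_conj_symm, Complex.conj_re]
  have i2 := (GT2i μ lam hne (pw k)).const_mul e
  have i3 : Integrable (Gᶜ.indicator fun _ : T d L → ℝ => (L : ℝ) ^ d / y) P :=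
    (integrable_const _).indicator h.meas.compl
  have hpt : ∀ V : T d L → ℝ, G.indicator (gD lam z e k) V ≤
      ((inner ℂ (GT lam V z (pw k)) (pw k) : ℂ).re + e * ‖GT lam V z (pw k)‖ ^ 2) +
        Gᶜ.indicator (fun _ => (L : ℝ) ^ d / y) V := by
    intro V
    by_cases hV : V ∈ G
    · rw [Set.indicator_of_mem hV, Set.indicator_of_notMem (by simpa using hV), add_zero]
      exact le_refl _
    · rw [Set.indicator_of_notMem hV, Set.indicator_of_mem (show V ∈ Gᶜ from hV)]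
      have h1 : |(inner ℂ (GT lam V z (pw k)) (pw k) : ℂ).re| ≤ (L : ℝ) ^ d / y := by
        refine (Complex.abs_re_le_norm _).trans ((norm_inner_le_norm _ _).trans ?_)
        have h2 := GT_norm' lam hne V (pw k)
        rw [h.im] at h2
        calc ‖GT lam V z (pw k)‖ * ‖pw k‖ ≤ (‖pw k‖ / y) * ‖pw k‖ := by gcongr
          _ = ‖pw k‖ ^ 2 / y := by ring
          _ = _ := by rw [pw_norm]
      have h2 := neg_abs_le (inner ℂ (GT lam V z (pw k)) (pw k) : ℂ).re
      have h3 : 0 ≤ e * ‖GT lam V z (pw k)‖ ^ 2 := by positivity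
      linarith
  have h1 := integral_mono ((gD_int h k).indicator h.meas) ((i1.add i2).add i3) hpt
  refine h1.trans ?_
  have h2 : ∫ V, (((inner ℂ (GT lam V z (pw k)) (pw k) : ℂ).re + e * ‖GT lam V z (pw k)‖ ^ 2) +
        Gᶜ.indicator (fun _ => (L : ℝ) ^ d / y) V) ∂P =
      ((L : ℝ) ^ d * (mk μ lam z k).re + e * ((L : ℝ) ^ d * Dk μ lam z k)) +
        (L : ℝ) ^ d / y * p := by
    have e0 : ∫ V, (((inner ℂ (GT lam V z (pw k)) (pw k) : ℂ).re + e * ‖GT lam V z (pw k)‖ ^ 2) +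
        Gᶜ.indicator (fun _ => (L : ℝ) ^ d / y) V) ∂P =
        (∫ V, (inner ℂ (GT lam V z (pw k)) (pw k) : ℂ).re ∂P +
          ∫ V, e * ‖GT lam V z (pw k)‖ ^ 2 ∂P) + ∫ V, Gᶜ.indicator (fun _ => (L : ℝ) ^ d / y) V ∂P := by
      have e3 := integral_add i1 i2
      have e4 := integral_add (i1.add i2) i3
      rw [← e3]
      exact e4
    rw [e0, integral_const_mul, D_eq μ lam hne,
      integral_indicator h.meas.compl, setIntegral_const, smul_eq_mul]
    have e1 : ∫ V, (inner ℂ (GT lam V z (pw k)) (pw k) : ℂ).re ∂P =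
        (L : ℝ) ^ d * (mk μ lam z k).re := by
      have e2 : ∀ V : T d L → ℝ, (inner ℂ (GT lam V z (pw k)) (pw k) : ℂ).re =
          (inner ℂ (pw k) (GT lam V z (pw k)) : ℂ).re := fun V => by
        rw [← inner_conj_symm, Complex.conj_re]
      simp only [e2]
      have e3 : ∫ V, (inner ℂ (pw k) (GT lam V z (pw k)) : ℂ).re ∂P =
          (∫ V, inner ℂ (pw k) (GT lam V z (pw k)) ∂P).re :=
        Complex.reCLM.integral_comp_comm (inner_int μ lam hne (pw k) (pw k))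
      rw [e3, inner_mean μ lam hne]
      have : ((L : ℂ) ^ d) = (((L : ℝ) ^ d : ℝ) : ℂ) := by push_cast; rfl
      rw [this, Complex.re_ofReal_mul]
    rw [e1, ← hp]
    ring
  refine (le_of_eq h2).trans ?_
  have hMp := m_pos h k
  have hM2 := mk_norm_sq μ lam hne k
  have hD := h.pos k
  set Fn := ‖Fk μ lam z k‖ with hF
  have hFm : Fn * ‖mk μ lam z k‖ = 1 := by
    rw [hF, F_norm, one_div, inv_mul_cancel₀ hMp.ne']
  have hF0 : 0 ≤ Fn := norm_nonneg _
  have h3 : (mk μ lam z k).re ≤ Dk μ lam z k * Fn := by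
    refine (Complex.re_le_norm _).trans ?_
    have : ‖mk μ lam z k‖ = ‖mk μ lam z k‖ ^ 2 * Fn := by
      rw [sq, mul_assoc, mul_comm ‖mk μ lam z k‖ Fn, hFm, mul_one]
    rw [this]
    gcongr
  have h4 : p / y ≤ Dk μ lam z k * Fn := by
    have h5 := h.pG0
    rw [← hP, ← hp] at h5
    have h6 := F_up h k
    have h7 := kq_four k
    have h8 := h.e1
    have h9 : Fn ≤ 8 * d + 3 := by rw [hF]; linarith
    have hd0 : (0 : ℝ) ≤ d := Nat.cast_nonneg d
    have h10 : p / y * (4 * d + 3) ≤ 1 := by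
      have e5 : p / y * (4 * d + 3) = p * (4 * d + 3) / y := by ring
      rw [e5]
      refine h5.trans ?_
      have := h.th0
      have h11 := h.th1
      have h12 : y * e ≤ 1 := by nlinarith [h.y1]
      calc θ * y * e = θ * (y * e) := by ring
        _ ≤ 1 / 100 * 1 := by gcongr
        _ ≤ 1 := by norm_num
    have h100 : p / y * (8 * d + 3) ≤ 1 := by
      have h1 := h.pG
      rw [← hP, ← hp] at h1
      have h13 : p / y * (100 * (d + 1)) ≤ 1 := by
        have e5 : p / y * (100 * (d + 1)) = p * (100 * (d + 1)) / y := by ring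
        rw [e5, div_le_iff₀ hy, one_mul]
        refine h1.trans ?_
        have := h.th0
        have h11 := h.th1
        have h12 : θ * y * e ≤ 1 := by
          calc θ * y * e ≤ 1 * 1 * 1 := by
                gcongr
                · linarith
                · exact h.y1.trans h.e1
            _ = 1 := by norm_num
        calc θ * y ^ 2 * e = (θ * y * e) * y := by ring
          _ ≤ 1 * y := by gcongr
          _ = y := one_mul y
      refine le_trans ?_ h13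
      have : 0 ≤ p / y := by positivity
      gcongr
      linarith
    have h11 : p / y * Fn ≤ 1 := by
      refine le_trans ?_ h100
      have : 0 ≤ p / y := by positivity
      gcongr
    have h12 : 0 < Fn := by
      rw [hF]
      exact lt_of_lt_of_le hy (F_lower h k)
    have h13 : p / y ≤ 1 / Fn := by
      rw [le_div_iff₀ h12]
      exact h11
    refine h13.trans ?_
    have h14 : 1 / Fn = ‖mk μ lam z k‖ := by
      rw [div_eq_iff h12.ne']
      rw [mul_comm]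
      exact hFm.symm
    rw [h14]
    have : ‖mk μ lam z k‖ = ‖mk μ lam z k‖ ^ 2 * Fn := by
      rw [sq, mul_assoc, mul_comm ‖mk μ lam z k‖ Fn, hFm, mul_one]
    rw [this]
    gcongr
  calc ((L : ℝ) ^ d * (mk μ lam z k).re + e * ((L : ℝ) ^ d * Dk μ lam z k)) + (L : ℝ) ^ d / y * p
      = (L : ℝ) ^ d * ((mk μ lam z k).re + e * Dk μ lam z k + p / y) := by ring
    _ ≤ (L : ℝ) ^ d * (Dk μ lam z k * Fn + e * Dk μ lam z k + Dk μ lam z k * Fn) := by gcongr
    _ = _ := by ring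

end

end Pool.Agent.V8H95.NM
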