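import Pool.Agent.V8H95.NM.Rec

/-!
The variance of the resolvent applied to a fixed function.
-/

set_option autoImplicit false
set_option linter.unusedSectionVars false

open Complex MeasureTheory
open scoped BigOperators ComplexConjugate

namespace Pool.Agent.V8H95.NM

open Pool.Agent.H4R2.AE Pool.Agent.V8H99.AD Pool.Agent.V8H95.MF Pool.Agent.V8H95.BW
open Pool.Agent.V8H95.EF

variable {d L : ℕ} [NeZero L]

section
variable (μ : Measure ℝ) [IsProbabilityMeasure μ]

/-- the Efron-Stein inequality for vectors -/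
theorem es_vec (Y : (T d L → ℝ) → XT d L) (hY : Continuous Y) (C : ℝ) (hC : ∀ V, ‖Y V‖ ≤ C) :
    ∫ V, ‖Y V - ∫ U, Y U ∂(Measure.pi fun _ : T d L => μ)‖ ^ 2 ∂(Measure.pi fun _ : T d L => μ) ≤
      ∫ V, ∑ y, ‖Y V - Y (Function.update V y 0)‖ ^ 2 ∂(Measure.pi fun _ : T d L => μ) := by
  set P : Measure (T d L → ℝ) := Measure.pi fun _ : T d L => μ with hP
  have hC0 : 0 ≤ C := (norm_nonneg _).trans (hC fun _ => 0)
  have hYi : Integrable Y P := Integrable.of_bound (C := C) hY.aestronglyMeasurable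
    (Filter.Eventually.of_forall hC)
  have hco : ∀ x : T d L, (∫ U, Y U ∂P) x = ∫ U, (Y U) x ∂P := by
    intro x
    exact ((EuclideanSpace.proj x : XT d L →L[ℂ] ℂ).integral_comp_comm hYi).symm
  have hcx : ∀ x : T d L, Continuous fun V => (Y V) x := fun x =>
    (EuclideanSpace.proj x : XT d L →L[ℂ] ℂ).continuous.comp hY
  have hbx : ∀ (x : T d L) (V : T d L → ℝ), ‖(Y V) x‖ ≤ C := fun x V =>
    (PiLp.norm_apply_le (Y V) x).trans (hC V)
  have hup : ∀ y : T d L, Measurable fun V : T d L → ℝ => Function.update V y (0 : ℝ) :=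
    fun y => ES.update_meas y 0
  -- integrability
  have i1 : ∀ x : T d L, Integrable (fun V => ‖(Y V) x - ∫ U, (Y U) x ∂P‖ ^ 2) P := by
    intro x
    refine int_of P _ ((hcx x).measurable.sub_const _ |>.norm.pow_const 2) ((C + C) ^ 2) fun V => ?_
    rw [abs_pow, abs_norm]
    refine pow_le_pow_left₀ (norm_nonneg _) ((norm_sub_le _ _).trans (add_le_add (hbx x V) ?_)) 2
    have := norm_integral_le_of_norm_le_const (μ := P) (f := fun U => (Y U) x) (C := C)
      (Filter.Eventually.of_forall fun V => hbx x V)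
    simpa using this
  have i2 : ∀ x y : T d L, Integrable (fun V => ‖(Y V) x - (Y (Function.update V y 0)) x‖ ^ 2) P := by
    intro x y
    refine int_of P _ (((hcx x).measurable.sub ((hcx x).measurable.comp (hup y))).norm.pow_const 2)
      ((C + C) ^ 2) fun V => ?_
    rw [abs_pow, abs_norm]
    exact pow_le_pow_left₀ (norm_nonneg _) ((norm_sub_le _ _).trans
      (add_le_add (hbx x V) (hbx x _))) 2
  have h1 : ∀ V, ‖Y V - ∫ U, Y U ∂P‖ ^ 2 = ∑ x, ‖(Y V) x - ∫ U, (Y U) x ∂P‖ ^ 2 := by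
    intro V
    rw [EuclideanSpace.norm_sq_eq]
    refine Finset.sum_congr rfl fun x _ => ?_
    rw [PiLp.sub_apply, hco]
  have h2 : ∀ V, ∑ y, ‖Y V - Y (Function.update V y 0)‖ ^ 2 =
      ∑ y, ∑ x, ‖(Y V) x - (Y (Function.update V y 0)) x‖ ^ 2 := by
    intro V
    refine Finset.sum_congr rfl fun y _ => ?_
    rw [EuclideanSpace.norm_sq_eq]
    exact Finset.sum_congr rfl fun x _ => by rw [PiLp.sub_apply]
  simp only [h1, h2]
  rw [integral_finsetSum _ fun x _ => i1 x,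
    integral_finsetSum _ fun y _ => integrable_finsetSum _ fun x _ => i2 x y]
  have h3 : ∀ y : T d L, ∫ V, ∑ x, ‖(Y V) x - (Y (Function.update V y 0)) x‖ ^ 2 ∂P =
      ∑ x, ∫ V, ‖(Y V) x - (Y (Function.update V y 0)) x‖ ^ 2 ∂P := fun y =>
    integral_finsetSum _ fun x _ => i2 x y
  simp only [h3]
  rw [Finset.sum_comm]
  refine Finset.sum_le_sum fun x _ => ?_
  exact ES.es (T d L) μ 0 (fun V => (Y V) x) (hcx x).measurable C (hbx x)

theorem GT_norm (lam : ℝ) {z : ℂ} (hz : 0 < z.im) (V : T d L → ℝ) (u : XT d L) :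
    ‖GT lam V z u‖ ≤ ‖u‖ / z.im := by
  have h := rg_norm (HC_sa lam V) hz.ne' u
  rw [abs_of_pos hz] at h
  rw [le_div_iff₀ hz, mul_comm]
  exact h

theorem upd_bound (lam : ℝ) (hlam : 0 ≤ lam) {z : ℂ} (hz : 0 < z.im) (V : T d L → ℝ)
    (hV : Om lam z V) (y : T d L) (u : XT d L) :
    ‖GT lam V z u - GT lam (Function.update V y 0) z u‖ ^ 2 ≤
      4 * lam ^ 2 / z.im * (XX lam z y V * ‖(GT lam V z u) y‖ ^ 2) := by
  have hv : |lam * (0 - V y)| ≤ lam := by
    rw [abs_mul, abs_of_nonneg hlam, zero_sub, abs_neg]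
    calc lam * |V y| ≤ lam * 1 := by gcongr; exact hV.1 y
      _ = lam := mul_one _
  have h1 : ‖((lam * (0 - V y) : ℝ) : ℂ) * GG lam z y y V‖ ≤ 1 / 2 := by
    rw [norm_mul, Complex.norm_real, Real.norm_eq_abs]
    calc |lam * (0 - V y)| * ‖GG lam z y y V‖ ≤ lam * ‖GG lam z y y V‖ := by gcongr
      _ ≤ 1 / 2 := hV.2 y y
  obtain ⟨hne, h2⟩ := GT_update lam 0 hz.ne' V y u h1
  rw [h2, sub_sub_cancel, norm_smul, mul_pow, norm_mul, norm_div, Complex.norm_real,
    Real.norm_eq_abs]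
  set D : ℂ := 1 + ((lam * (0 - V y) : ℝ) : ℂ) * GG lam z y y V with hD
  have hDn : 1 / 2 ≤ ‖D‖ := by
    have h3 := norm_sub_le_norm_add (1 : ℂ) (((lam * (0 - V y) : ℝ) : ℂ) * GG lam z y y V)
    rw [norm_one] at h3
    linarith
  have h4 : |lam * (0 - V y)| / ‖D‖ ≤ 2 * lam := by
    rw [div_le_iff₀ (by linarith)]
    nlinarith [abs_nonneg (lam * (0 - V y))]
  have h5 : ‖GT lam V z (es y)‖ ^ 2 = XX lam z y V / z.im := by
    rw [XX_eq lam hz.ne', mul_div_assoc, mul_div_cancel₀ _ hz.ne']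
  rw [h5]
  have hX := XX_nonneg lam hz y V
  calc (|lam * (0 - V y)| / ‖D‖ * ‖(GT lam V z u) y‖) ^ 2 * (XX lam z y V / z.im) ≤
      (2 * lam * ‖(GT lam V z u) y‖) ^ 2 * (XX lam z y V / z.im) := by gcongr
    _ = _ := by ring

/-- the variance -/
theorem var_u (lam : ℝ) (hlam : 0 ≤ lam) {z : ℂ} (hz : 0 < z.im) (O : Set (T d L → ℝ))
    (hO : MeasurableSet O) (hOm : ∀ V ∈ O, Om lam z V) (u : XT d L) (B : ℝ) (hB : 0 < B) (p : ℕ) :
    ∫ V, ‖GT lam V z u - ∫ U, GT lam U z u ∂(Measure.pi fun _ : T d L => μ)‖ ^ 2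
      ∂(Measure.pi fun _ : T d L => μ) ≤
      4 * lam ^ 2 / z.im * (B * ∫ V, ‖GT lam V z u‖ ^ 2 ∂(Measure.pi fun _ : T d L => μ) +
        (L : ℝ) ^ d * (‖u‖ / z.im) ^ 2 * (1 / B ^ p *
          ∫ V, XX lam z 0 V ^ (p + 1) ∂(Measure.pi fun _ : T d L => μ))) +
      (L : ℝ) ^ d * (2 * (‖u‖ / z.im)) ^ 2 * (Measure.pi fun _ : T d L => μ).real Oᶜ := by
  set P : Measure (T d L → ℝ) := Measure.pi fun _ : T d L => μ with hP
  have hc := GTf_cont (d := d) (L := L) lam hz.ne' u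
  have h1 := es_vec μ (fun V => GT lam V z u) hc (‖u‖ / z.im) (fun V => GT_norm lam hz V u)
  refine h1.trans ?_
  set N := ‖u‖ / z.im with hN
  have hN0 : 0 ≤ N := by positivity
  have hXm : ∀ y : T d L, Measurable (XX lam z y) := fun y => (XX_cont lam hz.ne' y).measurable
  -- pointwise bound
  have hpt : ∀ V : T d L → ℝ, ∑ y, ‖GT lam V z u - GT lam (Function.update V y 0) z u‖ ^ 2 ≤
      (4 * lam ^ 2 / z.im * (B * ‖GT lam V z u‖ ^ 2) +
        4 * lam ^ 2 / z.im * (N ^ 2 * (1 / B ^ p) * ∑ y, XX lam z y V ^ (p + 1))) +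
      Oᶜ.indicator (fun _ => (L : ℝ) ^ d * (2 * N) ^ 2) V := by
    intro V
    have hXs : 0 ≤ ∑ y, XX lam z y V ^ (p + 1) :=
      Finset.sum_nonneg fun y _ => pow_nonneg (XX_nonneg lam hz y V) _
    by_cases hV : V ∈ O
    · rw [Set.indicator_of_notMem (by simpa using hV), add_zero]
      have h2 : ∀ y ∈ (Finset.univ : Finset (T d L)),
          ‖GT lam V z u - GT lam (Function.update V y 0) z u‖ ^ 2 ≤
          4 * lam ^ 2 / z.im * (B * ‖(GT lam V z u) y‖ ^ 2 +
            N ^ 2 * (1 / B ^ p) * XX lam z y V ^ (p + 1)) := by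
        intro y _
        refine (upd_bound lam hlam hz V (hOm V hV) y u).trans ?_
        apply mul_le_mul_of_nonneg_left _ (by positivity)
        have hX := XX_nonneg lam hz y V
        have hy : ‖(GT lam V z u) y‖ ≤ N := (PiLp.norm_apply_le _ y).trans (GT_norm lam hz V u)
        have h0 : 0 ≤ N ^ 2 * (1 / B ^ p) * XX lam z y V ^ (p + 1) := by positivity
        rcases le_total (XX lam z y V) B with h3 | h3
        · have : XX lam z y V * ‖(GT lam V z u) y‖ ^ 2 ≤ B * ‖(GT lam V z u) y‖ ^ 2 := by gcongr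
          linarith
        · have h4 : XX lam z y V ≤ 1 / B ^ p * XX lam z y V ^ (p + 1) := by
            rw [pow_succ, one_div, ← mul_assoc]
            have h5 : 1 ≤ (B ^ p)⁻¹ * XX lam z y V ^ p := by
              rw [inv_mul_eq_div, one_le_div (by positivity)]
              exact pow_le_pow_left₀ hB.le h3 p
            nlinarith
          have h5 : XX lam z y V * ‖(GT lam V z u) y‖ ^ 2 ≤
              (1 / B ^ p * XX lam z y V ^ (p + 1)) * N ^ 2 := by gcongr
          have h6 : 0 ≤ B * ‖(GT lam V z u) y‖ ^ 2 := by positivity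
          calc _ ≤ (1 / B ^ p * XX lam z y V ^ (p + 1)) * N ^ 2 := h5
            _ = N ^ 2 * (1 / B ^ p) * XX lam z y V ^ (p + 1) := by ring
            _ ≤ _ := by linarith
      refine (Finset.sum_le_sum h2).trans (le_of_eq ?_)
      rw [← Finset.mul_sum, Finset.sum_add_distrib, ← Finset.mul_sum, ← Finset.mul_sum,
        EuclideanSpace.norm_sq_eq]
      ring
    · rw [Set.indicator_of_mem (show V ∈ Oᶜ from hV)]
      have h2 : ∀ y ∈ (Finset.univ : Finset (T d L)),
          ‖GT lam V z u - GT lam (Function.update V y 0) z u‖ ^ 2 ≤ (2 * N) ^ 2 := by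
        intro y _
        refine pow_le_pow_left₀ (norm_nonneg _) ((norm_sub_le _ _).trans ?_) 2
        have h3 := GT_norm lam hz V u
        have h4 := GT_norm lam hz (Function.update V y 0) u
        rw [← hN] at h3 h4
        linarith
      have h3 := Finset.sum_le_sum h2
      rw [Finset.sum_const, Finset.card_univ, nsmul_eq_mul, card_TdL] at h3
      have h4 : 0 ≤ 4 * lam ^ 2 / z.im * (B * ‖GT lam V z u‖ ^ 2) := by positivity
      have h5 : 0 ≤ 4 * lam ^ 2 / z.im * (N ^ 2 * (1 / B ^ p) * ∑ y, XX lam z y V ^ (p + 1)) := by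
        positivity
      linarith
  have i0 : Integrable (fun V => ∑ y, ‖GT lam V z u - GT lam (Function.update V y 0) z u‖ ^ 2) P := by
    refine integrable_finsetSum _ fun y _ => ?_
    refine int_of P _ ((hc.measurable.sub (hc.measurable.comp (ES.update_meas y 0))).norm.pow_const 2)
      ((N + N) ^ 2) fun V => ?_
    rw [abs_pow, abs_norm]
    exact pow_le_pow_left₀ (norm_nonneg _) ((norm_sub_le _ _).trans
      (add_le_add (GT_norm lam hz V u) (GT_norm lam hz _ u))) 2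
  have i1 : Integrable (fun V => ‖GT lam V z u‖ ^ 2) P := by
    refine int_of P _ (hc.measurable.norm.pow_const 2) (N ^ 2) fun V => ?_
    rw [abs_pow, abs_norm]
    exact pow_le_pow_left₀ (norm_nonneg _) (GT_norm lam hz V u) 2
  have i2 : Integrable (fun V => 4 * lam ^ 2 / z.im * (B * ‖GT lam V z u‖ ^ 2)) P :=
    (i1.const_mul _).const_mul _
  have i3 : Integrable (fun V => ∑ y : T d L, XX lam z y V ^ (p + 1)) P :=
    integrable_finsetSum _ fun y _ => XX_pow_int μ lam hz y (p + 1)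
  have i4 : Integrable (fun V => 4 * lam ^ 2 / z.im * (N ^ 2 * (1 / B ^ p) *
      ∑ y : T d L, XX lam z y V ^ (p + 1))) P := (i3.const_mul _).const_mul _
  have i5 : Integrable (Oᶜ.indicator fun _ : T d L → ℝ => (L : ℝ) ^ d * (2 * N) ^ 2) P :=
    (integrable_const _).indicator hO.compl
  have i6 : Integrable (fun V => 4 * lam ^ 2 / z.im * (B * ‖GT lam V z u‖ ^ 2) +
      4 * lam ^ 2 / z.im * (N ^ 2 * (1 / B ^ p) * ∑ y : T d L, XX lam z y V ^ (p + 1))) P :=
    i2.add i4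
  refine (integral_mono i0 (i6.add i5) hpt).trans (le_of_eq ?_)
  have e1 : ∫ V, ((4 * lam ^ 2 / z.im * (B * ‖GT lam V z u‖ ^ 2) +
        4 * lam ^ 2 / z.im * (N ^ 2 * (1 / B ^ p) * ∑ y, XX lam z y V ^ (p + 1))) +
      Oᶜ.indicator (fun _ => (L : ℝ) ^ d * (2 * N) ^ 2) V) ∂P =
      (∫ V, (4 * lam ^ 2 / z.im * (B * ‖GT lam V z u‖ ^ 2)) ∂P +
        ∫ V, (4 * lam ^ 2 / z.im * (N ^ 2 * (1 / B ^ p) * ∑ y, XX lam z y V ^ (p + 1))) ∂P) +
      ∫ V, Oᶜ.indicator (fun _ => (L : ℝ) ^ d * (2 * N) ^ 2) V ∂P := by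
    rw [integral_add i6 i5, integral_add i2 i4]
  refine e1.trans ?_
  have e2 : ∫ V, Oᶜ.indicator (fun _ : T d L → ℝ => (L : ℝ) ^ d * (2 * N) ^ 2) V ∂P =
      (L : ℝ) ^ d * (2 * N) ^ 2 * P.real Oᶜ := by
    rw [integral_indicator hO.compl, setIntegral_const, smul_eq_mul, mul_comm]
  have e3 : ∫ V, (∑ y : T d L, XX lam z y V ^ (p + 1)) ∂P =
      (L : ℝ) ^ d * ∫ V, XX lam z 0 V ^ (p + 1) ∂P := by
    rw [integral_finsetSum _ fun y _ => XX_pow_int μ lam hz y (p + 1)]
    have h2 : ∀ y : T d L, ∫ V, XX lam z y V ^ (p + 1) ∂P = ∫ V, XX lam z 0 V ^ (p + 1) ∂P := by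
      intro y
      rw [← trans_int μ (fun V => XX lam z 0 V ^ (p + 1)) y]
      congr 1
      funext V
      rw [XX_trans lam hz.ne', zero_add]
    rw [Finset.sum_congr rfl fun y _ => h2 y, Finset.sum_const, Finset.card_univ, nsmul_eq_mul,
      card_TdL]
  rw [e2, integral_const_mul, integral_const_mul, integral_const_mul, integral_const_mul, e3]
  ring

end

end Pool.Agent.V8H95.NM
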