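import Pool.Agent.V8H95.NM.Mean

/-!
The resolvent applied to plane waves: mean, second moment.
-/

set_option autoImplicit false
set_option linter.unusedSectionVars false

open Complex MeasureTheory
open scoped BigOperators ComplexConjugate

namespace Pool.Agent.V8H95.NM

open Pool.Agent.H4R2.AE Pool.Agent.V8H99.AD Pool.Agent.V8H95.MF Pool.Agent.V8H95.BW
open Pool.Agent.V8H95.EF

variable {d L : ℕ} [NeZero L]

/-- the plane wave -/
noncomputable def pw (k : T d L) : XT d L := WithLp.toLp 2 fun x => ch k x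

theorem pw_apply (k x : T d L) : (pw k) x = ch k x := rfl

theorem pw_norm (k : T d L) : ‖pw k‖ ^ 2 = (L : ℝ) ^ d := by
  rw [EuclideanSpace.norm_sq_eq]
  simp only [pw_apply, ch_norm, one_pow]
  rw [Finset.sum_const, Finset.card_univ, nsmul_eq_mul, card_TdL, mul_one]

theorem pw_inner (k : T d L) : (inner ℂ (pw k) (pw k) : ℂ) = (L : ℂ) ^ d := by
  rw [inner_eq, ← card_T (d := d) (L := L)]
  simp only [pw_apply, ch_conj]
  simp

theorem Ts_pw (k y : T d L) : Ts y (pw k) = ch k y • pw k := by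
  ext x
  rw [Ts_apply, PiLp.smul_apply, pw_apply, pw_apply, ch_add, smul_eq_mul, mul_comm]

theorem Gpw (lam : ℝ) {z : ℂ} (hz : z.im ≠ 0) (V : T d L → ℝ) (k y : T d L) :
    (GT lam V z (pw k)) y = ch k y * (GT lam (fun x => V (x + y)) z (pw k)) 0 := by
  have h := Ts_GT lam hz V y (pw k)
  rw [Ts_pw, map_smul] at h
  have h2 := congrArg (fun f : XT d L => f 0) h
  simp only [Ts_apply, PiLp.smul_apply, smul_eq_mul, zero_add] at h2
  exact h2

theorem L_pos' : 0 < (L : ℝ) ^ d := by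
  have := L_one (L := L)
  positivity

theorem GT_norm' (lam : ℝ) {z : ℂ} (hz : z.im ≠ 0) (V : T d L → ℝ) (u : XT d L) :
    ‖GT lam V z u‖ ≤ ‖u‖ / |z.im| := by
  have h := rg_norm (HC_sa lam V) hz u
  rw [le_div_iff₀ (abs_pos.2 hz), mul_comm]
  exact h

section
variable (μ : Measure ℝ) [IsProbabilityMeasure μ]

/-- the mean -/
noncomputable def mk (lam : ℝ) (z : ℂ) (k : T d L) : ℂ :=
  ∫ V, (GT lam V z (pw k)) 0 ∂(Measure.pi fun _ : T d L => μ)

/-- the second moment -/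
noncomputable def Dk (lam : ℝ) (z : ℂ) (k : T d L) : ℝ :=
  ∫ V, ‖(GT lam V z (pw k)) 0‖ ^ 2 ∂(Measure.pi fun _ : T d L => μ)

/-- the variance -/
noncomputable def sk (lam : ℝ) (z : ℂ) (k : T d L) : ℝ := Dk μ lam z k - ‖mk μ lam z k‖ ^ 2

theorem GTi (lam : ℝ) {z : ℂ} (hz : z.im ≠ 0) (u : XT d L) :
    Integrable (fun V : T d L → ℝ => GT lam V z u) (Measure.pi fun _ : T d L => μ) :=
  Integrable.of_bound (C := ‖u‖ / |z.im|) (GTf_cont lam hz u).aestronglyMeasurable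
    (Filter.Eventually.of_forall fun V => GT_norm' lam hz V u)

theorem GTxi (lam : ℝ) {z : ℂ} (hz : z.im ≠ 0) (u : XT d L) (x : T d L) :
    Integrable (fun V : T d L → ℝ => (GT lam V z u) x) (Measure.pi fun _ : T d L => μ) :=
  (EuclideanSpace.proj x : XT d L →L[ℂ] ℂ).integrable_comp (GTi μ lam hz u)

theorem GTx2i (lam : ℝ) {z : ℂ} (hz : z.im ≠ 0) (u : XT d L) (x : T d L) :
    Integrable (fun V : T d L → ℝ => ‖(GT lam V z u) x‖ ^ 2) (Measure.pi fun _ : T d L => μ) := by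
  refine int_of _ _ ((GTx_cont lam hz u x).measurable.norm.pow_const 2) ((‖u‖ / |z.im|) ^ 2)
    fun V => ?_
  rw [abs_pow, abs_norm]
  exact pow_le_pow_left₀ (norm_nonneg _) ((PiLp.norm_apply_le _ x).trans (GT_norm' lam hz V u)) 2

theorem GT2i (lam : ℝ) {z : ℂ} (hz : z.im ≠ 0) (u : XT d L) :
    Integrable (fun V : T d L → ℝ => ‖GT lam V z u‖ ^ 2) (Measure.pi fun _ : T d L => μ) := by
  refine int_of _ _ ((GTf_cont lam hz u).measurable.norm.pow_const 2) ((‖u‖ / |z.im|) ^ 2)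
    fun V => ?_
  rw [abs_pow, abs_norm]
  exact pow_le_pow_left₀ (norm_nonneg _) (GT_norm' lam hz V u) 2

theorem mean_coord (lam : ℝ) {z : ℂ} (hz : z.im ≠ 0) (u : XT d L) (x : T d L) :
    (∫ V, GT lam V z u ∂(Measure.pi fun _ : T d L => μ)) x =
      ∫ V, (GT lam V z u) x ∂(Measure.pi fun _ : T d L => μ) :=
  ((EuclideanSpace.proj x : XT d L →L[ℂ] ℂ).integral_comp_comm (GTi μ lam hz u)).symm

theorem mean_x (lam : ℝ) {z : ℂ} (hz : z.im ≠ 0) (k x : T d L) :
    ∫ V, (GT lam V z (pw k)) x ∂(Measure.pi fun _ : T d L => μ) = ch k x * mk μ lam z k := by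
  have h1 : ∀ V : T d L → ℝ, (GT lam V z (pw k)) x =
      ch k x * (GT lam (fun u => V (u + x)) z (pw k)) 0 := fun V => Gpw lam hz V k x
  simp only [h1]
  rw [integral_const_mul]
  congr 1
  exact trans_int μ (fun V => (GT lam V z (pw k)) 0) x

theorem mean_pw (lam : ℝ) {z : ℂ} (hz : z.im ≠ 0) (k : T d L) :
    ∫ V, GT lam V z (pw k) ∂(Measure.pi fun _ : T d L => μ) = mk μ lam z k • pw k := by
  ext x
  rw [mean_coord μ lam hz, mean_x μ lam hz, PiLp.smul_apply, pw_apply, smul_eq_mul, mul_comm]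

theorem D_x (lam : ℝ) {z : ℂ} (hz : z.im ≠ 0) (k x : T d L) :
    ∫ V, ‖(GT lam V z (pw k)) x‖ ^ 2 ∂(Measure.pi fun _ : T d L => μ) = Dk μ lam z k := by
  have h1 : ∀ V : T d L → ℝ, ‖(GT lam V z (pw k)) x‖ ^ 2 =
      ‖(GT lam (fun u => V (u + x)) z (pw k)) 0‖ ^ 2 := fun V => by
    rw [Gpw lam hz V k x, norm_mul, ch_norm, one_mul]
  simp only [h1]
  exact trans_int μ (fun V => ‖(GT lam V z (pw k)) 0‖ ^ 2) x

theorem D_eq (lam : ℝ) {z : ℂ} (hz : z.im ≠ 0) (k : T d L) :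
    ∫ V, ‖GT lam V z (pw k)‖ ^ 2 ∂(Measure.pi fun _ : T d L => μ) = (L : ℝ) ^ d * Dk μ lam z k := by
  simp only [EuclideanSpace.norm_sq_eq]
  rw [integral_finsetSum _ fun x _ => GTx2i μ lam hz (pw k) x,
    Finset.sum_congr rfl fun x _ => D_x μ lam hz k x, Finset.sum_const, Finset.card_univ,
    nsmul_eq_mul, card_TdL]

theorem inner_mean (lam : ℝ) {z : ℂ} (hz : z.im ≠ 0) (k : T d L) :
    ∫ V, inner ℂ (pw k) (GT lam V z (pw k)) ∂(Measure.pi fun _ : T d L => μ) =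
      (L : ℂ) ^ d * mk μ lam z k := by
  rw [integral_inner (GTi μ lam hz (pw k)), mean_pw μ lam hz, inner_smul_right, pw_inner]
  ring

theorem Dk_nonneg (lam : ℝ) (z : ℂ) (k : T d L) : 0 ≤ Dk μ lam z k :=
  integral_nonneg fun V => by positivity

theorem inner_int (lam : ℝ) {z : ℂ} (hz : z.im ≠ 0) (g u : XT d L) :
    Integrable (fun V : T d L → ℝ => (inner ℂ g (GT lam V z u) : ℂ))
      (Measure.pi fun _ : T d L => μ) := (GTi μ lam hz u).const_inner g

theorem im_mk (lam : ℝ) {z : ℂ} (hz : z.im ≠ 0) (k : T d L) :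
    (mk μ lam z k).im = z.im * Dk μ lam z k := by
  have h1 := inner_mean μ lam hz k
  have h2 : (∫ V, inner ℂ (pw k) (GT lam V z (pw k)) ∂(Measure.pi fun _ : T d L => μ)).im =
      ∫ V, (inner ℂ (pw k) (GT lam V z (pw k)) : ℂ).im ∂(Measure.pi fun _ : T d L => μ) :=
    (Complex.imCLM.integral_comp_comm (inner_int μ lam hz (pw k) (pw k))).symm
  have h3 : ∀ V : T d L → ℝ, (inner ℂ (pw k) (GT lam V z (pw k)) : ℂ).im =
      z.im * ‖GT lam V z (pw k)‖ ^ 2 := fun V => ward_im (HC_sa lam V) hz (pw k)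
  simp only [h3] at h2
  rw [integral_const_mul, D_eq μ lam hz, h1] at h2
  have h4 : ((L : ℂ) ^ d * mk μ lam z k).im = (L : ℝ) ^ d * (mk μ lam z k).im := by
    have : ((L : ℂ) ^ d) = (((L : ℝ) ^ d : ℝ) : ℂ) := by push_cast; rfl
    rw [this, Complex.im_ofReal_mul]
  rw [h4] at h2
  have h5 := L_pos' (d := d) (L := L)
  have h6 : (L : ℝ) ^ d * ((mk μ lam z k).im - z.im * Dk μ lam z k) = 0 := by linarith
  rcases mul_eq_zero.1 h6 with h7 | h7
  · exact absurd h7 h5.ne'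
  · linarith

theorem mk_norm_sq (lam : ℝ) {z : ℂ} (hz : z.im ≠ 0) (k : T d L) :
    ‖mk μ lam z k‖ ^ 2 ≤ Dk μ lam z k := by
  have h1 := var_split_vec
  exact h1
where
  var_split_vec : ‖mk μ lam z k‖ ^ 2 ≤ Dk μ lam z k := by
    unfold mk Dk
    refine ES.norm_int_sq _ _ (GTx_cont lam hz (pw k) 0).aestronglyMeasurable (‖pw k‖ / |z.im|)
      fun V => (PiLp.norm_apply_le _ _).trans (GT_norm' lam hz V _)

theorem sk_nonneg (lam : ℝ) {z : ℂ} (hz : z.im ≠ 0) (k : T d L) : 0 ≤ sk μ lam z k := by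
  have := mk_norm_sq μ lam hz k
  unfold sk
  linarith

/-- the variance of the resolvent applied to a plane wave -/
theorem sk_eq (lam : ℝ) {z : ℂ} (hz : z.im ≠ 0) (k : T d L) :
    ∫ V, ‖GT lam V z (pw k) - mk μ lam z k • pw k‖ ^ 2 ∂(Measure.pi fun _ : T d L => μ) =
      (L : ℝ) ^ d * sk μ lam z k := by
  set P : Measure (T d L → ℝ) := Measure.pi fun _ : T d L => μ with hP
  set m := mk μ lam z k with hm
  have h1 : ∀ V : T d L → ℝ, ‖GT lam V z (pw k) - m • pw k‖ ^ 2 =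
      (‖GT lam V z (pw k)‖ ^ 2 - 2 * (conj m * inner ℂ (pw k) (GT lam V z (pw k))).re) +
        ‖m‖ ^ 2 * (L : ℝ) ^ d := by
    intro V
    rw [@norm_sub_sq ℂ, norm_smul, mul_pow, pw_norm]
    have h2 : (inner ℂ (GT lam V z (pw k)) (m • pw k) : ℂ) =
        conj (conj m * inner ℂ (pw k) (GT lam V z (pw k))) := by
      rw [inner_smul_right, map_mul, Complex.conj_conj, inner_conj_symm]
    rw [h2]
    simp only [RCLike.re_to_complex, Complex.conj_re]
  simp only [h1]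
  have i1 := GT2i μ lam hz (pw k)
  have i2 : Integrable (fun V : T d L → ℝ =>
      conj m * inner ℂ (pw k) (GT lam V z (pw k))) P := (inner_int μ lam hz (pw k) (pw k)).const_mul _
  have i3 : Integrable (fun V : T d L → ℝ =>
      2 * (conj m * inner ℂ (pw k) (GT lam V z (pw k))).re) P := i2.re.const_mul 2
  have i4 : Integrable (fun V : T d L → ℝ => ‖GT lam V z (pw k)‖ ^ 2 -
      2 * (conj m * inner ℂ (pw k) (GT lam V z (pw k))).re) P := i1.sub i3
  rw [integral_add i4 (integrable_const _), integral_sub i1 i3, D_eq μ lam hz, integral_const_mul]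
  have h2 : ∫ V, (conj m * inner ℂ (pw k) (GT lam V z (pw k))).re ∂P = ‖m‖ ^ 2 * (L : ℝ) ^ d := by
    have h3 : ∫ V, (conj m * inner ℂ (pw k) (GT lam V z (pw k))).re ∂P =
        (∫ V, conj m * inner ℂ (pw k) (GT lam V z (pw k)) ∂P).re :=
      Complex.reCLM.integral_comp_comm i2
    rw [h3, integral_const_mul, inner_mean μ lam hz, ← hm]
    have h4 : conj m * ((L : ℂ) ^ d * m) = ((‖m‖ ^ 2 * (L : ℝ) ^ d : ℝ) : ℂ) := by
      push_cast
      rw [← Complex.conj_mul']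
      ring
    rw [h4, Complex.ofReal_re]
  rw [h2]
  unfold sk
  simp
  ring

theorem mk_conj (lam : ℝ) {z : ℂ} (hz : z.im ≠ 0) (k : T d L) :
    mk μ lam (conj z) k = conj (mk μ lam z k) := by
  have hz' : (conj z).im ≠ 0 := by simpa using hz
  have h1 := inner_mean μ lam hz k
  have h2 := inner_mean μ lam hz' k
  have h3 : ∀ V : T d L → ℝ, (inner ℂ (pw k) (GT lam V (conj z) (pw k)) : ℂ) =
      conj (inner ℂ (pw k) (GT lam V z (pw k))) := by
    intro V
    have := rg_adj (HC_sa lam V) hz (pw k) (pw k)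
    unfold GT
    rw [← this, inner_conj_symm]
  simp only [h3] at h2
  rw [integral_conj, h1] at h2
  have h4 : (L : ℂ) ^ d ≠ 0 := by
    have : (L : ℂ) ≠ 0 := by
      have := NeZero.ne L
      exact_mod_cast this
    exact pow_ne_zero _ this
  have h5 : (L : ℂ) ^ d * (mk μ lam (conj z) k - conj (mk μ lam z k)) = 0 := by
    rw [map_mul, map_pow, Complex.conj_natCast] at h2
    linear_combination -h2
  rcases mul_eq_zero.1 h5 with h6 | h6
  · exact absurd h6 h4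
  · linear_combination h6

theorem Dk_conj (lam : ℝ) {z : ℂ} (hz : z.im ≠ 0) (k : T d L) :
    Dk μ lam (conj z) k = Dk μ lam z k := by
  have hz' : (conj z).im ≠ 0 := by simpa using hz
  have h1 := D_eq μ lam hz k
  have h2 := D_eq μ lam hz' k
  have h3 : ∀ V : T d L → ℝ, ‖GT lam V (conj z) (pw k)‖ ^ 2 = ‖GT lam V z (pw k)‖ ^ 2 :=
    fun V => rg_conj_norm (HC_sa lam V) hz (pw k)
  simp only [h3] at h2
  rw [h1] at h2
  have h4 := L_pos' (d := d) (L := L)
  exact (mul_left_cancel₀ h4.ne' h2).symm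

theorem sk_conj (lam : ℝ) {z : ℂ} (hz : z.im ≠ 0) (k : T d L) :
    sk μ lam (conj z) k = sk μ lam z k := by
  unfold sk
  rw [Dk_conj μ lam hz, mk_conj μ lam hz, Complex.norm_conj]

theorem Dk_lower (lam : ℝ) (h0 : 0 ≤ lam) (h1 : lam ≤ 1) {z : ℂ} (hz : z.im ≠ 0) (k : T d L)
    (O : Set (T d L → ℝ)) (hO : MeasurableSet O) (hOm : ∀ V ∈ O, ∀ x, |V x| ≤ 1)
    (hP : 1 / 2 ≤ (Measure.pi fun _ : T d L => μ).real O) (K : ℝ) (hK : 4 * d + 1 + ‖z‖ ≤ K) :
    1 / (2 * K ^ 2) ≤ Dk μ lam z k := by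
  set P : Measure (T d L → ℝ) := Measure.pi fun _ : T d L => μ with hPd
  have hK0 : 0 < K := by
    have := norm_nonneg z
    have : (0 : ℝ) ≤ d := Nat.cast_nonneg d
    linarith
  have h2 := D_eq μ lam hz k
  have h3 : ∫ V, O.indicator (fun _ => (L : ℝ) ^ d / K ^ 2) V ∂P ≤
      ∫ V, ‖GT lam V z (pw k)‖ ^ 2 ∂P := by
    refine integral_mono ((integrable_const _).indicator hO) (GT2i μ lam hz (pw k)) fun V => ?_
    by_cases hV : V ∈ O
    · rw [Set.indicator_of_mem hV]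
      have h4 := rg_lower (HC_sa lam V) hz (pw k) K (by
        refine le_trans ?_ hK
        gcongr
        refine HC_norm fun x => ?_
        rw [abs_mul, abs_of_nonneg h0]
        nlinarith [hOm V hV x, abs_nonneg (V x)])
      have h5 := pow_le_pow_left₀ (norm_nonneg _) h4 2
      rw [pw_norm, mul_pow] at h5
      show (L : ℝ) ^ d / K ^ 2 ≤ ‖GT lam V z (pw k)‖ ^ 2
      rw [div_le_iff₀ (by positivity), mul_comm]
      exact h5
    · rw [Set.indicator_of_notMem hV]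
      positivity
  rw [integral_indicator hO, setIntegral_const, smul_eq_mul, h2] at h3
  have h4 := L_pos' (d := d) (L := L)
  have h5 : 1 / 2 * ((L : ℝ) ^ d / K ^ 2) ≤ (L : ℝ) ^ d * Dk μ lam z k := by
    refine le_trans ?_ h3
    gcongr
  have h6 : (L : ℝ) ^ d * (1 / (2 * K ^ 2)) ≤ (L : ℝ) ^ d * Dk μ lam z k := by
    refine le_trans (le_of_eq ?_) h5
    field_simp
  exact le_of_mul_le_mul_left h6 h4

end

end Pool.Agent.V8H95.NM
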