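import Pool.Agent.V8H95.NM.Par4
import Pool.Agent.V8H95.EF.Par2

/-!
The theorem on the torus with the small parameter `x`.
-/

set_option autoImplicit false
set_option linter.unusedSectionVars false
set_option linter.unusedVariables false

open Complex MeasureTheory
open scoped BigOperators ComplexConjugate

namespace Pool.Agent.V8H95.NM

open Pool.Agent.H4R2.AE Pool.Agent.V8H99.AD Pool.Agent.V8H95.MF Pool.Agent.V8H95.BW
open Pool.Agent.V8H95.EF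

theorem main_x {L : ℕ} [NeZero L] (μ : Measure ℝ) [IsProbabilityMeasure μ] {Cg Cs A : ℝ}
    {g0 bq Jb Q N2 p : ℕ} {lam c0 θ mg κ x ϑ s1 K1 : ℝ} (G : Set (T 3 L → ℝ))
    (h : Sm L Cg Cs A g0 bq Jb Q N2 p lam c0 θ mg κ x ϑ (s1 / 2) (2 * K1)
      ((Measure.pi fun _ : T 3 L => μ).real Gᶜ))
    (hGm : MeasurableSet G) (hG : ∀ V ∈ G, ∃ ψ : T 3 L → ℝ, Gd lam c0 θ mg V ψ)
    (hGG : GGb Cg) (hIN : INb A) (hRC : RCb Cs g0)
    (J : ℕ) (K s e5 β ε q0 CM : ℝ) (hε : 0 < ε) (hJ : 6 ≤ J * ε) (hK : 1 ≤ K)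
    (hJK : J * (12 / K ^ 2 + 2 * θ ^ 2) ≤ 1 / 2) (hs : 0 < s) (hs1 : s ≤ 1) (he5 : 0 < e5)
    (hfin : 2 * J * (s ^ 3 + 6 ^ 3 * K ^ 3 * e5 * (2 / ε)) ≤ ε / (28 * ((3 : ℕ) : ℝ)) ^ 3)
    (hϑK : ϑ * K ≤ 1) (hβ : 0 < β) (hq0 : 0 < q0) (hq1 : q0 ≤ 1)
    (hq0s : 7 * ((3 : ℕ) : ℝ) * K * q0 ≤ s)
    (hCM : CM = ((3 : ℕ) : ℝ) * 2 ^ (3 + 1) / ϑ + 1)
    (hE1 : 2 * ϑ ^ 2 + 8 * ((3 : ℕ) : ℝ) ^ 2 * K ^ 2 / s ^ 2 *
      ((83 + 160 * ((3 : ℕ) : ℝ)) * ϑ + 40 * ((3 : ℕ) : ℝ) * β) ≤ e5 / 2)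
    (hs10 : 0 < s1) (hs11 : s1 ≤ 1) (hK11 : 1 ≤ K1)
    (c1 : 2 * (8 * K ^ 2 + 12) / K1 ^ 2 ≤ q0 ^ J * β ^ 2 / 128)
    (c2 : 2 * θ ^ 2 ≤ q0 ^ J * β ^ 2 / 128)
    (c3 : ((s1 + ϑ * K / 3) / (s / 2) + θ) ^ 2 ≤ q0 ^ J * β ^ 2 / 128)
    (hκK : K * κ ≤ ϑ) (L5 : 1 ≤ lam ^ 5 * L)
    (v1 : 2 * x ≤ s) (v2 : 12 * (1 + CM) * x ≤ q0 ^ J * s) (v3 : 5000 * x ≤ 1)
    (v4 : 18874368 * ((3 : ℕ) : ℝ) / ϑ * x ≤ 1)
    (v5 : 8 * ((3 : ℕ) : ℝ) ^ 2 / s ^ 2 * ((1 + 2 / ϑ) * (2 * ((3 : ℕ) : ℝ) * CM ^ 2 +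
      ((3 : ℕ) : ℝ) / (2 * ϑ))) * (x / (q0 ^ J) ^ 2) ≤ e5 / 4)
    (v6 : 4 * A * (2 * K1) * x ≤ q0 ^ J * β ^ 2 / 128)
    (v7 : x ≤ q0 ^ J * β ^ 2 / 128)
    (v8 : 4 * x / s1 ^ 2 ≤ q0 ^ J * β ^ 2 / 128)
    (v9 : 4 * x ≤ e5) (v10 : 8 * CM * x ≤ 1) :
    ∃ G' : Set (T 3 L → ℝ), MeasurableSet G' ∧
      1 - ((Measure.pi fun _ : T 3 L => μ).real Gᶜ + ε / 2) ≤
        (Measure.pi fun _ : T 3 L => μ).real G' ∧
      ∀ V ∈ G', ∀ (b : OrthonormalBasis (T 3 L) ℂ (XT 3 L)) (E : T 3 L → ℝ),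
        (∀ α, HC lam V (b α) = ((E α : ℝ) : ℂ) • b α) →
        (κ * L / (28 * ((3 : ℕ) : ℝ))) ^ 3 ≤ ((win E κ).card : ℝ) ∧
        ∀ S : Finset (T 3 L), S ⊆ win E κ → (∀ α ∈ S, ∃ x0 : T 3 L,
          ε < ‖rs (fun y => nn (y - x0) ≤ ⌊x ^ 16 / lam ^ 2⌋₊) (b α)‖ ^ 2) →
          (S.card : ℝ) ≤ ε * ((win E κ).card : ℝ) := by
  have hx := h.x0
  have hx1 := h.x1
  have hk := h.k0
  have hl := h.lam0
  have hl1 := h.lam1
  have hη := h.et0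
  have hA := h.A1
  have hA0 : 0 < A := by linarith
  have hθ0 := h.th0
  have hϑ0 : 0 < ϑ := lt_of_lt_of_le hθ0 h.thv
  have hv := h.hv
  have hlx := h.lx1
  have hkl := h.kl2
  have hK10 : 0 < K1 := by linarith
  have hKκ0 : 0 < K * κ := by positivity
  have hKκ1 : K * κ ≤ 1 := hκK.trans (by linarith)
  have hκK' : κ ≤ K * κ := by
    calc κ = 1 * κ := (one_mul κ).symm
      _ ≤ K * κ := by gcongr
  have hκ1 : κ ≤ 1 := hκK'.trans hKκ1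
  have hCM0 : 0 < CM := by rw [hCM]; positivity
  have hL1 := h.L1
  have hL0 : (0 : ℝ) < L := by linarith
  have hpG0 : 0 ≤ (Measure.pi fun _ : T 3 L => μ).real Gᶜ := h.pG0
  have hpow : ∀ n : ℕ, 1 ≤ n → x ^ n ≤ x := fun n hn => by
    calc x ^ n ≤ x ^ 1 := pow_le_pow_of_le_one hx.le hx1 hn
      _ = x := pow_one x
  have hpGx : (Measure.pi fun _ : T 3 L => μ).real Gᶜ ≤ x := by
    refine h.pG1.trans (le_trans ?_ hlx)
    have hp := h.hp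
    have hg1 : 1 ≤ 2 ^ g0 := Nat.one_le_two_pow
    have : (3 * N2 + 40) * 1 ≤ (3 * N2 + 40) * 2 ^ g0 := Nat.mul_le_mul_left _ hg1
    calc lam ^ p ≤ lam ^ 1 := pow_le_pow_of_le_one hl.le hl1 (by omega)
      _ = lam := pow_one lam
  obtain ⟨η, hηd⟩ : ∃ η, η = et lam κ x := ⟨_, rfl⟩
  rw [← hηd] at hη
  have hη8 : η ≤ x ^ 8 * κ ^ 2 := by rw [hηd]; exact h.et_le
  have hη4 : lam ^ 4 ≤ η := by rw [hηd]; exact h.et_ge
  -- `M`
  obtain ⟨M, hM⟩ : ∃ M : ℕ, M = ⌈((3 : ℕ) : ℝ) * 2 ^ (3 + 1) / (ϑ * (K * κ))⌉₊ := ⟨_, rfl⟩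
  have hMlo : ((3 : ℕ) : ℝ) * 2 ^ (3 + 1) / (ϑ * (K * κ)) ≤ (M : ℝ) := by
    rw [hM]; exact Nat.le_ceil _
  have hMpos : (0 : ℝ) < M := lt_of_lt_of_le (by positivity) hMlo
  have hM1 : 1 ≤ M := by exact_mod_cast hMpos
  have hMhi : (M : ℝ) ≤ CM / κ := by
    have h1 : (M : ℝ) < ((3 : ℕ) : ℝ) * 2 ^ (3 + 1) / (ϑ * (K * κ)) + 1 := by
      rw [hM]; exact Nat.ceil_lt_add_one (by positivity)
    have h2 : ((3 : ℕ) : ℝ) * 2 ^ (3 + 1) / (ϑ * (K * κ)) ≤ ((3 : ℕ) : ℝ) * 2 ^ (3 + 1) / ϑ / κ := by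
      rw [div_div]
      gcongr
    have h3 : 1 ≤ 1 / κ := by rw [le_div_iff₀ hk]; linarith
    rw [hCM, add_div]
    linarith
  have hMσ : ((3 : ℕ) : ℝ) * (2 ^ (3 + 1) / (M : ℝ)) ≤ ϑ * (K * κ) := by
    rw [div_le_iff₀ (by positivity)] at hMlo
    rw [← mul_div_assoc, div_le_iff₀ hMpos]
    linarith
  have hinv : 1 / lam ^ 5 ≤ (L : ℝ) := by
    rw [div_le_iff₀ (by positivity)]
    linarith
  have hκinv : 1 / κ ≤ 1 / lam ^ 2 := by gcongr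
  have hM8 : 8 * (M : ℝ) ≤ L := by
    refine le_trans ?_ hinv
    rw [le_div_iff₀ (by positivity)]
    calc 8 * (M : ℝ) * lam ^ 5 ≤ 8 * (CM / κ) * lam ^ 5 := by gcongr
      _ = 8 * CM * (1 / κ) * lam ^ 5 := by ring
      _ ≤ 8 * CM * (1 / lam ^ 2) * lam ^ 5 := by gcongr
      _ = 8 * CM * lam * lam ^ 2 := by field_simp
      _ ≤ 8 * CM * x * 1 := by
          gcongr
          exact pow_le_one₀ hl.le hl1
      _ ≤ 1 := by linarith
  have hlamL : lam ≤ 1 / 5000 := by linarith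
  have hL5000 : 5000 / lam ^ 4 ≤ (L : ℝ) := by
    refine le_trans ?_ hinv
    rw [div_le_div_iff₀ (by positivity) (by positivity)]
    have : 0 < lam ^ 4 := by positivity
    calc 5000 * lam ^ 5 = (5000 * lam) * lam ^ 4 := by ring
      _ ≤ 1 * lam ^ 4 := by
          have : 5000 * lam ≤ 1 := by linarith
          gcongr
  have hL16 : (16 : ℝ) ≤ L := by
    refine le_trans ?_ hL5000
    rw [le_div_iff₀ (by positivity)]
    have : lam ^ 4 ≤ 1 := pow_le_one₀ hl.le hl1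
    linarith
  obtain ⟨Nt, hNt⟩ : ∃ Nt : ℕ, Nt = L / 8 := ⟨_, rfl⟩
  have hNt1 : (L : ℝ) / 16 ≤ Nt := by
    have h1 : L ≤ 8 * Nt + 7 := by omega
    have h2 : (L : ℝ) ≤ 8 * Nt + 7 := by exact_mod_cast h1
    linarith
  have hML : M ≤ L := by
    have h1 : 8 * M ≤ L := by exact_mod_cast hM8
    omega
  have hMN : 2 * (M + Nt) + 2 < L := by
    have h1 : 8 * M ≤ L := by exact_mod_cast hM8
    have h2 : 16 ≤ L := by exact_mod_cast hL16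
    omega
  -- the time
  obtain ⟨τ, hτ⟩ : ∃ τ : ℝ, τ = 1 / η := ⟨_, rfl⟩
  have hτ0 : 0 < τ := by rw [hτ]; positivity
  have hητ : η * τ = 1 := by rw [hτ]; field_simp
  have hτκ : τ * κ = x ^ 8 / lam ^ 2 := by
    rw [hτ, hηd]
    unfold et
    field_simp
  have hτ4 : τ ≤ 1 / lam ^ 4 := by rw [hτ]; gcongr
  have hqj : ∀ j < J, q0 ^ J ≤ q0 ^ j := fun j hj => pow_le_pow_of_le_one hq0.le hq1 hj.le
  have hqj1 : ∀ j : ℕ, q0 ^ j ≤ 1 := fun j => pow_le_one₀ hq0.le hq1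
  have hqJ : 0 < q0 ^ J := by positivity
  set R : ℕ := ⌊x ^ 16 / lam ^ 2⌋₊ with hR
  have hRhi : (R : ℝ) ≤ x ^ 16 / lam ^ 2 := Nat.floor_le (by positivity)
  have hMx : (M : ℝ) ≤ CM * x ^ 16 / lam ^ 2 := by
    refine hMhi.trans ?_
    rw [div_le_div_iff₀ hk (by positivity)]
    have := h.klo
    calc CM * lam ^ 2 ≤ CM * (κ * x ^ 16) := by gcongr
      _ = _ := by ring
  refine torus_main2 3 le_rfl L lam c0 mg θ ϑ K s e5 β ε κ τ q0 J M R Nt μ G hGm hG hθ0.le hε hJ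
    hK hJK hs hs1 he5.le hfin hk hKκ1 ?_ hϑ0 (by linarith) h.thv hϑK ?_ ?_ hM1 hML hMσ hτ0 hq0 hq1
    hq0s ?_ ?_ hMN ?_ ?_ hβ ?_ ?_
  · calc (K * κ) ^ 2 ≤ ϑ ^ 2 := by gcongr
      _ = ϑ * ϑ := by ring
      _ ≤ 4 * ϑ := by gcongr; linarith
  · have h1 := h.hm
    have h2 : x ^ 3 ≤ x := hpow 3 (by norm_num)
    calc 48 * mg ≤ 48 * (x ^ 3 * κ ^ 2) := by gcongr
      _ ≤ 48 * (x * κ ^ 2) := by gcongr
      _ = (48 * x) * κ ^ 2 := by ring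
      _ ≤ 1 * κ ^ 2 := by
          have : 48 * x ≤ 1 := by linarith
          gcongr
      _ = κ ^ 2 := one_mul _
  · have h1 := h.hm
    have h2 : x ^ 3 ≤ x := hpow 3 (by norm_num)
    have z5 := h.z5
    have h3 := h.thv
    calc mg ≤ x ^ 3 * κ ^ 2 := h1
      _ ≤ x * κ ^ 2 := by gcongr
      _ ≤ ϑ * κ ^ 2 := by
          have : x ≤ ϑ := by linarith
          gcongr
  · intro j hj
    have e1 : τ * q0 ^ j * s * κ / (2 * ((3 : ℕ) : ℝ)) = (τ * κ) * (q0 ^ j * s) / 6 := by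
      push_cast
      ring
    rw [e1, hτκ]
    calc 2 * ((R : ℝ) + M) ≤ 2 * (x ^ 16 / lam ^ 2 + CM * x ^ 16 / lam ^ 2) := by gcongr
      _ = (12 * (1 + CM) * x ^ 8) * (x ^ 8 / lam ^ 2) / 6 := by
          field_simp
          ring
      _ ≤ (12 * (1 + CM) * x) * (x ^ 8 / lam ^ 2) / 6 := by
          have := hpow 8 (by norm_num)
          gcongr
      _ ≤ (q0 ^ J * s) * (x ^ 8 / lam ^ 2) / 6 := by gcongr
      _ ≤ (q0 ^ j * s) * (x ^ 8 / lam ^ 2) / 6 := by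
          have := hqj j hj
          gcongr
      _ = _ := by ring
  · have h1 : 1 / x ≤ κ * L := by
      have h2 : 1 / x ≤ lam ^ 2 * L := by
        rw [div_le_iff₀ hx]
        calc (1 : ℝ) ≤ lam ^ 5 * L := L5
          _ = (lam * lam ^ 2) * (lam ^ 2 * L) := by ring
          _ ≤ (x * 1) * (lam ^ 2 * L) := by
              gcongr
              exact pow_le_one₀ hl.le hl1
          _ = _ := by ring
      refine h2.trans ?_
      gcongr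
    calc (2 : ℝ) = (2 * x) * (1 / x) := by field_simp
      _ ≤ s * (κ * L) := by gcongr
      _ = _ := by ring
  · refine le_trans ?_ hNt1
    have e1 : 24 * ((4 * ((3 : ℕ) : ℝ) + 1) * τ) = 312 * τ := by push_cast; ring
    rw [e1]
    have h1 : 5000 * τ ≤ L := by
      refine le_trans ?_ hL5000
      calc 5000 * τ ≤ 5000 * (1 / lam ^ 4) := by gcongr
        _ = _ := by ring
    linarith
  · refine par_tail 3 L ϑ (1 / lam ^ 2) (K * κ) Nt hϑ0 (by positivity) ?_ ?_ hNt1 ?_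
    · rw [le_div_iff₀ (by positivity)]
      have h1 : lam ^ 2 ≤ x := by
        calc lam ^ 2 ≤ lam ^ 1 := pow_le_pow_of_le_one hl.le hl1 (by norm_num)
          _ = lam := pow_one lam
          _ ≤ x := hlx
      calc 18874368 * ((3 : ℕ) : ℝ) / ϑ * lam ^ 2 ≤ 18874368 * ((3 : ℕ) : ℝ) / ϑ * x := by gcongr
        _ ≤ 1 := v4
    · refine le_trans ?_ hinv
      apply one_div_le_one_div_of_le (by positivity)
      exact pow_le_pow_of_le_one hl.le hl1 (by norm_num)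
    · rw [one_div_one_div]
      exact hkl.trans hκK'
  · -- the mean deviation
    intro j hj q hq1' hq2'
    have htj0 : 0 < τ * q0 ^ j := by positivity
    have hηtj : η * (τ * q0 ^ j) = q0 ^ j := by rw [← mul_assoc, hητ, one_mul]
    refine pk_avg L μ lam c0 mg θ ϑ κ K s s1 K1 η β (4 * A * (2 * K1) * x) x (τ * q0 ^ j) M G hGm
      hG h.m0 hθ0.le hk hK hϑ0 (by linarith) hs hs10 (hs11.trans hK11) hη hβ (by positivity)
      hx.le htj0 ?_ hM1 hML hMσ ?_ ?_ q hq1' hq2'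
    · rw [hηtj]
      exact hqj1 j
    · intro e he
      rw [hηd]
      refine var_ok μ G h hGm hG hGG hIN hRC e ?_ ?_
      · refine le_trans ?_ he.1
        have : 0 ≤ (s1 * κ) ^ 2 := by positivity
        calc (s1 / 2 * κ) ^ 2 = (s1 * κ) ^ 2 / 4 := by ring
          _ ≤ _ := by linarith
      · refine he.2.trans ?_
        have : 0 ≤ (K1 * κ) ^ 2 := by positivity
        calc 2 * (K1 * κ) ^ 2 ≤ 4 * (K1 * κ) ^ 2 := by linarith
          _ = _ := by ring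
    · rw [hηtj]
      have d1 : 2 * (4 * (2 * (K * κ) ^ 2) + 12 * mg) / (K1 * κ) ^ 2 ≤ q0 ^ J * β ^ 2 / 128 := by
        refine le_trans ?_ c1
        have h1 : mg ≤ κ ^ 2 := by
          refine h.hm.trans ?_
          have h3 : x ^ 3 ≤ 1 := pow_le_one₀ hx.le hx1
          calc x ^ 3 * κ ^ 2 ≤ 1 * κ ^ 2 := by gcongr
            _ = κ ^ 2 := one_mul _
        calc 2 * (4 * (2 * (K * κ) ^ 2) + 12 * mg) / (K1 * κ) ^ 2 ≤
            2 * (4 * (2 * (K * κ) ^ 2) + 12 * κ ^ 2) / (K1 * κ) ^ 2 := by gcongr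
          _ = _ := by
              field_simp
              ring
      have d2 : ((s1 * κ + 2 ^ (3 + 1) / (M : ℝ)) / (s * κ / 2) + θ) ^ 2 ≤
          q0 ^ J * β ^ 2 / 128 := by
        refine le_trans ?_ c3
        have h1 : 2 ^ (3 + 1) / (M : ℝ) ≤ ϑ * (K * κ) / 3 := by
          push_cast at hMσ
          linarith
        have h2 : (s1 * κ + 2 ^ (3 + 1) / (M : ℝ)) / (s * κ / 2) ≤
            (s1 + ϑ * K / 3) / (s / 2) := by
          calc (s1 * κ + 2 ^ (3 + 1) / (M : ℝ)) / (s * κ / 2) ≤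
              (s1 * κ + ϑ * (K * κ) / 3) / (s * κ / 2) := by gcongr
            _ = _ := by field_simp
        gcongr
      have d3 : 2 * η / ((s1 * κ) ^ 2 / 2) ≤ q0 ^ J * β ^ 2 / 128 := by
        refine le_trans ?_ v8
        calc 2 * η / ((s1 * κ) ^ 2 / 2) ≤ 2 * (x ^ 8 * κ ^ 2) / ((s1 * κ) ^ 2 / 2) := by gcongr
          _ = 4 * x ^ 8 / s1 ^ 2 := by field_simp; ring
          _ ≤ 4 * x / s1 ^ 2 := by
              have := hpow 8 (by norm_num)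
              gcongr
      have d4 : x * η * (2 * (K1 * κ) ^ 2) ≤ q0 ^ J * β ^ 2 / 128 := by
        refine le_trans ?_ v7
        have h1 : η ≤ 1 := by
          refine hη8.trans ?_
          have h3 : x ^ 8 ≤ 1 := pow_le_one₀ hx.le hx1
          have h4 : κ ^ 2 ≤ 1 := pow_le_one₀ hk.le hκ1
          calc x ^ 8 * κ ^ 2 ≤ 1 * 1 := by gcongr
            _ = 1 := by norm_num
        have h2 : 2 * (K1 * κ) ^ 2 ≤ 1 := by
          have h3 := h.k2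
          have h4 : (2 * K1 * κ) ^ 2 ≤ 1 := pow_le_one₀ (by positivity) h3
          have h5 : 0 ≤ (K1 * κ) ^ 2 := by positivity
          have h6 : (2 * K1 * κ) ^ 2 = 4 * (K1 * κ) ^ 2 := by ring
          linarith
        calc x * η * (2 * (K1 * κ) ^ 2) ≤ x * 1 * 1 := by gcongr
          _ = x := by ring
      have d5 : q0 ^ J * β ^ 2 ≤ q0 ^ j * β ^ 2 := by
        have := hqj j hj
        gcongr
      linarith
  · intro j hj
    refine par_err 3 J j _ ϑ τ q0 s κ K M β e5 CM (x ^ 8) 1 (by norm_num) ?_ hϑ0 hτ0 hq0 hs hk hκ1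
      (Nat.cast_nonneg M) hMhi one_pos (by positivity) ?_ (hqj j hj) hE1 ?_
    · linarith
    · rw [hτ, mul_one_div, div_le_div_iff₀ (by positivity) hη]
      linarith
    · refine le_trans ?_ v5
      have h1 : (x ^ 8 / (1 * q0 ^ J)) ^ 2 ≤ x / (q0 ^ J) ^ 2 := by
        rw [one_mul, div_pow, ← pow_mul]
        have := hpow (8 * 2) (by norm_num)
        gcongr
      gcongr

end Pool.Agent.V8H95.NM
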