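import Pool.Agent.V8H95.NM.Tm4

/-!
The energies of a wave packet.
-/

set_option autoImplicit false
set_option linter.unusedSectionVars false
set_option linter.unusedVariables false

open Complex MeasureTheory
open scoped BigOperators ComplexConjugate

namespace Pool.Agent.V8H95.NM

open Pool.Agent.H4R2.AE Pool.Agent.V8H99.AD Pool.Agent.V8H95.MF Pool.Agent.V8H95.BW
open Pool.Agent.V8H95.EF

variable {d L : ℕ} [NeZero L]

section
variable {lam c0 θ m : ℝ} {V ψ : T d L → ℝ} (b : OrthonormalBasis (T d L) ℂ (XT d L))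
  (E : T d L → ℝ) (hb : ∀ α, HC lam V (b α) = ((E α : ℝ) : ℂ) • b α)
include hb

/-- the large energies in the packet -/
theorem pk_high (h : Gd lam c0 θ m V ψ) (u : XT d L) (e2 kk : ℝ) (he2 : 0 < e2)
    (hk : Dir (fun y => u y) ≤ kk * ‖u‖ ^ 2) :
    ∑ α, (if E α ≤ c0 + e2 then 0 else ‖(inner ℂ (b α) u : ℂ)‖ ^ 2) ≤
      (2 * (4 * kk + 12 * m) / e2 + 2 * θ ^ 2) * ‖u‖ ^ 2 := by
  have h1 : ∀ α, (if E α ≤ c0 + e2 then 0 else ‖(inner ℂ (b α) u : ℂ)‖ ^ 2) ≤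
      2 / e2 * ((E α - c0) * ‖(inner ℂ (b α) (Mu ψ u) : ℂ)‖ ^ 2) +
        2 * ‖(inner ℂ (b α) (u - Mu ψ u) : ℂ)‖ ^ 2 := by
    intro α
    have hE := E_ge b E hb h α
    have hE0 : 0 ≤ E α - c0 := by linarith
    split_ifs with hα
    · positivity
    · push Not at hα
      have e : (inner ℂ (b α) u : ℂ) = inner ℂ (b α) (Mu ψ u) + inner ℂ (b α) (u - Mu ψ u) := by
        rw [← inner_add_right]
        congr 1
        abel
      have h2 := norm_add_le (inner ℂ (b α) (Mu ψ u) : ℂ) (inner ℂ (b α) (u - Mu ψ u))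
      rw [← e] at h2
      have h3 := pow_le_pow_left₀ (norm_nonneg _) h2 2
      have h4 : ‖(inner ℂ (b α) (Mu ψ u) : ℂ)‖ ^ 2 ≤
          1 / e2 * ((E α - c0) * ‖(inner ℂ (b α) (Mu ψ u) : ℂ)‖ ^ 2) := by
        rw [one_div, inv_mul_eq_div, le_div_iff₀ he2]
        have : 0 ≤ ‖(inner ℂ (b α) (Mu ψ u) : ℂ)‖ ^ 2 := by positivity
        nlinarith
      have e4 : 2 / e2 * ((E α - c0) * ‖(inner ℂ (b α) (Mu ψ u) : ℂ)‖ ^ 2) =
          2 * (1 / e2 * ((E α - c0) * ‖(inner ℂ (b α) (Mu ψ u) : ℂ)‖ ^ 2)) := by ring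
      rw [e4]
      nlinarith [sq_nonneg (‖(inner ℂ (b α) (Mu ψ u) : ℂ)‖ - ‖(inner ℂ (b α) (u - Mu ψ u) : ℂ)‖)]
  refine (Finset.sum_le_sum fun α _ => h1 α).trans ?_
  rw [Finset.sum_add_distrib, ← Finset.mul_sum, ← Finset.mul_sum, mass_b b E hb, ← expand b E hb]
  have h2 := energy_le h u
  have h3 := pow_le_pow_left₀ (norm_nonneg _) (mu_close h u) 2
  have hm := mpos h
  calc 2 / e2 * (inner ℂ (Mu ψ u) (HC lam V (Mu ψ u) - ((c0 : ℝ) : ℂ) • Mu ψ u)).re +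
        2 * ‖u - Mu ψ u‖ ^ 2 ≤
      2 / e2 * (4 * (kk * ‖u‖ ^ 2) + 12 * m * ‖u‖ ^ 2) + 2 * (θ * ‖u‖) ^ 2 := by
        have h4 : (inner ℂ (Mu ψ u) (HC lam V (Mu ψ u) - ((c0 : ℝ) : ℂ) • Mu ψ u)).re ≤
            4 * (kk * ‖u‖ ^ 2) + 12 * m * ‖u‖ ^ 2 := by linarith
        gcongr
    _ = _ := by ring

/-- the small energies in the packet -/
theorem pk_low (h : Gd lam c0 θ m V ψ) (u : XT d L) (e1 σ w : ℝ) (he1 : 0 ≤ e1) (hσ : 0 ≤ σ)
    (hw : 0 < w) (i : Fin d) (ω : ℂ) (hω : w ≤ ‖ω - 1‖)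
    (hmom : ‖Sh i u - ω • u‖ ≤ σ * ‖u‖) :
    ∑ α, (if c0 + e1 ≤ E α then 0 else ‖(inner ℂ (b α) u : ℂ)‖ ^ 2) ≤
      ((√e1 + σ) / w + θ) ^ 2 * ‖u‖ ^ 2 := by
  classical
  set S : Finset (T d L) := Finset.univ.filter fun α => ¬ (c0 + e1 ≤ E α) with hS
  set f : XT d L := ∑ α ∈ S, (inner ℂ (b α) u : ℂ) • b α with hf
  have hin : ∀ α, (inner ℂ (b α) f : ℂ) = if α ∈ S then (inner ℂ (b α) u : ℂ) else 0 := by
    intro α
    rw [hf, inner_sum]
    have : ∀ β ∈ S, (inner ℂ (b α) ((inner ℂ (b β) u : ℂ) • b β) : ℂ) =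
        if α = β then (inner ℂ (b β) u : ℂ) else 0 := by
      intro β _
      rw [inner_smul_right, b.inner_eq_ite]
      split_ifs <;> simp
    rw [Finset.sum_congr rfl this, Finset.sum_ite_eq]
  have hfn : ‖f‖ ^ 2 = ∑ α, (if c0 + e1 ≤ E α then 0 else ‖(inner ℂ (b α) u : ℂ)‖ ^ 2) := by
    rw [← mass_b b E hb]
    refine Finset.sum_congr rfl fun α _ => ?_
    rw [hin]
    by_cases hα : c0 + e1 ≤ E α
    · have : α ∉ S := by rw [hS, Finset.mem_filter]; tauto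
      rw [if_neg this, if_pos hα]
      simp
    · have : α ∈ S := by rw [hS, Finset.mem_filter]; exact ⟨Finset.mem_univ _, hα⟩
      rw [if_pos this, if_neg hα]
  rw [← hfn]
  have hfu : (inner ℂ f u : ℂ) = ((‖f‖ ^ 2 : ℝ) : ℂ) := by
    rw [hfn, hf, sum_inner, Complex.ofReal_sum, hS, Finset.sum_filter]
    refine Finset.sum_congr rfl fun α _ => ?_
    rw [inner_smul_left]
    by_cases hα : c0 + e1 ≤ E α
    · simp [hα]
    · rw [if_pos hα, if_neg hα, ← Complex.normSq_eq_norm_sq, Complex.normSq_eq_conj_mul_self]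
  -- the energy
  set g : XT d L := und ψ f with hg
  have hdir : Dir (fun y => g y) ≤ e1 * ‖f‖ ^ 2 := by
    have h1 := dir_le' h g
    rw [hg, mu_und h, expand b E hb] at h1
    refine h1.trans ?_
    rw [← mass_b b E hb f, Finset.mul_sum]
    refine Finset.sum_le_sum fun α _ => ?_
    by_cases hα : α ∈ S
    · apply mul_le_mul_of_nonneg_right _ (by positivity)
      rw [hS, Finset.mem_filter] at hα
      have := hα.2
      push Not at this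
      linarith
    · rw [hin, if_neg hα]
      simp
  have hgn : ‖g‖ ≤ ‖f‖ := und_norm h f
  have hsh : ‖Sh i g - g‖ ≤ √e1 * ‖f‖ := by
    refine (sh_le_dir g i).trans ?_
    rw [Real.sqrt_le_left (by positivity), mul_pow, Real.sq_sqrt he1]
    exact hdir
  have key : w * ‖(inner ℂ g u : ℂ)‖ ≤ (√e1 + σ) * (‖f‖ * ‖u‖) := by
    have e : (ω - 1) * (inner ℂ g u : ℂ) = inner ℂ (g - Sh i g) (Sh i u) -
        inner ℂ g (Sh i u - ω • u) := by
      rw [inner_sub_left, inner_sub_right, inner_smul_right, Sh_inner]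
      ring
    have h1 : ‖(ω - 1) * (inner ℂ g u : ℂ)‖ ≤ √e1 * ‖f‖ * ‖u‖ + ‖f‖ * (σ * ‖u‖) := by
      rw [e]
      refine (norm_sub_le _ _).trans (add_le_add ?_ ?_)
      · refine (norm_inner_le_norm _ _).trans ?_
        rw [norm_sub_rev, Sh_norm]
        gcongr
      · refine (norm_inner_le_norm _ _).trans ?_
        gcongr
    rw [norm_mul] at h1
    calc w * ‖(inner ℂ g u : ℂ)‖ ≤ ‖ω - 1‖ * ‖(inner ℂ g u : ℂ)‖ := by gcongr
      _ ≤ _ := h1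
      _ = _ := by ring
  have h2 : ‖(inner ℂ g u : ℂ)‖ ≤ (√e1 + σ) / w * (‖f‖ * ‖u‖) := by
    rw [div_mul_eq_mul_div, le_div_iff₀ hw]
    linarith
  have h3 : ‖f‖ ^ 2 ≤ ((√e1 + σ) / w + θ) * (‖f‖ * ‖u‖) := by
    have e : (inner ℂ f u : ℂ) = inner ℂ g u + inner ℂ (f - g) u := by
      rw [inner_sub_left]; ring
    have h4 : ‖(inner ℂ f u : ℂ)‖ = ‖f‖ ^ 2 := by
      rw [hfu, Complex.norm_real, Real.norm_of_nonneg (by positivity)]
    rw [← h4, e]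
    refine (norm_add_le _ _).trans ?_
    have h5 : ‖(inner ℂ (f - g) u : ℂ)‖ ≤ θ * ‖f‖ * ‖u‖ := by
      refine (norm_inner_le_norm _ _).trans ?_
      have := und_close h f
      rw [← hg] at this
      gcongr
    calc _ ≤ (√e1 + σ) / w * (‖f‖ * ‖u‖) + θ * ‖f‖ * ‖u‖ := add_le_add h2 h5
      _ = _ := by ring
  have hc : 0 ≤ (√e1 + σ) / w + θ := by
    have := h.h0
    positivity
  have h4 : ‖f‖ ≤ ((√e1 + σ) / w + θ) * ‖u‖ := by
    rcases (norm_nonneg f).eq_or_lt with h0 | h0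
    · rw [← h0]; positivity
    · have h5 : ‖f‖ * ‖f‖ ≤ ‖f‖ * (((√e1 + σ) / w + θ) * ‖u‖) := by
        rw [← pow_two]
        refine h3.trans (le_of_eq (by ring))
      exact le_of_mul_le_mul_left h5 h0
  have h5 := pow_le_pow_left₀ (norm_nonneg _) h4 2
  rw [mul_pow] at h5
  exact h5

/-- **the energies of a packet** -/
theorem pk_out (h : Gd lam c0 θ m V ψ) (u : XT d L) (e1 e2 kk σ w : ℝ) (he1 : 0 ≤ e1)
    (he2 : 0 < e2) (hk : Dir (fun y => u y) ≤ kk * ‖u‖ ^ 2) (hσ : 0 ≤ σ)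
    (hw : 0 < w) (i : Fin d) (ω : ℂ) (hω : w ≤ ‖ω - 1‖)
    (hmom : ‖Sh i u - ω • u‖ ≤ σ * ‖u‖) :
    ∑ α, (if c0 + e1 ≤ E α ∧ E α ≤ c0 + e2 then 0 else ‖(inner ℂ (b α) u : ℂ)‖ ^ 2) ≤
      ((2 * (4 * kk + 12 * m) / e2 + 2 * θ ^ 2) + ((√e1 + σ) / w + θ) ^ 2) * ‖u‖ ^ 2 := by
  have h1 := pk_high b E hb h u e2 kk he2 hk
  have h2 := pk_low b E hb h u e1 σ w he1 hσ hw i ω hω hmom
  rw [add_mul]
  refine le_trans ?_ (add_le_add h1 h2)
  rw [← Finset.sum_add_distrib]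
  refine Finset.sum_le_sum fun α _ => ?_
  have hn : 0 ≤ ‖(inner ℂ (b α) u : ℂ)‖ ^ 2 := by positivity
  by_cases ha : c0 + e1 ≤ E α <;> by_cases hc : E α ≤ c0 + e2 <;> simp [ha, hc]

end

end Pool.Agent.V8H95.NM
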