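import Pool.Agent.V8H95.NM.Res

/-!
The moments of the local density of states: a recursion.
-/

set_option autoImplicit false
set_option linter.unusedSectionVars false

open Complex MeasureTheory
open scoped BigOperators ComplexConjugate

namespace Pool.Agent.V8H95.NM

open Pool.Agent.H4R2.AE Pool.Agent.V8H99.AD Pool.Agent.V8H95.MF Pool.Agent.V8H95.BW
open Pool.Agent.V8H95.EF

theorem key_c (v : ℝ) (a c : ℂ) (X0 Xy lam : ℝ) (hv : |v| ≤ lam) (h1 : lam * ‖a‖ ≤ 1 / 2)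
    (h2 : lam * ‖c‖ ≤ 1 / 2) (hc : c.im = Xy) (hXy : 0 ≤ Xy) (ha : a.im ^ 2 ≤ X0 * Xy) :
    (((v : ℂ) / (1 + v * c) * a * a).im) ^ 2 ≤ 24 * lam ^ 2 * ‖a‖ ^ 2 * (X0 ^ 2 + Xy ^ 2) := by
  have hlam : 0 ≤ lam := (abs_nonneg _).trans hv
  have hvc : ‖(v : ℂ) * c‖ ≤ 1 / 2 := by
    rw [norm_mul, Complex.norm_real, Real.norm_eq_abs]
    calc |v| * ‖c‖ ≤ lam * ‖c‖ := by gcongr
      _ ≤ 1 / 2 := h2
  set D : ℂ := 1 + v * c with hD
  have hDn : 1 / 2 ≤ ‖D‖ := by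
    have h3 := norm_sub_le_norm_add (1 : ℂ) ((v : ℂ) * c)
    rw [norm_one] at h3
    linarith
  have hD0 : D ≠ 0 := by
    intro h0
    rw [h0, norm_zero] at hDn
    norm_num at hDn
  set w : ℂ := D⁻¹ with hw
  have hwn : ‖w‖ ≤ 2 := by
    rw [hw, norm_inv]
    rw [inv_le_comm₀ (by linarith) (by norm_num)]
    linarith
  have hwim : |w.im| ≤ 4 * lam * Xy := by
    have h4 : w.im = -(v * Xy) / normSq D := by
      rw [hw, Complex.inv_im, hD]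
      simp [hc]
    rw [h4, abs_div, abs_neg, abs_mul, abs_of_nonneg hXy, abs_of_nonneg (normSq_nonneg _),
      Complex.normSq_eq_norm_sq]
    have h5 : 1 / 4 ≤ ‖D‖ ^ 2 := by nlinarith
    rw [div_le_iff₀ (by positivity)]
    have h6 : |v| * Xy ≤ lam * Xy := by gcongr
    have h7 : 0 ≤ lam * Xy := by positivity
    nlinarith
  have e1 : ((v : ℂ) / D * a * a).im = v * (w * (a * a)).im := by
    have : (v : ℂ) / D * a * a = (v : ℂ) * (w * (a * a)) := by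
      rw [hw, div_eq_mul_inv]
      ring
    rw [this, Complex.im_ofReal_mul]
  have e2 : |(w * (a * a)).im| ≤ 4 * ‖a‖ * |a.im| + 2 * Xy * ‖a‖ := by
    rw [Complex.mul_im]
    have h3 : |w.re * (a * a).im| ≤ 2 * (2 * ‖a‖ * |a.im|) := by
      rw [abs_mul]
      have h4 : |w.re| ≤ 2 := (Complex.abs_re_le_norm _).trans hwn
      have h5 : |(a * a).im| ≤ 2 * ‖a‖ * |a.im| := by
        rw [Complex.mul_im]
        have : a.re * a.im + a.im * a.re = 2 * a.re * a.im := by ring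
        rw [this, abs_mul, abs_mul, abs_two]
        gcongr
        exact Complex.abs_re_le_norm _
      gcongr
    have h4 : |w.im * (a * a).re| ≤ 2 * Xy * ‖a‖ := by
      rw [abs_mul]
      have h5 : |(a * a).re| ≤ ‖a‖ * ‖a‖ := by
        rw [← norm_mul]
        exact Complex.abs_re_le_norm _
      calc |w.im| * |(a * a).re| ≤ (4 * lam * Xy) * (‖a‖ * ‖a‖) := by gcongr
        _ = 4 * (lam * ‖a‖) * (Xy * ‖a‖) := by ring
        _ ≤ 4 * (1 / 2) * (Xy * ‖a‖) := by gcongr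
        _ = _ := by ring
    refine (abs_add_le _ _).trans ?_
    linarith
  rw [e1, mul_pow, ← sq_abs (w * (a * a)).im, ← sq_abs v]
  have h3 : |v| ^ 2 ≤ lam ^ 2 := pow_le_pow_left₀ (abs_nonneg _) hv 2
  have h4 : |(w * (a * a)).im| ^ 2 ≤ 24 * ‖a‖ ^ 2 * (X0 ^ 2 + Xy ^ 2) := by
    have h5 := pow_le_pow_left₀ (abs_nonneg _) e2 2
    have h6 : (4 * ‖a‖ * |a.im| + 2 * Xy * ‖a‖) ^ 2 ≤
        2 * (4 * ‖a‖ * |a.im|) ^ 2 + 2 * (2 * Xy * ‖a‖) ^ 2 := by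
      nlinarith [sq_nonneg (4 * ‖a‖ * |a.im| - 2 * Xy * ‖a‖)]
    have h7 : (4 * ‖a‖ * |a.im|) ^ 2 ≤ 16 * ‖a‖ ^ 2 * (X0 * Xy) := by
      calc (4 * ‖a‖ * |a.im|) ^ 2 = 16 * ‖a‖ ^ 2 * |a.im| ^ 2 := by ring
        _ = 16 * ‖a‖ ^ 2 * a.im ^ 2 := by rw [sq_abs]
        _ ≤ _ := by gcongr
    have h8 : X0 * Xy ≤ (X0 ^ 2 + Xy ^ 2) / 2 := by nlinarith [sq_nonneg (X0 - Xy)]
    have h9 : 16 * ‖a‖ ^ 2 * (X0 * Xy) ≤ 16 * ‖a‖ ^ 2 * ((X0 ^ 2 + Xy ^ 2) / 2) := by gcongr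
    have h10 : (2 * Xy * ‖a‖) ^ 2 = 4 * ‖a‖ ^ 2 * Xy ^ 2 := by ring
    have h11 : 0 ≤ ‖a‖ ^ 2 * X0 ^ 2 := by positivity
    nlinarith
  calc |v| ^ 2 * |(w * (a * a)).im| ^ 2 ≤ lam ^ 2 * (24 * ‖a‖ ^ 2 * (X0 ^ 2 + Xy ^ 2)) := by
        gcongr
    _ = _ := by ring

/-- weighted power mean -/
theorem wpow {ι : Type*} (s : Finset ι) (A B : ι → ℝ) (hA : ∀ i ∈ s, 0 ≤ A i)
    (hB : ∀ i ∈ s, 0 ≤ B i) (n : ℕ) :
    (∑ i ∈ s, A i * B i) ^ (n + 1) ≤ (∑ i ∈ s, A i) ^ n * ∑ i ∈ s, A i * B i ^ (n + 1) := by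
  set S := ∑ i ∈ s, A i with hS
  have hS0 : 0 ≤ S := Finset.sum_nonneg hA
  rcases eq_or_lt_of_le hS0 with h0 | h0
  · have h1 : ∀ i ∈ s, A i = 0 := (Finset.sum_eq_zero_iff_of_nonneg hA).1 h0.symm
    have h2 : ∑ i ∈ s, A i * B i = 0 := Finset.sum_eq_zero fun i hi => by rw [h1 i hi, zero_mul]
    have h3 : ∑ i ∈ s, A i * B i ^ (n + 1) = 0 :=
      Finset.sum_eq_zero fun i hi => by rw [h1 i hi, zero_mul]
    rw [h2, h3]
    simp
  · have h1 := Real.pow_arith_mean_le_arith_mean_pow s (fun i => A i / S) B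
      (fun i hi => div_nonneg (hA i hi) hS0) (by rw [← Finset.sum_div, div_self h0.ne']) hB (n + 1)
    have e1 : ∑ i ∈ s, A i / S * B i = (∑ i ∈ s, A i * B i) / S := by
      rw [Finset.sum_div]
      exact Finset.sum_congr rfl fun i _ => by ring
    have e2 : ∑ i ∈ s, A i / S * B i ^ (n + 1) = (∑ i ∈ s, A i * B i ^ (n + 1)) / S := by
      rw [Finset.sum_div]
      exact Finset.sum_congr rfl fun i _ => by ring
    rw [e1, e2, div_pow, div_le_div_iff₀ (by positivity) h0] at h1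
    have h2 : (∑ i ∈ s, A i * B i) ^ (n + 1) * S ≤
        (S ^ n * ∑ i ∈ s, A i * B i ^ (n + 1)) * S := by
      refine h1.trans (le_of_eq ?_)
      ring
    exact le_of_mul_le_mul_right h2 h0

variable {d L : ℕ} [NeZero L]

/-- the good potentials for the energy `z` -/
def Om (lam : ℝ) (z : ℂ) (V : T d L → ℝ) : Prop :=
  (∀ x, |V x| ≤ 1) ∧ ∀ x y, lam * ‖GG lam z x y V‖ ≤ 1 / 2

theorem sf_pt (lam : ℝ) (hlam : 0 ≤ lam) {z : ℂ} (hz : 0 < z.im) (V : T d L → ℝ)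
    (hV : Om lam z V) (x0 : T d L) :
    SF 0 (XX lam z x0) V ≤ 24 * lam ^ 2 * ∑ y, ‖GG lam z x0 y V‖ ^ 2 *
      (XX lam z x0 V ^ 2 + XX lam z y V ^ 2) := by
  unfold SF
  rw [Finset.mul_sum]
  refine Finset.sum_le_sum fun y _ => ?_
  have hv : |lam * (0 - V y)| ≤ lam := by
    rw [abs_mul, abs_of_nonneg hlam, zero_sub, abs_neg]
    calc lam * |V y| ≤ lam * 1 := by gcongr; exact hV.1 y
      _ = lam := mul_one _
  have h1 : ‖((lam * (0 - V y) : ℝ) : ℂ) * GG lam z y y V‖ ≤ 1 / 2 := by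
    rw [norm_mul, Complex.norm_real, Real.norm_eq_abs]
    calc |lam * (0 - V y)| * ‖GG lam z y y V‖ ≤ lam * ‖GG lam z y y V‖ := by gcongr
      _ ≤ 1 / 2 := hV.2 y y
  obtain ⟨hne, h2⟩ := GT_update lam 0 hz.ne' V y (es x0) h1
  have h3 : GG lam z x0 x0 (Function.update V y 0) = GG lam z x0 x0 V -
      ((lam * (0 - V y) : ℝ) : ℂ) / (1 + ((lam * (0 - V y) : ℝ) : ℂ) * GG lam z y y V) *
        GG lam z x0 y V * GG lam z x0 y V := by
    have h4 := congrArg (fun f : XT d L => f x0) h2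
    simp only [PiLp.sub_apply, PiLp.smul_apply, smul_eq_mul] at h4
    have e1 : (GT lam V z (es x0)) y = GG lam z x0 y V := GG_symm lam hz.ne' y x0 V
    have e2 : (GT lam V z (es y)) x0 = GG lam z x0 y V := rfl
    rw [e1, e2] at h4
    exact h4
  have h5 : XX lam z x0 V - XX lam z x0 (Function.update V y 0) =
      (((lam * (0 - V y) : ℝ) : ℂ) / (1 + ((lam * (0 - V y) : ℝ) : ℂ) * GG lam z y y V) *
        GG lam z x0 y V * GG lam z x0 y V).im := by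
    unfold XX
    rw [h3, Complex.sub_im]
    ring
  rw [h5]
  have h6 := key_c (lam * (0 - V y)) (GG lam z x0 y V) (GG lam z y y V) (XX lam z x0 V)
    (XX lam z y V) lam hv (hV.2 x0 y) (hV.2 y y) rfl (XX_nonneg lam hz y V)
    (im_off lam hz x0 y V)
  refine h6.trans (le_of_eq ?_)
  ring

theorem pow_mix (a b : ℝ) (ha : 0 ≤ a) (hb : 0 ≤ b) (m n : ℕ) :
    a ^ m * b ^ n ≤ a ^ (m + n) + b ^ (m + n) := by
  rcases le_total a b with h | h
  · have h1 : a ^ m * b ^ n ≤ b ^ m * b ^ n := by gcongr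
    have h2 : 0 ≤ a ^ (m + n) := by positivity
    rw [← pow_add] at h1
    linarith
  · have h1 : a ^ m * b ^ n ≤ a ^ m * a ^ n := by gcongr
    have h2 : 0 ≤ b ^ (m + n) := by positivity
    rw [← pow_add] at h1
    linarith

theorem sf_pow (lam : ℝ) (hlam : 0 ≤ lam) {z : ℂ} (hz : 0 < z.im) (V : T d L → ℝ)
    (hV : Om lam z V) (x0 : T d L) (n : ℕ) :
    SF 0 (XX lam z x0) V ^ (n + 1) ≤ (48 * lam ^ 2) ^ (n + 1) * (1 / z.im) ^ n *
      ∑ y, ‖GG lam z x0 y V‖ ^ 2 *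
        (2 * XX lam z x0 V ^ (3 * n + 2) + XX lam z y V ^ (3 * n + 2)) := by
  have hX := XX_nonneg lam hz (V := V) (d := d) (L := L)
  have h1 := pow_le_pow_left₀ (SF_nonneg 0 _ V) (sf_pt lam hlam hz V hV x0) (n + 1)
  refine h1.trans ?_
  rw [mul_pow]
  have h2 := wpow (Finset.univ : Finset (T d L)) (fun y => ‖GG lam z x0 y V‖ ^ 2)
    (fun y => XX lam z x0 V ^ 2 + XX lam z y V ^ 2) (fun _ _ => by positivity)
    (fun _ _ => by positivity) n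
  rw [sum_GG lam hz] at h2
  have h3 : ∀ y, (XX lam z x0 V / z.im) ^ n * (‖GG lam z x0 y V‖ ^ 2 *
      (XX lam z x0 V ^ 2 + XX lam z y V ^ 2) ^ (n + 1)) ≤ 2 ^ (n + 1) * (1 / z.im) ^ n *
        (‖GG lam z x0 y V‖ ^ 2 *
          (2 * XX lam z x0 V ^ (3 * n + 2) + XX lam z y V ^ (3 * n + 2))) := by
    intro y
    set a := XX lam z x0 V with ha
    set b := XX lam z y V with hb
    have ha0 : 0 ≤ a := hX x0
    have hb0 : 0 ≤ b := hX y
    have h4 : (a ^ 2 + b ^ 2) ^ (n + 1) ≤ 2 ^ (n + 1) * (a ^ (2 * (n + 1)) + b ^ (2 * (n + 1))) := by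
      refine (add_pow_le (sq_nonneg a) (sq_nonneg b) (n + 1)).trans ?_
      rw [← pow_mul, ← pow_mul]
      gcongr
      · norm_num
      · omega
    have h5 : a ^ n * (a ^ (2 * (n + 1)) + b ^ (2 * (n + 1))) ≤
        2 * a ^ (3 * n + 2) + b ^ (3 * n + 2) := by
      have h6 := pow_mix a b ha0 hb0 n (2 * (n + 1))
      have e1 : n + 2 * (n + 1) = 3 * n + 2 := by ring
      rw [e1] at h6
      have h7 : a ^ n * a ^ (2 * (n + 1)) = a ^ (3 * n + 2) := by rw [← pow_add, e1]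
      rw [mul_add, h7]
      linarith
    calc (a / z.im) ^ n * (‖GG lam z x0 y V‖ ^ 2 * (a ^ 2 + b ^ 2) ^ (n + 1)) ≤
        (a / z.im) ^ n * (‖GG lam z x0 y V‖ ^ 2 *
          (2 ^ (n + 1) * (a ^ (2 * (n + 1)) + b ^ (2 * (n + 1))))) := by gcongr
      _ = 2 ^ (n + 1) * (1 / z.im) ^ n * (‖GG lam z x0 y V‖ ^ 2 *
          (a ^ n * (a ^ (2 * (n + 1)) + b ^ (2 * (n + 1))))) := by
          rw [div_pow, div_pow, one_pow]; ring
      _ ≤ _ := by gcongr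
  have h4 : (∑ y, ‖GG lam z x0 y V‖ ^ 2 * (XX lam z x0 V ^ 2 + XX lam z y V ^ 2)) ^ (n + 1) ≤
      2 ^ (n + 1) * (1 / z.im) ^ n * ∑ y, ‖GG lam z x0 y V‖ ^ 2 *
        (2 * XX lam z x0 V ^ (3 * n + 2) + XX lam z y V ^ (3 * n + 2)) := by
    refine h2.trans ?_
    rw [Finset.mul_sum, Finset.mul_sum]
    exact Finset.sum_le_sum fun y _ => h3 y
  calc (24 * lam ^ 2) ^ (n + 1) * (∑ y, ‖GG lam z x0 y V‖ ^ 2 *
        (XX lam z x0 V ^ 2 + XX lam z y V ^ 2)) ^ (n + 1) ≤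
      (24 * lam ^ 2) ^ (n + 1) * (2 ^ (n + 1) * (1 / z.im) ^ n * ∑ y, ‖GG lam z x0 y V‖ ^ 2 *
        (2 * XX lam z x0 V ^ (3 * n + 2) + XX lam z y V ^ (3 * n + 2))) := by gcongr
    _ = _ := by
      have : (48 * lam ^ 2) ^ (n + 1) = (24 * lam ^ 2) ^ (n + 1) * 2 ^ (n + 1) := by
        rw [← mul_pow]
        congr 1
        ring
      rw [this]
      ring

section
variable (μ : Measure ℝ) [IsProbabilityMeasure μ]

theorem XX_pow_int (lam : ℝ) {z : ℂ} (hz : 0 < z.im) (x : T d L) (n : ℕ) :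
    Integrable (fun V : T d L → ℝ => XX lam z x V ^ n) (Measure.pi fun _ : T d L => μ) := by
  refine int_of _ _ ((XX_cont lam hz.ne' x).measurable.pow_const n) ((1 / z.im) ^ n) fun V => ?_
  rw [abs_pow, abs_of_nonneg (XX_nonneg lam hz x V)]
  exact pow_le_pow_left₀ (XX_nonneg lam hz x V) (XX_le lam hz x V) n

theorem GX_int (lam : ℝ) {z : ℂ} (hz : 0 < z.im) (x y w : T d L) (n : ℕ) :
    Integrable (fun V : T d L → ℝ => ‖GG lam z x y V‖ ^ 2 * XX lam z w V ^ n)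
      (Measure.pi fun _ : T d L => μ) := by
  refine int_of _ _ (((GG_cont lam hz.ne' x y).measurable.norm.pow_const 2).mul
    ((XX_cont lam hz.ne' w).measurable.pow_const n)) ((1 / z.im) ^ 2 * (1 / z.im) ^ n) fun V => ?_
  rw [abs_mul, abs_pow, abs_pow, abs_of_nonneg (XX_nonneg lam hz w V), abs_of_nonneg (norm_nonneg _)]
  have h1 := pow_le_pow_left₀ (norm_nonneg _) (GG_le lam hz x y V) 2
  have h2 := pow_le_pow_left₀ (XX_nonneg lam hz w V) (XX_le lam hz w V) n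
  have h3 : 0 ≤ XX lam z w V ^ n := pow_nonneg (XX_nonneg lam hz w V) n
  gcongr

/-- mass transport -/
theorem transport (lam : ℝ) {z : ℂ} (hz : 0 < z.im) (n : ℕ) :
    ∑ y : T d L, ∫ V, ‖GG lam z 0 y V‖ ^ 2 * XX lam z y V ^ n ∂(Measure.pi fun _ : T d L => μ) =
      1 / z.im * ∫ V, XX lam z 0 V ^ (n + 1) ∂(Measure.pi fun _ : T d L => μ) := by
  have h1 : ∀ y : T d L, ∫ V, ‖GG lam z 0 y V‖ ^ 2 * XX lam z y V ^ n
      ∂(Measure.pi fun _ : T d L => μ) = ∫ V, ‖GG lam z 0 (-y) V‖ ^ 2 * XX lam z 0 V ^ n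
      ∂(Measure.pi fun _ : T d L => μ) := by
    intro y
    rw [← trans_int μ (fun V => ‖GG lam z 0 (-y) V‖ ^ 2 * XX lam z 0 V ^ n) y]
    congr 1
    funext V
    rw [GG_trans lam hz.ne', XX_trans lam hz.ne', zero_add, neg_add_cancel, GG_symm lam hz.ne' y 0]
  simp only [h1]
  have h2 : ∑ y : T d L, ∫ V, ‖GG lam z 0 (-y) V‖ ^ 2 * XX lam z 0 V ^ n
      ∂(Measure.pi fun _ : T d L => μ) = ∑ y : T d L, ∫ V, ‖GG lam z 0 y V‖ ^ 2 * XX lam z 0 V ^ n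
      ∂(Measure.pi fun _ : T d L => μ) :=
    Equiv.sum_comp (Equiv.neg (T d L)) (fun y => ∫ V, ‖GG lam z 0 y V‖ ^ 2 * XX lam z 0 V ^ n
      ∂(Measure.pi fun _ : T d L => μ))
  rw [h2, ← integral_finsetSum _ fun y _ => GX_int μ lam hz 0 y 0 n, ← integral_const_mul]
  congr 1
  funext V
  rw [← Finset.sum_mul, sum_GG lam hz]
  ring

theorem diagonal (lam : ℝ) {z : ℂ} (hz : 0 < z.im) (n : ℕ) :
    ∑ y : T d L, ∫ V, ‖GG lam z 0 y V‖ ^ 2 * XX lam z 0 V ^ n ∂(Measure.pi fun _ : T d L => μ) =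
      1 / z.im * ∫ V, XX lam z 0 V ^ (n + 1) ∂(Measure.pi fun _ : T d L => μ) := by
  rw [← integral_finsetSum _ fun y _ => GX_int μ lam hz 0 y 0 n, ← integral_const_mul]
  congr 1
  funext V
  rw [← Finset.sum_mul, sum_GG lam hz]
  ring

theorem card_TdL : (Fintype.card (T d L) : ℝ) = (L : ℝ) ^ d := by
  have h := card_T (d := d) (L := L)
  exact_mod_cast h

/-- the moments of the square function -/
theorem sf_moment (lam : ℝ) (hlam : 0 ≤ lam) {z : ℂ} (hz : 0 < z.im) (O : Set (T d L → ℝ))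
    (hO : MeasurableSet O) (hOm : ∀ V ∈ O, Om lam z V) (n : ℕ) :
    ∫ V, SF 0 (XX lam z 0) V ^ (n + 1) ∂(Measure.pi fun _ : T d L => μ) ≤
      3 * (48 * lam ^ 2 / z.im) ^ (n + 1) *
        ∫ V, XX lam z 0 V ^ (3 * (n + 1)) ∂(Measure.pi fun _ : T d L => μ) +
      ((L : ℝ) ^ d * (2 * (1 / z.im)) ^ 2) ^ (n + 1) *
        (Measure.pi fun _ : T d L => μ).real Oᶜ := by
  set P : Measure (T d L → ℝ) := Measure.pi fun _ : T d L => μ with hP
  have hXm : Measurable (XX lam z (0 : T d L)) := (XX_cont lam hz.ne' 0).measurable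
  have hXB : ∀ V : T d L → ℝ, |XX lam z 0 V| ≤ 1 / z.im := fun V => by
    rw [abs_of_nonneg (XX_nonneg lam hz 0 V)]
    exact XX_le lam hz 0 V
  set K : ℝ := (48 * lam ^ 2) ^ (n + 1) * (1 / z.im) ^ n with hK
  have hK0 : 0 ≤ K := by positivity
  set B : ℝ := ((L : ℝ) ^ d * (2 * (1 / z.im)) ^ 2) ^ (n + 1) with hB
  have hB0 : 0 ≤ B := by positivity
  have hpt : ∀ V : T d L → ℝ, SF 0 (XX lam z 0) V ^ (n + 1) ≤
      (∑ y, (K * 2 * (‖GG lam z 0 y V‖ ^ 2 * XX lam z 0 V ^ (3 * n + 2)) +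
        K * (‖GG lam z 0 y V‖ ^ 2 * XX lam z y V ^ (3 * n + 2)))) +
      Oᶜ.indicator (fun _ => B) V := by
    intro V
    have hsum : (∑ y, (K * 2 * (‖GG lam z 0 y V‖ ^ 2 * XX lam z 0 V ^ (3 * n + 2)) +
        K * (‖GG lam z 0 y V‖ ^ 2 * XX lam z y V ^ (3 * n + 2)))) =
        K * ∑ y, ‖GG lam z 0 y V‖ ^ 2 *
          (2 * XX lam z 0 V ^ (3 * n + 2) + XX lam z y V ^ (3 * n + 2)) := by
      rw [Finset.mul_sum]
      exact Finset.sum_congr rfl fun y _ => by ring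
    rw [hsum]
    by_cases hV : V ∈ O
    · rw [Set.indicator_of_notMem (by simpa using hV), add_zero]
      exact sf_pow lam hlam hz V (hOm V hV) 0 n
    · rw [Set.indicator_of_mem (show V ∈ Oᶜ from hV)]
      have h1 := SF_le 0 (XX lam z (0 : T d L)) (1 / z.im) hXB V
      rw [abs_of_nonneg (SF_nonneg _ _ _), card_TdL] at h1
      have h2 := pow_le_pow_left₀ (SF_nonneg 0 (XX lam z (0 : T d L)) V) h1 (n + 1)
      have h3 : 0 ≤ K * ∑ y, ‖GG lam z 0 y V‖ ^ 2 *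
          (2 * XX lam z 0 V ^ (3 * n + 2) + XX lam z y V ^ (3 * n + 2)) := by
        refine mul_nonneg hK0 (Finset.sum_nonneg fun y _ => ?_)
        have := XX_nonneg lam hz 0 V
        have := XX_nonneg lam hz y V
        positivity
      linarith
  have i1 : Integrable (fun V => SF 0 (XX lam z (0 : T d L)) V ^ (n + 1)) P := by
    refine int_of P _ ((SF_meas 0 _ hXm).pow_const _)
      ((Fintype.card (T d L) * (2 * (1 / z.im)) ^ 2) ^ (n + 1)) fun V => ?_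
    rw [abs_pow]
    exact pow_le_pow_left₀ (abs_nonneg _) (SF_le 0 _ (1 / z.im) hXB V) _
  have i2 : ∀ y : T d L, Integrable (fun V => K * 2 * (‖GG lam z 0 y V‖ ^ 2 *
      XX lam z 0 V ^ (3 * n + 2))) P := fun y => (GX_int μ lam hz 0 y 0 _).const_mul _
  have i3 : ∀ y : T d L, Integrable (fun V => K * (‖GG lam z 0 y V‖ ^ 2 *
      XX lam z y V ^ (3 * n + 2))) P := fun y => (GX_int μ lam hz 0 y y _).const_mul _
  have i23 : ∀ y : T d L, Integrable (fun V => K * 2 * (‖GG lam z 0 y V‖ ^ 2 *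
      XX lam z 0 V ^ (3 * n + 2)) + K * (‖GG lam z 0 y V‖ ^ 2 * XX lam z y V ^ (3 * n + 2))) P :=
    fun y => (i2 y).add (i3 y)
  have i4 : Integrable (fun V => ∑ y, (K * 2 * (‖GG lam z 0 y V‖ ^ 2 *
      XX lam z 0 V ^ (3 * n + 2)) + K * (‖GG lam z 0 y V‖ ^ 2 * XX lam z y V ^ (3 * n + 2)))) P :=
    integrable_finsetSum _ fun y _ => i23 y
  have i5 : Integrable (Oᶜ.indicator fun _ : T d L → ℝ => B) P :=
    (integrable_const _).indicator hO.compl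
  have h1 := integral_mono i1 (i4.add i5) hpt
  refine h1.trans (le_of_eq ?_)
  have h2 : ∫ V, ((∑ y, (K * 2 * (‖GG lam z 0 y V‖ ^ 2 * XX lam z 0 V ^ (3 * n + 2)) +
        K * (‖GG lam z 0 y V‖ ^ 2 * XX lam z y V ^ (3 * n + 2)))) +
      Oᶜ.indicator (fun _ => B) V) ∂P =
      (∫ V, (∑ y, (K * 2 * (‖GG lam z 0 y V‖ ^ 2 * XX lam z 0 V ^ (3 * n + 2)) +
        K * (‖GG lam z 0 y V‖ ^ 2 * XX lam z y V ^ (3 * n + 2)))) ∂P) +
      ∫ V, Oᶜ.indicator (fun _ => B) V ∂P := integral_add i4 i5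
  have h3 : ∫ V, Oᶜ.indicator (fun _ : T d L → ℝ => B) V ∂P = B * P.real Oᶜ := by
    rw [integral_indicator hO.compl, setIntegral_const, smul_eq_mul, mul_comm]
  have h4 : ∫ V, (∑ y, (K * 2 * (‖GG lam z 0 y V‖ ^ 2 * XX lam z 0 V ^ (3 * n + 2)) +
        K * (‖GG lam z 0 y V‖ ^ 2 * XX lam z y V ^ (3 * n + 2)))) ∂P =
      K * 2 * (1 / z.im * ∫ V, XX lam z 0 V ^ (3 * n + 2 + 1) ∂P) +
        K * (1 / z.im * ∫ V, XX lam z 0 V ^ (3 * n + 2 + 1) ∂P) := by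
    rw [integral_finsetSum _ fun y _ => i23 y]
    have e : ∀ y : T d L, ∫ V, (K * 2 * (‖GG lam z 0 y V‖ ^ 2 * XX lam z 0 V ^ (3 * n + 2)) +
        K * (‖GG lam z 0 y V‖ ^ 2 * XX lam z y V ^ (3 * n + 2))) ∂P =
        K * 2 * ∫ V, ‖GG lam z 0 y V‖ ^ 2 * XX lam z 0 V ^ (3 * n + 2) ∂P +
        K * ∫ V, ‖GG lam z 0 y V‖ ^ 2 * XX lam z y V ^ (3 * n + 2) ∂P := by
      intro y
      rw [integral_add (i2 y) (i3 y), integral_const_mul, integral_const_mul]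
    simp only [e]
    rw [Finset.sum_add_distrib, ← Finset.mul_sum, ← Finset.mul_sum, diagonal μ lam hz,
      transport μ lam hz]
  refine h2.trans ?_
  rw [h3, h4]
  have e3 : 3 * n + 2 + 1 = 3 * (n + 1) := by ring
  rw [e3, hK]
  have e4 : (48 * lam ^ 2 / z.im) ^ (n + 1) = (48 * lam ^ 2) ^ (n + 1) * (1 / z.im) ^ n *
      (1 / z.im) := by
    rw [div_pow, div_pow, one_pow, pow_succ z.im]
    field_simp
  rw [e4]
  ring

end

/-- **the recursion** -/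
theorem recursion (j : ℕ) : ∃ C : ℝ, 1 ≤ C ∧ ∀ (d L : ℕ) [NeZero L] (μ : Measure ℝ)
    [IsProbabilityMeasure μ] (lam : ℝ), 0 ≤ lam → ∀ z : ℂ, 0 < z.im → ∀ O : Set (T d L → ℝ),
    MeasurableSet O → (∀ V ∈ O, Om lam z V) →
    ∫ V, (XX lam z 0 V - ∫ U, XX lam z 0 U ∂(Measure.pi fun _ : T d L => μ)) ^ (2 * 2 ^ j)
      ∂(Measure.pi fun _ : T d L => μ) ≤
      C * ((lam ^ 2 / z.im) ^ (2 ^ j) *
        ∫ V, XX lam z 0 V ^ (3 * 2 ^ j) ∂(Measure.pi fun _ : T d L => μ) +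
      ((L : ℝ) ^ d * (1 / z.im) ^ 2) ^ (2 ^ j) * (Measure.pi fun _ : T d L => μ).real Oᶜ) := by
  obtain ⟨C, hC, h⟩ := esp j
  obtain ⟨n, hn⟩ : ∃ n : ℕ, 2 ^ j = n + 1 := ⟨2 ^ j - 1, by
    have : 0 < 2 ^ j := by positivity
    omega⟩
  refine ⟨C * (3 * 48 ^ (n + 1)), ?_, ?_⟩
  · have : (1 : ℝ) ≤ 3 * 48 ^ (n + 1) := by
      have : (1 : ℝ) ≤ 48 ^ (n + 1) := one_le_pow₀ (by norm_num)
      linarith
    nlinarith
  intro d L _ μ _ lam hlam z hz O hO hOm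
  have hXm : Measurable (XX lam z (0 : T d L)) := (XX_cont lam hz.ne' 0).measurable
  have hXB : ∀ V : T d L → ℝ, |XX lam z 0 V| ≤ 1 / z.im := fun V => by
    rw [abs_of_nonneg (XX_nonneg lam hz 0 V)]
    exact XX_le lam hz 0 V
  have h1 := h (T d L) μ 0 (XX lam z 0) hXm (1 / z.im) hXB
  refine h1.trans ?_
  rw [hn]
  have h2 := sf_moment μ lam hlam hz O hO hOm n
  set I := ∫ V, XX lam z 0 V ^ (3 * (n + 1)) ∂(Measure.pi fun _ : T d L => μ) with hI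
  have hI0 : 0 ≤ I := integral_nonneg fun V => pow_nonneg (XX_nonneg lam hz 0 V) _
  set p := (Measure.pi fun _ : T d L => μ).real Oᶜ with hp
  have hp0 : 0 ≤ p := measureReal_nonneg
  have e1 : (48 * lam ^ 2 / z.im) ^ (n + 1) = 48 ^ (n + 1) * (lam ^ 2 / z.im) ^ (n + 1) := by
    rw [← mul_pow]
    congr 1
    ring
  have e2 : ((L : ℝ) ^ d * (2 * (1 / z.im)) ^ 2) ^ (n + 1) =
      4 ^ (n + 1) * ((L : ℝ) ^ d * (1 / z.im) ^ 2) ^ (n + 1) := by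
    rw [← mul_pow]
    congr 1
    ring
  rw [e1, e2] at h2
  have h3 : (4 : ℝ) ^ (n + 1) ≤ 48 ^ (n + 1) := by gcongr; norm_num
  have h4 : 0 ≤ ((L : ℝ) ^ d * (1 / z.im) ^ 2) ^ (n + 1) * p := by positivity
  have h5 : (0 : ℝ) ≤ 48 ^ (n + 1) := by positivity
  calc C * ∫ V, SF 0 (XX lam z 0) V ^ (n + 1) ∂(Measure.pi fun _ : T d L => μ) ≤
      C * (3 * (48 ^ (n + 1) * (lam ^ 2 / z.im) ^ (n + 1)) * I +
        4 ^ (n + 1) * ((L : ℝ) ^ d * (1 / z.im) ^ 2) ^ (n + 1) * p) := by gcongr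
    _ ≤ C * (3 * (48 ^ (n + 1) * (lam ^ 2 / z.im) ^ (n + 1)) * I +
        3 * 48 ^ (n + 1) * (((L : ℝ) ^ d * (1 / z.im) ^ 2) ^ (n + 1) * p)) := by
      have : 4 ^ (n + 1) * ((L : ℝ) ^ d * (1 / z.im) ^ 2) ^ (n + 1) * p ≤
          3 * 48 ^ (n + 1) * (((L : ℝ) ^ d * (1 / z.im) ^ 2) ^ (n + 1) * p) := by
        rw [mul_assoc]
        apply mul_le_mul_of_nonneg_right _ h4
        linarith
      gcongr
    _ = _ := by ring

end Pool.Agent.V8H95.NM
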