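import Pool.Agent.V8H95.EF.Ex
import Pool.Agent.V8H95.NM.ESp

/-!
The resolvent of the Anderson Hamiltonian on the torus.
-/

set_option autoImplicit false
set_option linter.unusedSectionVars false

open Complex MeasureTheory
open scoped BigOperators ComplexConjugate

namespace Pool.Agent.V8H95.NM

open Pool.Agent.H4R2.AE Pool.Agent.V8H99.AD Pool.Agent.V8H95.MF Pool.Agent.V8H95.BW
open Pool.Agent.V8H95.EF

section abs

variable {X : Type*} [NormedAddCommGroup X] [InnerProductSpace ℂ X] [CompleteSpace X]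

/-- the resolvent -/
noncomputable def RG (A : X →L[ℂ] X) (z : ℂ) : X →L[ℂ] X := Ring.inverse (A - z • 1)

theorem unit_sub {A : X →L[ℂ] X} (hA : IsSelfAdjoint A) {z : ℂ} (hz : z.im ≠ 0) :
    IsUnit (A - z • 1) := by
  have h1 : z ∉ spectrum ℂ A := by
    intro h
    exact hz (hA.im_eq_zero_of_mem_spectrum h)
  have h2 := spectrum.notMem_iff.1 h1
  have h3 : A - z • 1 = -(algebraMap ℂ (X →L[ℂ] X) z - A) := by
    rw [Algebra.algebraMap_eq_smul_one]
    abel
  rw [h3]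
  exact h2.neg

theorem rg_left {A : X →L[ℂ] X} (hA : IsSelfAdjoint A) {z : ℂ} (hz : z.im ≠ 0) (f : X) :
    A (RG A z f) - z • RG A z f = f := by
  have h := Ring.mul_inverse_cancel _ (unit_sub hA hz)
  have h2 := congrArg (fun T : X →L[ℂ] X => T f) h
  exact h2

theorem rg_right {A : X →L[ℂ] X} (hA : IsSelfAdjoint A) {z : ℂ} (hz : z.im ≠ 0) (f : X) :
    RG A z (A f - z • f) = f := by
  have h := Ring.inverse_mul_cancel _ (unit_sub hA hz)
  have h2 := congrArg (fun T : X →L[ℂ] X => T f) h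
  exact h2

theorem rg_uniq {A : X →L[ℂ] X} (hA : IsSelfAdjoint A) {z : ℂ} (hz : z.im ≠ 0) {f g : X}
    (h : A g - z • g = f) : RG A z f = g := by
  rw [← h, rg_right hA hz]

theorem sa_inner {A : X →L[ℂ] X} (hA : IsSelfAdjoint A) (f g : X) :
    inner ℂ (A f) g = inner ℂ f (A g) := by
  rw [ContinuousLinearMap.isSelfAdjoint_iff_isSymmetric] at hA
  exact hA f g

/-- the basic identity -/
theorem ward {A : X →L[ℂ] X} (hA : IsSelfAdjoint A) {z : ℂ} (hz : z.im ≠ 0) (f g : X) :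
    2 * Complex.I * z.im * inner ℂ (RG A z f) (RG A z g) =
      inner ℂ f (RG A z g) - inner ℂ (RG A z f) g := by
  have h1 := rg_left hA hz f
  have h2 := rg_left hA hz g
  set a := RG A z f
  set b := RG A z g
  rw [← h1, ← h2, inner_sub_left, inner_sub_right, sa_inner hA, inner_smul_left,
    inner_smul_right]
  have h3 : z - conj z = 2 * Complex.I * z.im := by
    rw [Complex.sub_conj]
    push_cast
    ring
  rw [← h3]
  ring

theorem ward_im {A : X →L[ℂ] X} (hA : IsSelfAdjoint A) {z : ℂ} (hz : z.im ≠ 0) (f : X) :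
    (inner ℂ f (RG A z f) : ℂ).im = z.im * ‖RG A z f‖ ^ 2 := by
  have h := ward hA hz f f
  have h1 : (inner ℂ (RG A z f) f : ℂ) = conj (inner ℂ f (RG A z f)) := (inner_conj_symm _ _).symm
  rw [h1, Complex.sub_conj, inner_self_eq_norm_sq_to_K] at h
  have h2 : (2 * Complex.I * ((z.im * ‖RG A z f‖ ^ 2 : ℝ) : ℂ)) =
      2 * Complex.I * (((inner ℂ f (RG A z f) : ℂ).im : ℝ) : ℂ) := by
    push_cast at h ⊢
    linear_combination h
  have h3 := mul_left_cancel₀ (by simp : (2 * Complex.I : ℂ) ≠ 0) h2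
  exact (Complex.ofReal_injective h3).symm

theorem rg_norm {A : X →L[ℂ] X} (hA : IsSelfAdjoint A) {z : ℂ} (hz : z.im ≠ 0) (f : X) :
    |z.im| * ‖RG A z f‖ ≤ ‖f‖ := by
  have h := ward_im hA hz f
  have h1 : |(inner ℂ f (RG A z f) : ℂ).im| ≤ ‖f‖ * ‖RG A z f‖ :=
    (Complex.abs_im_le_norm _).trans (norm_inner_le_norm _ _)
  rw [h, abs_mul, abs_of_nonneg (sq_nonneg ‖RG A z f‖)] at h1
  rcases eq_or_lt_of_le (norm_nonneg (RG A z f)) with h0 | h0
  · rw [← h0, mul_zero]
    exact norm_nonneg _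
  · have h2 : |z.im| * ‖RG A z f‖ * ‖RG A z f‖ ≤ ‖f‖ * ‖RG A z f‖ := by
      calc _ = |z.im| * ‖RG A z f‖ ^ 2 := by ring
        _ ≤ _ := h1
    exact le_of_mul_le_mul_right h2 h0

theorem rg_lower {A : X →L[ℂ] X} (hA : IsSelfAdjoint A) {z : ℂ} (hz : z.im ≠ 0) (f : X) (K : ℝ)
    (hK : ‖A‖ + ‖z‖ ≤ K) : ‖f‖ ≤ K * ‖RG A z f‖ := by
  have h := rg_left hA hz f
  calc ‖f‖ = ‖A (RG A z f) - z • RG A z f‖ := by rw [h]
    _ ≤ ‖A (RG A z f)‖ + ‖z • RG A z f‖ := norm_sub_le _ _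
    _ ≤ ‖A‖ * ‖RG A z f‖ + ‖z‖ * ‖RG A z f‖ := by
      rw [norm_smul]
      gcongr
      exact A.le_opNorm _
    _ = (‖A‖ + ‖z‖) * ‖RG A z f‖ := by ring
    _ ≤ _ := by gcongr

theorem rg_adj {A : X →L[ℂ] X} (hA : IsSelfAdjoint A) {z : ℂ} (hz : z.im ≠ 0) (f g : X) :
    inner ℂ (RG A (conj z) f) g = inner ℂ f (RG A z g) := by
  have hz' : (conj z).im ≠ 0 := by simpa using hz
  have h1 := rg_left hA hz' f
  have h2 := rg_left hA hz g
  set a := RG A (conj z) f
  set b := RG A z g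
  rw [← h1, ← h2, inner_sub_left, inner_sub_right, sa_inner hA, inner_smul_left,
    inner_smul_right, Complex.conj_conj]

theorem rg_conj_norm {A : X →L[ℂ] X} (hA : IsSelfAdjoint A) {z : ℂ} (hz : z.im ≠ 0) (f : X) :
    ‖RG A (conj z) f‖ ^ 2 = ‖RG A z f‖ ^ 2 := by
  have hz' : (conj z).im ≠ 0 := by simpa using hz
  have h1 := ward_im hA hz f
  have h2 := ward_im hA hz' f
  have h3 : (inner ℂ f (RG A (conj z) f) : ℂ) = conj (inner ℂ f (RG A z f)) := by
    rw [← rg_adj hA hz f f, inner_conj_symm]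
  rw [h3, Complex.conj_im, Complex.conj_im, h1] at h2
  have h4 : z.im * (‖RG A (conj z) f‖ ^ 2 - ‖RG A z f‖ ^ 2) = 0 := by linarith
  rcases mul_eq_zero.1 h4 with h5 | h5
  · exact absurd h5 hz
  · linarith

/-- rank one perturbation -/
theorem rg_pert {A A' : X →L[ℂ] X} (hA : IsSelfAdjoint A) (hA' : IsSelfAdjoint A') {z : ℂ}
    (hz : z.im ≠ 0) (v : ℝ) (e : X)
    (hv : ∀ y, A' y = A y + ((v : ℂ) * inner ℂ e y) • e) (f : X) :
    RG A' z f = RG A z f - ((v : ℂ) * inner ℂ e (RG A' z f)) • RG A z e := by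
  have h1 := rg_left hA' hz f
  rw [hv] at h1
  have h2 : A (RG A' z f) - z • RG A' z f = f - ((v : ℂ) * inner ℂ e (RG A' z f)) • e := by
    rw [eq_sub_iff_add_eq]
    refine Eq.trans ?_ h1
    abel
  have h3 := rg_uniq hA hz h2
  rw [map_sub, map_smul] at h3
  exact h3.symm

theorem rg_pert_inner {A A' : X →L[ℂ] X} (hA : IsSelfAdjoint A) (hA' : IsSelfAdjoint A') {z : ℂ}
    (hz : z.im ≠ 0) (v : ℝ) (e : X)
    (hv : ∀ y, A' y = A y + ((v : ℂ) * inner ℂ e y) • e) (f : X) :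
    inner ℂ e (RG A' z f) * (1 + (v : ℂ) * inner ℂ e (RG A z e)) = inner ℂ e (RG A z f) := by
  have h := congrArg (fun g => inner ℂ e g) (rg_pert hA hA' hz v e hv f)
  simp only [inner_sub_right, inner_smul_right] at h
  linear_combination h

theorem rg_inter {S A B : X →L[ℂ] X} (hA : IsSelfAdjoint A) (hB : IsSelfAdjoint B) {z : ℂ}
    (hz : z.im ≠ 0) (h : ∀ f, S (A f) = B (S f)) (f : X) :
    S (RG A z f) = RG B z (S f) := by
  symm
  apply rg_uniq hB hz
  rw [← h, ← map_smul, ← map_sub, rg_left hA hz]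

theorem rg_cont {Y : Type*} [TopologicalSpace Y] (A : Y → X →L[ℂ] X) (hA : Continuous A)
    (hs : ∀ y, IsSelfAdjoint (A y)) {z : ℂ} (hz : z.im ≠ 0) :
    Continuous fun y => RG (A y) z := by
  rw [continuous_iff_continuousAt]
  intro y
  have h1 : ContinuousAt (Ring.inverse : (X →L[ℂ] X) → (X →L[ℂ] X)) (A y - z • 1) := by
    obtain ⟨u, hu⟩ := unit_sub (hs y) hz
    rw [← hu]
    exact NormedRing.inverse_continuousAt u
  exact ContinuousAt.comp (f := fun y => A y - z • 1) h1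
    ((hA.sub continuous_const).continuousAt)

end abs

variable {d L : ℕ} [NeZero L]

/-- the unit vector -/
noncomputable def es (x : T d L) : XT d L := EuclideanSpace.single x (1 : ℂ)

theorem inner_es (x : T d L) (f : XT d L) : (inner ℂ (es x) f : ℂ) = f x := inner_single' x f

/-- the resolvent of the Anderson Hamiltonian -/
noncomputable def GT (lam : ℝ) (V : T d L → ℝ) (z : ℂ) : XT d L →L[ℂ] XT d L := RG (HC lam V) z

/-- Green's function -/
noncomputable def GG (lam : ℝ) (z : ℂ) (x y : T d L) (V : T d L → ℝ) : ℂ := (GT lam V z (es y)) x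

/-- its imaginary part on the diagonal -/
noncomputable def XX (lam : ℝ) (z : ℂ) (x : T d L) (V : T d L → ℝ) : ℝ := (GG lam z x x V).im

theorem GG_eq (lam : ℝ) (z : ℂ) (x y : T d L) (V : T d L → ℝ) :
    GG lam z x y V = inner ℂ (es x) (GT lam V z (es y)) := (inner_es x _).symm

/-- complex conjugation -/
noncomputable def cj (f : XT d L) : XT d L := WithLp.toLp 2 fun x => conj (f x)

theorem cj_apply (f : XT d L) (x : T d L) : (cj f) x = conj (f x) := rfl

theorem cj_HC (lam : ℝ) (V : T d L → ℝ) (f : XT d L) : cj (HC lam V f) = HC lam V (cj f) := by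
  ext x
  rw [cj_apply, HC_apply, HC_apply]
  unfold Bf
  simp only [map_add, map_sum, map_sub, map_mul, Complex.conj_ofReal, map_ofNat, cj_apply]

theorem cj_es (x : T d L) : cj (es x) = es x := by
  ext y
  rw [cj_apply]
  unfold es
  rw [PiLp.single_apply]
  split_ifs <;> simp

theorem cj_GT (lam : ℝ) (V : T d L → ℝ) {z : ℂ} (hz : z.im ≠ 0) (f : XT d L) :
    cj (GT lam V z f) = GT lam V (conj z) (cj f) := by
  have hz' : (conj z).im ≠ 0 := by simpa using hz
  symm
  apply rg_uniq (HC_sa lam V) hz'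
  have h := congrArg cj (rg_left (HC_sa lam V) hz f)
  rw [← h, ← cj_HC]
  ext x
  rw [PiLp.sub_apply, PiLp.smul_apply, cj_apply, cj_apply, cj_apply, PiLp.sub_apply,
    PiLp.smul_apply, map_sub, smul_eq_mul, smul_eq_mul, map_mul]
  rfl

theorem GG_symm (lam : ℝ) {z : ℂ} (hz : z.im ≠ 0) (x y : T d L) (V : T d L → ℝ) :
    GG lam z x y V = GG lam z y x V := by
  have hz' : (conj z).im ≠ 0 := by simpa using hz
  rw [GG_eq lam z x y V]
  have h1 : inner ℂ (es x) (GT lam V z (es y)) = inner ℂ (GT lam V (conj z) (es x)) (es y) :=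
    (rg_adj (HC_sa lam V) hz (es x) (es y)).symm
  rw [h1, ← inner_conj_symm, inner_es]
  have h2 := cj_GT lam V hz (es x)
  rw [cj_es] at h2
  rw [← h2, cj_apply, Complex.conj_conj]
  rfl

theorem GG_im (lam : ℝ) {z : ℂ} (hz : z.im ≠ 0) (x y : T d L) (V : T d L → ℝ) :
    (inner ℂ (GT lam V z (es x)) (GT lam V z (es y)) : ℂ) * (z.im : ℂ) =
      (((GG lam z x y V).im : ℝ) : ℂ) := by
  have h := ward (HC_sa lam V) hz (es x) (es y)
  have h1 : (inner ℂ (RG (HC lam V) z (es x)) (es y) : ℂ) = conj (GG lam z x y V) := by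
    rw [← inner_conj_symm, inner_es, GG_symm lam hz x y V]
    rfl
  have h2 : (inner ℂ (es x) (RG (HC lam V) z (es y)) : ℂ) = GG lam z x y V := inner_es _ _
  rw [h1, h2, Complex.sub_conj] at h
  have h3 : (2 * Complex.I) * ((inner ℂ (GT lam V z (es x)) (GT lam V z (es y)) : ℂ) * (z.im : ℂ)) =
      (2 * Complex.I) * (((GG lam z x y V).im : ℝ) : ℂ) := by
    unfold GT
    push_cast at h
    linear_combination h
  exact mul_left_cancel₀ (by simp) h3

theorem XX_eq (lam : ℝ) {z : ℂ} (hz : z.im ≠ 0) (x : T d L) (V : T d L → ℝ) :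
    XX lam z x V = z.im * ‖GT lam V z (es x)‖ ^ 2 := by
  have h := ward_im (HC_sa lam V) hz (es x)
  rw [inner_es] at h
  exact h

theorem XX_nonneg (lam : ℝ) {z : ℂ} (hz : 0 < z.im) (x : T d L) (V : T d L → ℝ) :
    0 ≤ XX lam z x V := by
  rw [XX_eq lam hz.ne']
  positivity

theorem sum_GG (lam : ℝ) {z : ℂ} (hz : 0 < z.im) (x : T d L) (V : T d L → ℝ) :
    ∑ y, ‖GG lam z x y V‖ ^ 2 = XX lam z x V / z.im := by
  rw [XX_eq lam hz.ne', mul_div_assoc, mul_div_cancel₀ _ hz.ne', EuclideanSpace.norm_sq_eq]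
  refine Finset.sum_congr rfl fun y _ => ?_
  rw [GG_symm lam hz.ne']
  rfl

/-- the off-diagonal imaginary part -/
theorem im_off (lam : ℝ) {z : ℂ} (hz : 0 < z.im) (x y : T d L) (V : T d L → ℝ) :
    (GG lam z x y V).im ^ 2 ≤ XX lam z x V * XX lam z y V := by
  have h := GG_im lam hz.ne' x y V
  have h1 : |(GG lam z x y V).im| ≤ z.im * (‖GT lam V z (es x)‖ * ‖GT lam V z (es y)‖) := by
    have h2 := congrArg (fun w : ℂ => ‖w‖) h
    simp only [norm_mul, Complex.norm_real, Real.norm_eq_abs, abs_of_pos hz] at h2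
    rw [← h2, mul_comm]
    gcongr
    exact norm_inner_le_norm _ _
  rw [XX_eq lam hz.ne', XX_eq lam hz.ne', ← sq_abs]
  calc |(GG lam z x y V).im| ^ 2 ≤
      (z.im * (‖GT lam V z (es x)‖ * ‖GT lam V z (es y)‖)) ^ 2 :=
        pow_le_pow_left₀ (abs_nonneg _) h1 2
    _ = _ := by ring

theorem es_norm (x : T d L) : ‖(es x : XT d L)‖ = 1 := by
  unfold es
  rw [PiLp.norm_single]
  simp

theorem GG_le (lam : ℝ) {z : ℂ} (hz : 0 < z.im) (x y : T d L) (V : T d L → ℝ) :
    ‖GG lam z x y V‖ ≤ 1 / z.im := by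
  rw [GG_eq, le_div_iff₀ hz]
  have h1 := rg_norm (HC_sa lam V) hz.ne' (es y)
  rw [es_norm, abs_of_pos hz] at h1
  have h2 := norm_inner_le_norm (𝕜 := ℂ) (es x) (GT lam V z (es y))
  rw [es_norm, one_mul] at h2
  calc _ ≤ ‖GT lam V z (es y)‖ * z.im := by gcongr
    _ = z.im * ‖GT lam V z (es y)‖ := by ring
    _ ≤ 1 := h1

theorem XX_le (lam : ℝ) {z : ℂ} (hz : 0 < z.im) (x : T d L) (V : T d L → ℝ) :
    XX lam z x V ≤ 1 / z.im :=
  (Complex.abs_im_le_norm _ |> (le_abs_self _).trans).trans (GG_le lam hz x x V)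

/-- the resampling formula -/
theorem GT_update (lam s : ℝ) {z : ℂ} (hz : z.im ≠ 0) (V : T d L → ℝ) (w : T d L) (f : XT d L)
    (h1 : ‖((lam * (s - V w) : ℝ) : ℂ) * GG lam z w w V‖ ≤ 1 / 2) :
    1 + ((lam * (s - V w) : ℝ) : ℂ) * GG lam z w w V ≠ 0 ∧
    GT lam (Function.update V w s) z f = GT lam V z f -
      (((lam * (s - V w) : ℝ) : ℂ) / (1 + ((lam * (s - V w) : ℝ) : ℂ) * GG lam z w w V) *
        (GT lam V z f) w) • GT lam V z (es w) := by
  set v : ℝ := lam * (s - V w) with hv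
  set c := GG lam z w w V with hc
  have hne : 1 + (v : ℂ) * c ≠ 0 := by
    intro h0
    have h2 : (v : ℂ) * c = -1 := by linear_combination h0
    rw [h2] at h1
    norm_num at h1
  refine ⟨hne, ?_⟩
  have hp : ∀ y, HC lam (Function.update V w s) y = HC lam V y +
      ((v : ℂ) * inner ℂ (es w) y) • es w := fun y => HC_update lam s V w y
  have h2 := rg_pert (HC_sa lam V) (HC_sa lam (Function.update V w s)) hz v (es w) hp f
  have h3 := rg_pert_inner (HC_sa lam V) (HC_sa lam (Function.update V w s)) hz v (es w) hp f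
  have h4 : (inner ℂ (es w) (RG (HC lam V) z (es w)) : ℂ) = c := inner_es _ _
  have h5 : (inner ℂ (es w) (RG (HC lam V) z f) : ℂ) = (GT lam V z f) w := inner_es _ _
  rw [h4, h5] at h3
  have h6 : (v : ℂ) * inner ℂ (es w) (RG (HC lam (Function.update V w s)) z f) =
      (v : ℂ) / (1 + (v : ℂ) * c) * (GT lam V z f) w := by
    rw [← h3]
    field_simp
  rw [h6] at h2
  exact h2

theorem GT_cont (lam : ℝ) {z : ℂ} (hz : z.im ≠ 0) :
    Continuous fun V : T d L → ℝ => (GT lam V z : XT d L →L[ℂ] XT d L) :=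
  rg_cont _ (HC_cont lam) (fun V => HC_sa lam V) hz

theorem GTf_cont (lam : ℝ) {z : ℂ} (hz : z.im ≠ 0) (f : XT d L) :
    Continuous fun V : T d L → ℝ => GT lam V z f := (GT_cont lam hz).clm_apply continuous_const

theorem GTx_cont (lam : ℝ) {z : ℂ} (hz : z.im ≠ 0) (f : XT d L) (x : T d L) :
    Continuous fun V : T d L → ℝ => (GT lam V z f) x :=
  (EuclideanSpace.proj x : XT d L →L[ℂ] ℂ).continuous.comp (GTf_cont lam hz f)

theorem GG_cont (lam : ℝ) {z : ℂ} (hz : z.im ≠ 0) (x y : T d L) :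
    Continuous (GG lam z x y : (T d L → ℝ) → ℂ) := GTx_cont lam hz (es y) x

theorem XX_cont (lam : ℝ) {z : ℂ} (hz : z.im ≠ 0) (x : T d L) :
    Continuous (XX lam z x : (T d L → ℝ) → ℝ) := Complex.continuous_im.comp (GG_cont lam hz x x)

/-! ### translations -/

theorem Ts_es (x y : T d L) : Ts y (es x) = es (x - y) := by
  ext u
  rw [Ts_apply]
  unfold es
  rw [PiLp.single_apply, PiLp.single_apply]
  have : (u + y = x) ↔ (u = x - y) := eq_sub_iff_add_eq.symm
  simp only [this]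

theorem Ts_GT (lam : ℝ) {z : ℂ} (hz : z.im ≠ 0) (V : T d L → ℝ) (y : T d L) (f : XT d L) :
    Ts y (GT lam V z f) = GT lam (fun x => V (x + y)) z (Ts y f) :=
  rg_inter (HC_sa lam V) (HC_sa lam _) hz (HC_Ts lam V y) f

theorem GG_trans (lam : ℝ) {z : ℂ} (hz : z.im ≠ 0) (V : T d L → ℝ) (w x y : T d L) :
    GG lam z x y (fun u => V (u + w)) = GG lam z (x + w) (y + w) V := by
  have h := Ts_GT lam hz V w (es (y + w))
  rw [Ts_es, add_sub_cancel_right] at h
  show (GT lam (fun u => V (u + w)) z (es y)) x = _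
  rw [← h, Ts_apply]
  rfl

theorem XX_trans (lam : ℝ) {z : ℂ} (hz : z.im ≠ 0) (V : T d L → ℝ) (w x : T d L) :
    XX lam z x (fun u => V (u + w)) = XX lam z (x + w) V := by
  unfold XX
  rw [GG_trans lam hz]

section
variable (μ : Measure ℝ) [IsProbabilityMeasure μ]

theorem trans_int {E : Type} [NormedAddCommGroup E] [NormedSpace ℝ E] (F : (T d L → ℝ) → E)
    (w : T d L) :
    ∫ V, F (fun u => V (u + w)) ∂(Measure.pi fun _ : T d L => μ) =
      ∫ V, F V ∂(Measure.pi fun _ : T d L => μ) := by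
  have h := shift_law μ (Equiv.addRight w)
  have h2 := h.integral_comp' (f := (MeasurableEquiv.piCongrLeft (fun _ : T d L => ℝ)
    (Equiv.addRight w)).symm) F
  have e : ∀ V : T d L → ℝ, (MeasurableEquiv.piCongrLeft (fun _ : T d L => ℝ)
      (Equiv.addRight w)).symm V = fun u => V (u + w) := by
    intro V
    funext u
    rfl
  simp only [e] at h2
  exact h2

end

end Pool.Agent.V8H95.NM
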