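import Pool.Agent.V8H95.NM.Cnt

/-!
Deterministic spectral bounds for good potentials.
-/

set_option autoImplicit false
set_option linter.unusedSectionVars false
set_option linter.unusedVariables false

open Complex MeasureTheory
open scoped BigOperators ComplexConjugate

namespace Pool.Agent.V8H95.NM

open Pool.Agent.H4R2.AE Pool.Agent.V8H99.AD Pool.Agent.V8H95.MF Pool.Agent.V8H95.BW
open Pool.Agent.V8H95.EF

variable {d L : ℕ} [NeZero L]

theorem exists_basis (lam : ℝ) (V : T d L → ℝ) :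
    ∃ (b : OrthonormalBasis (T d L) ℂ (XT d L)) (E : T d L → ℝ),
      ∀ α, HC lam V (b α) = ((E α : ℝ) : ℂ) • b α := by
  have hT : ((HC lam V : XT d L →L[ℂ] XT d L) : XT d L →ₗ[ℂ] XT d L).IsSymmetric :=
    fun f g => HC_symm lam V f g
  have hn : Module.finrank ℂ (XT d L) = Fintype.card (T d L) := finrank_euclideanSpace
  set b0 := hT.eigenvectorBasis hn with hb0
  set eq := (Fintype.equivFin (T d L)).symm with heq
  refine ⟨b0.reindex eq, fun α => hT.eigenvalues hn (eq.symm α), fun α => ?_⟩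
  rw [OrthonormalBasis.reindex_apply]
  exact hT.apply_eigenvectorBasis hn _

section
variable {lam : ℝ} {V : T d L → ℝ} (b : OrthonormalBasis (T d L) ℂ (XT d L)) (E : T d L → ℝ)
  (hb : ∀ α, HC lam V (b α) = ((E α : ℝ) : ℂ) • b α)
include hb

theorem Ez_ne {z : ℂ} (hz : z.im ≠ 0) (α : T d L) : ((E α : ℝ) : ℂ) - z ≠ 0 := by
  intro h
  have h1 := congrArg Complex.im h
  rw [Complex.sub_im, Complex.ofReal_im, zero_sub, Complex.zero_im, neg_eq_zero] at h1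
  exact hz h1

theorem GT_b {z : ℂ} (hz : z.im ≠ 0) (α : T d L) :
    GT lam V z (b α) = (((E α : ℝ) : ℂ) - z)⁻¹ • b α := by
  apply rg_uniq (HC_sa lam V) hz
  rw [map_smul, hb, smul_smul, smul_smul, ← sub_smul]
  have h := Ez_ne b E hb hz α
  have e : (((E α : ℝ) : ℂ) - z)⁻¹ * ((E α : ℝ) : ℂ) - z * (((E α : ℝ) : ℂ) - z)⁻¹ = 1 := by
    field_simp
  rw [e, one_smul]

theorem inner_GT {z : ℂ} (hz : z.im ≠ 0) (α : T d L) (g : XT d L) :
    (inner ℂ (b α) (GT lam V z g) : ℂ) = inner ℂ (b α) g / (((E α : ℝ) : ℂ) - z) := by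
  have hz' : (conj z).im ≠ 0 := by simpa using hz
  have h1 : (inner ℂ (GT lam V (conj z) (b α)) g : ℂ) = inner ℂ (b α) (GT lam V z g) :=
    rg_adj (HC_sa lam V) hz (b α) g
  rw [← h1, GT_b b E hb hz', inner_smul_left, map_inv₀, map_sub, Complex.conj_ofReal,
    Complex.conj_conj]
  field_simp

theorem GT_sum {z : ℂ} (hz : z.im ≠ 0) (g : XT d L) :
    ‖GT lam V z g‖ ^ 2 = ∑ α, ‖(inner ℂ (b α) g : ℂ)‖ ^ 2 / ‖((E α : ℝ) : ℂ) - z‖ ^ 2 := by
  rw [← b.sum_sq_norm_inner_right (GT lam V z g)]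
  refine Finset.sum_congr rfl fun α _ => ?_
  rw [inner_GT b E hb hz, norm_div, div_pow]

theorem XX_sum {z : ℂ} (hz : z.im ≠ 0) (x : T d L) :
    XX lam z x V = ∑ α, ‖(inner ℂ (b α) (es x) : ℂ)‖ ^ 2 *
      (z.im / ‖((E α : ℝ) : ℂ) - z‖ ^ 2) := by
  rw [XX_eq lam hz, GT_sum b E hb hz, Finset.mul_sum]
  exact Finset.sum_congr rfl fun α _ => by ring

theorem GG_sum {z : ℂ} (hz : z.im ≠ 0) (x y : T d L) :
    ‖GG lam z x y V‖ ≤ ∑ α, ‖(inner ℂ (b α) (es x) : ℂ)‖ * ‖(inner ℂ (b α) (es y) : ℂ)‖ /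
      ‖((E α : ℝ) : ℂ) - z‖ := by
  rw [GG_eq, ← b.sum_inner_mul_inner]
  refine (norm_sum_le _ _).trans (Finset.sum_le_sum fun α _ => ?_)
  rw [norm_mul, inner_GT b E hb hz, norm_div, ← mul_div_assoc]
  have : ‖(inner ℂ (es x) (b α) : ℂ)‖ = ‖(inner ℂ (b α) (es x) : ℂ)‖ := by
    rw [← inner_conj_symm, Complex.norm_conj]
  rw [this]

theorem QC_b (c0 : ℝ) (p : ℕ) (α : T d L) :
    (QC lam c0 V ^ p) (b α) = (((1 - (E α - c0) / bb d) ^ p : ℝ) : ℂ) • b α := by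
  induction p with
  | zero => simp
  | succ p ih =>
    rw [pow_succ, mul_apply_eq_comp, QC_apply, hb, ← sub_smul, smul_smul]
    have e : b α - (((1 / bb d : ℝ) : ℂ) * (((E α : ℝ) : ℂ) - ((c0 : ℝ) : ℂ))) • b α =
        ((1 - (E α - c0) / bb d : ℝ) : ℂ) • b α := by
      nth_rewrite 1 [← one_smul ℂ (b α)]
      rw [← sub_smul]
      congr 1
      push_cast
      ring
    rw [e, map_smul, ih, smul_smul]
    congr 1
    push_cast
    ring

theorem QC_sa (c0 : ℝ) (f g : XT d L) :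
    (inner ℂ (QC lam c0 V f) g : ℂ) = inner ℂ f (QC lam c0 V g) := by
  rw [QC_apply, QC_apply, inner_sub_left, inner_sub_right, inner_smul_left, inner_smul_right,
    inner_sub_left, inner_sub_right, inner_smul_left, inner_smul_right, HC_symm,
    Complex.conj_ofReal, Complex.conj_ofReal]

theorem QC_pow_sa (c0 : ℝ) (p : ℕ) (f g : XT d L) :
    (inner ℂ ((QC lam c0 V ^ p) f) g : ℂ) = inner ℂ f ((QC lam c0 V ^ p) g) := by
  induction p generalizing f g with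
  | zero => simp
  | succ p ih =>
    rw [pow_succ, mul_apply_eq_comp, ih, QC_sa b E hb]
    congr 1
    rw [← mul_apply_eq_comp, ← pow_succ', ← pow_succ]

theorem QC_sum (c0 : ℝ) (p : ℕ) (g : XT d L) :
    ‖(QC lam c0 V ^ p) g‖ ^ 2 = ∑ α, ‖(inner ℂ (b α) g : ℂ)‖ ^ 2 *
      (1 - (E α - c0) / bb d) ^ (2 * p) := by
  rw [← b.sum_sq_norm_inner_right ((QC lam c0 V ^ p) g)]
  refine Finset.sum_congr rfl fun α _ => ?_
  rw [← QC_pow_sa b E hb, QC_b b E hb, inner_smul_left, norm_mul, Complex.norm_conj,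
    Complex.norm_real, mul_pow, Real.norm_eq_abs, sq_abs]
  ring

theorem wsum (x : T d L) : ∑ α, ‖(inner ℂ (b α) (es x) : ℂ)‖ ^ 2 = 1 := by
  rw [b.sum_sq_norm_inner_right, es_norm, one_pow]

end

/-- the spectral density of good potentials in dimension three -/
theorem spec : ∃ C : ℝ, 1 ≤ C ∧ ∀ (L : ℕ) [NeZero L] (lam c0 η m : ℝ) (V ψ : T 3 L → ℝ),
    Gd lam c0 η m V ψ → ∀ (b : OrthonormalBasis (T 3 L) ℂ (XT 3 L)) (E : T 3 L → ℝ),
    (∀ α, HC lam V (b α) = ((E α : ℝ) : ℂ) • b α) → ∀ (x : T 3 L) (r : ℝ), 0 < r →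
    (∑ α, if E α - c0 ≤ r ^ 2 then ‖(inner ℂ (b α) (es x) : ℂ)‖ ^ 2 else 0) ≤ C * r ^ 3 := by
  classical
  obtain ⟨C, hC, H⟩ := heat 3 le_rfl
  refine ⟨4 / 3 * C, by linarith, ?_⟩
  intro L _ lam c0 η m V ψ h b E hb x r hr
  set w : T 3 L → ℝ := fun α => ‖(inner ℂ (b α) (es x) : ℂ)‖ ^ 2 with hw
  have hw0 : ∀ α, 0 ≤ w α := fun α => by positivity
  have hw1 : ∑ α, w α = 1 := wsum b E hb x
  set N := ∑ α, (if E α - c0 ≤ r ^ 2 then w α else 0) with hN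
  have hN0 : 0 ≤ N := Finset.sum_nonneg fun α _ => by split_ifs; exacts [hw0 α, le_rfl]
  have hN1 : N ≤ 1 := by
    rw [← hw1]
    exact Finset.sum_le_sum fun α _ => by split_ifs; exacts [le_rfl, hw0 α]
  have hbb : bb 3 = 26 := by unfold bb; norm_num
  rcases le_or_gt (13 / 4) (r ^ 2) with hc | hc
  · have h1 : 1 ≤ r ^ 3 := by
      have : 1 ≤ r := by nlinarith
      exact one_le_pow₀ this
    nlinarith
  · set p : ℕ := ⌊(26 : ℝ) / (8 * r ^ 2)⌋₊ with hp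
    have hr2 : 0 < r ^ 2 := by positivity
    have h1 : (1 : ℝ) ≤ 26 / (8 * r ^ 2) := by
      rw [le_div_iff₀ (by positivity)]
      linarith
    have h2 : 1 ≤ p := Nat.one_le_floor_iff _ |>.2 h1
    have h3 : (p : ℝ) ≤ 26 / (8 * r ^ 2) := Nat.floor_le (by positivity)
    have h4 : (1 : ℝ) / r ^ 2 ≤ p := by
      have h5 : (26 : ℝ) / (8 * r ^ 2) < p + 1 := Nat.lt_floor_add_one _
      have h6 : (1 : ℝ) ≤ p := by exact_mod_cast h2
      have h7 : (26 : ℝ) / (8 * r ^ 2) = 13 / 4 * (1 / r ^ 2) := by field_simp; norm_num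
      rw [h7] at h5
      by_contra hcon
      push Not at hcon
      nlinarith
    have h5 := H L lam c0 η m V ψ h x p p le_rfl
    have h6 : ‖(QC lam c0 V ^ p) (es x)‖ ^ 2 = ∑ α, w α * (1 - (E α - c0) / bb 3) ^ (2 * p) :=
      QC_sum b E hb c0 p (es x)
    have h7 : 3 / 4 * N ≤ ‖(QC lam c0 V ^ p) (es x)‖ ^ 2 := by
      rw [h6, hN, Finset.mul_sum]
      refine Finset.sum_le_sum fun α _ => ?_
      split_ifs with hα
      · have hE := E_ge b E hb h α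
        have h8 : 3 / 4 ≤ (1 - (E α - c0) / bb 3) ^ (2 * p) := by
          have h9 : 1 - (2 * p : ℕ) * ((E α - c0) / 26) ≤ (1 - (E α - c0) / bb 3) ^ (2 * p) := by
            have h10 := one_add_mul_le_pow (a := -((E α - c0) / 26)) (by
              have : (E α - c0) / 26 ≤ 1 := by
                rw [div_le_one (by norm_num)]
                linarith
              linarith) (2 * p)
            rw [hbb]
            calc 1 - (2 * p : ℕ) * ((E α - c0) / 26) = 1 + (2 * p : ℕ) * (-((E α - c0) / 26)) := by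
                  ring
              _ ≤ _ := h10
              _ = _ := by rw [← sub_eq_add_neg]
          refine le_trans ?_ h9
          have h10 : ((2 * p : ℕ) : ℝ) * ((E α - c0) / 26) ≤ 1 / 4 := by
            push_cast
            calc 2 * (p : ℝ) * ((E α - c0) / 26) ≤ 2 * (26 / (8 * r ^ 2)) * (r ^ 2 / 26) := by
                  gcongr
              _ = 1 / 4 := by field_simp; norm_num
          linarith
        have := hw0 α
        nlinarith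
      · rw [mul_zero]
        have : 0 ≤ (1 - (E α - c0) / bb 3) ^ (2 * p) := by
          rw [pow_mul]
          positivity
        have := hw0 α
        positivity
    have h8 : (1 / r) ^ 3 ≤ (p : ℝ) ^ (((3 : ℕ) : ℝ) / 2) := by
      have h9 : ((1 / r) ^ 2) ^ (((3 : ℕ) : ℝ) / 2) = (1 / r) ^ 3 := by
        rw [← Real.rpow_natCast (1 / r) 2, ← Real.rpow_mul (by positivity),
          ← Real.rpow_natCast (1 / r) 3]
        congr 1
        push_cast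
        ring
      rw [← h9]
      apply Real.rpow_le_rpow (by positivity) _ (by positivity)
      rw [div_pow, one_pow]
      exact h4
    have h9 : ‖(QC lam c0 V ^ p) (es x)‖ ^ 2 * (1 / r) ^ 3 ≤ C := by
      refine le_trans ?_ h5
      have : 0 ≤ ‖(QC lam c0 V ^ p) (es x)‖ ^ 2 := by positivity
      exact mul_le_mul_of_nonneg_left h8 this
    have h10 : 3 / 4 * N * (1 / r) ^ 3 ≤ C := by
      refine le_trans ?_ h9
      gcongr
    rw [one_div, inv_pow] at h10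
    have h11 : 3 / 4 * N ≤ C * r ^ 3 := by
      rwa [← div_eq_mul_inv, div_le_iff₀ (by positivity)] at h10
    linarith

/-- the complex energies -/
noncomputable def zz (c0 e η : ℝ) : ℂ := ((c0 + e : ℝ) : ℂ) + ((η : ℝ) : ℂ) * Complex.I

theorem zz_re (c0 e η : ℝ) : (zz c0 e η).re = c0 + e := by
  unfold zz
  simp

theorem zz_im (c0 e η : ℝ) : (zz c0 e η).im = η := by
  unfold zz
  simp

theorem zz_norm (c0 e η E : ℝ) : ‖((E : ℝ) : ℂ) - zz c0 e η‖ ^ 2 = (E - c0 - e) ^ 2 + η ^ 2 := by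
  rw [Complex.sq_norm, Complex.normSq_apply]
  unfold zz
  simp
  ring

/-- deterministic bounds at the initial scale -/
theorem ini : ∃ C : ℝ, 1 ≤ C ∧ ∀ (L : ℕ) [NeZero L] (lam c0 η m : ℝ) (V ψ : T 3 L → ℝ),
    Gd lam c0 η m V ψ → ∀ (b : OrthonormalBasis (T 3 L) ℂ (XT 3 L)) (E : T 3 L → ℝ),
    (∀ α, HC lam V (b α) = ((E α : ℝ) : ℂ) • b α) → ∀ (x : T 3 L) (κ : ℝ), 0 < κ →
    ∑ α, ‖(inner ℂ (b α) (es x) : ℂ)‖ ^ 2 / (E α - c0 + κ ^ 2) ^ 2 ≤ C / κ := by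
  obtain ⟨C, hC, H⟩ := spec
  refine ⟨16 * C, by linarith, ?_⟩
  intro L _ lam c0 η m V ψ h b E hb x κ hκ
  have h1 := dyadic (Finset.univ : Finset (T 3 L)) (fun α => ‖(inner ℂ (b α) (es x) : ℂ)‖ ^ 2)
    (fun α => √(E α - c0 + κ ^ 2)) (fun α _ => by positivity) κ C 3 hκ (fun α _ => by
      apply Real.le_sqrt_of_sq_le
      have := E_ge b E hb h α
      linarith) (fun r hr => by
      have hr0 : 0 < r := lt_of_lt_of_le hκ hr
      refine le_trans (Finset.sum_le_sum fun α _ => ?_) (H L lam c0 η m V ψ h b E hb x r hr0)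
      by_cases h2 : √(E α - c0 + κ ^ 2) ≤ r
      · rw [if_pos h2, if_pos]
        have h3 := (Real.sqrt_le_left hr0.le).1 h2
        have : 0 ≤ κ ^ 2 := by positivity
        linarith
      · rw [if_neg h2]
        split_ifs <;> positivity)
  have h2 : ∀ α, (√(E α - c0 + κ ^ 2)) ^ (3 + 1) = (E α - c0 + κ ^ 2) ^ 2 := by
    intro α
    have h3 := E_ge b E hb h α
    have : (√(E α - c0 + κ ^ 2)) ^ (3 + 1) = ((√(E α - c0 + κ ^ 2)) ^ 2) ^ 2 := by ring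
    rw [this, Real.sq_sqrt (by nlinarith [sq_nonneg κ])]
  simp only [h2] at h1
  refine h1.trans (le_of_eq ?_)
  norm_num

/-- the initial bound of the local density of states -/
theorem XX_ini : ∃ C : ℝ, 1 ≤ C ∧ ∀ (L : ℕ) [NeZero L] (lam c0 η m : ℝ) (V ψ : T 3 L → ℝ),
    Gd lam c0 η m V ψ → ∀ (x : T 3 L) (κ : ℝ), 0 < κ →
    XX lam (zz c0 (κ ^ 2) (κ ^ 2)) x V ≤ C * κ := by
  obtain ⟨C, hC, H⟩ := ini
  refine ⟨5 * C, by linarith, ?_⟩
  intro L _ lam c0 η m V ψ h x κ hκ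
  obtain ⟨b, E, hb⟩ := exists_basis lam V
  have hz : (zz c0 (κ ^ 2) (κ ^ 2)).im ≠ 0 := by rw [zz_im]; positivity
  rw [XX_sum b E hb hz, zz_im]
  have h1 := H L lam c0 η m V ψ h b E hb x κ hκ
  calc ∑ α, ‖(inner ℂ (b α) (es x) : ℂ)‖ ^ 2 *
        (κ ^ 2 / ‖((E α : ℝ) : ℂ) - zz c0 (κ ^ 2) (κ ^ 2)‖ ^ 2) ≤
      ∑ α, (5 * κ ^ 2) * (‖(inner ℂ (b α) (es x) : ℂ)‖ ^ 2 / (E α - c0 + κ ^ 2) ^ 2) := by
        refine Finset.sum_le_sum fun α _ => ?_
        rw [zz_norm]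
        have hE := E_ge b E hb h α
        set t := E α - c0 with ht
        have ht0 : 0 ≤ t := by linarith
        have hκ2 : 0 < κ ^ 2 := by positivity
        have h2 : (t + κ ^ 2) ^ 2 ≤ 5 * ((t - κ ^ 2) ^ 2 + (κ ^ 2) ^ 2) := by
          nlinarith [sq_nonneg (2 * t - 3 * κ ^ 2)]
        have h3 : κ ^ 2 / ((t - κ ^ 2) ^ 2 + (κ ^ 2) ^ 2) ≤ 5 * κ ^ 2 / (t + κ ^ 2) ^ 2 := by
          rw [div_le_div_iff₀ (by positivity) (by positivity)]
          nlinarith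
        calc _ ≤ ‖(inner ℂ (b α) (es x) : ℂ)‖ ^ 2 * (5 * κ ^ 2 / (t + κ ^ 2) ^ 2) := by gcongr
          _ = _ := by ring
    _ = 5 * κ ^ 2 * ∑ α, ‖(inner ℂ (b α) (es x) : ℂ)‖ ^ 2 / (E α - c0 + κ ^ 2) ^ 2 := by
        rw [Finset.mul_sum]
    _ ≤ 5 * κ ^ 2 * (C / κ) := by gcongr
    _ = _ := by field_simp

/-- the local density of states at two scales -/
theorem XX_mono (lam c0 e : ℝ) (x : T d L) (V : T d L → ℝ) (η η' : ℝ) (hη : 0 < η')
    (hηη : η' ≤ η) : XX lam (zz c0 e η') x V ≤ η / η' * XX lam (zz c0 e η) x V := by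
  obtain ⟨b, E, hb⟩ := exists_basis lam V
  have hη0 : 0 < η := lt_of_lt_of_le hη hηη
  have hz : (zz c0 e η).im ≠ 0 := by rw [zz_im]; positivity
  have hz' : (zz c0 e η').im ≠ 0 := by rw [zz_im]; positivity
  rw [XX_sum b E hb hz, XX_sum b E hb hz', zz_im, zz_im, Finset.mul_sum]
  refine Finset.sum_le_sum fun α _ => ?_
  rw [zz_norm, zz_norm]
  set t := (E α - c0 - e) ^ 2 with ht
  have ht0 : 0 ≤ t := by positivity
  have h1 : η' / (t + η' ^ 2) ≤ η / η' * (η / (t + η ^ 2)) := by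
    rw [div_mul_div_comm, div_le_div_iff₀ (by positivity) (by positivity)]
    have : η' ^ 2 ≤ η ^ 2 := by gcongr
    nlinarith
  calc _ ≤ ‖(inner ℂ (b α) (es x) : ℂ)‖ ^ 2 * (η / η' * (η / (t + η ^ 2))) := by gcongr
    _ = _ := by ring

/-- decomposition of the resolvent kernel over scales -/
theorem scale (t K ρ n : ℝ) (j : ℕ) (ht : 0 ≤ t) (hK : 0 < K) (hρ : 0 < ρ) (hρ1 : ρ ≤ 1)
    (hn : 0 < n) (hn2 : n ^ 2 = (t - K) ^ 2 + (K * ρ ^ j) ^ 2) :
    1 / n ≤ 3 / (t + K) + 2 / ρ * ∑ i ∈ Finset.range (j + 1),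
      (K * ρ ^ i) / ((t - K) ^ 2 + (K * ρ ^ i) ^ 2) := by
  have hsc : ∀ i : ℕ, 0 < K * ρ ^ i := fun i => by positivity
  have hD : ∀ i : ℕ, 0 < (t - K) ^ 2 + (K * ρ ^ i) ^ 2 := fun i => by
    have := hsc i
    positivity
  have hs0 : 0 ≤ ∑ i ∈ Finset.range (j + 1), (K * ρ ^ i) / ((t - K) ^ 2 + (K * ρ ^ i) ^ 2) :=
    Finset.sum_nonneg fun i _ => (div_pos (hsc i) (hD i)).le
  have hs1 : 0 ≤ 2 / ρ * ∑ i ∈ Finset.range (j + 1),
      (K * ρ ^ i) / ((t - K) ^ 2 + (K * ρ ^ i) ^ 2) := mul_nonneg (by positivity) hs0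
  have h1 : |t - K| ≤ n := by
    have h7 : |t - K| ^ 2 ≤ n ^ 2 := by
      rw [hn2, sq_abs]
      have : 0 ≤ (K * ρ ^ j) ^ 2 := sq_nonneg _
      linarith
    exact (abs_le.1 (abs_le_of_sq_le_sq h7 hn.le)).2
  by_cases hc : K ≤ |t - K|
  · have h2 : (t + K) / 3 ≤ |t - K| := by
      rcases le_total K t with h3 | h3
      · rw [abs_of_nonneg (by linarith)] at hc ⊢
        linarith
      · rw [abs_of_nonpos (by linarith)] at hc ⊢
        linarith
    have h3 : 1 / n ≤ 3 / (t + K) := by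
      rw [div_le_div_iff₀ hn (by positivity)]
      linarith
    linarith
  · push Not at hc
    have h5 : 0 ≤ 3 / (t + K) := by positivity
    obtain ⟨i, hij, hi1, hi2⟩ : ∃ i : ℕ, i ≤ j ∧ |t - K| ≤ K * ρ ^ i ∧
        1 / n ≤ 1 / (ρ * (K * ρ ^ i)) := by
      by_cases hc2 : |t - K| ≤ K * ρ ^ j
      · refine ⟨j, le_rfl, hc2, ?_⟩
        have h6 : K * ρ ^ j ≤ n := by
          have h7 : (K * ρ ^ j) ^ 2 ≤ n ^ 2 := by
            rw [hn2]
            have : 0 ≤ (t - K) ^ 2 := sq_nonneg _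
            linarith
          exact (abs_le.1 (abs_le_of_sq_le_sq h7 hn.le)).2
        have h8 : ρ * (K * ρ ^ j) ≤ n := by
          have := hsc j
          calc ρ * (K * ρ ^ j) ≤ 1 * (K * ρ ^ j) := by gcongr
            _ ≤ _ := by rw [one_mul]; exact h6
        exact one_div_le_one_div_of_le (mul_pos hρ (hsc j)) h8
      · push Not at hc2
        have hex : ∃ i : ℕ, K * ρ ^ i < |t - K| := ⟨j, hc2⟩
        classical
        set i0 := Nat.find hex with hi0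
        have h6 : K * ρ ^ i0 < |t - K| := Nat.find_spec hex
        have h7 : i0 ≤ j := Nat.find_min' hex hc2
        have h8 : i0 ≠ 0 := by
          intro h0
          rw [h0, pow_zero, mul_one] at h6
          linarith
        obtain ⟨i, hi⟩ : ∃ i, i0 = i + 1 := ⟨i0 - 1, by omega⟩
        have h9 : ¬ K * ρ ^ i < |t - K| := Nat.find_min hex (by omega)
        push Not at h9
        refine ⟨i, by omega, h9, ?_⟩
        rw [hi, pow_succ] at h6
        have h11 : ρ * (K * ρ ^ i) ≤ n := by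
          calc ρ * (K * ρ ^ i) = K * (ρ ^ i * ρ) := by ring
            _ ≤ _ := h6.le.trans h1
        exact one_div_le_one_div_of_le (mul_pos hρ (hsc i)) h11
    have h6 : 1 / (ρ * (K * ρ ^ i)) ≤ 2 / ρ * ((K * ρ ^ i) /
        ((t - K) ^ 2 + (K * ρ ^ i) ^ 2)) := by
      have hDi := hD i
      set s := K * ρ ^ i with hs
      have hs0 : 0 < s := hsc i
      have h7 : (t - K) ^ 2 ≤ s ^ 2 := by
        rw [← sq_abs]
        exact pow_le_pow_left₀ (abs_nonneg _) hi1 2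
      rw [div_mul_div_comm, div_le_div_iff₀ (by positivity) (mul_pos hρ hDi)]
      nlinarith
    have h7 : (K * ρ ^ i) / ((t - K) ^ 2 + (K * ρ ^ i) ^ 2) ≤
        ∑ i ∈ Finset.range (j + 1), (K * ρ ^ i) / ((t - K) ^ 2 + (K * ρ ^ i) ^ 2) :=
      Finset.single_le_sum (f := fun i => (K * ρ ^ i) / ((t - K) ^ 2 + (K * ρ ^ i) ^ 2))
        (fun i _ => (div_pos (hsc i) (hD i)).le) (Finset.mem_range.2 (by omega))
    have h8 : 2 / ρ * ((K * ρ ^ i) / ((t - K) ^ 2 + (K * ρ ^ i) ^ 2)) ≤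
        2 / ρ * ∑ i ∈ Finset.range (j + 1), (K * ρ ^ i) / ((t - K) ^ 2 + (K * ρ ^ i) ^ 2) :=
      mul_le_mul_of_nonneg_left h7 (by positivity)
    linarith [hi2.trans h6]

/-- off-diagonal bound -/
theorem GG_bound : ∃ C : ℝ, 1 ≤ C ∧ ∀ (L : ℕ) [NeZero L] (lam c0 η m : ℝ) (V ψ : T 3 L → ℝ),
    Gd lam c0 η m V ψ → ∀ (κ : ℝ), 0 < κ → ∀ ρ : ℝ, 0 < ρ → ρ ≤ 1 → ∀ (j : ℕ) (B : ℝ),
    (∀ (i : ℕ), i ≤ j → ∀ x, XX lam (zz c0 (κ ^ 2) (κ ^ 2 * ρ ^ i)) x V ≤ B) → ∀ x y,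
    ‖GG lam (zz c0 (κ ^ 2) (κ ^ 2 * ρ ^ j)) x y V‖ ≤ C / √κ + 2 / ρ * ((j + 1) * B) := by
  obtain ⟨C, hC, H⟩ := ini
  refine ⟨3 * √C, by
    have : 1 ≤ √C := Real.one_le_sqrt.2 hC
    linarith, ?_⟩
  intro L _ lam c0 η m V ψ h κ hκ ρ hρ hρ1 j B hB x y
  obtain ⟨b, E, hb⟩ := exists_basis lam V
  have hκ2 : 0 < κ ^ 2 := by positivity
  have hsc : ∀ i : ℕ, 0 < κ ^ 2 * ρ ^ i := fun i => by positivity
  have hz : ∀ i : ℕ, (zz c0 (κ ^ 2) (κ ^ 2 * ρ ^ i)).im ≠ 0 := fun i => by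
    rw [zz_im]
    exact (hsc i).ne'
  set Z := zz c0 (κ ^ 2) (κ ^ 2 * ρ ^ j) with hZ
  -- pointwise
  have hpt : ∀ α, 1 / ‖((E α : ℝ) : ℂ) - Z‖ ≤ 3 / (E α - c0 + κ ^ 2) +
      2 / ρ * ∑ i ∈ Finset.range (j + 1), (κ ^ 2 * ρ ^ i) /
        ‖((E α : ℝ) : ℂ) - zz c0 (κ ^ 2) (κ ^ 2 * ρ ^ i)‖ ^ 2 := by
    intro α
    have hE := E_ge b E hb h α
    have hnp : 0 < ‖((E α : ℝ) : ℂ) - Z‖ := by
      rw [norm_pos_iff]
      exact Ez_ne b E hb (hz j) α
    have hn2 : ‖((E α : ℝ) : ℂ) - Z‖ ^ 2 = (E α - c0 - κ ^ 2) ^ 2 + (κ ^ 2 * ρ ^ j) ^ 2 :=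
      zz_norm _ _ _ _
    have key := scale (E α - c0) (κ ^ 2) ρ _ j (by linarith) hκ2 hρ hρ1 hnp hn2
    simp only [zz_norm]
    exact key
  -- the diagonal sums
  have hS : ∀ x : T 3 L, ∑ α, ‖(inner ℂ (b α) (es x) : ℂ)‖ ^ 2 * (1 / ‖((E α : ℝ) : ℂ) - Z‖) ≤
      3 * √C / √κ + 2 / ρ * ((j + 1) * B) := by
    intro x
    set w : T 3 L → ℝ := fun α => ‖(inner ℂ (b α) (es x) : ℂ)‖ ^ 2 with hw
    have hw0 : ∀ α, 0 ≤ w α := fun α => by positivity
    have h1 : ∑ α, w α * (1 / ‖((E α : ℝ) : ℂ) - Z‖) ≤ ∑ α, (w α * (3 / (E α - c0 + κ ^ 2)) +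
        2 / ρ * ∑ i ∈ Finset.range (j + 1), w α * ((κ ^ 2 * ρ ^ i) /
        ‖((E α : ℝ) : ℂ) - zz c0 (κ ^ 2) (κ ^ 2 * ρ ^ i)‖ ^ 2)) := by
      refine Finset.sum_le_sum fun α _ => ?_
      calc w α * (1 / ‖((E α : ℝ) : ℂ) - Z‖) ≤ w α * (3 / (E α - c0 + κ ^ 2) +
            2 / ρ * ∑ i ∈ Finset.range (j + 1), (κ ^ 2 * ρ ^ i) /
              ‖((E α : ℝ) : ℂ) - zz c0 (κ ^ 2) (κ ^ 2 * ρ ^ i)‖ ^ 2) :=
            mul_le_mul_of_nonneg_left (hpt α) (hw0 α)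
        _ = _ := by
            rw [mul_add, ← Finset.mul_sum]
            ring
    refine h1.trans ?_
    rw [Finset.sum_add_distrib, ← Finset.mul_sum, Finset.sum_comm]
    have h2 : ∑ α, w α * (3 / (E α - c0 + κ ^ 2)) ≤ 3 * √C / √κ := by
      have h3 : ∑ α, √(w α) * (√(w α) / (E α - c0 + κ ^ 2)) ≤
          √(∑ α, √(w α) ^ 2) * √(∑ α, (√(w α) / (E α - c0 + κ ^ 2)) ^ 2) :=
        cs_P _ _ _
      have h4 : ∑ α, √(w α) ^ 2 = 1 := by
        rw [← wsum b E hb x]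
        exact Finset.sum_congr rfl fun α _ => Real.sq_sqrt (hw0 α)
      have h5 : ∑ α, (√(w α) / (E α - c0 + κ ^ 2)) ^ 2 ≤ C / κ := by
        refine le_trans (le_of_eq ?_) (H L lam c0 η m V ψ h b E hb x κ hκ)
        refine Finset.sum_congr rfl fun α _ => ?_
        rw [div_pow, Real.sq_sqrt (hw0 α)]
      rw [h4, Real.sqrt_one, one_mul] at h3
      calc ∑ α, w α * (3 / (E α - c0 + κ ^ 2)) =
          3 * ∑ α, √(w α) * (√(w α) / (E α - c0 + κ ^ 2)) := by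
            rw [Finset.mul_sum]
            refine Finset.sum_congr rfl fun α _ => ?_
            have := Real.mul_self_sqrt (hw0 α)
            calc w α * (3 / (E α - c0 + κ ^ 2)) =
                (√(w α) * √(w α)) * (3 / (E α - c0 + κ ^ 2)) := by rw [this]
              _ = _ := by ring
        _ ≤ 3 * √(C / κ) := by
            gcongr
            exact h3.trans (Real.sqrt_le_sqrt h5)
        _ = 3 * √C / √κ := by rw [Real.sqrt_div (by linarith)]; ring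
    have h3 : 2 / ρ * ∑ i ∈ Finset.range (j + 1), ∑ α, w α * ((κ ^ 2 * ρ ^ i) /
        ‖((E α : ℝ) : ℂ) - zz c0 (κ ^ 2) (κ ^ 2 * ρ ^ i)‖ ^ 2) ≤ 2 / ρ * ((j + 1) * B) := by
      gcongr
      calc ∑ i ∈ Finset.range (j + 1), ∑ α, w α * ((κ ^ 2 * ρ ^ i) /
            ‖((E α : ℝ) : ℂ) - zz c0 (κ ^ 2) (κ ^ 2 * ρ ^ i)‖ ^ 2) ≤
          ∑ i ∈ Finset.range (j + 1), B := by
            refine Finset.sum_le_sum fun i hi => ?_
            have h4 := XX_sum b E hb (hz i) x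
            rw [zz_im] at h4
            rw [← h4]
            exact hB i (by have := Finset.mem_range.1 hi; omega) x
        _ = (j + 1) * B := by
            rw [Finset.sum_const, Finset.card_range, nsmul_eq_mul]
            push_cast
            ring
    exact add_le_add h2 h3
  refine (GG_sum b E hb (hz j) x y).trans ?_
  have h1 : ∑ α, ‖(inner ℂ (b α) (es x) : ℂ)‖ * ‖(inner ℂ (b α) (es y) : ℂ)‖ /
      ‖((E α : ℝ) : ℂ) - Z‖ ≤
      1 / 2 * ∑ α, ‖(inner ℂ (b α) (es x) : ℂ)‖ ^ 2 * (1 / ‖((E α : ℝ) : ℂ) - Z‖) +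
      1 / 2 * ∑ α, ‖(inner ℂ (b α) (es y) : ℂ)‖ ^ 2 * (1 / ‖((E α : ℝ) : ℂ) - Z‖) := by
    rw [Finset.mul_sum, Finset.mul_sum, ← Finset.sum_add_distrib]
    refine Finset.sum_le_sum fun α _ => ?_
    set p := ‖(inner ℂ (b α) (es x) : ℂ)‖
    set q := ‖(inner ℂ (b α) (es y) : ℂ)‖
    set n := 1 / ‖((E α : ℝ) : ℂ) - Z‖ with hn
    have hn0 : 0 ≤ n := by positivity
    have e1 : p * q / ‖((E α : ℝ) : ℂ) - Z‖ = p * q * n := by rw [hn]; ring
    rw [e1]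
    nlinarith [mul_nonneg hn0 (sq_nonneg (p - q))]
  have h2 := hS x
  have h3 := hS y
  refine h1.trans ?_
  linarith

end Pool.Agent.V8H95.NM
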