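import Mathlib

/-!
Scalar integrals.
-/

set_option autoImplicit false

open Complex MeasureTheory Filter Topology
open scoped ComplexConjugate

namespace Pool.Agent.V8H95.NM

theorem cauchy_int (E η : ℝ) (hη : 0 < η) : Integrable fun x : ℝ => 1 / ((E - x) ^ 2 + η ^ 2) := by
  have h1 := ((integrable_inv_one_add_sq.comp_div hη.ne').comp_sub_right E).const_mul (1 / η ^ 2)
  refine h1.congr (Filter.Eventually.of_forall fun x => ?_)
  show 1 / η ^ 2 * (1 + ((x - E) / η) ^ 2)⁻¹ = 1 / ((E - x) ^ 2 + η ^ 2)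
  have h2 : (x - E) ^ 2 = (E - x) ^ 2 := by ring
  rw [div_pow, h2]
  have h3 : 0 < (E - x) ^ 2 + η ^ 2 := by positivity
  field_simp
  ring

/-- the two poles -/
noncomputable def kf (a b η : ℝ) (x : ℝ) : ℂ :=
  1 / (((x : ℂ) - (a + η * I)) * ((x : ℂ) - (b - η * I)))

theorem pole1 (a η : ℝ) (hη : 0 < η) (x : ℝ) : ((x : ℂ) - (a + η * I)) ∈ slitPlane := by
  rw [Complex.mem_slitPlane_iff]
  right
  simp
  exact hη.ne'

theorem pole2 (b η : ℝ) (hη : 0 < η) (x : ℝ) : ((x : ℂ) - (b - η * I)) ∈ slitPlane := by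
  rw [Complex.mem_slitPlane_iff]
  right
  simp
  exact hη.ne'

theorem nsq1 (a η x : ℝ) : ‖((x : ℂ) - (a + η * I))‖ ^ 2 = (a - x) ^ 2 + η ^ 2 := by
  rw [Complex.sq_norm, Complex.normSq_apply]
  simp
  ring

theorem nsq2 (b η x : ℝ) : ‖((x : ℂ) - (b - η * I))‖ ^ 2 = (b - x) ^ 2 + η ^ 2 := by
  rw [Complex.sq_norm, Complex.normSq_apply]
  simp
  ring

theorem kf_int (a b η : ℝ) (hη : 0 < η) : Integrable (kf a b η) := by
  have hc : Continuous (kf a b η) := by
    unfold kf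
    refine Continuous.div continuous_const ?_ fun x => ?_
    · fun_prop
    · exact mul_ne_zero (slitPlane_ne_zero (pole1 a η hη x)) (slitPlane_ne_zero (pole2 b η hη x))
  refine Integrable.mono' ((cauchy_int a η hη).add (cauchy_int b η hη)) hc.aestronglyMeasurable
    (Filter.Eventually.of_forall fun x => ?_)
  show ‖kf a b η x‖ ≤ 1 / ((a - x) ^ 2 + η ^ 2) + 1 / ((b - x) ^ 2 + η ^ 2)
  unfold kf
  rw [norm_div, norm_one, norm_mul, ← nsq1 a η x, ← nsq2 b η x]
  have h1 : 0 < ‖((x : ℂ) - (a + η * I))‖ := norm_pos_iff.2 (slitPlane_ne_zero (pole1 a η hη x))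
  have h2 : 0 < ‖((x : ℂ) - (b - η * I))‖ := norm_pos_iff.2 (slitPlane_ne_zero (pole2 b η hη x))
  set p := ‖((x : ℂ) - (a + η * I))‖
  set q := ‖((x : ℂ) - (b - η * I))‖
  have e : 1 / p ^ 2 + 1 / q ^ 2 - 1 / (p * q) = ((p - q) ^ 2 + p * q) / (p ^ 2 * q ^ 2) := by
    field_simp
    ring
  have : 0 ≤ ((p - q) ^ 2 + p * q) / (p ^ 2 * q ^ 2) := by positivity
  linarith

theorem log_top (p : ℂ) : Tendsto (fun x : ℝ => Complex.log ((x : ℂ) - p) - Real.log x) atTop (𝓝 0) := by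
  have h1 : Tendsto (fun x : ℝ => (1 : ℂ) - p * ((x⁻¹ : ℝ) : ℂ)) atTop (𝓝 1) := by
    have h2 : Tendsto (fun x : ℝ => ((x⁻¹ : ℝ) : ℂ)) atTop (𝓝 0) := by
      have := (Complex.continuous_ofReal.tendsto 0).comp (tendsto_inv_atTop_zero (𝕜 := ℝ))
      rw [Complex.ofReal_zero] at this
      exact this
    have h3 := (tendsto_const_nhds (x := (1 : ℂ))).sub (h2.const_mul p)
    simpa using h3
  have h2 : Tendsto (fun x : ℝ => Complex.log ((1 : ℂ) - p * ((x⁻¹ : ℝ) : ℂ))) atTop (𝓝 0) := by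
    have h3 : ContinuousAt Complex.log 1 := continuousAt_clog (by simp)
    have h4 := h3.tendsto.comp h1
    rw [Complex.log_one] at h4
    exact h4
  refine h2.congr' ?_
  filter_upwards [eventually_gt_atTop 0, eventually_gt_atTop ‖p‖] with x hx hx2
  have hx0 : (x : ℂ) ≠ 0 := by exact_mod_cast hx.ne'
  have e1 : (x : ℂ) - p = (x : ℂ) * (1 - p * ((x⁻¹ : ℝ) : ℂ)) := by
    push_cast
    field_simp
  have hne : (1 : ℂ) - p * ((x⁻¹ : ℝ) : ℂ) ≠ 0 := by
    intro h0
    rw [h0, mul_zero, sub_eq_zero] at e1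
    rw [← e1, Complex.norm_real, Real.norm_eq_abs, abs_of_pos hx] at hx2
    exact lt_irrefl _ hx2
  rw [e1, Complex.log_ofReal_mul hx hne]
  ring

theorem log_bot1 (p : ℂ) (hp : 0 < p.im) :
    Tendsto (fun x : ℝ => Complex.log ((x : ℂ) - p) - Real.log (-x)) atBot (𝓝 (-(Real.pi * I))) := by
  have h1 : Tendsto (fun x : ℝ => (-1 : ℂ) - p * (((-x)⁻¹ : ℝ) : ℂ)) atBot
      (𝓝[{z : ℂ | z.im < 0}] (-1)) := by
    rw [tendsto_nhdsWithin_iff]
    constructor
    · have h2 : Tendsto (fun x : ℝ => (((-x)⁻¹ : ℝ) : ℂ)) atBot (𝓝 0) := by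
        have := (Complex.continuous_ofReal.tendsto 0).comp
          ((tendsto_inv_atTop_zero (𝕜 := ℝ)).comp tendsto_neg_atBot_atTop)
        rw [Complex.ofReal_zero] at this
        exact this
      have h3 := (tendsto_const_nhds (x := (-1 : ℂ))).sub (h2.const_mul p)
      simpa using h3
    · filter_upwards [eventually_lt_atBot 0] with x hx
      show ((-1 : ℂ) - p * (((-x)⁻¹ : ℝ) : ℂ)).im < 0
      rw [Complex.sub_im, Complex.im_mul_ofReal]
      simp only [Complex.neg_im, Complex.one_im, neg_zero, zero_sub, Left.neg_neg_iff]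
      have : 0 < (-x)⁻¹ := inv_pos.2 (by linarith)
      positivity
  have h2 := (tendsto_log_nhdsWithin_im_neg_of_re_neg_of_im_zero (z := -1) (by simp)
    (by simp)).comp h1
  have e0 : ((Real.log ‖(-1 : ℂ)‖ : ℝ) : ℂ) - Real.pi * I = -(Real.pi * I) := by simp
  rw [e0] at h2
  refine h2.congr' ?_
  filter_upwards [eventually_lt_atBot 0, eventually_lt_atBot (-‖p‖)] with x hx hx2
  have hx0 : (x : ℂ) ≠ 0 := by exact_mod_cast hx.ne
  have hx1 : 0 < -x := by linarith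
  have e1 : (x : ℂ) - p = ((-x : ℝ) : ℂ) * ((-1 : ℂ) - p * (((-x)⁻¹ : ℝ) : ℂ)) := by
    push_cast
    field_simp
    ring
  have hne : (-1 : ℂ) - p * (((-x)⁻¹ : ℝ) : ℂ) ≠ 0 := by
    intro h0
    rw [h0, mul_zero, sub_eq_zero] at e1
    rw [← e1, Complex.norm_real, Real.norm_eq_abs, abs_of_neg hx] at hx2
    linarith
  show Complex.log ((-1 : ℂ) - p * (((-x)⁻¹ : ℝ) : ℂ)) = _
  rw [e1, Complex.log_ofReal_mul hx1 hne]
  ring

theorem log_bot2 (p : ℂ) (hp : p.im < 0) :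
    Tendsto (fun x : ℝ => Complex.log ((x : ℂ) - p) - Real.log (-x)) atBot (𝓝 (Real.pi * I)) := by
  have h1 : Tendsto (fun x : ℝ => (-1 : ℂ) - p * (((-x)⁻¹ : ℝ) : ℂ)) atBot
      (𝓝[{z : ℂ | 0 ≤ z.im}] (-1)) := by
    rw [tendsto_nhdsWithin_iff]
    constructor
    · have h2 : Tendsto (fun x : ℝ => (((-x)⁻¹ : ℝ) : ℂ)) atBot (𝓝 0) := by
        have := (Complex.continuous_ofReal.tendsto 0).comp
          ((tendsto_inv_atTop_zero (𝕜 := ℝ)).comp tendsto_neg_atBot_atTop)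
        rw [Complex.ofReal_zero] at this
        exact this
      have h3 := (tendsto_const_nhds (x := (-1 : ℂ))).sub (h2.const_mul p)
      simpa using h3
    · filter_upwards [eventually_lt_atBot 0] with x hx
      show 0 ≤ ((-1 : ℂ) - p * (((-x)⁻¹ : ℝ) : ℂ)).im
      rw [Complex.sub_im, Complex.im_mul_ofReal]
      simp only [Complex.neg_im, Complex.one_im, neg_zero, zero_sub]
      have : 0 < (-x)⁻¹ := inv_pos.2 (by linarith)
      nlinarith
  have h2 := (tendsto_log_nhdsWithin_im_nonneg_of_re_neg_of_im_zero (z := -1) (by simp)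
    (by simp)).comp h1
  have e0 : ((Real.log ‖(-1 : ℂ)‖ : ℝ) : ℂ) + Real.pi * I = Real.pi * I := by simp
  rw [e0] at h2
  refine h2.congr' ?_
  filter_upwards [eventually_lt_atBot 0, eventually_lt_atBot (-‖p‖)] with x hx hx2
  have hx0 : (x : ℂ) ≠ 0 := by exact_mod_cast hx.ne
  have hx1 : 0 < -x := by linarith
  have e1 : (x : ℂ) - p = ((-x : ℝ) : ℂ) * ((-1 : ℂ) - p * (((-x)⁻¹ : ℝ) : ℂ)) := by
    push_cast
    field_simp
    ring
  have hne : (-1 : ℂ) - p * (((-x)⁻¹ : ℝ) : ℂ) ≠ 0 := by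
    intro h0
    rw [h0, mul_zero, sub_eq_zero] at e1
    rw [← e1, Complex.norm_real, Real.norm_eq_abs, abs_of_neg hx] at hx2
    linarith
  show Complex.log ((-1 : ℂ) - p * (((-x)⁻¹ : ℝ) : ℂ)) = _
  rw [e1, Complex.log_ofReal_mul hx1 hne]
  ring

theorem kf_val (a b η : ℝ) (hη : 0 < η) :
    ∫ x, kf a b η x = 2 * Real.pi * (1 / (2 * η - ((a - b : ℝ) : ℂ) * I)) := by
  set p : ℂ := a + η * I with hp
  set q : ℂ := b - η * I with hq
  have hpi : p.im = η := by rw [hp]; simp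
  have hqi : q.im = -η := by rw [hq]; simp
  have hpq : p - q ≠ 0 := by
    intro h0
    have := congrArg Complex.im h0
    rw [Complex.sub_im, hpi, hqi, Complex.zero_im] at this
    linarith
  have hder : ∀ x : ℝ, HasDerivAt (fun t : ℝ => Complex.log ((t : ℂ) - p) - Complex.log ((t : ℂ) - q))
      ((p - q) * kf a b η x) x := by
    intro x
    have h1 : HasDerivAt (fun t : ℝ => (t : ℂ) - p) 1 x :=
      (Complex.ofRealCLM.hasDerivAt (x := x)).sub_const p
    have h2 : HasDerivAt (fun t : ℝ => (t : ℂ) - q) 1 x :=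
      (Complex.ofRealCLM.hasDerivAt (x := x)).sub_const q
    have h3 := (h1.clog_real (pole1 a η hη x)).sub (h2.clog_real (pole2 b η hη x))
    refine h3.congr_deriv ?_
    unfold kf
    rw [← hp, ← hq]
    have n1 : (x : ℂ) - p ≠ 0 := slitPlane_ne_zero (pole1 a η hη x)
    have n2 : (x : ℂ) - q ≠ 0 := slitPlane_ne_zero (pole2 b η hη x)
    field_simp
    ring
  have htop : Tendsto (fun t : ℝ => Complex.log ((t : ℂ) - p) - Complex.log ((t : ℂ) - q)) atTop
      (𝓝 0) := by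
    have h1 := (log_top p).sub (log_top q)
    rw [sub_zero] at h1
    refine h1.congr fun x => ?_
    ring
  have hbot : Tendsto (fun t : ℝ => Complex.log ((t : ℂ) - p) - Complex.log ((t : ℂ) - q)) atBot
      (𝓝 (-(2 * Real.pi * I))) := by
    have h1 := (log_bot1 p (by rw [hpi]; exact hη)).sub (log_bot2 q (by rw [hqi]; linarith))
    have e : -((Real.pi : ℂ) * I) - Real.pi * I = -(2 * Real.pi * I) := by ring
    rw [e] at h1
    refine h1.congr fun x => ?_
    ring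
  have h1 := integral_of_hasDerivAt_of_tendsto hder ((kf_int a b η hη).const_mul (p - q)) hbot htop
  rw [integral_const_mul, zero_sub, neg_neg] at h1
  have h2 : ∫ x, kf a b η x = 2 * Real.pi * I / (p - q) := by
    rw [eq_div_iff hpq, mul_comm]
    exact h1
  rw [h2, hp, hq]
  have h3 : (2 * (η : ℂ) - ((a - b : ℝ) : ℂ) * I) ≠ 0 := by
    intro h0
    have := congrArg Complex.re h0
    simp at this
    exact hη.ne' this
  have h4 : ((a : ℂ) + η * I - (b - η * I)) = I * (2 * η - ((a - b : ℝ) : ℂ) * I) := by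
    push_cast
    ring_nf
    rw [I_sq]
    ring
  rw [h4]
  have := I_ne_zero
  field_simp

/-- the time integral -/
theorem tf_val (a b η : ℝ) (hη : 0 < η) :
    IntegrableOn (fun s : ℝ => Complex.exp ((-(2 * η) + ((a - b : ℝ) : ℂ) * I) * s)) (Set.Ioi 0) ∧
    ∫ s in Set.Ioi (0 : ℝ), Complex.exp ((-(2 * η) + ((a - b : ℝ) : ℂ) * I) * s) =
      1 / (2 * η - ((a - b : ℝ) : ℂ) * I) := by
  have hre : (-(2 * (η : ℂ)) + ((a - b : ℝ) : ℂ) * I).re < 0 := by
    simp
    exact hη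
  refine ⟨integrableOn_exp_mul_complex_Ioi hre 0, ?_⟩
  rw [integral_exp_mul_complex_Ioi hre 0]
  have h3 : (2 * (η : ℂ) - ((a - b : ℝ) : ℂ) * I) ≠ 0 := by
    intro h0
    have := congrArg Complex.re h0
    simp at this
    exact hη.ne' this
  have h4 : (-(2 * (η : ℂ)) + ((a - b : ℝ) : ℂ) * I) = -(2 * (η : ℂ) - ((a - b : ℝ) : ℂ) * I) := by
    ring
  rw [h4]
  simp only [Complex.ofReal_zero, mul_zero, Complex.exp_zero]
  rw [div_neg, neg_div, neg_neg]

end Pool.Agent.V8H95.NM
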