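import Pool.Agent.V8H95.NM.Spe
import Pool.Agent.V8H95.NM.Tm1

/-!
The Plancherel identity for the evolutions of two potentials.
-/

set_option autoImplicit false
set_option linter.unusedSectionVars false
set_option linter.unusedVariables false

open Complex MeasureTheory
open scoped BigOperators ComplexConjugate

namespace Pool.Agent.V8H95.NM

open Pool.Agent.H4R2.AE Pool.Agent.V8H99.AD Pool.Agent.V8H95.MF Pool.Agent.V8H95.BW
open Pool.Agent.V8H95.EF

variable {d L : ℕ} [NeZero L]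

theorem inner_ev {lam : ℝ} {V : T d L → ℝ} (b : OrthonormalBasis (T d L) ℂ (XT d L))
    (E : T d L → ℝ) (hb : ∀ α, HC lam V (b α) = ((E α : ℝ) : ℂ) • b α) (s : ℝ) (α : T d L)
    (g : XT d L) :
    (inner ℂ (b α) (ev (HC lam V) s g) : ℂ) =
      Complex.exp ((-(s : ℂ) * Complex.I) * (E α : ℂ)) * inner ℂ (b α) g := by
  have h1 : ev (HC lam V) s g = ∑ β, (inner ℂ (b β) g : ℂ) •
      (Complex.exp ((-(s : ℂ) * Complex.I) * (E β : ℂ)) • b β) := by
    conv_lhs => rw [← b.sum_repr' g]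
    rw [map_sum]
    refine Finset.sum_congr rfl fun β _ => ?_
    rw [map_smul, ev_eig _ _ (E β) (hb β)]
  rw [h1, inner_sum, Finset.sum_eq_single α]
  · rw [inner_smul_right, inner_smul_right, inner_self_eq_norm_sq_to_K, b.norm_eq_one]
    simp
    ring
  · intro β _ hβ
    rw [inner_smul_right, inner_smul_right, b.orthonormal.2 (Ne.symm hβ), mul_zero, mul_zero]
  · intro h
    exact absurd (Finset.mem_univ α) h

/-- the energy on the horizontal line -/
noncomputable def zx (η x : ℝ) : ℂ := (x : ℂ) + (η : ℂ) * Complex.I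

theorem zx_im (η x : ℝ) : (zx η x).im = η := by
  unfold zx
  simp

theorem zx_ne {η : ℝ} (hη : 0 < η) (x : ℝ) : (zx η x).im ≠ 0 := by
  rw [zx_im]
  exact hη.ne'

/-- coefficients of a pair of bases -/
noncomputable def cf (b b' : OrthonormalBasis (T d L) ℂ (XT d L)) (u : XT d L) (α β : T d L) : ℂ :=
  conj (inner ℂ (b α) u) * inner ℂ (b α) (b' β) * inner ℂ (b' β) u

/-- a pair of resolvents -/
noncomputable def pG (lam η : ℝ) (u : XT d L) (V W : T d L → ℝ) (x : ℝ) : ℂ :=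
  inner ℂ (GT lam V (zx η x) u) (GT lam W (zx η x) u)

/-- a pair of evolutions -/
noncomputable def pU (lam η : ℝ) (u : XT d L) (V W : T d L → ℝ) (s : ℝ) : ℂ :=
  ((Real.exp (-(2 * η) * s) : ℝ) : ℂ) * inner ℂ (ev (HC lam V) s u) (ev (HC lam W) s u)

section
variable {lam : ℝ} {V W : T d L → ℝ} (b b' : OrthonormalBasis (T d L) ℂ (XT d L))
  (E E' : T d L → ℝ)
  (hb : ∀ α, HC lam V (b α) = ((E α : ℝ) : ℂ) • b α)
  (hb' : ∀ α, HC lam W (b' α) = ((E' α : ℝ) : ℂ) • b' α)
include hb hb'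

theorem double_sum (f g : XT d L) : (inner ℂ f g : ℂ) =
    ∑ α, ∑ β, conj (inner ℂ (b α) f) * inner ℂ (b α) (b' β) * inner ℂ (b' β) g := by
  rw [← b.sum_inner_mul_inner f g]
  refine Finset.sum_congr rfl fun α _ => ?_
  rw [← b'.sum_inner_mul_inner (b α) g, Finset.mul_sum, inner_conj_symm]
  exact Finset.sum_congr rfl fun β _ => by ring

theorem pG_eq {η : ℝ} (hη : 0 < η) (u : XT d L) (x : ℝ) :
    pG lam η u V W x = ∑ α, ∑ β, cf b b' u α β * kf (E α) (E' β) η x := by
  unfold pG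
  rw [double_sum b b' E E' hb hb']
  refine Finset.sum_congr rfl fun α _ => Finset.sum_congr rfl fun β _ => ?_
  rw [inner_GT b E hb (zx_ne hη x), inner_GT b' E' hb' (zx_ne hη x)]
  unfold cf kf zx
  rw [map_div₀, map_sub, map_add, map_mul, Complex.conj_ofReal, Complex.conj_ofReal,
    Complex.conj_ofReal, Complex.conj_I]
  have hAB : ((x : ℂ) - ((E α : ℝ) + η * Complex.I)) * ((x : ℂ) - ((E' β : ℝ) - η * Complex.I)) =
      (((E α : ℝ) : ℂ) - ((x : ℂ) + (η : ℂ) * -Complex.I)) *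
        (((E' β : ℝ) : ℂ) - ((x : ℂ) + (η : ℂ) * Complex.I)) := by ring
  rw [hAB]
  set A := (((E α : ℝ) : ℂ) - ((x : ℂ) + (η : ℂ) * -Complex.I))
  set B := (((E' β : ℝ) : ℂ) - ((x : ℂ) + (η : ℂ) * Complex.I))
  rw [one_div, mul_inv, div_eq_mul_inv, div_eq_mul_inv]
  ring

theorem pU_eq {η : ℝ} (hη : 0 < η) (u : XT d L) (s : ℝ) :
    pU lam η u V W s = ∑ α, ∑ β, cf b b' u α β *
      Complex.exp ((-(2 * η) + ((E α - E' β : ℝ) : ℂ) * Complex.I) * s) := by
  unfold pU
  rw [double_sum b b' E E' hb hb', Finset.mul_sum]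
  refine Finset.sum_congr rfl fun α _ => ?_
  rw [Finset.mul_sum]
  refine Finset.sum_congr rfl fun β _ => ?_
  rw [inner_ev b E hb, inner_ev b' E' hb', map_mul, ← Complex.exp_conj]
  unfold cf
  have e1 : (conj (-(s : ℂ) * Complex.I * (E α : ℂ))) = (s : ℂ) * Complex.I * (E α : ℂ) := by
    simp [Complex.conj_ofReal]
  have e2 : Complex.exp ((-(2 * η) + ((E α - E' β : ℝ) : ℂ) * Complex.I) * s) =
      ((Real.exp (-(2 * η) * s) : ℝ) : ℂ) * (Complex.exp ((s : ℂ) * Complex.I * (E α : ℂ)) *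
        Complex.exp (-(s : ℂ) * Complex.I * (E' β : ℂ))) := by
    rw [Complex.ofReal_exp, ← Complex.exp_add, ← Complex.exp_add]
    congr 1
    push_cast
    ring
  rw [e1, e2]
  ring

theorem pG_int {η : ℝ} (hη : 0 < η) (u : XT d L) : Integrable (pG lam η u V W) := by
  have h : Integrable fun x => ∑ α, ∑ β, cf b b' u α β * kf (E α) (E' β) η x :=
    integrable_finsetSum _ fun α _ => integrable_finsetSum _ fun β _ =>
      (kf_int (E α) (E' β) η hη).const_mul _
  exact h.congr (Filter.Eventually.of_forall fun x => (pG_eq b b' E E' hb hb' hη u x).symm)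

theorem pU_int {η : ℝ} (hη : 0 < η) (u : XT d L) :
    IntegrableOn (pU lam η u V W) (Set.Ioi 0) := by
  have h : Integrable (fun s : ℝ => ∑ α, ∑ β, cf b b' u α β *
      Complex.exp ((-(2 * η) + ((E α - E' β : ℝ) : ℂ) * Complex.I) * s))
      (volume.restrict (Set.Ioi 0)) :=
    integrable_finsetSum _ fun α _ => integrable_finsetSum _ fun β _ =>
      ((tf_val (E α) (E' β) η hη).1).const_mul _
  exact h.congr (Filter.Eventually.of_forall fun x => (pU_eq b b' E E' hb hb' hη u x).symm)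

theorem pair_eq {η : ℝ} (hη : 0 < η) (u : XT d L) :
    ∫ x, pG lam η u V W x = 2 * Real.pi * ∫ s in Set.Ioi (0 : ℝ), pU lam η u V W s := by
  have h1 : ∫ x, pG lam η u V W x = ∑ α, ∑ β, cf b b' u α β *
      (2 * Real.pi * (1 / (2 * η - ((E α - E' β : ℝ) : ℂ) * Complex.I))) := by
    simp only [pG_eq b b' E E' hb hb' hη u]
    rw [integral_finsetSum _ fun α _ => integrable_finsetSum _ fun β _ =>
      (kf_int (E α) (E' β) η hη).const_mul _]
    refine Finset.sum_congr rfl fun α _ => ?_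
    rw [integral_finsetSum _ fun β _ => (kf_int (E α) (E' β) η hη).const_mul _]
    refine Finset.sum_congr rfl fun β _ => ?_
    rw [integral_const_mul, kf_val _ _ _ hη]
  have h2 : ∫ s in Set.Ioi (0 : ℝ), pU lam η u V W s = ∑ α, ∑ β, cf b b' u α β *
      (1 / (2 * η - ((E α - E' β : ℝ) : ℂ) * Complex.I)) := by
    simp only [pU_eq b b' E E' hb hb' hη u]
    rw [integral_finsetSum _ fun α _ => integrable_finsetSum _ fun β _ =>
      ((tf_val (E α) (E' β) η hη).1).const_mul _]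
    refine Finset.sum_congr rfl fun α _ => ?_
    rw [integral_finsetSum _ fun β _ => ((tf_val (E α) (E' β) η hη).1).const_mul _]
    refine Finset.sum_congr rfl fun β _ => ?_
    rw [integral_const_mul, (tf_val _ _ _ hη).2]
  rw [h1, h2, Finset.mul_sum]
  refine Finset.sum_congr rfl fun α _ => ?_
  rw [Finset.mul_sum]
  exact Finset.sum_congr rfl fun β _ => by ring

end

theorem pG_int' (lam : ℝ) {η : ℝ} (hη : 0 < η) (u : XT d L) (V W : T d L → ℝ) :
    Integrable (pG lam η u V W) := by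
  obtain ⟨b, E, hb⟩ := exists_basis lam V
  obtain ⟨b', E', hb'⟩ := exists_basis lam W
  exact pG_int b b' E E' hb hb' hη u

theorem pU_int' (lam : ℝ) {η : ℝ} (hη : 0 < η) (u : XT d L) (V W : T d L → ℝ) :
    IntegrableOn (pU lam η u V W) (Set.Ioi 0) := by
  obtain ⟨b, E, hb⟩ := exists_basis lam V
  obtain ⟨b', E', hb'⟩ := exists_basis lam W
  exact pU_int b b' E E' hb hb' hη u

theorem pair_eq' (lam : ℝ) {η : ℝ} (hη : 0 < η) (u : XT d L) (V W : T d L → ℝ) :
    ∫ x, pG lam η u V W x = 2 * Real.pi * ∫ s in Set.Ioi (0 : ℝ), pU lam η u V W s := by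
  obtain ⟨b, E, hb⟩ := exists_basis lam V
  obtain ⟨b', E', hb'⟩ := exists_basis lam W
  exact pair_eq b b' E E' hb hb' hη u

/-- the difference of two resolvents -/
noncomputable def dG (lam η : ℝ) (u : XT d L) (V W : T d L → ℝ) (x : ℝ) : ℝ :=
  ‖GT lam V (zx η x) u - GT lam W (zx η x) u‖ ^ 2

/-- the difference of two evolutions -/
noncomputable def dU (lam η : ℝ) (u : XT d L) (V W : T d L → ℝ) (s : ℝ) : ℝ :=
  Real.exp (-(2 * η) * s) * ‖ev (HC lam V) s u - ev (HC lam W) s u‖ ^ 2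

theorem sub_norm_c (f g : XT d L) : ((‖f - g‖ ^ 2 : ℝ) : ℂ) =
    inner ℂ f f - inner ℂ f g - inner ℂ g f + inner ℂ g g := by
  have h := inner_self_eq_norm_sq_to_K (𝕜 := ℂ) (f - g)
  rw [inner_sub_left, inner_sub_right, inner_sub_right] at h
  have e : ((‖f - g‖ ^ 2 : ℝ) : ℂ) = (‖f - g‖ : ℂ) ^ 2 := by push_cast; rfl
  rw [e]
  erw [← h]
  ring

theorem dG_c (lam η : ℝ) (u : XT d L) (V W : T d L → ℝ) (x : ℝ) :
    ((dG lam η u V W x : ℝ) : ℂ) = pG lam η u V V x - pG lam η u V W x - pG lam η u W V x +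
      pG lam η u W W x := sub_norm_c _ _

theorem dU_c (lam η : ℝ) (u : XT d L) (V W : T d L → ℝ) (s : ℝ) :
    ((dU lam η u V W s : ℝ) : ℂ) = pU lam η u V V s - pU lam η u V W s - pU lam η u W V s +
      pU lam η u W W s := by
  unfold dU pU
  rw [Complex.ofReal_mul, sub_norm_c]
  ring

theorem dG_int (lam : ℝ) {η : ℝ} (hη : 0 < η) (u : XT d L) (V W : T d L → ℝ) :
    Integrable (dG lam η u V W) := by
  have h : Integrable fun x => ((dG lam η u V W x : ℝ) : ℂ) := by
    simp only [dG_c]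
    exact (((pG_int' lam hη u V V).sub (pG_int' lam hη u V W)).sub (pG_int' lam hη u W V)).add
      (pG_int' lam hη u W W)
  have h2 := h.re
  exact h2

theorem dU_int (lam : ℝ) {η : ℝ} (hη : 0 < η) (u : XT d L) (V W : T d L → ℝ) :
    IntegrableOn (dU lam η u V W) (Set.Ioi 0) := by
  have h : Integrable (fun x => ((dU lam η u V W x : ℝ) : ℂ)) (volume.restrict (Set.Ioi 0)) := by
    simp only [dU_c]
    exact (((pU_int' lam hη u V V).sub (pU_int' lam hη u V W)).sub (pU_int' lam hη u W V)).add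
      (pU_int' lam hη u W W)
  have h2 := h.re
  exact h2

/-- **Plancherel** -/
theorem planch (lam : ℝ) {η : ℝ} (hη : 0 < η) (u : XT d L) (V W : T d L → ℝ) :
    ∫ x, dG lam η u V W x = 2 * Real.pi * ∫ s in Set.Ioi (0 : ℝ), dU lam η u V W s := by
  have h1 : (∫ x, ((dG lam η u V W x : ℝ) : ℂ)) = (∫ x, pG lam η u V V x) -
      (∫ x, pG lam η u V W x) - (∫ x, pG lam η u W V x) + ∫ x, pG lam η u W W x := by
    simp only [dG_c]
    have i1 := pG_int' lam hη u V V
    have i2 := pG_int' lam hη u V W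
    have i3 := pG_int' lam hη u W V
    have i4 := pG_int' lam hη u W W
    have e1 := integral_add ((i1.sub i2).sub i3) i4
    have e2 := integral_sub (i1.sub i2) i3
    have e3 := integral_sub i1 i2
    refine Eq.trans e1 ?_
    congr 1
    refine Eq.trans e2 ?_
    congr 1
  have h2 : (∫ s in Set.Ioi (0 : ℝ), ((dU lam η u V W s : ℝ) : ℂ)) =
      (∫ s in Set.Ioi (0 : ℝ), pU lam η u V V s) - (∫ s in Set.Ioi (0 : ℝ), pU lam η u V W s) -
      (∫ s in Set.Ioi (0 : ℝ), pU lam η u W V s) + ∫ s in Set.Ioi (0 : ℝ), pU lam η u W W s := by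
    simp only [dU_c]
    have i1 := pU_int' lam hη u V V
    have i2 := pU_int' lam hη u V W
    have i3 := pU_int' lam hη u W V
    have i4 := pU_int' lam hη u W W
    have e1 := integral_add ((i1.sub i2).sub i3) i4
    have e2 := integral_sub (i1.sub i2) i3
    have e3 := integral_sub i1 i2
    refine Eq.trans e1 ?_
    congr 1
    refine Eq.trans e2 ?_
    congr 1
  have k1 : (∫ x, ((dG lam η u V W x : ℝ) : ℂ)) = ((∫ x, dG lam η u V W x : ℝ) : ℂ) :=
    integral_ofReal
  have k2 : (∫ s in Set.Ioi (0 : ℝ), ((dU lam η u V W s : ℝ) : ℂ)) =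
      ((∫ s in Set.Ioi (0 : ℝ), dU lam η u V W s : ℝ) : ℂ) := integral_ofReal
  have h3 : ((∫ x, dG lam η u V W x : ℝ) : ℂ) =
      ((2 * Real.pi * ∫ s in Set.Ioi (0 : ℝ), dU lam η u V W s : ℝ) : ℂ) := by
    rw [Complex.ofReal_mul, ← k1, ← k2, h1, h2, pair_eq' lam hη, pair_eq' lam hη, pair_eq' lam hη,
      pair_eq' lam hη]
    push_cast
    ring
  exact_mod_cast h3

end Pool.Agent.V8H95.NM
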