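import Pool.Agent.V8H95.NM.Tm2

/-!
Time averages of the fluctuations from the resolvents.
-/

set_option autoImplicit false
set_option linter.unusedSectionVars false
set_option linter.unusedVariables false

open Complex MeasureTheory
open scoped BigOperators ComplexConjugate

namespace Pool.Agent.V8H95.NM

open Pool.Agent.H4R2.AE Pool.Agent.V8H99.AD Pool.Agent.V8H95.MF Pool.Agent.V8H95.BW
open Pool.Agent.V8H95.EF

variable {d L : ℕ} [NeZero L]

theorem GT_joint (lam : ℝ) {η : ℝ} (hη : 0 < η) (u : XT d L) :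
    Continuous fun p : (T d L → ℝ) × ℝ => GT lam p.1 (zx η p.2) u := by
  have hz0 : (((η : ℝ) : ℂ) * Complex.I).im ≠ 0 := by
    simp
    exact hη.ne'
  have h1 : Continuous fun p : (T d L → ℝ) × ℝ =>
      RG (HC lam p.1 - ((p.2 : ℝ) : ℂ) • (1 : XT d L →L[ℂ] XT d L)) (((η : ℝ) : ℂ) * Complex.I) := by
    apply rg_cont _ _ _ hz0
    · have c1 : Continuous fun p : (T d L → ℝ) × ℝ => (HC lam p.1 : XT d L →L[ℂ] XT d L) :=
        (HC_cont lam).comp continuous_fst
      have c2 : Continuous fun p : (T d L → ℝ) × ℝ =>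
          ((((p.2 : ℝ) : ℂ) • (1 : XT d L →L[ℂ] XT d L)) : XT d L →L[ℂ] XT d L) :=
        (Complex.continuous_ofReal.comp continuous_snd).smul continuous_const
      exact c1.sub c2
    · intro p
      refine IsSelfAdjoint.sub (HC_sa lam p.1) ?_
      rw [IsSelfAdjoint, star_smul, star_one]
      congr 1
      exact Complex.conj_ofReal _
  have h2 : ∀ p : (T d L → ℝ) × ℝ, (GT lam p.1 (zx η p.2) : XT d L →L[ℂ] XT d L) =
      RG (HC lam p.1 - ((p.2 : ℝ) : ℂ) • (1 : XT d L →L[ℂ] XT d L)) (((η : ℝ) : ℂ) * Complex.I) := by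
    intro p
    unfold GT RG zx
    congr 1
    rw [add_smul, sub_add_eq_sub_sub]
  simp only [h2]
  exact h1.clm_apply continuous_const

section
variable (μ : Measure ℝ) [IsProbabilityMeasure μ]

theorem dG_joint (lam : ℝ) {η : ℝ} (hη : 0 < η) (u : XT d L) :
    Continuous fun q : ((T d L → ℝ) × (T d L → ℝ)) × ℝ => dG lam η u q.1.1 q.1.2 q.2 := by
  have h := GT_joint lam hη u
  have h1 := h.comp ((continuous_fst.comp continuous_fst).prodMk continuous_snd :
    Continuous fun q : ((T d L → ℝ) × (T d L → ℝ)) × ℝ => (q.1.1, q.2))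
  have h2 := h.comp ((continuous_snd.comp continuous_fst).prodMk continuous_snd :
    Continuous fun q : ((T d L → ℝ) × (T d L → ℝ)) × ℝ => (q.1.2, q.2))
  exact (h1.sub h2).norm.pow 2

theorem dG_nonneg (lam η : ℝ) (u : XT d L) (V W : T d L → ℝ) (x : ℝ) : 0 ≤ dG lam η u V W x := by
  unfold dG
  positivity

theorem exp_int {η : ℝ} (hη : 0 < η) : IntegrableOn (fun s : ℝ => Real.exp (-(2 * η) * s)) (Set.Ioi 0) ∧
    ∫ s in Set.Ioi (0 : ℝ), Real.exp (-(2 * η) * s) = 1 / (2 * η) := by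
  have h : -(2 * η) < 0 := by linarith
  refine ⟨integrableOn_exp_mul_Ioi h 0, ?_⟩
  rw [integral_exp_mul_Ioi h 0, mul_zero, Real.exp_zero, neg_div_neg_eq]

theorem dG_total (lam : ℝ) {η : ℝ} (hη : 0 < η) (u : XT d L) (V W : T d L → ℝ) :
    ∫ x, dG lam η u V W x ≤ 4 * Real.pi / η * ‖u‖ ^ 2 := by
  rw [planch lam hη]
  have h1 : ∫ s in Set.Ioi (0 : ℝ), dU lam η u V W s ≤
      ∫ s in Set.Ioi (0 : ℝ), Real.exp (-(2 * η) * s) * (4 * ‖u‖ ^ 2) := by
    refine setIntegral_mono_on (dU_int lam hη u V W) ((exp_int hη).1.mul_const _)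
      measurableSet_Ioi fun s _ => ?_
    unfold dU
    have h2 : ‖ev (HC lam V) s u - ev (HC lam W) s u‖ ≤ 2 * ‖u‖ := by
      refine (norm_sub_le _ _).trans ?_
      rw [evn, evn]
      linarith
    have h3 := pow_le_pow_left₀ (norm_nonneg _) h2 2
    have : (2 * ‖u‖) ^ 2 = 4 * ‖u‖ ^ 2 := by ring
    rw [this] at h3
    gcongr
  rw [integral_mul_const, (exp_int hη).2] at h1
  calc 2 * Real.pi * ∫ s in Set.Ioi (0 : ℝ), dU lam η u V W s ≤
      2 * Real.pi * (1 / (2 * η) * (4 * ‖u‖ ^ 2)) := by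
        have := Real.pi_pos
        gcongr
    _ = _ := by field_simp

theorem dG_prod_int (lam : ℝ) {η : ℝ} (hη : 0 < η) (u : XT d L) :
    Integrable (fun q : ((T d L → ℝ) × (T d L → ℝ)) × ℝ => dG lam η u q.1.1 q.1.2 q.2)
      (((Measure.pi fun _ : T d L => μ).prod (Measure.pi fun _ : T d L => μ)).prod volume) := by
  have hm : AEStronglyMeasurable
      (fun q : ((T d L → ℝ) × (T d L → ℝ)) × ℝ => dG lam η u q.1.1 q.1.2 q.2)
      (((Measure.pi fun _ : T d L => μ).prod (Measure.pi fun _ : T d L => μ)).prod volume) :=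
    (dG_joint lam hη u).aestronglyMeasurable
  rw [integrable_prod_iff hm]
  refine ⟨Filter.Eventually.of_forall fun p => dG_int lam hη u p.1 p.2, ?_⟩
  refine Integrable.of_bound (C := 4 * Real.pi / η * ‖u‖ ^ 2) hm.norm.integral_prod_right'
    (Filter.Eventually.of_forall fun p => ?_)
  have h1 : ∀ x, ‖dG lam η u p.1 p.2 x‖ = dG lam η u p.1 p.2 x := fun x =>
    Real.norm_of_nonneg (dG_nonneg lam η u p.1 p.2 x)
  simp only [h1]
  rw [Real.norm_eq_abs, abs_of_nonneg (integral_nonneg fun x => dG_nonneg lam η u p.1 p.2 x)]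
  exact dG_total lam hη u p.1 p.2

/-- the second moment of the resolvent -/
noncomputable def SG (lam η : ℝ) (u : XT d L) (x : ℝ) : ℝ :=
  ∫ V, ‖GT lam V (zx η x) u‖ ^ 2 ∂(Measure.pi fun _ : T d L => μ)

/-- the variance of the resolvent -/
noncomputable def VG (lam η : ℝ) (u : XT d L) (x : ℝ) : ℝ :=
  ∫ V, ‖GT lam V (zx η x) u - ∫ U, GT lam U (zx η x) u ∂(Measure.pi fun _ : T d L => μ)‖ ^ 2
    ∂(Measure.pi fun _ : T d L => μ)

theorem VG_le (lam : ℝ) {η : ℝ} (hη : 0 < η) (u : XT d L) (x : ℝ) :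
    VG μ lam η u x ≤ SG μ lam η u x := by
  have h := best (Measure.pi fun _ : T d L => μ) (fun V => GT lam V (zx η x) u)
    (GTi μ lam (zx_ne hη x) u) (‖u‖ / |(zx η x).im|) (fun V => GT_norm' lam (zx_ne hη x) V u) 0
  unfold VG SG
  simpa using h

theorem two_le (lam : ℝ) {η : ℝ} (hη : 0 < η) (u : XT d L) (x : ℝ) :
    ∫ p : (T d L → ℝ) × (T d L → ℝ), dG lam η u p.1 p.2 x
      ∂((Measure.pi fun _ : T d L => μ).prod (Measure.pi fun _ : T d L => μ)) ≤
      4 * VG μ lam η u x := by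
  set P : Measure (T d L → ℝ) := Measure.pi fun _ : T d L => μ with hP
  set m := ∫ U, GT lam U (zx η x) u ∂P with hm
  set f : (T d L → ℝ) → ℝ := fun V => ‖GT lam V (zx η x) u - m‖ ^ 2 with hf
  have hfc : Continuous f := ((GTf_cont lam (zx_ne hη x) u).sub continuous_const).norm.pow 2
  have hmb : ‖m‖ ≤ ‖u‖ / |(zx η x).im| := by
    have := norm_integral_le_of_norm_le_const (μ := P) (f := fun V => GT lam V (zx η x) u)
      (C := ‖u‖ / |(zx η x).im|) (Filter.Eventually.of_forall fun V =>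
        GT_norm' lam (zx_ne hη x) V u)
    simpa using this
  have hfi : Integrable f P := by
    refine int_of P _ hfc.measurable ((‖u‖ / |(zx η x).im| + ‖u‖ / |(zx η x).im|) ^ 2) fun V => ?_
    rw [hf, abs_pow, abs_norm]
    exact pow_le_pow_left₀ (norm_nonneg _) ((norm_sub_le _ _).trans
      (add_le_add (GT_norm' lam (zx_ne hη x) V u) hmb)) 2
  have hpt : ∀ p : (T d L → ℝ) × (T d L → ℝ), dG lam η u p.1 p.2 x ≤ 2 * f p.1 + 2 * f p.2 := by
    intro p
    unfold dG
    have e : GT lam p.1 (zx η x) u - GT lam p.2 (zx η x) u =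
      (GT lam p.1 (zx η x) u - m) - (GT lam p.2 (zx η x) u - m) := by abel
    rw [e]
    have h1 := norm_sub_le (GT lam p.1 (zx η x) u - m) (GT lam p.2 (zx η x) u - m)
    have h2 := pow_le_pow_left₀ (norm_nonneg _) h1 2
    refine h2.trans ?_
    rw [hf]
    nlinarith [sq_nonneg (‖GT lam p.1 (zx η x) u - m‖ - ‖GT lam p.2 (zx η x) u - m‖)]
  have i1 : Integrable (fun p : (T d L → ℝ) × (T d L → ℝ) => f p.1) (P.prod P) :=
    hfi.comp_fst P
  have i2 : Integrable (fun p : (T d L → ℝ) × (T d L → ℝ) => f p.2) (P.prod P) :=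
    hfi.comp_snd P
  have i0 : Integrable (fun p : (T d L → ℝ) × (T d L → ℝ) => dG lam η u p.1 p.2 x) (P.prod P) := by
    refine Integrable.mono' ((i1.const_mul 2).add (i2.const_mul 2)) ?_
      (Filter.Eventually.of_forall fun p => ?_)
    · have c1 : Continuous fun p : (T d L → ℝ) × (T d L → ℝ) => GT lam p.1 (zx η x) u :=
        (GTf_cont lam (zx_ne hη x) u).comp continuous_fst
      have c2 : Continuous fun p : (T d L → ℝ) × (T d L → ℝ) => GT lam p.2 (zx η x) u :=
        (GTf_cont lam (zx_ne hη x) u).comp continuous_snd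
      have hc : Continuous fun p : (T d L → ℝ) × (T d L → ℝ) => dG lam η u p.1 p.2 x :=
        (c1.sub c2).norm.pow 2
      exact hc.aestronglyMeasurable
    · rw [Real.norm_of_nonneg (dG_nonneg _ _ _ _ _ _)]
      exact hpt p
  have h1 := integral_mono i0 ((i1.const_mul 2).add (i2.const_mul 2)) hpt
  refine h1.trans (le_of_eq ?_)
  have e1 := integral_add (i1.const_mul 2) (i2.const_mul 2)
  refine Eq.trans e1 ?_
  rw [integral_const_mul, integral_const_mul]
  have e2 : ∫ p : (T d L → ℝ) × (T d L → ℝ), f p.1 ∂(P.prod P) = ∫ V, f V ∂P := by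
    rw [integral_prod _ i1]
    simp
  have e3 : ∫ p : (T d L → ℝ) × (T d L → ℝ), f p.2 ∂(P.prod P) = ∫ V, f V ∂P := by
    rw [integral_prod _ i2]
    simp
  rw [e2, e3]
  unfold VG
  ring

theorem time_le (lam : ℝ) (u : XT d L) (s : ℝ) :
    ∫ V, Dv μ lam u V s ^ 2 ∂(Measure.pi fun _ : T d L => μ) ≤
      ∫ p : (T d L → ℝ) × (T d L → ℝ), ‖ev (HC lam p.1) s u - ev (HC lam p.2) s u‖ ^ 2
      ∂((Measure.pi fun _ : T d L => μ).prod (Measure.pi fun _ : T d L => μ)) := by
  set P : Measure (T d L → ℝ) := Measure.pi fun _ : T d L => μ with hP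
  have hc : Continuous fun p : (T d L → ℝ) × (T d L → ℝ) =>
      ‖ev (HC lam p.1) s u - ev (HC lam p.2) s u‖ ^ 2 :=
    (((ev_V_cont lam s u).comp continuous_fst).sub ((ev_V_cont lam s u).comp
      continuous_snd)).norm.pow 2
  have hb : ∀ p : (T d L → ℝ) × (T d L → ℝ),
      ‖ev (HC lam p.1) s u - ev (HC lam p.2) s u‖ ^ 2 ≤ (2 * ‖u‖) ^ 2 := by
    intro p
    apply pow_le_pow_left₀ (norm_nonneg _)
    refine (norm_sub_le _ _).trans ?_
    rw [evn, evn]
    linarith
  have hi : Integrable (fun p : (T d L → ℝ) × (T d L → ℝ) =>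
      ‖ev (HC lam p.1) s u - ev (HC lam p.2) s u‖ ^ 2) (P.prod P) :=
    Integrable.of_bound (C := (2 * ‖u‖) ^ 2) hc.aestronglyMeasurable
      (Filter.Eventually.of_forall fun p => by
        rw [Real.norm_of_nonneg (by positivity)]
        exact hb p)
  rw [integral_prod _ hi]
  have h1 : ∀ W : T d L → ℝ, ∫ V, Dv μ lam u V s ^ 2 ∂P ≤
      ∫ V, ‖ev (HC lam W) s u - ev (HC lam V) s u‖ ^ 2 ∂P := by
    intro W
    have h2 := best P (fun V => ev (HC lam V) s u) (ev_int μ lam s u) ‖u‖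
      (fun V => (evn lam V s u).le) (ev (HC lam W) s u)
    refine le_trans (le_of_eq ?_) (h2.trans (le_of_eq ?_))
    · rfl
    · congr 1
      funext V
      rw [norm_sub_rev]
  calc ∫ V, Dv μ lam u V s ^ 2 ∂P = ∫ _W, (∫ V, Dv μ lam u V s ^ 2 ∂P) ∂P := by simp
    _ ≤ _ := integral_mono (integrable_const _) hi.integral_prod_left h1

/-- **time averages from resolvents** -/
theorem time_res (lam : ℝ) {η : ℝ} (hη : 0 < η) (u : XT d L) (t : ℝ) (ht : 0 ≤ t) (h : ℝ → ℝ)
    (hh : Integrable h) (hV : ∀ x, 4 * VG μ lam η u x ≤ h x) :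
    ∫ s in Set.Ioc 0 t, (∫ V, Dv μ lam u V s ^ 2 ∂(Measure.pi fun _ : T d L => μ)) ≤
      Real.exp (2 * η * t) / (2 * Real.pi) * ∫ x, h x := by
  set P : Measure (T d L → ℝ) := Measure.pi fun _ : T d L => μ with hP
  set PP := P.prod P with hPP
  have hpi := Real.pi_pos
  set F : ((T d L → ℝ) × (T d L → ℝ)) × ℝ → ℝ :=
    fun q => ‖ev (HC lam q.1.1) q.2 u - ev (HC lam q.1.2) q.2 u‖ ^ 2 with hF
  have hFc : Continuous F := by
    have h0 := ev_joint lam u
    have h1 := h0.comp ((continuous_fst.comp continuous_fst).prodMk continuous_snd :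
      Continuous fun q : ((T d L → ℝ) × (T d L → ℝ)) × ℝ => (q.1.1, q.2))
    have h2 := h0.comp ((continuous_snd.comp continuous_fst).prodMk continuous_snd :
      Continuous fun q : ((T d L → ℝ) × (T d L → ℝ)) × ℝ => (q.1.2, q.2))
    exact (h1.sub h2).norm.pow 2
  have hFb : ∀ q, F q ≤ (2 * ‖u‖) ^ 2 := by
    intro q
    apply pow_le_pow_left₀ (norm_nonneg _)
    refine (norm_sub_le _ _).trans ?_
    rw [evn, evn]
    linarith
  have hF0 : ∀ q, 0 ≤ F q := fun q => by rw [hF]; positivity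
  have hFi : Integrable F (PP.prod (volume.restrict (Set.Ioc 0 t))) :=
    Integrable.of_bound (C := (2 * ‖u‖) ^ 2) hFc.aestronglyMeasurable
      (Filter.Eventually.of_forall fun p => by
        rw [Real.norm_of_nonneg (hF0 p)]
        exact hFb p)
  have s1 : ∫ s in Set.Ioc 0 t, (∫ V, Dv μ lam u V s ^ 2 ∂P) ≤
      ∫ s in Set.Ioc 0 t, (∫ p, F (p, s) ∂PP) := by
    have hD : Integrable (fun q : (T d L → ℝ) × ℝ => Dv μ lam u q.1 q.2 ^ 2)
        (P.prod (volume.restrict (Set.Ioc 0 t))) := by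
      refine Integrable.of_bound (C := (2 * ‖u‖) ^ 2)
        ((Dv_joint μ lam u).pow 2).aestronglyMeasurable (Filter.Eventually.of_forall fun p => ?_)
      rw [Real.norm_of_nonneg (by positivity)]
      exact pow_le_pow_left₀ (Dv_nonneg μ lam u p.1 p.2) (Dv_le μ lam u p.1 p.2) 2
    exact integral_mono hD.integral_prod_right hFi.integral_prod_right fun s =>
      time_le μ lam u s
  have s2 : ∫ s in Set.Ioc 0 t, (∫ p, F (p, s) ∂PP) =
      ∫ p, (∫ s in Set.Ioc 0 t, F (p, s)) ∂PP := (integral_integral_swap hFi).symm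
  have hGi := dG_prod_int μ lam hη u
  rw [← hP, ← hPP] at hGi
  have s3 : ∫ p, (∫ s in Set.Ioc 0 t, F (p, s)) ∂PP ≤
      ∫ p : (T d L → ℝ) × (T d L → ℝ),
        Real.exp (2 * η * t) / (2 * Real.pi) * (∫ x, dG lam η u p.1 p.2 x) ∂PP := by
    refine integral_mono hFi.integral_prod_left (hGi.integral_prod_left.const_mul _) fun p => ?_
    show ∫ s in Set.Ioc 0 t, F (p, s) ≤
      Real.exp (2 * η * t) / (2 * Real.pi) * ∫ x, dG lam η u p.1 p.2 x
    rw [planch lam hη]
    have e1 : Real.exp (2 * η * t) / (2 * Real.pi) *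
        (2 * Real.pi * ∫ s in Set.Ioi (0 : ℝ), dU lam η u p.1 p.2 s) =
        ∫ s in Set.Ioi (0 : ℝ), Real.exp (2 * η * t) * dU lam η u p.1 p.2 s := by
      rw [integral_const_mul]
      field_simp
    rw [e1]
    have e2 : ∫ s in Set.Ioc 0 t, F (p, s) ≤
        ∫ s in Set.Ioc 0 t, Real.exp (2 * η * t) * dU lam η u p.1 p.2 s := by
      refine setIntegral_mono_on ?_ ?_ measurableSet_Ioc fun s hs => ?_
      · have hc : Continuous fun s => F (p, s) := hFc.comp (continuous_const.prodMk continuous_id)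
        exact (hc.integrableOn_Icc (a := 0) (b := t)).mono_set Set.Ioc_subset_Icc_self
      · exact ((dU_int lam hη u p.1 p.2).mono_set Set.Ioc_subset_Ioi_self).const_mul _
      · unfold dU
        rw [← mul_assoc, ← Real.exp_add]
        have h1 : 1 ≤ Real.exp (2 * η * t + -(2 * η) * s) := by
          apply Real.one_le_exp
          have := hs.2
          nlinarith
        have h2 := hF0 (p, s)
        calc F (p, s) = 1 * F (p, s) := (one_mul _).symm
          _ ≤ Real.exp (2 * η * t + -(2 * η) * s) * F (p, s) := by gcongr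
    refine e2.trans ?_
    refine setIntegral_mono_set ((dU_int lam hη u p.1 p.2).const_mul _)
      (Filter.Eventually.of_forall fun s => ?_) (Filter.Eventually.of_forall fun s hs => hs.1)
    show 0 ≤ Real.exp (2 * η * t) * dU lam η u p.1 p.2 s
    unfold dU
    positivity
  have s4 : ∫ p : (T d L → ℝ) × (T d L → ℝ), (∫ x, dG lam η u p.1 p.2 x) ∂PP =
      ∫ x, (∫ p : (T d L → ℝ) × (T d L → ℝ), dG lam η u p.1 p.2 x ∂PP) :=
    integral_integral_swap hGi
  have s5 : ∫ x, (∫ p : (T d L → ℝ) × (T d L → ℝ), dG lam η u p.1 p.2 x ∂PP) ≤ ∫ x, h x := by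
    refine integral_mono hGi.integral_prod_right hh fun x => ?_
    exact (two_le μ lam hη u x).trans (hV x)
  refine s1.trans (s2.le.trans (s3.trans ?_))
  rw [integral_const_mul, s4]
  gcongr

end

end Pool.Agent.V8H95.NM
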