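import Pool.Agent.V8H95.NM.Tm3

/-!
The time average from the resolvents in an energy window.
-/

set_option autoImplicit false
set_option linter.unusedSectionVars false
set_option linter.unusedVariables false

open Complex MeasureTheory
open scoped BigOperators ComplexConjugate

namespace Pool.Agent.V8H95.NM

open Pool.Agent.H4R2.AE Pool.Agent.V8H99.AD Pool.Agent.V8H95.MF Pool.Agent.V8H95.BW
open Pool.Agent.V8H95.EF

theorem cauchy_val (E η : ℝ) (hη : 0 < η) : ∫ x : ℝ, 1 / ((E - x) ^ 2 + η ^ 2) = Real.pi / η := by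
  have h1 := kf_val E E η hη
  have h2 : ∀ x : ℝ, kf E E η x = ((1 / ((E - x) ^ 2 + η ^ 2) : ℝ) : ℂ) := by
    intro x
    unfold kf
    push_cast
    congr 1
    have : ((x : ℂ) - (E + η * I)) * ((x : ℂ) - (E - η * I)) =
        ((x : ℂ) - E) ^ 2 - η ^ 2 * I ^ 2 := by ring
    rw [this, I_sq]
    ring
  simp only [h2] at h1
  have h4 : ∫ x : ℝ, ((1 / ((E - x) ^ 2 + η ^ 2) : ℝ) : ℂ) =
      ((∫ x : ℝ, 1 / ((E - x) ^ 2 + η ^ 2) : ℝ) : ℂ) := integral_ofReal
  rw [h4] at h1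
  have h3 : (2 * (Real.pi : ℂ) * (1 / (2 * (η : ℂ) - ((E - E : ℝ) : ℂ) * I))) =
      ((Real.pi / η : ℝ) : ℂ) := by
    have : (η : ℂ) ≠ 0 := by exact_mod_cast hη.ne'
    rw [sub_self, Complex.ofReal_zero, zero_mul, sub_zero]
    push_cast
    field_simp
  rw [h3] at h1
  exact_mod_cast h1

variable {d L : ℕ} [NeZero L]

theorem zx_norm (E η x : ℝ) : ‖((E : ℝ) : ℂ) - zx η x‖ ^ 2 = (E - x) ^ 2 + η ^ 2 := by
  unfold zx
  rw [← Complex.normSq_eq_norm_sq, Complex.normSq_apply]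
  simp
  ring

section
variable {lam : ℝ} {V : T d L → ℝ} (b : OrthonormalBasis (T d L) ℂ (XT d L)) (E : T d L → ℝ)
  (hb : ∀ α, HC lam V (b α) = ((E α : ℝ) : ℂ) • b α)
include hb

theorem GTx_sum {η : ℝ} (hη : 0 < η) (u : XT d L) (x : ℝ) :
    ‖GT lam V (zx η x) u‖ ^ 2 = ∑ α, ‖(inner ℂ (b α) u : ℂ)‖ ^ 2 *
      (1 / ((E α - x) ^ 2 + η ^ 2)) := by
  rw [GT_sum b E hb (zx_ne hη x) u]
  refine Finset.sum_congr rfl fun α _ => ?_
  rw [zx_norm, mul_one_div]

/-- the resolvent outside the window -/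
theorem out_le {η : ℝ} (hη : 0 < η) (u : XT d L) (A1 A2 B1 B2 D δ1 : ℝ) (hD : 0 < D)
    (h1 : A1 + D ≤ B1) (h2 : B2 + D ≤ A2)
    (hδ : ∑ α, (if B1 ≤ E α ∧ E α ≤ B2 then 0 else ‖(inner ℂ (b α) u : ℂ)‖ ^ 2) ≤ δ1 * ‖u‖ ^ 2) :
    ∫ x in (Set.Icc A1 A2)ᶜ, ‖GT lam V (zx η x) u‖ ^ 2 ≤
      (2 * Real.pi / D + Real.pi / η * δ1) * ‖u‖ ^ 2 := by
  have hpi := Real.pi_pos
  set W : Set ℝ := (Set.Icc A1 A2)ᶜ with hW
  have hWm : MeasurableSet W := measurableSet_Icc.compl
  simp only [GTx_sum b E hb hη u]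
  have hci : ∀ α, Integrable fun x : ℝ => 1 / ((E α - x) ^ 2 + η ^ 2) := fun α =>
    cauchy_int (E α) η hη
  rw [integral_finsetSum _ fun α _ => ((hci α).const_mul _).integrableOn]
  have ha : ∀ α, ∫ x in W, ‖(inner ℂ (b α) u : ℂ)‖ ^ 2 * (1 / ((E α - x) ^ 2 + η ^ 2)) ≤
      ‖(inner ℂ (b α) u : ℂ)‖ ^ 2 * (2 * Real.pi / D) +
        (if B1 ≤ E α ∧ E α ≤ B2 then 0 else ‖(inner ℂ (b α) u : ℂ)‖ ^ 2) * (Real.pi / η) := by
    intro α
    rw [integral_const_mul]
    have hn : 0 ≤ ‖(inner ℂ (b α) u : ℂ)‖ ^ 2 := by positivity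
    split_ifs with hα
    · rw [zero_mul, add_zero]
      apply mul_le_mul_of_nonneg_left _ hn
      calc ∫ x in W, 1 / ((E α - x) ^ 2 + η ^ 2) ≤
          ∫ x in W, 2 * (1 / ((E α - x) ^ 2 + D ^ 2)) := by
            refine setIntegral_mono_on (hci α).integrableOn
              (((cauchy_int (E α) D hD).const_mul 2).integrableOn) hWm fun x hx => ?_
            have hx1 : D ^ 2 ≤ (E α - x) ^ 2 := by
              rw [hW, Set.mem_compl_iff, Set.mem_Icc, not_and_or] at hx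
              rcases hx with hx | hx
              · push Not at hx
                apply pow_le_pow_left₀ hD.le
                linarith [hα.1]
              · push Not at hx
                have : D ≤ x - E α := by linarith [hα.2]
                have := pow_le_pow_left₀ hD.le this 2
                nlinarith
            rw [mul_one_div, div_le_div_iff₀ (by positivity) (by positivity)]
            nlinarith [sq_nonneg η]
        _ ≤ ∫ x, 2 * (1 / ((E α - x) ^ 2 + D ^ 2)) := by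
            refine setIntegral_le_integral ((cauchy_int (E α) D hD).const_mul 2)
              (Filter.Eventually.of_forall fun x => ?_)
            show 0 ≤ 2 * (1 / ((E α - x) ^ 2 + D ^ 2))
            positivity
        _ = 2 * Real.pi / D := by
            rw [integral_const_mul, cauchy_val (E α) D hD]
            ring
    · have h3 : ∫ x in W, 1 / ((E α - x) ^ 2 + η ^ 2) ≤ Real.pi / η := by
        rw [← cauchy_val (E α) η hη]
        refine setIntegral_le_integral (hci α) (Filter.Eventually.of_forall fun x => ?_)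
        show 0 ≤ 1 / ((E α - x) ^ 2 + η ^ 2)
        positivity
      have h4 : 0 ≤ ‖(inner ℂ (b α) u : ℂ)‖ ^ 2 * (2 * Real.pi / D) := by positivity
      have h5 := mul_le_mul_of_nonneg_left h3 hn
      linarith
  refine (Finset.sum_le_sum fun α _ => ha α).trans ?_
  rw [Finset.sum_add_distrib, ← Finset.sum_mul, ← Finset.sum_mul, mass_b b E hb]
  have h3 : 0 ≤ Real.pi / η := by positivity
  have h4 := mul_le_mul_of_nonneg_right hδ h3
  calc ‖u‖ ^ 2 * (2 * Real.pi / D) + _ ≤ ‖u‖ ^ 2 * (2 * Real.pi / D) + δ1 * ‖u‖ ^ 2 * (Real.pi / η) := by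
        linarith
    _ = _ := by ring

end

theorem GTx_tot (lam : ℝ) {η : ℝ} (hη : 0 < η) (V : T d L → ℝ) (u : XT d L) :
    Integrable (fun x : ℝ => ‖GT lam V (zx η x) u‖ ^ 2) ∧
    ∫ x, ‖GT lam V (zx η x) u‖ ^ 2 = Real.pi / η * ‖u‖ ^ 2 := by
  obtain ⟨b, E, hb⟩ := exists_basis lam V
  simp only [GTx_sum b E hb hη u]
  have hci : ∀ α, Integrable fun x : ℝ => ‖(inner ℂ (b α) u : ℂ)‖ ^ 2 *
      (1 / ((E α - x) ^ 2 + η ^ 2)) := fun α => (cauchy_int (E α) η hη).const_mul _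
  refine ⟨integrable_finsetSum _ fun α _ => hci α, ?_⟩
  rw [integral_finsetSum _ fun α _ => hci α]
  simp only [integral_const_mul, cauchy_val _ η hη]
  rw [← Finset.sum_mul, mass_b b E hb]
  ring

section
variable (μ : Measure ℝ) [IsProbabilityMeasure μ]

theorem SG_prod (lam : ℝ) {η : ℝ} (hη : 0 < η) (u : XT d L) :
    Integrable (fun q : (T d L → ℝ) × ℝ => ‖GT lam q.1 (zx η q.2) u‖ ^ 2)
      ((Measure.pi fun _ : T d L => μ).prod volume) := by
  have hc : Continuous fun q : (T d L → ℝ) × ℝ => ‖GT lam q.1 (zx η q.2) u‖ ^ 2 :=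
    (GT_joint lam hη u).norm.pow 2
  have hm : AEStronglyMeasurable (fun q : (T d L → ℝ) × ℝ => ‖GT lam q.1 (zx η q.2) u‖ ^ 2)
      ((Measure.pi fun _ : T d L => μ).prod volume) := hc.aestronglyMeasurable
  rw [integrable_prod_iff hm]
  refine ⟨Filter.Eventually.of_forall fun V => (GTx_tot lam hη V u).1, ?_⟩
  have h1 : ∀ V : T d L → ℝ, ∫ x, ‖‖GT lam V (zx η x) u‖ ^ 2‖ = Real.pi / η * ‖u‖ ^ 2 := by
    intro V
    rw [← (GTx_tot lam hη V u).2]
    congr 1
    funext x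
    rw [Real.norm_of_nonneg (by positivity)]
  simp only [h1]
  exact integrable_const _

theorem SG_int (lam : ℝ) {η : ℝ} (hη : 0 < η) (u : XT d L) : Integrable (SG μ lam η u) :=
  (SG_prod μ lam hη u).integral_prod_right

theorem SG_nonneg (lam η : ℝ) (u : XT d L) (x : ℝ) : 0 ≤ SG μ lam η u x :=
  integral_nonneg fun V => by positivity

theorem SG_tot (lam : ℝ) {η : ℝ} (hη : 0 < η) (u : XT d L) :
    ∫ x, SG μ lam η u x = Real.pi / η * ‖u‖ ^ 2 := by
  have h1 : ∫ x, SG μ lam η u x = ∫ V, (∫ x, ‖GT lam V (zx η x) u‖ ^ 2)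
      ∂(Measure.pi fun _ : T d L => μ) := (integral_integral_swap (SG_prod μ lam hη u)).symm
  rw [h1]
  simp only [(GTx_tot lam hη _ u).2]
  simp

theorem SG_out (lam : ℝ) {η : ℝ} (hη : 0 < η) (u : XT d L) (G : Set (T d L → ℝ))
    (hGm : MeasurableSet G) (A1 A2 D δ1 : ℝ) (hD : 0 < D) (hδ1 : 0 ≤ δ1)
    (hG : ∀ V ∈ G, ∫ x in (Set.Icc A1 A2)ᶜ, ‖GT lam V (zx η x) u‖ ^ 2 ≤
      (2 * Real.pi / D + Real.pi / η * δ1) * ‖u‖ ^ 2) :
    ∫ x in (Set.Icc A1 A2)ᶜ, SG μ lam η u x ≤ (2 * Real.pi / D + Real.pi / η *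
      (δ1 + (Measure.pi fun _ : T d L => μ).real Gᶜ)) * ‖u‖ ^ 2 := by
  have hpi := Real.pi_pos
  set P : Measure (T d L → ℝ) := Measure.pi fun _ : T d L => μ with hP
  set W : Set ℝ := (Set.Icc A1 A2)ᶜ with hW
  have hWm : MeasurableSet W := measurableSet_Icc.compl
  have hi : Integrable (fun q : (T d L → ℝ) × ℝ => ‖GT lam q.1 (zx η q.2) u‖ ^ 2)
      (P.prod (volume.restrict W)) := by
    have h1 := (SG_prod μ lam hη u)
    have h2 : P.prod (volume.restrict W) = (P.prod volume).restrict (Set.univ ×ˢ W) := by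
      rw [← Measure.prod_restrict, Measure.restrict_univ]
    rw [h2]
    exact h1.integrableOn
  have h1 : ∫ x in W, SG μ lam η u x = ∫ V, (∫ x in W, ‖GT lam V (zx η x) u‖ ^ 2) ∂P :=
    (integral_integral_swap hi).symm
  rw [h1]
  have hpt : ∀ V : T d L → ℝ, ∫ x in W, ‖GT lam V (zx η x) u‖ ^ 2 ≤
      (2 * Real.pi / D + Real.pi / η * δ1) * ‖u‖ ^ 2 +
        Gᶜ.indicator (fun _ => Real.pi / η * ‖u‖ ^ 2) V := by
    intro V
    by_cases hV : V ∈ G
    · rw [Set.indicator_of_notMem (by simpa using hV), add_zero]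
      exact hG V hV
    · rw [Set.indicator_of_mem (show V ∈ Gᶜ from hV)]
      have h2 : ∫ x in W, ‖GT lam V (zx η x) u‖ ^ 2 ≤ Real.pi / η * ‖u‖ ^ 2 := by
        rw [← (GTx_tot lam hη V u).2]
        refine setIntegral_le_integral (GTx_tot lam hη V u).1
          (Filter.Eventually.of_forall fun x => ?_)
        show 0 ≤ ‖GT lam V (zx η x) u‖ ^ 2
        positivity
      have h3 : 0 ≤ (2 * Real.pi / D + Real.pi / η * δ1) * ‖u‖ ^ 2 := by positivity
      linarith
  have i1 : Integrable (Gᶜ.indicator fun _ : T d L → ℝ => Real.pi / η * ‖u‖ ^ 2) P :=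
    (integrable_const _).indicator hGm.compl
  have h2 := integral_mono hi.integral_prod_left ((integrable_const _).add i1) hpt
  refine h2.trans (le_of_eq ?_)
  have e1 := integral_add (integrable_const (μ := P)
    ((2 * Real.pi / D + Real.pi / η * δ1) * ‖u‖ ^ 2)) i1
  refine Eq.trans e1 ?_
  rw [integral_indicator hGm.compl, setIntegral_const, smul_eq_mul]
  simp only [integral_const, probReal_univ, one_smul]
  ring

/-- **the time average** -/
theorem time_avg (lam : ℝ) {η : ℝ} (hη : 0 < η) (u : XT d L) (G : Set (T d L → ℝ))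
    (hGm : MeasurableSet G) (A1 A2 D δ1 : ℝ) (hA : A1 ≤ A2) (hD : 0 < D) (hδ1 : 0 ≤ δ1)
    (hG : ∀ V ∈ G, ∫ x in (Set.Icc A1 A2)ᶜ, ‖GT lam V (zx η x) u‖ ^ 2 ≤
      (2 * Real.pi / D + Real.pi / η * δ1) * ‖u‖ ^ 2)
    (σ T' : ℝ) (hσ : 0 ≤ σ) (hT : 0 ≤ T') (hvar : ∀ x ∈ Set.Icc A1 A2,
      VG μ lam η u x ≤ σ * SG μ lam η u x + T' * ‖u‖ ^ 2) (t : ℝ) (ht : 0 ≤ t) :
    ∫ s in Set.Ioc 0 t, (∫ V, Dv μ lam u V s ^ 2 ∂(Measure.pi fun _ : T d L => μ)) ≤
      Real.exp (2 * η * t) * (2 / η * (σ + δ1 + (Measure.pi fun _ : T d L => μ).real Gᶜ +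
        2 * η / D + T' * η * (A2 - A1))) * ‖u‖ ^ 2 := by
  have hpi := Real.pi_pos
  set P : Measure (T d L → ℝ) := Measure.pi fun _ : T d L => μ with hP
  set W : Set ℝ := Set.Icc A1 A2 with hW
  have hWm : MeasurableSet W := measurableSet_Icc
  have hS := SG_int μ lam hη u
  set h : ℝ → ℝ := fun x => 4 * (σ * SG μ lam η u x + W.indicator (fun _ => T' * ‖u‖ ^ 2) x +
    Wᶜ.indicator (SG μ lam η u) x) with hh
  have j1 : Integrable (fun x => σ * SG μ lam η u x) := hS.const_mul σ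
  have j2 : Integrable (W.indicator fun _ : ℝ => T' * ‖u‖ ^ 2) := by
    rw [integrable_indicator_iff hWm]
    exact integrableOn_const (by rw [hW, Real.volume_Icc]; exact ENNReal.ofReal_ne_top)
  have j3 : Integrable (Wᶜ.indicator (SG μ lam η u)) := hS.indicator hWm.compl
  have j12 : Integrable (fun x => σ * SG μ lam η u x + W.indicator (fun _ => T' * ‖u‖ ^ 2) x) :=
    j1.add j2
  have j123 : Integrable (fun x => σ * SG μ lam η u x + W.indicator (fun _ => T' * ‖u‖ ^ 2) x +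
    Wᶜ.indicator (SG μ lam η u) x) := j12.add j3
  have hhi : Integrable h := j123.const_mul 4
  have hV : ∀ x, 4 * VG μ lam η u x ≤ h x := by
    intro x
    have hSx := SG_nonneg μ lam η u x
    by_cases hx : x ∈ W
    · have h1 := hvar x hx
      show 4 * VG μ lam η u x ≤ 4 * (σ * SG μ lam η u x + W.indicator (fun _ => T' * ‖u‖ ^ 2) x +
        Wᶜ.indicator (SG μ lam η u) x)
      rw [Set.indicator_of_mem hx, Set.indicator_of_notMem (by simpa using hx)]
      linarith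
    · have h1 := VG_le μ lam hη u x
      show 4 * VG μ lam η u x ≤ 4 * (σ * SG μ lam η u x + W.indicator (fun _ => T' * ‖u‖ ^ 2) x +
        Wᶜ.indicator (SG μ lam η u) x)
      rw [Set.indicator_of_notMem hx, Set.indicator_of_mem (show x ∈ Wᶜ from hx)]
      have : 0 ≤ σ * SG μ lam η u x := by positivity
      linarith
  refine (time_res μ lam hη u t ht h hhi hV).trans ?_
  have hI : ∫ x, h x = 4 * (σ * (Real.pi / η * ‖u‖ ^ 2) + T' * ‖u‖ ^ 2 * (A2 - A1) +
      ∫ x in Wᶜ, SG μ lam η u x) := by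
    rw [hh, integral_const_mul, integral_add j12 j3, integral_add j1 j2, integral_const_mul,
      SG_tot μ lam hη u, integral_indicator hWm, integral_indicator hWm.compl, setIntegral_const,
      smul_eq_mul]
    congr 2
    rw [hW, Real.volume_real_Icc_of_le hA]
    ring
  rw [hI]
  have h1 := SG_out μ lam hη u G hGm A1 A2 D δ1 hD hδ1 hG
  rw [← hW, ← hP] at h1
  have hT2 : 0 ≤ T' * ‖u‖ ^ 2 * (A2 - A1) := by
    have : 0 ≤ A2 - A1 := by linarith
    positivity
  have hT3 : T' * ‖u‖ ^ 2 * (A2 - A1) ≤ T' * ‖u‖ ^ 2 * (A2 - A1) * Real.pi := by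
    have := Real.pi_gt_three
    nlinarith
  calc Real.exp (2 * η * t) / (2 * Real.pi) * (4 * (σ * (Real.pi / η * ‖u‖ ^ 2) +
        T' * ‖u‖ ^ 2 * (A2 - A1) + ∫ x in Wᶜ, SG μ lam η u x)) ≤
      Real.exp (2 * η * t) / (2 * Real.pi) * (4 * (σ * (Real.pi / η * ‖u‖ ^ 2) +
        T' * ‖u‖ ^ 2 * (A2 - A1) * Real.pi + (2 * Real.pi / D + Real.pi / η *
      (δ1 + P.real Gᶜ)) * ‖u‖ ^ 2)) := by
        apply mul_le_mul_of_nonneg_left _ (by positivity)
        linarith
    _ = _ := by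
        field_simp
        ring

/-- from the mean square to the mean -/
theorem dv_avg (lam : ℝ) (u : XT d L) (t β : ℝ) (ht : 0 ≤ t) (hβ : 0 < β) (hu : 0 < ‖u‖)
    (h : ∫ s in Set.Ioc 0 t, (∫ V, Dv μ lam u V s ^ 2 ∂(Measure.pi fun _ : T d L => μ)) ≤
      t * (β * ‖u‖) ^ 2) :
    ∫ V, (∫ s in (0 : ℝ)..t, Dv μ lam u V s) ∂(Measure.pi fun _ : T d L => μ) ≤
      t * (β * ‖u‖) := by
  set P : Measure (T d L → ℝ) := Measure.pi fun _ : T d L => μ with hP
  have hII : ∀ V : T d L → ℝ, ∫ s in (0 : ℝ)..t, Dv μ lam u V s =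
      ∫ s in Set.Ioc 0 t, Dv μ lam u V s := fun V => intervalIntegral.integral_of_le ht
  simp only [hII]
  rw [integral_integral_swap (Dv_int μ lam u t)]
  set c := β * ‖u‖ with hc
  have hc0 : 0 < c := by positivity
  have hD2 : Integrable (fun q : (T d L → ℝ) × ℝ => Dv μ lam u q.1 q.2 ^ 2)
      (P.prod (volume.restrict (Set.Ioc 0 t))) := by
    refine Integrable.of_bound (C := (2 * ‖u‖) ^ 2)
      ((Dv_joint μ lam u).pow 2).aestronglyMeasurable (Filter.Eventually.of_forall fun p => ?_)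
    rw [Real.norm_of_nonneg (by positivity)]
    exact pow_le_pow_left₀ (Dv_nonneg μ lam u p.1 p.2) (Dv_le μ lam u p.1 p.2) 2
  have i2 := hD2.integral_prod_right
  have hfin : IsFiniteMeasure (volume.restrict (Set.Ioc (0 : ℝ) t)) := inferInstance
  have h1 : ∀ s : ℝ, ∫ V, Dv μ lam u V s ∂P ≤
      1 / (2 * c) * (∫ V, Dv μ lam u V s ^ 2 ∂P) + c / 2 := by
    intro s
    have hm := (Dv_cont μ lam u s).aestronglyMeasurable (μ := P)
    have i1 : Integrable (fun V => Dv μ lam u V s) P :=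
      Integrable.of_bound (C := 2 * ‖u‖) hm (Filter.Eventually.of_forall fun V => by
        rw [Real.norm_of_nonneg (Dv_nonneg μ lam u V s)]
        exact Dv_le μ lam u V s)
    have i3 : Integrable (fun V => Dv μ lam u V s ^ 2) P :=
      Integrable.of_bound (C := (2 * ‖u‖) ^ 2) (hm.pow 2) (Filter.Eventually.of_forall fun V => by
        rw [Real.norm_of_nonneg (by positivity)]
        exact pow_le_pow_left₀ (Dv_nonneg μ lam u V s) (Dv_le μ lam u V s) 2)
    have h3 : ∀ V, Dv μ lam u V s ≤ 1 / (2 * c) * Dv μ lam u V s ^ 2 + c / 2 := by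
      intro V
      have e : 1 / (2 * c) * Dv μ lam u V s ^ 2 + c / 2 - Dv μ lam u V s =
          (Dv μ lam u V s - c) ^ 2 / (2 * c) := by
        field_simp
        ring
      have : 0 ≤ (Dv μ lam u V s - c) ^ 2 / (2 * c) := by positivity
      linarith
    have h4 := integral_mono i1 ((i3.const_mul (1 / (2 * c))).add (integrable_const (c / 2))) h3
    have e4 := integral_add (i3.const_mul (1 / (2 * c))) (integrable_const (μ := P) (c / 2))
    refine h4.trans (le_of_eq (e4.trans ?_))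
    rw [integral_const_mul]
    simp
  have h2 : ∫ s in Set.Ioc 0 t, (∫ V, Dv μ lam u V s ∂P) ≤
      ∫ s in Set.Ioc 0 t, (1 / (2 * c) * (∫ V, Dv μ lam u V s ^ 2 ∂P) + c / 2) :=
    integral_mono (Dv_int μ lam u t).integral_prod_right
      ((i2.const_mul _).add (integrable_const _)) h1
  refine h2.trans ?_
  rw [integral_add (i2.const_mul _) (integrable_const _), integral_const_mul]
  have e1 : ∫ _s in Set.Ioc (0 : ℝ) t, c / 2 = t * (c / 2) := by
    rw [setIntegral_const, Real.volume_real_Ioc_of_le ht, sub_zero, smul_eq_mul]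
  rw [e1]
  calc 1 / (2 * c) * (∫ s in Set.Ioc 0 t, (∫ V, Dv μ lam u V s ^ 2 ∂P)) + t * (c / 2) ≤
      1 / (2 * c) * (t * c ^ 2) + t * (c / 2) := by gcongr
    _ = t * c := by field_simp; ring

end

end Pool.Agent.V8H95.NM
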