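import Pool.Agent.V8H95.NM.Far2
import Pool.Agent.V8H95.EF.Ex

/-!
The theorem on the torus, with abstract parameters, from time averages.
-/

set_option autoImplicit false
set_option linter.unusedSectionVars false
set_option linter.unusedVariables false

open Complex MeasureTheory
open scoped BigOperators ComplexConjugate

namespace Pool.Agent.V8H95.NM

open Pool.Agent.H4R2.AE Pool.Agent.V8H99.AD Pool.Agent.V8H95.MF Pool.Agent.V8H95.BW
open Pool.Agent.V8H95.EF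

theorem torus_main2 (d : ℕ) (hd : 3 ≤ d) (L : ℕ) [NeZero L]
    (lam c0 m θ ϑ K s e5 β ε κ τ q0 : ℝ) (J M R Nt : ℕ)
    (μ : Measure ℝ) [IsProbabilityMeasure μ] (G : Set (T d L → ℝ))
    (hGm : MeasurableSet G) (hG : ∀ V ∈ G, ∃ ψ : T d L → ℝ, Gd lam c0 θ m V ψ)
    (hθ : 0 ≤ θ) (hε : 0 < ε) (hJ : 6 ≤ J * ε) (hK : 1 ≤ K)
    (hJK : J * (12 / K ^ 2 + 2 * θ ^ 2) ≤ 1 / 2) (hs : 0 < s) (hs1 : s ≤ 1) (he5 : 0 ≤ e5)
    (hfin : 2 * J * (s ^ d + 6 ^ d * K ^ d * e5 * (2 / ε)) ≤ ε / (28 * d) ^ d)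
    (hκ : 0 < κ) (hKκ : K * κ ≤ 1) (hKϑ : (K * κ) ^ 2 ≤ 4 * ϑ) (hϑ : 0 < ϑ) (hϑ1 : ϑ ≤ 1 / 100)
    (hθϑ : θ ≤ ϑ) (hϑK : ϑ * K ≤ 1) (hm1 : 48 * m ≤ κ ^ 2) (hm2 : m ≤ ϑ * κ ^ 2) (hM1 : 1 ≤ M)
    (hML : M ≤ L) (hMσ : d * (2 ^ (d + 1) / (M : ℝ)) ≤ ϑ * (K * κ))
    (hT : 0 < τ) (hq0 : 0 < q0) (hq1 : q0 ≤ 1) (hq0s : 7 * d * K * q0 ≤ s)
    (hR : ∀ j < J, 2 * ((R : ℝ) + M) ≤ τ * q0 ^ j * s * κ / (2 * d)) (hsL : 2 ≤ s * κ * L)
    (hMN : 2 * (M + Nt) + 2 < L) (hNt : 24 * ((4 * d + 1) * τ) ≤ Nt)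
    (htail : 12 * d * (L : ℝ) ^ 2 * Real.exp (-(Nt : ℝ)) ≤ ϑ * (K * κ)) (hβ : 0 < β)
    (hav : ∀ j < J, ∀ q : T d L, (s * κ) ^ 2 < kq q → kq q < (K * κ) ^ 2 →
      ∫ V, (∫ s in (0 : ℝ)..(τ * q0 ^ j), Dv μ lam (Ph M 0 q) V s)
        ∂(Measure.pi fun _ : T d L => μ) ≤ τ * q0 ^ j * (β * ‖Ph M 0 q‖))
    (herr : ∀ j < J, (Measure.pi fun _ : T d L => μ).real Gᶜ + 2 * ϑ ^ 2 +
      2 / (τ * q0 ^ j * s * κ / (2 * d)) ^ 2 * ((1 + 2 / ϑ) * (2 * (√d * M) ^ 2 + d / (2 * ϑ)) +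
        (83 + 160 * d) * ϑ * (K * κ) ^ 2 * (τ * q0 ^ j) ^ 2 +
          40 * d * (K * κ) ^ 2 * (τ * q0 ^ j) ^ 2 * β) ≤ e5) :
    ∃ G' : Set (T d L → ℝ), MeasurableSet G' ∧
      1 - ((Measure.pi fun _ : T d L => μ).real Gᶜ + ε / 2) ≤
        (Measure.pi fun _ : T d L => μ).real G' ∧
      ∀ V ∈ G', ∀ (b : OrthonormalBasis (T d L) ℂ (XT d L)) (E : T d L → ℝ),
        (∀ α, HC lam V (b α) = ((E α : ℝ) : ℂ) • b α) →
        (κ * L / (28 * d)) ^ d ≤ ((win E κ).card : ℝ) ∧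
        ∀ S : Finset (T d L), S ⊆ win E κ → (∀ α ∈ S, ∃ x0 : T d L,
          ε < ‖rs (fun x => nn (x - x0) ≤ R) (b α)‖ ^ 2) →
          (S.card : ℝ) ≤ ε * ((win E κ).card : ℝ) := by
  classical
  have hd1 : 1 ≤ d := by omega
  have hd0 : (1 : ℝ) ≤ d := by exact_mod_cast hd1
  set P : Measure (T d L → ℝ) := Measure.pi fun _ : T d L => μ with hP
  have hL := L_pos (L := L)
  have hM0 : (0 : ℝ) < M := by exact_mod_cast hM1
  have hZ : 0 < ZZ d L M := by
    have := tsq_pos (d := d) (L := L) M hM1 hML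
    unfold ZZ
    positivity
  have hKκ0 : 0 < K * κ := by positivity
  -- the sets of momenta
  set Mv : Finset (T d L) := Finset.univ.filter fun q => (s * κ) ^ 2 < kq q ∧ kq q < (K * κ) ^ 2
    with hMv
  set Sl : Finset (T d L) := Finset.univ.filter fun q => kq q ≤ (s * κ) ^ 2 with hSl
  have hcov : ∀ q, q ∈ Mv ∨ q ∈ Sl ∨ (K * κ) ^ 2 ≤ kq q := by
    intro q
    by_cases h1 : kq q ≤ (s * κ) ^ 2
    · right; left
      rw [hSl, Finset.mem_filter]
      exact ⟨Finset.mem_univ _, h1⟩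
    · by_cases h2 : (K * κ) ^ 2 ≤ kq q
      · right; right; exact h2
      · left
        rw [hMv, Finset.mem_filter]
        exact ⟨Finset.mem_univ _, not_le.1 h1, not_le.1 h2⟩
  have hMvq : ∀ q ∈ Mv, (s * κ) ^ 2 < kq q ∧ kq q < (K * κ) ^ 2 := by
    intro q hq
    rw [hMv, Finset.mem_filter] at hq
    exact hq.2
  -- times
  set t : ℕ → ℝ := fun j => τ * q0 ^ j with ht
  set r : ℕ → ℝ := fun j => τ * q0 ^ j * s * κ / (2 * d) with hr
  have ht0 : ∀ j, 0 < t j := fun j => by rw [ht]; positivity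
  have hr0 : ∀ j, 0 < r j := fun j => by rw [hr]; positivity
  have htT : ∀ j, t j ≤ τ := by
    intro j
    have : q0 ^ j ≤ 1 := pow_le_one₀ hq0.le hq1
    calc τ * q0 ^ j ≤ τ * 1 := by gcongr
      _ = τ := mul_one τ
  -- the packets
  have hun : ∀ q : T d L, 0 < ‖Ph M 0 q‖ := by
    intro q
    have h1 := Ph_norm M 0 q
    have h2 := tsq_pos (d := d) (L := L) M hM1 hML
    by_contra hc
    have h3 : ‖Ph M 0 q‖ = 0 := le_antisymm (not_lt.1 hc) (norm_nonneg _)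
    rw [h3] at h1
    norm_num at h1
    linarith
  have hσ : 2 ^ (d + 1) / (M : ℝ) ≤ ϑ * (K * κ) := by
    refine le_trans ?_ hMσ
    have : 0 ≤ 2 ^ (d + 1) / (M : ℝ) := by positivity
    nlinarith
  have hfar : ∀ j < J, ∀ q ∈ Mv, ∫ V, farm (vq (t j) q) (r j) (ev (HC lam V) (t j) (Ph M 0 q))
      ∂P ≤ e5 * tsq d L M := by
    intro j hj q hq
    have hq12 := hMvq q hq
    have hkq : kq q ≤ (K * κ) ^ 2 := hq12.2.le
    have hdirq := Ph_dir hd1 M hM1 hML q ϑ (K * κ) hϑ1 hKκ0 hϑ hMσ hkq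
    have hkq0 := kq_nonneg q
    have hsin : kq q ≤ ∑ i, Real.sin (th q i) ^ 2 + ϑ * (K * κ) ^ 2 := by
      have h1 := kq_le_sin q
      have h2 : kq q ^ 2 / 4 ≤ ϑ * (K * κ) ^ 2 := by
        calc kq q ^ 2 / 4 ≤ ((K * κ) ^ 2) ^ 2 / 4 := by gcongr
          _ = (K * κ) ^ 2 * (K * κ) ^ 2 / 4 := by ring
          _ ≤ (4 * ϑ) * (K * κ) ^ 2 / 4 := by gcongr
          _ = _ := by ring
      linarith
    have hmK : m ≤ ϑ * (K * κ) ^ 2 := by
      refine hm2.trans ?_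
      have : κ ^ 2 ≤ (K * κ) ^ 2 := by
        apply pow_le_pow_left₀ hκ.le
        nlinarith
      gcongr
    have hu2 : 0 ≤ ‖Ph M 0 q‖ ^ 2 := by positivity
    have hDir : Dir (fun y => (Ph M 0 q) y) + 3 * m * ‖Ph M 0 q‖ ^ 2 ≤
        (∑ i, Real.sin (th q i) ^ 2 + 7 * ϑ * (K * κ) ^ 2) * ‖Ph M 0 q‖ ^ 2 := by
      have h3 : 3 * m * ‖Ph M 0 q‖ ^ 2 ≤ 3 * (ϑ * (K * κ) ^ 2) * ‖Ph M 0 q‖ ^ 2 := by gcongr
      calc _ ≤ (kq q + 3 * ϑ * (K * κ) ^ 2) * ‖Ph M 0 q‖ ^ 2 +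
            3 * (ϑ * (K * κ) ^ 2) * ‖Ph M 0 q‖ ^ 2 := add_le_add hdirq h3
        _ = (kq q + 6 * ϑ * (K * κ) ^ 2) * ‖Ph M 0 q‖ ^ 2 := by ring
        _ ≤ _ := by
            apply mul_le_mul_of_nonneg_right _ hu2
            linarith
    have hfarT := far_torus2 μ hd1 lam c0 θ m G hGm hG (Ph M 0 q) (norm_pos_iff.1 (hun q))
      (th q) ϑ (K * κ) (√d * M) (r j) (t j) β hϑ hϑ1 hθ hθϑ hKκ0 (hr0 j) (ht0 j).le hβ
      ((sin_le_kq q).trans hkq) hDir
      (fun i => (Ph_mom M hM1 hML q i).trans (by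
        have := hun q
        gcongr))
      (by
        rw [mul_pow, Real.sq_sqrt (by positivity)]
        exact Ph_Q M q)
      M Nt (Ph_supp' M q) hMN (by
        refine le_trans ?_ hNt
        have := htT j
        gcongr) htail
      (hav j hj q hq12.1 hq12.2)
    refine hfarT.trans ?_
    rw [Ph_norm]
    apply mul_le_mul_of_nonneg_right _ (tsq_pos (d := d) (L := L) M hM1 hML).le
    exact herr j hj
  -- Markov
  obtain ⟨hFi, hFm⟩ := FF_mean μ lam M J r t Mv e5 he5 hfar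
  set B : ℝ := J * (Mv.card : ℝ) * e5 * ZZ d L M with hB
  obtain ⟨hG1m, hG1P⟩ := markov P (fun V => FF lam M J r t Mv V)
    (FF_cont lam M J r t Mv).measurable (fun V => FF_nonneg lam M J r t Mv V) hFi B (ε / 2)
    (by positivity) hFm
  set G1 : Set (T d L → ℝ) := {V | ε / 2 * FF lam M J r t Mv V ≤ B} with hG1
  refine ⟨G ∩ G1, hGm.inter hG1m, ?_, ?_⟩
  · have h1 : P.real (G ∩ G1)ᶜ ≤ P.real Gᶜ + P.real G1ᶜ := by
      rw [Set.compl_inter]
      exact measureReal_union_le _ _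
    have h2 := probReal_add_probReal_compl (μ := P) (hGm.inter hG1m)
    have h3 := probReal_add_probReal_compl (μ := P) hG1m
    linarith
  · intro V hV b E hb
    obtain ⟨ψ, h⟩ := hG V hV.1
    have hκ1 : κ ≤ 1 := by nlinarith
    have hW := win_card hd1 h b E hb κ hκ hκ1 hm1
    refine ⟨hW, ?_⟩
    intro S hS hSε
    have hMκ : d * (2 ^ (d + 1) / (M : ℝ)) ^ 2 ≤ κ ^ 2 := by
      have h1 : d * (2 ^ (d + 1) / (M : ℝ)) ≤ κ := by
        refine hMσ.trans ?_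
        calc ϑ * (K * κ) = (ϑ * K) * κ := by ring
          _ ≤ 1 * κ := by gcongr
          _ = κ := one_mul κ
      have h2 : 2 ^ (d + 1) / (M : ℝ) ≤ κ := by
        refine le_trans ?_ h1
        have : 0 ≤ 2 ^ (d + 1) / (M : ℝ) := by positivity
        nlinarith
      calc d * (2 ^ (d + 1) / (M : ℝ)) ^ 2 = (d * (2 ^ (d + 1) / (M : ℝ))) * (2 ^ (d + 1) / M) := by
            ring
        _ ≤ κ * κ := by gcongr
        _ = κ ^ 2 := by ring
    have hcnt := count h hd1 M hM1 hML b E hb κ (K * κ) 0 hκ hKκ0 hm1 hMκ S hS Mv Sl hcov R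
      (R + M) (R + M) (by omega) le_rfl le_rfl J r
      (fun j => 2 * r j + 2 * t j * (K * κ)) r (fun j => 2 * t j * (K * κ)) t
      (fun j => (hr0 j).le)
      (fun j hj q hq => by
        have hq12 := hMvq q hq
        have h1 := kq_le_sin q
        have hkq1 : kq q ≤ 1 := hq12.2.le.trans (pow_le_one₀ hKκ0.le hKκ)
        have hkq0 := kq_nonneg q
        have h2 : 3 / 4 * (s * κ) ^ 2 ≤ ∑ i, Real.sin (th q i) ^ 2 := by nlinarith
        have h3 : ∑ i, vq (t j) q i ^ 2 = 4 * t j ^ 2 * ∑ i, Real.sin (th q i) ^ 2 := by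
          rw [Finset.mul_sum]
          refine Finset.sum_congr rfl fun i _ => ?_
          unfold vq
          ring
        rw [h3]
        have h4 : ((R + M : ℕ) : ℝ) + ((R + M : ℕ) : ℝ) ≤ r j := by
          push_cast
          have := hR j hj
          show (R : ℝ) + M + (R + M) ≤ τ * q0 ^ j * s * κ / (2 * d)
          linarith
        have hrj := hr0 j
        have h5 : r j + r j + (((R + M : ℕ) : ℝ) + ((R + M : ℕ) : ℝ)) ≤ 3 * r j := by linarith
        have h6 : 0 ≤ r j + r j + (((R + M : ℕ) : ℝ) + ((R + M : ℕ) : ℝ)) := by positivity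
        calc (d : ℝ) * (r j + r j + (((R + M : ℕ) : ℝ) + ((R + M : ℕ) : ℝ))) ^ 2
            ≤ d * (3 * r j) ^ 2 := by gcongr
          _ = d * (3 * (t j * s * κ / (2 * d))) ^ 2 := rfl
          _ = 9 / (4 * d) * (t j ^ 2 * (s * κ) ^ 2) := by field_simp; ring
          _ ≤ 9 / (4 * 1) * (t j ^ 2 * (s * κ) ^ 2) := by gcongr
          _ ≤ 4 * t j ^ 2 * (3 / 4 * (s * κ) ^ 2) := by
              have : 0 ≤ t j ^ 2 * (s * κ) ^ 2 := by positivity
              linarith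
          _ ≤ _ := by gcongr)
      (fun j hj q hq i => by
        have hq12 := hMvq q hq
        have h1 : Real.sin (th q i) ^ 2 ≤ (K * κ) ^ 2 := by
          have h2 := sin_le_kq q
          have h3 : Real.sin (th q i) ^ 2 ≤ ∑ i, Real.sin (th q i) ^ 2 :=
            Finset.single_le_sum (f := fun i => Real.sin (th q i) ^ 2)
              (fun i _ => sq_nonneg _) (Finset.mem_univ i)
          linarith
        have h2 : |Real.sin (th q i)| ≤ K * κ := abs_le_of_sq_le_sq h1 hKκ0.le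
        have h3 := ht0 j
        show |t j * (2 * Real.sin (th q i))| ≤ 2 * t j * (K * κ)
        rw [abs_mul (t j), abs_mul (2 : ℝ), abs_of_pos h3, abs_of_pos (show (0 : ℝ) < 2 by norm_num)]
        calc t j * (2 * |Real.sin (th q i)|) ≤ t j * (2 * (K * κ)) := by gcongr
          _ = _ := by ring)
      (fun j hj => by
        have h4 : ((R + M : ℕ) : ℝ) + ((R + M : ℕ) : ℝ) ≤ r j := by
          push_cast
          have := hR j hj
          show (R : ℝ) + M + (R + M) ≤ τ * q0 ^ j * s * κ / (2 * d)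
          linarith
        show ((R + M : ℕ) : ℝ) + ((R + M : ℕ) : ℝ) + 2 * t j * (K * κ) + r j ≤
          2 * r j + 2 * t j * (K * κ)
        linarith)
      (fun i j hij hj => by
        show 2 * r j + 2 * t j * (K * κ) < r i
        have h1 : t j ≤ t i * q0 := by
          show τ * q0 ^ j ≤ τ * q0 ^ i * q0
          rw [mul_assoc, ← pow_succ]
          have : q0 ^ j ≤ q0 ^ (i + 1) := pow_le_pow_of_le_one hq0.le hq1 hij
          gcongr
        have hti := ht0 i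
        have htj := ht0 j
        have e1 : r j = t j * s * κ / (2 * d) := rfl
        have e2 : r i = t i * s * κ / (2 * d) := rfl
        rw [e1, e2, lt_div_iff₀ (by positivity)]
        have h2 : (2 * (t j * s * κ / (2 * d)) + 2 * t j * (K * κ)) * (2 * d) =
            t j * κ * (2 * s + 4 * d * K) := by
          field_simp
          ring
        rw [h2]
        have h3 : 2 * s + 4 * d * K < 7 * d * K := by
          have : 1 * 1 ≤ (d : ℝ) * K := by gcongr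
          nlinarith
        calc t j * κ * (2 * s + 4 * d * K) < t j * κ * (7 * d * K) := by gcongr
          _ ≤ t i * q0 * κ * (7 * d * K) := by gcongr
          _ = t i * κ * (7 * d * K * q0) := by ring
          _ ≤ t i * κ * s := by gcongr
          _ = t i * s * κ := by ring)
      ε hJ hSε
    have hFF : ∑ j ∈ Finset.range J, ∑ p : T d L × T d L,
        (if p.2 ∈ Mv then Fm lam V M (vq (t j) p.2) (r j) (t j) p.1 p.2 else 0) =
        FF lam M J r t Mv V := by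
      unfold FF
      rfl
    rw [hFF] at hcnt
    have hV2 : ε / 2 * FF lam M J r t Mv V ≤ B := hV.2
    have hFB : FF lam M J r t Mv V ≤ 2 / ε * B := by
      rw [div_mul_eq_mul_div, le_div_iff₀ hε]
      linarith
    -- cardinalities
    have hSlc : (Sl.card : ℝ) ≤ (s * κ * L) ^ d := cntq_le (s * κ) (by positivity) hsL
    have hMvc : (Mv.card : ℝ) ≤ (K * κ * L) ^ d := by
      have h1 : Mv ⊆ Finset.univ.filter fun q => kq q ≤ (K * κ) ^ 2 := by
        intro q hq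
        rw [Finset.mem_filter]
        exact ⟨Finset.mem_univ _, (hMvq q hq).2.le⟩
      have h2 := cntq_le (d := d) (L := L) (K * κ) hKκ0 (by
        refine hsL.trans ?_
        have : s ≤ K := hs1.trans hK
        gcongr)
      refine le_trans ?_ h2
      exact_mod_cast Finset.card_le_card h1
    have hκL : 0 ≤ κ * L := by positivity
    -- divide by Z
    have hdiv : (S.card : ℝ) ≤ J * ((Sl.card : ℝ) + (12 / K ^ 2 + 2 * θ ^ 2) * (S.card : ℝ)) +
        6 ^ d * (2 / ε * (J * (Mv.card : ℝ) * e5)) := by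
      have e1 : 12 * κ ^ 2 / (K * κ) ^ 2 = 12 / K ^ 2 := by
        field_simp
      rw [e1] at hcnt
      have h1 : ZZ d L M * (S.card : ℝ) ≤ ZZ d L M * (J * ((Sl.card : ℝ) +
          (12 / K ^ 2 + 2 * θ ^ 2) * (S.card : ℝ)) + 6 ^ d * (2 / ε * (J * (Mv.card : ℝ) * e5))) := by
        calc ZZ d L M * (S.card : ℝ) ≤ _ := hcnt
          _ ≤ J * (ZZ d L M * (Sl.card : ℝ) + ZZ d L M * ((12 / K ^ 2 + 2 * θ ^ 2) * (S.card : ℝ))) +
              6 ^ d * (2 / ε * B) := by gcongr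
          _ = _ := by rw [hB]; ring
      exact le_of_mul_le_mul_left h1 hZ
    have hS0 : (0 : ℝ) ≤ S.card := Nat.cast_nonneg _
    have h1 : J * ((12 / K ^ 2 + 2 * θ ^ 2) * (S.card : ℝ)) ≤ 1 / 2 * (S.card : ℝ) := by
      calc J * ((12 / K ^ 2 + 2 * θ ^ 2) * (S.card : ℝ)) =
            (J * (12 / K ^ 2 + 2 * θ ^ 2)) * (S.card : ℝ) := by ring
        _ ≤ _ := by gcongr
    have h2 : (S.card : ℝ) ≤ 2 * (J * (s * κ * L) ^ d + 6 ^ d * (2 / ε * (J * (K * κ * L) ^ d * e5))) := by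
      have h3 : J * (Sl.card : ℝ) ≤ J * (s * κ * L) ^ d := by gcongr
      have h4 : 6 ^ d * (2 / ε * (J * (Mv.card : ℝ) * e5)) ≤
          6 ^ d * (2 / ε * (J * (K * κ * L) ^ d * e5)) := by gcongr
      rw [mul_add] at hdiv
      linarith
    calc (S.card : ℝ) ≤ 2 * (J * (s * κ * L) ^ d + 6 ^ d * (2 / ε * (J * (K * κ * L) ^ d * e5))) := h2
      _ = 2 * J * (s ^ d + 6 ^ d * K ^ d * e5 * (2 / ε)) * (κ * L) ^ d := by
          rw [mul_assoc s κ, mul_assoc K κ, mul_pow s, mul_pow K]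
          ring
      _ ≤ ε / (28 * d) ^ d * (κ * L) ^ d := by gcongr
      _ = ε * (κ * L / (28 * d)) ^ d := by rw [div_pow]; ring
      _ ≤ _ := by gcongr

end Pool.Agent.V8H95.NM
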