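import Pool.Agent.V8H95.NM.Loc2

/-!
Comparison of the averaged resolvents at two momenta: algebra.
-/

set_option autoImplicit false
set_option linter.unusedSectionVars false
set_option linter.unusedVariables false

open Complex MeasureTheory
open scoped BigOperators ComplexConjugate

namespace Pool.Agent.V8H95.NM

open Pool.Agent.H4R2.AE Pool.Agent.V8H99.AD Pool.Agent.V8H95.MF Pool.Agent.V8H95.BW
open Pool.Agent.V8H95.EF

variable {d L : ℕ} [NeZero L]

/-- multiplication by the conjugate of a plane wave -/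
noncomputable def Tw (q : T d L) : XT d L →L[ℂ] XT d L :=
  LinearMap.toContinuousLinearMap
    { toFun := fun f => WithLp.toLp 2 fun x => conj (ch q x) * f x
      map_add' := fun f g => by
        ext x
        simp only [PiLp.add_apply]
        ring
      map_smul' := fun a f => by
        ext x
        simp only [PiLp.smul_apply, smul_eq_mul, RingHom.id_apply]
        ring }

theorem Tw_apply (q : T d L) (f : XT d L) (x : T d L) : (Tw q f) x = conj (ch q x) * f x := rfl

theorem Tw_norm (q : T d L) (f : XT d L) : ‖Tw q f‖ = ‖f‖ := by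
  have h : ‖Tw q f‖ ^ 2 = ‖f‖ ^ 2 := by
    rw [EuclideanSpace.norm_sq_eq, EuclideanSpace.norm_sq_eq]
    refine Finset.sum_congr rfl fun x _ => ?_
    rw [Tw_apply, norm_mul, Complex.norm_conj, ch_norm, one_mul]
  exact (sq_eq_sq₀ (norm_nonneg _) (norm_nonneg _)).1 h

theorem Tw_pw (q k : T d L) : Tw q (pw (k + q)) = pw k := by
  ext x
  rw [Tw_apply, pw_apply, pw_apply, ch_addl]
  have := ch_conj q x
  linear_combination ch k x * this

theorem inner_Tw (q k : T d L) (f : XT d L) :
    (inner ℂ (pw k) (Tw q f) : ℂ) = inner ℂ (pw (k + q)) f := by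
  rw [inner_eq, inner_eq]
  refine Finset.sum_congr rfl fun x _ => ?_
  rw [Tw_apply, pw_apply, pw_apply, ch_addl, map_mul]
  ring

theorem Tw_und (q : T d L) (ψ : T d L → ℝ) (f : XT d L) : und ψ (Tw q f) = Tw q (und ψ f) := by
  ext x
  rw [Tw_apply]
  unfold und
  rw [Mu_apply, Mu_apply, Tw_apply]
  ring

theorem Tw_sh (q : T d L) (i : Fin d) (v : XT d L) :
    Sh i (Tw q v) - Tw q v = Tw q (conj (ch q (Pi.single i 1)) • (Sh i v - v) +
      (conj (ch q (Pi.single i 1)) - 1) • v) := by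
  ext x
  rw [PiLp.sub_apply, Sh_apply, Tw_apply, Tw_apply, Tw_apply, PiLp.add_apply, PiLp.smul_apply,
    PiLp.smul_apply, PiLp.sub_apply, Sh_apply, ch_add, map_mul, smul_eq_mul, smul_eq_mul]
  ring

theorem Tw_grad (q : T d L) (i : Fin d) (v : XT d L) :
    ‖Sh i (Tw q v) - Tw q v‖ ≤ ‖Sh i v - v‖ + ‖ch q (Pi.single i 1) - 1‖ * ‖v‖ := by
  rw [Tw_sh, Tw_norm]
  refine (norm_add_le _ _).trans ?_
  rw [norm_smul, norm_smul, Complex.norm_conj, ch_norm, one_mul]
  have h : ‖conj (ch q (Pi.single i 1)) - 1‖ = ‖ch q (Pi.single i 1) - 1‖ := by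
    have : conj (ch q (Pi.single i 1)) - 1 = conj (ch q (Pi.single i 1) - 1) := by
      rw [map_sub, map_one]
    rw [this, Complex.norm_conj]
  rw [h]

/-- the difference of the twisted operators as a form -/
noncomputable def NN (i : Fin d) (c : ℂ) (a b : XT d L) : ℂ :=
  c * inner ℂ a (Sh i b) + conj c * inner ℂ (Sh i a) b

theorem ch_ne (i j : Fin d) (hij : j ≠ i) (n : ZMod L) :
    ch (Pi.single i n : T d L) (Pi.single j 1) = 1 := by
  rw [ch_single' _ j, Pi.single_eq_of_ne hij]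
  simp

theorem HC_Tw (lam : ℝ) (V : T d L → ℝ) (i : Fin d) (n : ZMod L) (f : XT d L) (x : T d L) :
    (HC lam V (Tw (Pi.single i n) f)) x = (Tw (Pi.single i n) (HC lam V f)) x +
      ((ch (Pi.single i n : T d L) (Pi.single i 1) - 1) *
        (Tw (Pi.single i n) f) (x + Pi.single i 1) +
      conj (ch (Pi.single i n : T d L) (Pi.single i 1) - 1) *
        (Tw (Pi.single i n) f) (x - Pi.single i 1)) := by
  set q : T d L := Pi.single i n with hq
  have e1 : (HC lam V (Tw q f)) x = ∑ j : Fin d, (2 * (Tw q f) x - (Tw q f) (x + Pi.single j 1) -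
      (Tw q f) (x - Pi.single j 1)) + ((lam * V x : ℝ) : ℂ) * (Tw q f) x := rfl
  have e2 : (HC lam V f) x = ∑ j : Fin d, (2 * f x - f (x + Pi.single j 1) -
      f (x - Pi.single j 1)) + ((lam * V x : ℝ) : ℂ) * f x := rfl
  rw [e1, Tw_apply q (HC lam V f), e2, mul_add, Finset.mul_sum]
  have e3 : ∀ j : Fin d, (2 * (Tw q f) x - (Tw q f) (x + Pi.single j 1) -
      (Tw q f) (x - Pi.single j 1)) =
      conj (ch q x) * (2 * f x - f (x + Pi.single j 1) - f (x - Pi.single j 1)) +
      ((ch q (Pi.single j 1) - 1) * (Tw q f) (x + Pi.single j 1) +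
        conj (ch q (Pi.single j 1) - 1) * (Tw q f) (x - Pi.single j 1)) := by
    intro j
    have h1 : (Tw q f) (x + Pi.single j 1) = conj (ch q x) * conj (ch q (Pi.single j 1)) *
        f (x + Pi.single j 1) := by
      rw [Tw_apply, ch_add, map_mul]
    have h2 : (Tw q f) (x - Pi.single j 1) = conj (ch q x) * ch q (Pi.single j 1) *
        f (x - Pi.single j 1) := by
      rw [Tw_apply, ch_sub, map_mul, Complex.conj_conj]
    rw [h1, h2, Tw_apply, map_sub, map_one]
    have h3 := ch_conj q (Pi.single j 1)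
    linear_combination (-(conj (ch q x) * f (x + Pi.single j 1)) -
      conj (ch q x) * f (x - Pi.single j 1)) * h3
  rw [Finset.sum_congr rfl fun j _ => e3 j, Finset.sum_add_distrib]
  have e4 : ∑ j : Fin d, ((ch q (Pi.single j 1) - 1) * (Tw q f) (x + Pi.single j 1) +
        conj (ch q (Pi.single j 1) - 1) * (Tw q f) (x - Pi.single j 1)) =
      (ch q (Pi.single i 1) - 1) * (Tw q f) (x + Pi.single i 1) +
        conj (ch q (Pi.single i 1) - 1) * (Tw q f) (x - Pi.single i 1) := by
    refine Finset.sum_eq_single_of_mem i (Finset.mem_univ i) fun j _ hj => ?_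
    rw [hq, ch_ne i j hj n]
    simp
  rw [e4, Tw_apply q f x]
  ring

/-- the resolvent identity -/
theorem res_id (lam : ℝ) {z : ℂ} (hz : z.im ≠ 0) (V : T d L → ℝ) (k : T d L) (i : Fin d)
    (n : ZMod L) :
    (inner ℂ (pw (k + Pi.single i n)) (GT lam V z (pw (k + Pi.single i n))) : ℂ) -
      inner ℂ (pw k) (GT lam V z (pw k)) =
    NN i (ch (Pi.single i n : T d L) (Pi.single i 1) - 1) (GT lam V (conj z) (pw k))
      (Tw (Pi.single i n) (GT lam V z (pw (k + Pi.single i n)))) := by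
  set q : T d L := Pi.single i n with hq
  set c : ℂ := ch q (Pi.single i 1) - 1 with hc
  set f2 := GT lam V z (pw (k + q)) with hf2
  set f1 := GT lam V (conj z) (pw k) with hf1
  set g2 := Tw q f2 with hg2
  have hz' : (conj z).im ≠ 0 := by simpa using hz
  rw [← inner_Tw, ← hg2]
  have h1 : HC lam V f1 - conj z • f1 = pw k := rg_left (HC_sa lam V) hz' (pw k)
  have h2 : HC lam V f2 - z • f2 = pw (k + q) := rg_left (HC_sa lam V) hz (pw (k + q))
  have h3 : (inner ℂ f1 (pw k) : ℂ) = inner ℂ (pw k) (GT lam V z (pw k)) :=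
    rg_adj (HC_sa lam V) hz (pw k) (pw k)
  have h4 : HC lam V g2 - z • g2 = pw k + WithLp.toLp 2 fun x =>
      (c * g2 (x + Pi.single i 1) + conj c * g2 (x - Pi.single i 1)) := by
    ext x
    have h5 := HC_Tw lam V i n f2 x
    rw [← hq, ← hg2, ← hc] at h5
    have h6 := congrArg (fun f : XT d L => (Tw q f) x) h2
    simp only [map_sub, map_smul] at h6
    rw [Tw_pw] at h6
    simp only [PiLp.sub_apply, PiLp.smul_apply, smul_eq_mul] at h6
    rw [← hg2] at h6
    rw [PiLp.sub_apply, PiLp.smul_apply, smul_eq_mul, h5, PiLp.add_apply]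
    show _ = (pw k) x + (c * g2 (x + Pi.single i 1) + conj c * g2 (x - Pi.single i 1))
    rw [← h6]
    ring
  have h5 : (inner ℂ (pw k) g2 : ℂ) = inner ℂ f1 (HC lam V g2 - z • g2) := by
    nth_rewrite 1 [← h1]
    rw [inner_sub_left, inner_smul_left, Complex.conj_conj, HC_symm, inner_sub_right,
      inner_smul_right]
  rw [h5, h4, inner_add_right, h3, add_sub_cancel_left]
  unfold NN
  rw [inner_eq, inner_eq, inner_eq, Finset.mul_sum, Finset.mul_sum]
  have h6 : ∑ x, conj c * (conj ((Sh i f1) x) * g2 x) =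
      ∑ x, conj c * (conj (f1 x) * g2 (x - Pi.single i 1)) := by
    have := sum_shift i (fun x => conj c * (conj (f1 x) * g2 (x - Pi.single i 1)))
    rw [← this]
    refine Finset.sum_congr rfl fun x _ => ?_
    rw [Sh_apply, add_sub_cancel_right]
  rw [h6, ← Finset.sum_add_distrib]
  refine Finset.sum_congr rfl fun x _ => ?_
  rw [Sh_apply]
  ring

/-- the first order structure of `c` -/
theorem c_add (q : T d L) (i : Fin d) :
    (ch q (Pi.single i 1) - 1) + conj (ch q (Pi.single i 1) - 1) =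
      -(((‖ch q (Pi.single i 1) - 1‖ ^ 2 : ℝ)) : ℂ) := by
  rw [Complex.ofReal_pow, ← Complex.conj_mul', map_sub, map_one]
  have := ch_conj q (Pi.single i 1)
  linear_combination this

theorem NN_bound (i : Fin d) (c : ℂ) (hc : c + conj c = -((‖c‖ ^ 2 : ℝ) : ℂ)) (a b : XT d L) :
    ‖NN i c a b‖ ≤ ‖c‖ * (‖a‖ * ‖Sh i b - b‖ + ‖Sh i a - a‖ * ‖b‖) + ‖c‖ ^ 2 * (‖a‖ * ‖b‖) := by
  have e : NN i c a b = c * inner ℂ a (Sh i b - b) + conj c * inner ℂ (Sh i a - a) b -
      ((‖c‖ ^ 2 : ℝ) : ℂ) * inner ℂ a b := by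
    unfold NN
    rw [inner_sub_right, inner_sub_left]
    linear_combination (inner ℂ a b : ℂ) * hc
  rw [e]
  refine (norm_sub_le _ _).trans (add_le_add ((norm_add_le _ _).trans ?_) ?_)
  · rw [norm_mul, norm_mul, Complex.norm_conj, mul_add]
    gcongr
    · exact norm_inner_le_norm _ _
    · exact norm_inner_le_norm _ _
  · rw [norm_mul, Complex.norm_real, Real.norm_eq_abs, abs_of_nonneg (by positivity)]
    gcongr
    exact norm_inner_le_norm _ _

theorem NN_dress {lam c0 η m : ℝ} {V ψ : T d L → ℝ} (h : Gd lam c0 η m V ψ) (i : Fin d) (c : ℂ)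
    (hc : c + conj c = -((‖c‖ ^ 2 : ℝ) : ℂ)) (a b : XT d L) :
    ‖NN i c (Mu ψ a) (Mu ψ b) - NN i c a b‖ ≤
      3 * η * (‖c‖ * (‖a‖ * ‖Sh i b - b‖ + ‖Sh i a - a‖ * ‖b‖) + ‖c‖ ^ 2 * (‖a‖ * ‖b‖)) := by
  have hη := h.h0
  have e : NN i c (Mu ψ a) (Mu ψ b) - NN i c a b =
      ∑ x, ((ψ x * ψ (x + Pi.single i 1) - 1 : ℝ) : ℂ) *
        (c * (conj (a x) * (Sh i b - b) x) + conj c * (conj ((Sh i a - a) x) * b x) -
          ((‖c‖ ^ 2 : ℝ) : ℂ) * (conj (a x) * b x)) := by
    unfold NN
    rw [inner_eq, inner_eq, inner_eq, inner_eq, Finset.mul_sum, Finset.mul_sum, Finset.mul_sum,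
      Finset.mul_sum, ← Finset.sum_add_distrib, ← Finset.sum_add_distrib, ← Finset.sum_sub_distrib]
    refine Finset.sum_congr rfl fun x _ => ?_
    simp only [Sh_apply, Mu_apply, PiLp.sub_apply, map_mul, map_sub, Complex.conj_ofReal,
      Complex.ofReal_sub, Complex.ofReal_mul, Complex.ofReal_one]
    linear_combination (((ψ x : ℂ) * (ψ (x + Pi.single i 1) : ℂ) - 1) * (conj (a x) * b x)) * hc
  rw [e]
  refine (norm_sum_le _ _).trans ?_
  have hcs : ∀ f g : XT d L, ∑ x, ‖f x‖ * ‖g x‖ ≤ ‖f‖ * ‖g‖ := by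
    intro f g
    have := cs_nsq (fun y => f y) (fun y => g y)
    rwa [← norm_eq_nsq, ← norm_eq_nsq] at this
  calc ∑ x, ‖((ψ x * ψ (x + Pi.single i 1) - 1 : ℝ) : ℂ) *
        (c * (conj (a x) * (Sh i b - b) x) + conj c * (conj ((Sh i a - a) x) * b x) -
          ((‖c‖ ^ 2 : ℝ) : ℂ) * (conj (a x) * b x))‖
      ≤ ∑ x, 3 * η * (‖c‖ * (‖a x‖ * ‖(Sh i b - b) x‖ + ‖(Sh i a - a) x‖ * ‖b x‖) +
          ‖c‖ ^ 2 * (‖a x‖ * ‖b x‖)) := by
        refine Finset.sum_le_sum fun x _ => ?_
        rw [norm_mul, Complex.norm_real, Real.norm_eq_abs]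
        refine mul_le_mul (psi_w h _ _) ?_ (norm_nonneg _) (by positivity)
        refine (norm_sub_le _ _).trans (add_le_add ((norm_add_le _ _).trans (le_of_eq ?_))
          (le_of_eq ?_))
        · simp only [norm_mul, Complex.norm_conj]
          ring
        · rw [norm_mul, norm_mul, Complex.norm_conj, Complex.norm_real, Real.norm_eq_abs,
            abs_of_nonneg (by positivity)]
    _ = 3 * η * (‖c‖ * (∑ x, ‖a x‖ * ‖(Sh i b - b) x‖ + ∑ x, ‖(Sh i a - a) x‖ * ‖b x‖) +
          ‖c‖ ^ 2 * ∑ x, ‖a x‖ * ‖b x‖) := by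
        rw [← Finset.sum_add_distrib, Finset.mul_sum, Finset.mul_sum, ← Finset.sum_add_distrib,
          Finset.mul_sum]
    _ ≤ _ := by
        gcongr
        · exact hcs _ _
        · exact hcs _ _
        · exact hcs _ _

theorem Qhat (k : T d L) (i : Fin d) (n : ZMod L) :
    ((kq (k + Pi.single i n) - kq k : ℝ) : ℂ) =
      -((ch (Pi.single i n : T d L) (Pi.single i 1) - 1) * ch k (Pi.single i 1) +
        conj ((ch (Pi.single i n : T d L) (Pi.single i 1) - 1) * ch k (Pi.single i 1))) := by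
  have h1 : kq (k + Pi.single i n) - kq k = k1q (k + Pi.single i n) i - k1q k i := by
    unfold kq
    rw [← Finset.sum_sub_distrib]
    refine Finset.sum_eq_single_of_mem i (Finset.mem_univ i) fun j _ hj => ?_
    unfold k1q
    rw [ch_addl, ch_ne i j hj n, mul_one, sub_self]
  rw [h1]
  unfold k1q
  rw [ch_addl, Complex.ofReal_sub, Complex.ofReal_pow, Complex.ofReal_pow, ← Complex.conj_mul',
    ← Complex.conj_mul']
  simp only [map_sub, map_mul, map_one]
  have e1 := ch_conj k (Pi.single i 1)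
  have e2 := ch_conj (Pi.single i n : T d L) (Pi.single i 1)
  linear_combination (conj (ch (Pi.single i n : T d L) (Pi.single i 1)) *
    ch (Pi.single i n : T d L) (Pi.single i 1) - 1) * e1 + e2

theorem NN_right (k : T d L) (i : Fin d) (n : ZMod L) (a : XT d L) :
    NN i (ch (Pi.single i n : T d L) (Pi.single i 1) - 1) a (pw k) =
      -((kq (k + Pi.single i n) - kq k : ℝ) : ℂ) * inner ℂ a (pw k) := by
  rw [Qhat]
  unfold NN
  have h1 : (inner ℂ a (Sh i (pw k)) : ℂ) = ch k (Pi.single i 1) * inner ℂ a (pw k) := by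
    rw [sh_pw, inner_smul_right]
  have h2 : (inner ℂ (Sh i a) (pw k) : ℂ) = conj (ch k (Pi.single i 1)) * inner ℂ a (pw k) := by
    rw [← inner_conj_symm, pw_sh, map_mul, inner_conj_symm]
  rw [h1, h2, map_mul]
  ring

theorem NN_left (k : T d L) (i : Fin d) (n : ZMod L) (b : XT d L) :
    NN i (ch (Pi.single i n : T d L) (Pi.single i 1) - 1) (pw k) b =
      -((kq (k + Pi.single i n) - kq k : ℝ) : ℂ) * inner ℂ (pw k) b := by
  rw [Qhat]
  unfold NN
  have h1 : (inner ℂ (Sh i (pw k)) b : ℂ) = conj (ch k (Pi.single i 1)) * inner ℂ (pw k) b := by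
    rw [sh_pw, inner_smul_left]
  rw [h1, pw_sh, map_mul]
  ring

theorem NN_add_left (i : Fin d) (c : ℂ) (a a' b : XT d L) :
    NN i c (a + a') b = NN i c a b + NN i c a' b := by
  unfold NN
  rw [map_add, inner_add_left, inner_add_left]
  ring

theorem NN_add_right (i : Fin d) (c : ℂ) (a b b' : XT d L) :
    NN i c a (b + b') = NN i c a b + NN i c a b' := by
  unfold NN
  rw [map_add, inner_add_right, inner_add_right]
  ring

theorem NN_smul_left (i : Fin d) (c s : ℂ) (a b : XT d L) :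
    NN i c (s • a) b = conj s * NN i c a b := by
  unfold NN
  rw [map_smul, inner_smul_left, inner_smul_left]
  ring

theorem NN_smul_right (i : Fin d) (c s : ℂ) (a b : XT d L) :
    NN i c a (s • b) = s * NN i c a b := by
  unfold NN
  rw [map_smul, inner_smul_right, inner_smul_right]
  ring

/-- expansion around multiples of plane waves -/
theorem NN_expand (k : T d L) (i : Fin d) (n : ZMod L) (α β : ℂ) (w1 w2 : XT d L) :
    NN i (ch (Pi.single i n : T d L) (Pi.single i 1) - 1) (α • pw k + w1) (β • pw k + w2) =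
      -((kq (k + Pi.single i n) - kq k : ℝ) : ℂ) * (conj α * β * (L : ℂ) ^ d +
        conj α * inner ℂ (pw k) w2 + β * inner ℂ w1 (pw k)) +
      NN i (ch (Pi.single i n : T d L) (Pi.single i 1) - 1) w1 w2 := by
  rw [NN_add_left, NN_add_right, NN_add_right, NN_smul_left, NN_smul_left, NN_smul_right,
    NN_smul_right, NN_right, NN_right, NN_left, pw_inner]
  ring

end Pool.Agent.V8H95.NM
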